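import Pool.Agent.Lib.MP_e426f4_ag.DG.Defs

/-!
# ArcEx: Dirichlet's theorem
-/

set_option autoImplicit false

namespace Pool.Agent.Lib.MP_e426f4_ag.DG

open Finset

private theorem exists_one (ξ : ℝ) (h0 : 0 ≤ ξ) (h1 : ξ < 1) (Q : ℕ) (hQ : 1 ≤ Q) :
    ∃ q c : ℕ, 1 ≤ q ∧ q ≤ Q ∧ c ≤ q ∧ Nat.Coprime c q ∧
      |ξ - (c : ℝ) / q| ≤ 1 / ((q : ℝ) * (Q + 1)) := by
  obtain ⟨r, hr, hden⟩ := Real.exists_rat_abs_sub_le_and_den_le ξ (n := Q) hQ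
  have hd : (0 : ℝ) < r.den := by exact_mod_cast r.pos
  have hQ' : (1 : ℝ) ≤ Q := by exact_mod_cast hQ
  have hrr : (r : ℝ) = (r.num : ℝ) / r.den := Rat.cast_def r
  have hlt : 1 / (((Q : ℝ) + 1) * r.den) < 1 / r.den := by
    apply one_div_lt_one_div_of_lt hd
    nlinarith
  rw [hrr] at hr
  have hr' := abs_le.mp hr
  have hnum0 : 0 ≤ r.num := by
    by_contra hneg
    have h2 : r.num ≤ -1 := by omega
    have h3 : (r.num : ℝ) ≤ -1 := by exact_mod_cast h2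
    have h4 : (r.num : ℝ) / r.den ≤ (-1) / r.den := by gcongr
    have h5 : (-1 : ℝ) / r.den = -(1 / r.den) := by ring
    linarith [hr'.2]
  have hnum1 : r.num ≤ r.den := by
    by_contra hneg
    have h2 : (r.den : ℤ) + 1 ≤ r.num := by omega
    have h3 : (r.den : ℝ) + 1 ≤ r.num := by exact_mod_cast h2
    have h4 : ((r.den : ℝ) + 1) / r.den ≤ (r.num : ℝ) / r.den := by gcongr
    have h5 : ((r.den : ℝ) + 1) / r.den = 1 + 1 / r.den := by field_simp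
    linarith [hr'.1]
  refine ⟨r.den, r.num.natAbs, r.pos, hden, by omega, r.reduced, ?_⟩
  have h6 : ((r.num.natAbs : ℕ) : ℝ) = (r.num : ℝ) := by
    rw [Nat.cast_natAbs, abs_of_nonneg hnum0]
  rw [h6, mul_comm (r.den : ℝ)]
  exact hr

theorem exists_arc (P Q : ℕ) (hP : 0 < P) (hQ : 1 ≤ Q) : Nonempty (Arc P Q) := by
  have : NeZero P := ⟨hP.ne'⟩
  have hP' : (0 : ℝ) < P := by exact_mod_cast hP
  have h : ∀ b : ZMod P, ∃ q c : ℕ, 1 ≤ q ∧ q ≤ Q ∧ c ≤ q ∧ Nat.Coprime c q ∧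
      |(b.val : ℝ) / P - (c : ℝ) / q| ≤ 1 / ((q : ℝ) * (Q + 1)) := by
    intro b
    apply exists_one _ _ _ Q hQ
    · positivity
    · rw [div_lt_one hP']
      exact_mod_cast ZMod.val_lt b
  choose q c h1 h2 h3 h4 h5 using h
  exact ⟨⟨q, c, h1, h2, h3, h4, h5⟩⟩

end Pool.Agent.Lib.MP_e426f4_ag.DG
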