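import Pool.Agent.Lib.MP_e426f4_ag.DG.Defs

/-!
# ArcSum: one arc
With `Y = P/A >= 1` and `y_b = b - c P/q` (real numbers with spacing 1) we have `A |b/P - c/q| = |y_b|/Y`.
`M = 1`: the number of b with `|y_b| <= Y` is at most `2Y + 1 <= 3Y`; the others contribute at most `2 sum_{j>=0} (Y/(Y+j))^d <=
2 sum_j (Y/(Y+j))^2 <= 2(1 + Y) <= 4Y`. For `M > 1` the condition is `|y_b| >= M Y`: at most `2 sum_{j>=0} (Y/(MY+j))^d
<= 2 M^{-d} sum_j (MY/(MY+j))^2.. <= 2 M^{-d}(1 + MY) <= 4 Y M^{1-d}`.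
(`sum_{j>=0} (Z/(Z+j))^2 <= 1 + Z` for Z > 0: compare with the integral or `1/(Z+j)^2 <= 1/(Z+j-1) - 1/(Z+j)`.)
-/

set_option autoImplicit false

namespace Pool.Agent.Lib.MP_e426f4_ag.DG

open Finset

private theorem as_step (y : ℝ) (hy : 1 ≤ y) : 1 / y ^ 2 + 2 / (y + 1) ≤ 2 / y := by
  have h1 : 0 < y := by linarith
  have h2 : 0 < y + 1 := by linarith
  rw [div_add_div _ _ (by positivity) (by positivity), div_le_div_iff₀ (by positivity) h1]
  nlinarith [mul_pos h1 h1, mul_pos (mul_pos h1 h1) h1]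

private theorem as_up (θ T : ℝ) (hT : 1 ≤ T) (P : ℕ) :
    (∑ b ∈ range P, if θ + T ≤ (b : ℝ) then 1 / ((b : ℝ) - θ) ^ 2 else 0) +
      (if θ + T ≤ (P : ℝ) then 2 / ((P : ℝ) - θ) else 0) ≤ 2 / T := by
  have hT0 : 0 < T := by linarith
  have hle : ∀ y : ℝ, T ≤ y → 2 / y ≤ 2 / T := fun y hy =>
    div_le_div_of_nonneg_left (by norm_num) hT0 hy
  induction P with
  | zero =>
    simp only [range_zero, sum_empty, zero_add]
    split_ifs with h
    · exact hle _ (by linarith)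
    · positivity
  | succ P ih =>
    by_cases h : θ + T ≤ (P : ℝ)
    · have h' : θ + T ≤ ((P + 1 : ℕ) : ℝ) := by push_cast; linarith
      rw [sum_range_succ, if_pos h, if_pos h']
      rw [if_pos h] at ih
      have h1 := as_step ((P : ℝ) - θ) (by linarith)
      have h2 : ((P + 1 : ℕ) : ℝ) - θ = (P : ℝ) - θ + 1 := by push_cast; ring
      rw [h2]
      linarith
    · have h0 : ∀ b ∈ range (P + 1),
          (if θ + T ≤ (b : ℝ) then 1 / ((b : ℝ) - θ) ^ 2 else 0) = 0 := by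
        intro b hb
        rw [if_neg]
        intro hb'
        apply h
        have : (b : ℝ) ≤ P := by exact_mod_cast Nat.lt_succ_iff.1 (mem_range.1 hb)
        linarith
      rw [sum_congr rfl h0, sum_const_zero, zero_add]
      split_ifs with h1
      · exact hle _ (by linarith)
      · positivity

private theorem as_down (θ T : ℝ) (hT : 1 ≤ T) (P : ℕ) :
    (∑ b ∈ range P, if (b : ℝ) ≤ θ - T then 1 / ((b : ℝ) - θ) ^ 2 else 0) ≤
      if (P : ℝ) ≤ θ - T + 1 then 2 / (θ - P + 1) else 2 / T := by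
  have hT0 : 0 < T := by linarith
  have hle : ∀ y : ℝ, T ≤ y → 2 / y ≤ 2 / T := fun y hy =>
    div_le_div_of_nonneg_left (by norm_num) hT0 hy
  induction P with
  | zero =>
    simp only [range_zero, sum_empty]
    split_ifs with h
    · have : 0 < θ - ((0 : ℕ) : ℝ) + 1 := by
        push_cast at h ⊢
        linarith
      positivity
    · positivity
  | succ P ih =>
    rw [sum_range_succ]
    by_cases h : (P : ℝ) ≤ θ - T
    · have h' : ((P + 1 : ℕ) : ℝ) ≤ θ - T + 1 := by push_cast; linarith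
      have h'' : (P : ℝ) ≤ θ - T + 1 := by linarith
      rw [if_pos h, if_pos h']
      rw [if_pos h''] at ih
      have h1 := as_step (θ - (P : ℝ)) (by linarith)
      have h2 : θ - ((P + 1 : ℕ) : ℝ) + 1 = θ - (P : ℝ) := by push_cast; ring
      have h3 : ((P : ℝ) - θ) ^ 2 = (θ - (P : ℝ)) ^ 2 := by ring
      rw [h2, h3]
      linarith
    · have h' : ¬ ((P + 1 : ℕ) : ℝ) ≤ θ - T + 1 := by
        intro h1
        apply h
        push_cast at h1
        linarith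
      rw [if_neg h, if_neg h', add_zero]
      refine ih.trans ?_
      split_ifs with h1
      · exact hle _ (by linarith)
      · exact le_rfl

private theorem as_tail (θ T : ℝ) (hT : 1 ≤ T) (P : ℕ) :
    (∑ b ∈ range P, if T ≤ |(b : ℝ) - θ| then 1 / ((b : ℝ) - θ) ^ 2 else 0) ≤ 4 / T := by
  have hT0 : 0 < T := by linarith
  have h1 : (∑ b ∈ range P, if T ≤ |(b : ℝ) - θ| then 1 / ((b : ℝ) - θ) ^ 2 else 0) ≤
      (∑ b ∈ range P, if θ + T ≤ (b : ℝ) then 1 / ((b : ℝ) - θ) ^ 2 else 0) +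
      (∑ b ∈ range P, if (b : ℝ) ≤ θ - T then 1 / ((b : ℝ) - θ) ^ 2 else 0) := by
    rw [← sum_add_distrib]
    refine sum_le_sum fun b _ => ?_
    have h2 : 0 ≤ 1 / ((b : ℝ) - θ) ^ 2 := by positivity
    by_cases h : T ≤ |(b : ℝ) - θ|
    · rw [if_pos h]
      rcases le_abs.1 h with h3 | h3
      · rw [if_pos (by linarith : θ + T ≤ (b : ℝ))]
        split_ifs
        · linarith
        · linarith
      · rw [if_pos (by linarith : (b : ℝ) ≤ θ - T)]
        split_ifs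
        · linarith
        · linarith
    · rw [if_neg h]
      split_ifs
      · linarith
      · linarith
      · linarith
      · linarith
  have h2 := as_up θ T hT P
  have h3 := as_down θ T hT P
  have h4 : 0 ≤ if θ + T ≤ (P : ℝ) then 2 / ((P : ℝ) - θ) else 0 := by
    split_ifs with h
    · have : 0 < (P : ℝ) - θ := by linarith
      positivity
    · exact le_rfl
  have h5 : (if (P : ℝ) ≤ θ - T + 1 then 2 / (θ - P + 1) else 2 / T) ≤ 2 / T := by
    split_ifs with h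
    · exact div_le_div_of_nonneg_left (by norm_num) hT0 (by linarith)
    · exact le_rfl
  have h6 : 4 / T = 2 / T + 2 / T := by ring
  rw [h6]
  linarith

private theorem as_count (θ Y : ℝ) (hY : 0 ≤ Y) (P : ℕ) :
    (∑ b ∈ range P, if |(b : ℝ) - θ| ≤ Y then (1 : ℝ) else 0) ≤ 2 * Y + 1 := by
  classical
  rw [← sum_filter, sum_const, nsmul_eq_mul, mul_one]
  have h1 : ((range P).filter (fun b : ℕ => |(b : ℝ) - θ| ≤ Y)).card ≤
      (Finset.Icc ⌈θ - Y⌉ ⌊θ + Y⌋).card := by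
    rw [← card_image_of_injective _ Nat.cast_injective (f := fun b : ℕ => (b : ℤ))]
    refine card_le_card ?_
    intro x hx
    rw [mem_image] at hx
    obtain ⟨b, hb, rfl⟩ := hx
    have h2 := abs_le.1 (mem_filter.1 hb).2
    rw [Finset.mem_Icc]
    refine ⟨?_, ?_⟩
    · rw [Int.ceil_le]; push_cast; linarith
    · rw [Int.le_floor]; push_cast; linarith
  rw [Int.card_Icc] at h1
  have h2 : (((⌊θ + Y⌋ + 1 - ⌈θ - Y⌉).toNat : ℕ) : ℝ) ≤ 2 * Y + 1 := by
    rcases le_total 0 (⌊θ + Y⌋ + 1 - ⌈θ - Y⌉) with h | h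
    · have h3 : (((⌊θ + Y⌋ + 1 - ⌈θ - Y⌉).toNat : ℕ) : ℤ) = ⌊θ + Y⌋ + 1 - ⌈θ - Y⌉ :=
        Int.toNat_of_nonneg h
      have h4 : (((⌊θ + Y⌋ + 1 - ⌈θ - Y⌉).toNat : ℕ) : ℝ) =
          ((⌊θ + Y⌋ + 1 - ⌈θ - Y⌉ : ℤ) : ℝ) := by exact_mod_cast h3
      rw [h4]
      push_cast
      have h5 := Int.floor_le (θ + Y)
      have h6 := Int.le_ceil (θ - Y)
      linarith
    · rw [Int.toNat_of_nonpos h]
      push_cast
      linarith
  calc (((range P).filter (fun b : ℕ => |(b : ℝ) - θ| ≤ Y)).card : ℝ)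
      ≤ (((⌊θ + Y⌋ + 1 - ⌈θ - Y⌉).toNat : ℕ) : ℝ) := by exact_mod_cast h1
    _ ≤ _ := h2

theorem arc_sum (d : ℕ) (hd : 2 ≤ d) : ∃ C : ℝ, 0 < C ∧ ∀ (P q c : ℕ) (A M : ℝ), 0 < P → 1 ≤ q →
    1 ≤ A → A ≤ P → 1 ≤ M →
    ∑ b ∈ (range P).filter (fun b : ℕ => M ≤ max 1 (A * |(b : ℝ) / P - (c : ℝ) / q|)),
      (1 / max 1 (A * |(b : ℝ) / P - (c : ℝ) / q|)) ^ d ≤ C * (P / A) * (1 / M) ^ (d - 1) := by
  refine ⟨7, by norm_num, ?_⟩
  intro P q c A M hP hq hA hAP hM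
  have hP0 : (0 : ℝ) < P := by exact_mod_cast hP
  have hq0 : (0 : ℝ) < q := by exact_mod_cast hq
  have hA0 : 0 < A := by linarith
  have hM0 : 0 < M := by linarith
  set Y : ℝ := P / A with hYdef
  have hY1 : 1 ≤ Y := by rw [hYdef, le_div_iff₀ hA0]; linarith
  have hY0 : 0 < Y := by linarith
  set θ : ℝ := (c : ℝ) * P / q with hθ
  have hu : ∀ b : ℕ, A * |(b : ℝ) / P - (c : ℝ) / q| = |(b : ℝ) - θ| / Y := by
    intro b
    have h1 : (b : ℝ) / P - (c : ℝ) / q = ((b : ℝ) - θ) / P := by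
      rw [hθ]; field_simp
    rw [h1, abs_div, abs_of_pos hP0, hYdef]
    field_simp
  have hMY : 1 ≤ M * Y := by nlinarith
  have hMd : 0 ≤ (1 / M) ^ (d - 1) := by positivity
  have hterm : ∀ b ∈ (range P).filter (fun b : ℕ => M ≤ max 1 (A * |(b : ℝ) / P - (c : ℝ) / q|)),
      (1 / max 1 (A * |(b : ℝ) / P - (c : ℝ) / q|)) ^ d ≤
        (1 / M) ^ (d - 1) * ((if |(b : ℝ) - θ| ≤ Y then (1 : ℝ) else 0) + M * Y ^ 2 *
          (if M * Y ≤ |(b : ℝ) - θ| then 1 / ((b : ℝ) - θ) ^ 2 else 0)) := by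
    intro b hb
    have hMb := (mem_filter.1 hb).2
    rw [hu b] at hMb ⊢
    have hn2 : 0 ≤ M * Y ^ 2 *
          (if M * Y ≤ |(b : ℝ) - θ| then 1 / ((b : ℝ) - θ) ^ 2 else 0) := by
      split_ifs
      · positivity
      · rw [mul_zero]
    by_cases hle : |(b : ℝ) - θ| ≤ Y
    · have h1 : |(b : ℝ) - θ| / Y ≤ 1 := by rw [div_le_one hY0]; exact hle
      rw [max_eq_left h1] at hMb ⊢
      have hM1 : M = 1 := le_antisymm hMb hM
      rw [if_pos hle]
      rw [hM1] at hn2 ⊢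
      simp only [div_one, one_pow, one_mul] at hn2 ⊢
      linarith
    · push Not at hle
      have h1 : 1 ≤ |(b : ℝ) - θ| / Y := by rw [one_le_div hY0]; exact hle.le
      rw [max_eq_right h1] at hMb ⊢
      have h2 : M * Y ≤ |(b : ℝ) - θ| := by rwa [le_div_iff₀ hY0] at hMb
      rw [if_neg (not_le.2 hle), if_pos h2, zero_add]
      have hy0 : 0 < |(b : ℝ) - θ| := lt_of_lt_of_le (by linarith) h2
      have h3 : (1 / (|(b : ℝ) - θ| / Y)) ≤ 1 / M :=
        one_div_le_one_div_of_le hM0 hMb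
      have h4 : (1 / (|(b : ℝ) - θ| / Y)) ^ d =
          (1 / (|(b : ℝ) - θ| / Y)) ^ (d - 2) * (1 / (|(b : ℝ) - θ| / Y)) ^ 2 := by
        rw [← pow_add]; congr 1; omega
      have h5 : (1 / (|(b : ℝ) - θ| / Y)) ^ 2 = Y ^ 2 * (1 / ((b : ℝ) - θ) ^ 2) := by
        rw [one_div_div, div_pow, sq_abs]
        ring
      have h6 : (1 / M) ^ (d - 1) * (M * Y ^ 2 * (1 / ((b : ℝ) - θ) ^ 2)) =
          (1 / M) ^ (d - 2) * (Y ^ 2 * (1 / ((b : ℝ) - θ) ^ 2)) := by
        have h7 : d - 1 = (d - 2) + 1 := by omega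
        rw [h7, pow_succ]
        field_simp
      rw [h4, h5, h6]
      refine mul_le_mul_of_nonneg_right ?_ (by positivity)
      exact pow_le_pow_left₀ (by positivity) h3 _
  have hnn : ∀ b ∈ range P, b ∉ (range P).filter
      (fun b : ℕ => M ≤ max 1 (A * |(b : ℝ) / P - (c : ℝ) / q|)) →
      0 ≤ (1 / M) ^ (d - 1) * ((if |(b : ℝ) - θ| ≤ Y then (1 : ℝ) else 0) + M * Y ^ 2 *
          (if M * Y ≤ |(b : ℝ) - θ| then 1 / ((b : ℝ) - θ) ^ 2 else 0)) := by
    intro b _ _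
    refine mul_nonneg hMd (add_nonneg ?_ (mul_nonneg (by positivity) ?_))
    · split_ifs
      · exact zero_le_one
      · exact le_rfl
    · split_ifs
      · positivity
      · exact le_rfl
  calc ∑ b ∈ (range P).filter (fun b : ℕ => M ≤ max 1 (A * |(b : ℝ) / P - (c : ℝ) / q|)),
      (1 / max 1 (A * |(b : ℝ) / P - (c : ℝ) / q|)) ^ d
      ≤ ∑ b ∈ (range P).filter (fun b : ℕ => M ≤ max 1 (A * |(b : ℝ) / P - (c : ℝ) / q|)),
        (1 / M) ^ (d - 1) * ((if |(b : ℝ) - θ| ≤ Y then (1 : ℝ) else 0) + M * Y ^ 2 *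
          (if M * Y ≤ |(b : ℝ) - θ| then 1 / ((b : ℝ) - θ) ^ 2 else 0)) := sum_le_sum hterm
    _ ≤ ∑ b ∈ range P,
        (1 / M) ^ (d - 1) * ((if |(b : ℝ) - θ| ≤ Y then (1 : ℝ) else 0) + M * Y ^ 2 *
          (if M * Y ≤ |(b : ℝ) - θ| then 1 / ((b : ℝ) - θ) ^ 2 else 0)) :=
        sum_le_sum_of_subset_of_nonneg (filter_subset _ _) hnn
    _ = (1 / M) ^ (d - 1) * ((∑ b ∈ range P, if |(b : ℝ) - θ| ≤ Y then (1 : ℝ) else 0) +
          M * Y ^ 2 * ∑ b ∈ range P,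
            if M * Y ≤ |(b : ℝ) - θ| then 1 / ((b : ℝ) - θ) ^ 2 else 0) := by
        rw [← mul_sum, sum_add_distrib, ← mul_sum]
    _ ≤ (1 / M) ^ (d - 1) * ((2 * Y + 1) + M * Y ^ 2 * (4 / (M * Y))) := by
        refine mul_le_mul_of_nonneg_left (add_le_add (as_count θ Y hY0.le P) ?_) hMd
        exact mul_le_mul_of_nonneg_left (as_tail θ (M * Y) hMY P) (by positivity)
    _ ≤ 7 * Y * (1 / M) ^ (d - 1) := by
        have h1 : M * Y ^ 2 * (4 / (M * Y)) = 4 * Y := by field_simp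
        rw [h1]
        have h2 : (2 * Y + 1) + 4 * Y ≤ 7 * Y := by linarith
        calc (1 / M) ^ (d - 1) * ((2 * Y + 1) + 4 * Y) ≤ (1 / M) ^ (d - 1) * (7 * Y) :=
              mul_le_mul_of_nonneg_left h2 hMd
          _ = _ := by ring

end Pool.Agent.Lib.MP_e426f4_ag.DG
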