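import Pool.Agent.Lib.MP_e426f4_ag.DG.Defs
import Pool.Agent.Lib.MP_e426f4_ag.DG.ArcSum

/-!
# ArcTot: all arcs
Each `b` belongs to the arc of `(q b, c b)` with `1 <= q b <= Q`, `0 <= c b <= q b`. So the left side is at most
`sum_{q in D, 1<=q<=Q} sum_{c=0}^q g(q) * (arc_sum for (q,c))`, there are `q + 1 <= 2q` values of c. (b <-> b.val in range P.)
-/

set_option autoImplicit false

namespace Pool.Agent.Lib.MP_e426f4_ag.DG

open Finset

theorem arc_total (d : ℕ) (hd : 2 ≤ d) : ∃ C : ℝ, 0 < C ∧ ∀ (P : ℕ) [NeZero P] (Q : ℕ) (A : Arc P Q)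
    (Am M : ℝ), 1 ≤ Am → Am ≤ P → 1 ≤ M → ∀ (g : ℕ → ℝ), (∀ q, 0 ≤ g q) → ∀ (D : Finset ℕ),
    ∑ b ∈ (univ : Finset (ZMod P)).filter (fun b => A.q b ∈ D ∧ M ≤ max 1 (Am * |A.dl b|)),
      g (A.q b) * (1 / max 1 (Am * |A.dl b|)) ^ d ≤
      C * (P / Am) * (1 / M) ^ (d - 1) * ∑ q ∈ D.filter (fun q => 1 ≤ q ∧ q ≤ Q), (q : ℝ) * g q := by
  obtain ⟨C, hC, h⟩ := arc_sum d hd
  refine ⟨2 * C, by positivity, ?_⟩
  intro P _ Q A Am M hAm hAmP hM g hg D
  have hP : 0 < P := Nat.pos_of_ne_zero (NeZero.ne P)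
  set S := (univ : Finset (ZMod P)).filter
    (fun b => A.q b ∈ D ∧ M ≤ max 1 (Am * |A.dl b|)) with hS
  set D' := D.filter (fun q => 1 ≤ q ∧ q ≤ Q) with hD'
  set K : ℝ := C * (P / Am) * (1 / M) ^ (d - 1) with hK
  have hK0 : 0 ≤ K := by positivity
  have hmap : ∀ b ∈ S, A.q b ∈ D' := by
    intro b hb
    rw [hS, mem_filter] at hb
    rw [hD', mem_filter]
    exact ⟨hb.2.1, A.qpos b, A.qle b⟩
  rw [← sum_fiberwise_of_maps_to hmap]
  have hfib : ∀ q ∈ D', ∑ b ∈ S.filter (fun b => A.q b = q),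
      g (A.q b) * (1 / max 1 (Am * |A.dl b|)) ^ d ≤ 2 * K * ((q : ℝ) * g q) := by
    intro q hq
    rw [hD', mem_filter] at hq
    have hmap2 : ∀ b ∈ S.filter (fun b => A.q b = q), A.c b ∈ range (q + 1) := by
      intro b hb
      rw [mem_filter] at hb
      rw [mem_range]
      have := A.cle b
      rw [hb.2] at this
      omega
    rw [← sum_fiberwise_of_maps_to hmap2]
    have hfib2 : ∀ c ∈ range (q + 1),
        ∑ b ∈ (S.filter (fun b => A.q b = q)).filter (fun b => A.c b = c),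
          g (A.q b) * (1 / max 1 (Am * |A.dl b|)) ^ d ≤ g q * K := by
      intro c _
      have hrew : ∑ b ∈ (S.filter (fun b => A.q b = q)).filter (fun b => A.c b = c),
          g (A.q b) * (1 / max 1 (Am * |A.dl b|)) ^ d =
          ∑ b ∈ (S.filter (fun b => A.q b = q)).filter (fun b => A.c b = c),
            (fun x : ℕ => g q * (1 / max 1 (Am * |(x : ℝ) / P - (c : ℝ) / q|)) ^ d) b.val := by
        apply sum_congr rfl
        intro b hb
        rw [mem_filter, mem_filter] at hb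
        obtain ⟨⟨_, h1⟩, h2⟩ := hb
        simp only [Arc.dl, h1, h2]
      rw [hrew]
      have himg : ∑ b ∈ (S.filter (fun b => A.q b = q)).filter (fun b => A.c b = c),
            (fun x : ℕ => g q * (1 / max 1 (Am * |(x : ℝ) / P - (c : ℝ) / q|)) ^ d) b.val =
          ∑ x ∈ ((S.filter (fun b => A.q b = q)).filter (fun b => A.c b = c)).image ZMod.val,
            (fun x : ℕ => g q * (1 / max 1 (Am * |(x : ℝ) / P - (c : ℝ) / q|)) ^ d) x := by
        rw [sum_image]
        intro x _ y _ hxy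
        exact ZMod.val_injective P hxy
      rw [himg]
      calc ∑ x ∈ ((S.filter (fun b => A.q b = q)).filter (fun b => A.c b = c)).image ZMod.val,
            (fun x : ℕ => g q * (1 / max 1 (Am * |(x : ℝ) / P - (c : ℝ) / q|)) ^ d) x
          ≤ ∑ x ∈ (range P).filter
              (fun b : ℕ => M ≤ max 1 (Am * |(b : ℝ) / P - (c : ℝ) / q|)),
            (fun x : ℕ => g q * (1 / max 1 (Am * |(x : ℝ) / P - (c : ℝ) / q|)) ^ d) x := by
            apply sum_le_sum_of_subset_of_nonneg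
            · intro x hx
              rw [mem_image] at hx
              obtain ⟨b, hb, rfl⟩ := hx
              rw [mem_filter, mem_filter, hS, mem_filter] at hb
              obtain ⟨⟨⟨_, _, h3⟩, h1⟩, h2⟩ := hb
              rw [mem_filter, mem_range]
              refine ⟨ZMod.val_lt b, ?_⟩
              simp only [Arc.dl, h1, h2] at h3
              exact h3
            · intro x _ _
              have := hg q
              have h0 : (0 : ℝ) ≤ 1 / max 1 (Am * |(x : ℝ) / P - (c : ℝ) / q|) := by positivity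
              exact mul_nonneg this (pow_nonneg h0 _)
        _ = g q * ∑ x ∈ (range P).filter
              (fun b : ℕ => M ≤ max 1 (Am * |(b : ℝ) / P - (c : ℝ) / q|)),
            (1 / max 1 (Am * |(x : ℝ) / P - (c : ℝ) / q|)) ^ d := by
            rw [mul_sum]
        _ ≤ g q * K := by
            apply mul_le_mul_of_nonneg_left _ (hg q)
            exact h P q c Am M hP hq.2.1 hAm hAmP hM
    calc ∑ c ∈ range (q + 1),
        ∑ b ∈ (S.filter (fun b => A.q b = q)).filter (fun b => A.c b = c),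
          g (A.q b) * (1 / max 1 (Am * |A.dl b|)) ^ d
        ≤ ∑ _c ∈ range (q + 1), g q * K := sum_le_sum hfib2
      _ = ((q : ℝ) + 1) * (g q * K) := by
          rw [sum_const, card_range, nsmul_eq_mul]; push_cast; ring
      _ ≤ (2 * (q : ℝ)) * (g q * K) := by
          apply mul_le_mul_of_nonneg_right _ (mul_nonneg (hg q) hK0)
          have : (1 : ℝ) ≤ q := by exact_mod_cast hq.2.1
          linarith
      _ = 2 * K * ((q : ℝ) * g q) := by ring
  calc ∑ q ∈ D', ∑ b ∈ S.filter (fun b => A.q b = q),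
      g (A.q b) * (1 / max 1 (Am * |A.dl b|)) ^ d
      ≤ ∑ q ∈ D', 2 * K * ((q : ℝ) * g q) := sum_le_sum hfib
    _ = 2 * K * ∑ q ∈ D', (q : ℝ) * g q := by rw [mul_sum]
    _ = _ := by rw [hK]; ring

end Pool.Agent.Lib.MP_e426f4_ag.DG
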