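import Pool.Agent.Lib.MP_e426f4_ag.DG.Defs

/-!
# Ker1: the dual kernel
-/

set_option autoImplicit false

namespace Pool.Agent.Lib.MP_e426f4_ag.DG

open Finset

variable {P : ℕ} [NeZero P]

theorem sum_ee (c : ZMod P) : ∑ a : ZMod P, ee P (a * c) = if c = 0 then (P : ℂ) else 0 := by
  have h := AddChar.sum_mulShift (R := ZMod P) (R' := ℂ) (ψ := ZMod.stdAddChar) c
    (ZMod.isPrimitive_stdAddChar P)
  rw [ZMod.card] at h
  exact_mod_cast h

theorem wh_nonneg (n : ℕ) (c : ZMod P) : 0 ≤ wh P n c := by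
  unfold wh
  positivity

theorem wh_le (n : ℕ) (hn : 0 < n) (hnP : n ≤ P) (c : ZMod P) : wh P n c ≤ (P : ℝ) / n := by
  have hcard : ((range n ×ˢ range n).filter fun j : ℕ × ℕ =>
      (j.1 : ZMod P) - (j.2 : ZMod P) + c = 0).card ≤ n := by
    have h1 : ((range n ×ˢ range n).filter fun j : ℕ × ℕ =>
        (j.1 : ZMod P) - (j.2 : ZMod P) + c = 0).card ≤ (range n).card := by
      apply Finset.card_le_card_of_injOn (fun j => j.2)
      · intro j hj
        have := (Finset.mem_product.mp (Finset.mem_filter.mp hj).1).2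
        exact this
      · intro j hj l hl hjl
        have hj' := Finset.mem_filter.mp hj
        have hl' := Finset.mem_filter.mp hl
        have hj1 := Finset.mem_range.mp (Finset.mem_product.mp hj'.1).1
        have hl1 := Finset.mem_range.mp (Finset.mem_product.mp hl'.1).1
        have hjl' : j.2 = l.2 := hjl
        have e : (j.1 : ZMod P) = (l.1 : ZMod P) := by
          have e1 := hj'.2
          have e2 := hl'.2
          rw [hjl'] at e1
          have e3 : (j.1 : ZMod P) - (l.2 : ZMod P) + c = (l.1 : ZMod P) - (l.2 : ZMod P) + c := by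
            rw [e1, e2]
          exact sub_left_injective (add_right_cancel e3)
        rw [ZMod.natCast_eq_natCast_iff'] at e
        rw [Nat.mod_eq_of_lt (lt_of_lt_of_le hj1 hnP), Nat.mod_eq_of_lt (lt_of_lt_of_le hl1 hnP)] at e
        exact Prod.ext e hjl'
    rwa [Finset.card_range] at h1
  unfold wh
  have hn' : (0 : ℝ) < n := by exact_mod_cast hn
  have hc : ((((range n ×ˢ range n).filter fun j : ℕ × ℕ =>
      (j.1 : ZMod P) - (j.2 : ZMod P) + c = 0).card : ℕ) : ℝ) ≤ n := by exact_mod_cast hcard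
  calc (P : ℝ) / (n : ℝ) ^ 2 * _ ≤ (P : ℝ) / (n : ℝ) ^ 2 * n :=
        mul_le_mul_of_nonneg_left hc (by positivity)
    _ = (P : ℝ) / n := by field_simp

theorem wh_supp (n : ℕ) (c : ZMod P) (h : wh P n c ≠ 0) :
    ∃ k : ℤ, |k| < n ∧ (k : ZMod P) = c := by
  have h1 : (((range n ×ˢ range n).filter fun j : ℕ × ℕ =>
      (j.1 : ZMod P) - (j.2 : ZMod P) + c = 0).card : ℝ) ≠ 0 := by
    intro h2
    apply h
    unfold wh
    rw [h2, mul_zero]
  have h2 : ((range n ×ˢ range n).filter fun j : ℕ × ℕ =>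
      (j.1 : ZMod P) - (j.2 : ZMod P) + c = 0).card ≠ 0 := by exact_mod_cast h1
  obtain ⟨j, hj⟩ := Finset.card_ne_zero.mp h2
  have hj' := Finset.mem_filter.mp hj
  have hj1 := Finset.mem_range.mp (Finset.mem_product.mp hj'.1).1
  have hj2 := Finset.mem_range.mp (Finset.mem_product.mp hj'.1).2
  refine ⟨(j.2 : ℤ) - j.1, ?_, ?_⟩
  · rw [abs_lt]
    constructor <;> omega
  · push_cast
    have e := hj'.2
    linear_combination -e

theorem wh_neg (n : ℕ) (c : ZMod P) : wh P n (-c) = wh P n c := by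
  unfold wh
  congr 2
  apply Finset.card_bij (fun j _ => (j.2, j.1))
  · intro j hj
    rw [Finset.mem_filter, Finset.mem_product] at hj ⊢
    refine ⟨⟨hj.1.2, hj.1.1⟩, ?_⟩
    have e := hj.2
    show (j.2 : ZMod P) - (j.1 : ZMod P) + c = 0
    linear_combination -e
  · intro j _ l _ h
    have h1 := congrArg Prod.fst h
    have h2 := congrArg Prod.snd h
    exact Prod.ext h2 h1
  · intro j hj
    rw [Finset.mem_filter, Finset.mem_product] at hj
    refine ⟨(j.2, j.1), ?_, rfl⟩
    rw [Finset.mem_filter, Finset.mem_product]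
    refine ⟨⟨hj.1.2, hj.1.1⟩, ?_⟩
    have e := hj.2
    show (j.2 : ZMod P) - (j.1 : ZMod P) + -c = 0
    linear_combination -e

theorem wt_nonneg (n : ℕ) (a : ZMod P) : 0 ≤ wt P n a := by
  unfold wt
  positivity

private theorem conj_ee (c : ZMod P) : (starRingEnd ℂ) (ee P c) = ee P (-c) := by
  unfold ee
  exact (AddChar.map_neg_eq_conj _ _).symm

private theorem ee_add (a b : ZMod P) : ee P (a + b) = ee P a * ee P b := by
  unfold ee
  exact AddChar.map_add_eq_mul _ _ _

theorem sum_wt_ee (n : ℕ) (hn : 0 < n) (c : ZMod P) :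
    ∑ a : ZMod P, (wt P n a : ℂ) * ee P (a * c) = (wh P n c : ℂ) := by
  have hn' : (n : ℂ) ≠ 0 := by exact_mod_cast hn.ne'
  have h1 : ∀ a : ZMod P, (wt P n a : ℂ) * ee P (a * c) =
      1 / (n : ℂ) ^ 2 * ∑ j ∈ range n ×ˢ range n,
        ee P (a * ((j.1 : ZMod P) - (j.2 : ZMod P) + c)) := by
    intro a
    have h2 : ((‖Dn P n a‖ ^ 2 : ℝ) : ℂ) = Dn P n a * (starRingEnd ℂ) (Dn P n a) := by
      rw [Complex.mul_conj, Complex.normSq_eq_norm_sq]
    have h3 : (starRingEnd ℂ) (Dn P n a) = ∑ j ∈ range n, ee P (-((j : ZMod P) * a)) := by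
      unfold Dn
      rw [map_sum]
      exact Finset.sum_congr rfl fun j _ => conj_ee _
    unfold wt
    rw [Complex.ofReal_div, h2, h3]
    unfold Dn
    rw [Finset.sum_mul_sum, ← Finset.sum_product']
    push_cast
    rw [div_mul_eq_mul_div, Finset.sum_mul, one_div, inv_mul_eq_div]
    congr 1
    apply Finset.sum_congr rfl
    intro j _
    rw [← ee_add, ← ee_add]
    congr 1
    ring
  simp_rw [h1]
  rw [← Finset.mul_sum, Finset.sum_comm]
  simp_rw [sum_ee]
  rw [← Finset.sum_filter, Finset.sum_const]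
  unfold wh
  push_cast
  rw [nsmul_eq_mul]
  ring

end Pool.Agent.Lib.MP_e426f4_ag.DG
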