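import Pool.Agent.Lib.MP_e426f4_ag.DG.Defs
import Pool.Agent.Lib.MP_e426f4_ag.DG.Ker1

/-!
# FFb: basic facts on F
* `FZ_le_card`: every term is at most `P/n` (`wh_le`). `FZ_mono`: terms are nonnegative.
* `FF_symm`: swap x and y, `wh_neg`.
* `FF_eq`: expand `SS (a b) * conj (SS (a b')) = sum_{x,y} ee(a (b x^d - b' y^d))`, exchange the sums, `sum_wt_ee`.
* `FF_diag`: `FF_eq` with `b' = b`.
* `FF_cs`: Cauchy-Schwarz for the weights `wt a >= 0`: `|sum w S conj S'|^2 <= (sum w |S|^2)(sum w |S'|^2)`.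
-/

set_option autoImplicit false

namespace Pool.Agent.Lib.MP_e426f4_ag.DG

open Finset

variable {P : ℕ} [NeZero P]

theorem FZ_nonneg (n d : ℕ) (Z : Finset (ℕ × ℕ)) (b b' : ZMod P) : 0 ≤ FZ P n d Z b b' :=
  Finset.sum_nonneg fun _ _ => wh_nonneg n _

theorem FZ_le_card (n d : ℕ) (hn : 0 < n) (hnP : n ≤ P) (Z : Finset (ℕ × ℕ)) (b b' : ZMod P) :
    FZ P n d Z b b' ≤ (P : ℝ) / n * Z.card := by
  unfold FZ
  calc _ ≤ ∑ _z ∈ Z, (P : ℝ) / n := Finset.sum_le_sum fun z _ => wh_le n hn hnP _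
    _ = _ := by rw [Finset.sum_const, nsmul_eq_mul, mul_comm]

theorem FZ_mono (n d : ℕ) (Z Z' : Finset (ℕ × ℕ)) (h : Z ⊆ Z') (b b' : ZMod P) :
    FZ P n d Z b b' ≤ FZ P n d Z' b b' :=
  Finset.sum_le_sum_of_subset_of_nonneg h fun _ _ _ => wh_nonneg n _

theorem FF_symm (n d : ℕ) (X : Finset ℕ) (b b' : ZMod P) :
    FF P n d X b b' = FF P n d X b' b := by
  unfold FF FZ
  refine Finset.sum_nbij' Prod.swap Prod.swap ?_ ?_ ?_ ?_ ?_
  · intro z hz
    rw [Finset.mem_product] at hz ⊢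
    exact ⟨hz.2, hz.1⟩
  · intro z hz
    rw [Finset.mem_product] at hz ⊢
    exact ⟨hz.2, hz.1⟩
  · intro z _; exact Prod.swap_swap z
  · intro z _; exact Prod.swap_swap z
  · intro z _
    rw [← wh_neg, neg_sub]
    rfl

theorem FF_eq (n d : ℕ) (hn : 0 < n) (X : Finset ℕ) (b b' : ZMod P) :
    (FF P n d X b b' : ℂ) =
      ∑ a : ZMod P, (wt P n a : ℂ) * SS P d X (a * b) * (starRingEnd ℂ) (SS P d X (a * b')) := by
  have h1 : (FF P n d X b b' : ℂ) = ∑ z ∈ X ×ˢ X, ∑ a : ZMod P, (wt P n a : ℂ) *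
      ee P (a * (b * (z.1 : ZMod P) ^ d - b' * (z.2 : ZMod P) ^ d)) := by
    unfold FF FZ
    rw [Complex.ofReal_sum]
    exact Finset.sum_congr rfl fun z _ => (sum_wt_ee n hn _).symm
  rw [h1, Finset.sum_comm]
  refine Finset.sum_congr rfl fun a _ => ?_
  rw [← Finset.mul_sum, mul_assoc]
  congr 1
  unfold SS
  rw [map_sum, Finset.sum_mul_sum, Finset.sum_product]
  refine Finset.sum_congr rfl fun x _ => Finset.sum_congr rfl fun y _ => ?_
  unfold ee
  rw [← AddChar.map_neg_eq_conj, ← AddChar.map_add_eq_mul]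
  congr 1
  ring

theorem FF_diag (n d : ℕ) (hn : 0 < n) (X : Finset ℕ) (b : ZMod P) :
    FF P n d X b b = ∑ a : ZMod P, wt P n a * ‖SS P d X (a * b)‖ ^ 2 := by
  apply Complex.ofReal_injective
  rw [FF_eq n d hn, Complex.ofReal_sum]
  refine Finset.sum_congr rfl fun a _ => ?_
  rw [mul_assoc, Complex.mul_conj']
  push_cast
  rfl

theorem FF_cs (n d : ℕ) (hn : 0 < n) (X : Finset ℕ) (b b' : ZMod P) :
    FF P n d X b b' ^ 2 ≤ FF P n d X b b * FF P n d X b' b' := by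
  have h1 : |FF P n d X b b'| ≤
      ∑ a : ZMod P, wt P n a * ‖SS P d X (a * b)‖ * ‖SS P d X (a * b')‖ := by
    have h2 : |FF P n d X b b'| = ‖(FF P n d X b b' : ℂ)‖ := by
      rw [Complex.norm_real, Real.norm_eq_abs]
    rw [h2, FF_eq n d hn]
    refine (norm_sum_le _ _).trans (Finset.sum_le_sum fun a _ => ?_)
    rw [norm_mul, norm_mul, Complex.norm_conj, Complex.norm_real,
      Real.norm_of_nonneg (wt_nonneg n a)]
  rw [← sq_abs]
  refine (pow_le_pow_left₀ (abs_nonneg _) h1 2).trans ?_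
  rw [FF_diag n d hn, FF_diag n d hn]
  refine Finset.sum_sq_le_sum_mul_sum_of_sq_le_mul _ ?_ ?_ ?_
  · intro a _
    exact mul_nonneg (wt_nonneg n a) (by positivity)
  · intro a _
    exact mul_nonneg (wt_nonneg n a) (by positivity)
  · intro a _
    refine le_of_eq ?_
    ring

end Pool.Agent.Lib.MP_e426f4_ag.DG
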