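import Pool.Agent.Lib.MP_e426f4_ag.DG.Defs
import Pool.Agent.Lib.MP_e426f4_ag.DG.Ker1
import Pool.Agent.Lib.MP_e426f4_ag.DG.FFb

/-!
# Ident: the second moment identity
`N(v) := NN a v = P^-1 sum_b ee(-b v) prod_i SS_i(a_i b)`   (orthogonality `sum_ee`, `SS_i(c) = sum_{x in X_i} ee(c x^d)`, and
`prod_i sum_{x_i} = sum_{x in piFinset}`: `Finset.prod_univ_sum`).
Average over `v = W j`, `|j| <= J`: `(2J+1)^-1 sum_j ee(-b W j) = (2J+1)^-1 sum_j cos(2 pi W j b/P)` (the sum is real: j -> -j;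
`ee (b W j) = exp(2 pi i W j b.val/P)`). Hence `N(0) - M = P^-1 sum_b psi(b) prod_i SS_i(a_i b)` as complex numbers. The left side is real:
`(N-M)^2 = (N-M) conj(N-M) = P^-2 sum_{b,b'} psi(b) psi(b') prod_i SS_i(a_i b) conj SS_i(a_i b')`. Multiply by `prod wt(a_i)`, sum over
`a : Fin s -> ZMod P` (`Finset.prod_univ_sum` again) and use `FF_eq`.
-/

set_option autoImplicit false

namespace Pool.Agent.Lib.MP_e426f4_ag.DG

open Finset

variable {P : ℕ} [NeZero P]

private theorem ident_ee_sum {ι : Type*} (t : Finset ι) (f : ι → ZMod P) :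
    ee P (∑ i ∈ t, f i) = ∏ i ∈ t, ee P (f i) := by
  classical
  unfold ee
  induction t using Finset.induction_on with
  | empty => rw [Finset.sum_empty, Finset.prod_empty, AddChar.map_zero_eq_one]
  | insert a t ha ih =>
    rw [Finset.sum_insert ha, Finset.prod_insert ha, AddChar.map_add_eq_mul, ih]

private theorem ident_ee_add (a b : ZMod P) : ee P (a + b) = ee P a * ee P b := by
  unfold ee
  exact AddChar.map_add_eq_mul _ _ _

private theorem ident_NN {s : ℕ} (d : ℕ) (X : Fin s → Finset ℕ) (a : Fin s → ZMod P)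
    (v : ZMod P) : (NN P d X a v : ℂ) =
      (1 / (P : ℂ)) * ∑ b : ZMod P, ee P (-(b * v)) * ∏ i, SS P d (X i) (a i * b) := by
  have hP : (P : ℂ) ≠ 0 := by exact_mod_cast NeZero.ne P
  have h1 : ∀ b : ZMod P, ee P (-(b * v)) * ∏ i, SS P d (X i) (a i * b) =
      ∑ x ∈ Fintype.piFinset X, ee P (b * (∑ i, a i * (x i : ZMod P) ^ d - v)) := by
    intro b
    unfold SS
    rw [Finset.prod_univ_sum, Finset.mul_sum]
    refine Finset.sum_congr rfl fun x _ => ?_
    rw [← ident_ee_sum, ← ident_ee_add]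
    congr 1
    rw [mul_sub, Finset.mul_sum]
    have h2 : ∀ i : Fin s, a i * b * (x i : ZMod P) ^ d = b * (a i * (x i : ZMod P) ^ d) :=
      fun i => by ring
    simp only [h2]
    ring
  simp only [h1]
  rw [Finset.sum_comm]
  simp only [sum_ee]
  unfold NN
  rw [← Finset.sum_filter, Finset.sum_const, nsmul_eq_mul]
  have h3 : ((Fintype.piFinset X).filter fun x : Fin s → ℕ =>
      ∑ i, a i * (x i : ZMod P) ^ d - v = 0) = ((Fintype.piFinset X).filter fun x : Fin s → ℕ =>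
      ∑ i, a i * (x i : ZMod P) ^ d = v) := by
    refine Finset.filter_congr fun x _ => ?_
    exact sub_eq_zero
  rw [h3]
  push_cast
  field_simp

private theorem ident_psi (W J : ℕ) (b : ZMod P) : (psi P W J b : ℂ) =
    1 - (∑ j ∈ Icc (-(J : ℤ)) J, ee P (-(b * (((W : ℤ) * j : ℤ) : ZMod P)))) / (2 * (J : ℂ) + 1) := by
  have hexp : ∀ j : ℤ, ee P (-(b * (((W : ℤ) * j : ℤ) : ZMod P))) =
      Complex.exp (-(((2 * Real.pi * ((W : ℝ) * (j : ℝ) * ((b.val : ℝ) / P)) : ℝ) : ℂ) *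
        Complex.I)) := by
    intro j
    have h1 : (-(b * (((W : ℤ) * j : ℤ) : ZMod P)) : ZMod P) =
        ((-((b.val : ℤ) * (W * j)) : ℤ) : ZMod P) := by
      push_cast
      rw [ZMod.natCast_zmod_val]
    unfold ee
    rw [h1, ZMod.stdAddChar_coe]
    congr 1
    push_cast
    ring
  have hsymm : ∑ j ∈ Icc (-(J : ℤ)) J, ee P (-(b * (((W : ℤ) * j : ℤ) : ZMod P))) =
      ∑ j ∈ Icc (-(J : ℤ)) J,
        Complex.exp (((2 * Real.pi * ((W : ℝ) * (j : ℝ) * ((b.val : ℝ) / P)) : ℝ) : ℂ) *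
        Complex.I) := by
    refine Finset.sum_nbij' (fun j => -j) (fun j => -j) ?_ ?_ ?_ ?_ ?_
    · intro j hj
      rw [Finset.mem_Icc] at hj ⊢
      omega
    · intro j hj
      rw [Finset.mem_Icc] at hj ⊢
      omega
    · intro j _; exact neg_neg j
    · intro j _; exact neg_neg j
    · intro j _
      rw [hexp]
      congr 1
      push_cast
      ring
  have hcos : ∑ j ∈ Icc (-(J : ℤ)) J, ee P (-(b * (((W : ℤ) * j : ℤ) : ZMod P))) =
      ((∑ j ∈ Icc (-(J : ℤ)) J,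
        Real.cos (2 * Real.pi * ((W : ℝ) * (j : ℝ) * ((b.val : ℝ) / P))) : ℝ) : ℂ) := by
    have h2 : 2 * ∑ j ∈ Icc (-(J : ℤ)) J, ee P (-(b * (((W : ℤ) * j : ℤ) : ZMod P))) =
        2 * ((∑ j ∈ Icc (-(J : ℤ)) J,
        Real.cos (2 * Real.pi * ((W : ℝ) * (j : ℝ) * ((b.val : ℝ) / P))) : ℝ) : ℂ) := by
      have h3 : 2 * ∑ j ∈ Icc (-(J : ℤ)) J, ee P (-(b * (((W : ℤ) * j : ℤ) : ZMod P))) =
          ∑ j ∈ Icc (-(J : ℤ)) J, ee P (-(b * (((W : ℤ) * j : ℤ) : ZMod P))) +
          ∑ j ∈ Icc (-(J : ℤ)) J,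
            Complex.exp (((2 * Real.pi * ((W : ℝ) * (j : ℝ) * ((b.val : ℝ) / P)) : ℝ) : ℂ) *
            Complex.I) := by
        rw [← hsymm]; ring
      rw [h3, ← Finset.sum_add_distrib, Complex.ofReal_sum, Finset.mul_sum]
      refine Finset.sum_congr rfl fun j _ => ?_
      rw [hexp, Complex.ofReal_cos, Complex.cos]
      ring_nf
    exact mul_left_cancel₀ two_ne_zero h2
  rw [hcos]
  unfold psi
  push_cast
  ring

private theorem ident_diff {s : ℕ} (d W J : ℕ) (X : Fin s → Finset ℕ) (a : Fin s → ZMod P) :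
    ((NN P d X a 0 - Mavg P d W J X a : ℝ) : ℂ) =
      (1 / (P : ℂ)) * ∑ b : ZMod P, (psi P W J b : ℂ) * ∏ i, SS P d (X i) (a i * b) := by
  have hJ : (2 * (J : ℂ) + 1) ≠ 0 := by
    have : ((2 * J + 1 : ℕ) : ℂ) ≠ 0 := by
      rw [Nat.cast_ne_zero]; omega
    push_cast at this
    exact this
  have h0 : ee P 0 = 1 := by
    unfold ee
    exact AddChar.map_zero_eq_one _
  unfold Mavg
  push_cast
  rw [ident_NN]
  simp only [ident_NN]
  simp only [mul_zero, neg_zero, h0, one_mul]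
  rw [← Finset.mul_sum, Finset.sum_comm]
  simp only [← Finset.sum_mul]
  rw [mul_div_assoc, ← mul_sub, Finset.sum_div, ← Finset.sum_sub_distrib]
  congr 1
  refine Finset.sum_congr rfl fun b _ => ?_
  rw [ident_psi]
  push_cast
  ring

theorem ident {s : ℕ} (n d W J : ℕ) (hn : 0 < n) (X : Fin s → Finset ℕ) :
    ∑ a : Fin s → ZMod P, (∏ i, wt P n (a i)) * (NN P d X a 0 - Mavg P d W J X a) ^ 2 =
      rhs P n d W J X := by
  have key : ((∑ a : Fin s → ZMod P, (∏ i, wt P n (a i)) *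
      (NN P d X a 0 - Mavg P d W J X a) ^ 2 : ℝ) : ℂ) = (rhs P n d W J X : ℂ) := by
    have hsq : ∀ a : Fin s → ZMod P, (((NN P d X a 0 - Mavg P d W J X a) ^ 2 : ℝ) : ℂ) =
        (1 / (P : ℂ) ^ 2) * ∑ b : ZMod P, ∑ b' : ZMod P, (psi P W J b : ℂ) * (psi P W J b' : ℂ) *
          ∏ i, (SS P d (X i) (a i * b) * (starRingEnd ℂ) (SS P d (X i) (a i * b'))) := by
      intro a
      have h1 : (((NN P d X a 0 - Mavg P d W J X a) ^ 2 : ℝ) : ℂ) =
          ((NN P d X a 0 - Mavg P d W J X a : ℝ) : ℂ) *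
          (starRingEnd ℂ) ((NN P d X a 0 - Mavg P d W J X a : ℝ) : ℂ) := by
        rw [Complex.conj_ofReal]
        push_cast
        ring
      rw [h1, ident_diff, map_mul, map_sum, map_div₀, map_one, Complex.conj_natCast]
      have h2 : (1 / (P : ℂ) * ∑ b : ZMod P, (psi P W J b : ℂ) * ∏ i, SS P d (X i) (a i * b)) *
          (1 / (P : ℂ) * ∑ b : ZMod P,
            (starRingEnd ℂ) ((psi P W J b : ℂ) * ∏ i, SS P d (X i) (a i * b))) =
          1 / (P : ℂ) ^ 2 * ((∑ b : ZMod P, (psi P W J b : ℂ) * ∏ i, SS P d (X i) (a i * b)) *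
          ∑ b : ZMod P, (starRingEnd ℂ) ((psi P W J b : ℂ) * ∏ i, SS P d (X i) (a i * b))) := by
        rw [one_div, one_div, ← inv_pow]
        ring
      rw [h2, Finset.sum_mul_sum]
      congr 1
      refine Finset.sum_congr rfl fun b _ => Finset.sum_congr rfl fun b' _ => ?_
      rw [map_mul, Complex.conj_ofReal, map_prod, Finset.prod_mul_distrib]
      ring
    push_cast at hsq ⊢
    simp only [hsq]
    have hterm : ∀ a : Fin s → ZMod P, (∏ i, (wt P n (a i) : ℂ)) *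
        ((1 / (P : ℂ) ^ 2) * ∑ b : ZMod P, ∑ b' : ZMod P, (psi P W J b : ℂ) * (psi P W J b' : ℂ) *
          ∏ i, (SS P d (X i) (a i * b) * (starRingEnd ℂ) (SS P d (X i) (a i * b')))) =
        (1 / (P : ℂ) ^ 2) * ∑ b : ZMod P, ∑ b' : ZMod P, (psi P W J b : ℂ) * (psi P W J b' : ℂ) *
          ∏ i, ((wt P n (a i) : ℂ) * SS P d (X i) (a i * b) *
            (starRingEnd ℂ) (SS P d (X i) (a i * b'))) := by
      intro a
      rw [mul_left_comm, Finset.mul_sum]
      congr 1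
      refine Finset.sum_congr rfl fun b _ => ?_
      rw [Finset.mul_sum]
      refine Finset.sum_congr rfl fun b' _ => ?_
      rw [mul_left_comm, ← Finset.prod_mul_distrib]
      congr 1
      refine Finset.prod_congr rfl fun i _ => ?_
      ring
    simp only [hterm]
    rw [← Finset.mul_sum, Finset.sum_comm]
    unfold rhs
    push_cast
    congr 1
    refine Finset.sum_congr rfl fun b _ => ?_
    rw [Finset.sum_comm]
    refine Finset.sum_congr rfl fun b' _ => ?_
    rw [← Finset.mul_sum]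
    congr 1
    have h5 := Finset.prod_univ_sum (fun _ : Fin s => (Finset.univ : Finset (ZMod P)))
      (fun i c => (wt P n c : ℂ) * SS P d (X i) (c * b) * (starRingEnd ℂ) (SS P d (X i) (c * b')))
    rw [Fintype.piFinset_univ] at h5
    rw [← h5]
    refine Finset.prod_congr rfl fun i _ => ?_
    exact (FF_eq n d hn (X i) b b').symm
  exact_mod_cast key

end Pool.Agent.Lib.MP_e426f4_ag.DG
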