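import Pool.Agent.Lib.MP_e426f4_ag.DG.Defs

/-!
# Ker2: the weight is at least 1/2 on short integers
`D = sum_{j<n} exp(2 pi i j a/P)`. Multiply by `exp(-pi i (n-1) a/P)` (modulus one): the real part of the product is
`sum_j cos(2 pi (j - (n-1)/2) a / P)`, each angle has absolute value `<= pi (n-1)|a|/P <= pi/4` (as `4 n |a| <= P`), so the cosine is
`>= cos(pi/4) = sqrt 2 / 2` and `‖D‖ >= n sqrt 2/2`, `‖D‖^2/n^2 >= 1/2`.
-/

set_option autoImplicit false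

namespace Pool.Agent.Lib.MP_e426f4_ag.DG

open Finset

variable {P : ℕ} [NeZero P]

theorem wt_ge (n : ℕ) (hn : 0 < n) (a : ℤ) (ha : 4 * n * |a| ≤ P) :
    1 / 2 ≤ wt P n (a : ZMod P) := by
  have hP0 : (0 : ℝ) < P := by exact_mod_cast Nat.pos_of_ne_zero (NeZero.ne P)
  have hn0 : (0 : ℝ) < n := by exact_mod_cast hn
  have haR : 4 * (n : ℝ) * |(a : ℝ)| ≤ P := by exact_mod_cast ha
  set θ : ℝ := Real.pi * ((n : ℝ) - 1) * a / P with hθ
  have hterm : ∀ j : ℕ, ee P ((j : ZMod P) * (a : ZMod P)) =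
      Complex.exp (((2 * Real.pi * (j : ℝ) * (a : ℝ) / P : ℝ) : ℂ) * Complex.I) := by
    intro j
    have h1 : (j : ZMod P) * (a : ZMod P) = (((j : ℤ) * a : ℤ) : ZMod P) := by push_cast; rfl
    rw [ee, h1, ZMod.stdAddChar_coe]
    congr 1
    push_cast
    ring
  have hre : ((Dn P n (a : ZMod P)) * Complex.exp (((-θ : ℝ) : ℂ) * Complex.I)).re =
      ∑ j ∈ range n, Real.cos (2 * Real.pi * (j : ℝ) * (a : ℝ) / P - θ) := by
    rw [Dn, Finset.sum_mul, Complex.re_sum]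
    refine Finset.sum_congr rfl fun j _ => ?_
    rw [hterm, ← Complex.exp_add, ← add_mul, ← Complex.ofReal_add, Complex.exp_ofReal_mul_I_re]
    congr 1
  have hcos : ∀ j ∈ range n, Real.sqrt 2 / 2 ≤
      Real.cos (2 * Real.pi * (j : ℝ) * (a : ℝ) / P - θ) := by
    intro j hj
    have hjn : (j : ℝ) + 1 ≤ n := by exact_mod_cast Finset.mem_range.1 hj
    have hj0 : (0 : ℝ) ≤ j := Nat.cast_nonneg j
    have h1 : 2 * Real.pi * (j : ℝ) * (a : ℝ) / P - θ =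
        Real.pi * (2 * j - n + 1) * (a / P) := by
      rw [hθ]; field_simp; ring
    have h2 : |Real.pi * (2 * (j : ℝ) - n + 1) * ((a : ℝ) / P)| ≤ Real.pi / 4 := by
      rw [abs_mul, abs_mul, abs_of_pos Real.pi_pos, abs_div, abs_of_pos hP0]
      have h3 : |2 * (j : ℝ) - n + 1| ≤ n := by
        rw [abs_le]; constructor <;> linarith
      have h4 : |2 * (j : ℝ) - n + 1| * (|(a : ℝ)| / P) ≤ 1 / 4 := by
        calc |2 * (j : ℝ) - n + 1| * (|(a : ℝ)| / P) ≤ n * (|(a : ℝ)| / P) := by gcongr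
          _ = 4 * (n : ℝ) * |(a : ℝ)| / (4 * P) := by field_simp
          _ ≤ P / (4 * P) := by gcongr
          _ = 1 / 4 := by field_simp
      calc Real.pi * |2 * (j : ℝ) - n + 1| * (|(a : ℝ)| / P) =
            Real.pi * (|2 * (j : ℝ) - n + 1| * (|(a : ℝ)| / P)) := by ring
        _ ≤ Real.pi * (1 / 4) := by
            exact mul_le_mul_of_nonneg_left h4 Real.pi_pos.le
        _ = Real.pi / 4 := by ring
    rw [h1, ← Real.cos_abs, ← Real.cos_pi_div_four]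
    refine Real.cos_le_cos_of_nonneg_of_le_pi (abs_nonneg _) ?_ h2
    linarith [Real.pi_pos]
  have hnorm : (n : ℝ) * (Real.sqrt 2 / 2) ≤ ‖Dn P n (a : ZMod P)‖ := by
    calc (n : ℝ) * (Real.sqrt 2 / 2) = ∑ j ∈ range n, Real.sqrt 2 / 2 := by
          rw [Finset.sum_const, Finset.card_range, nsmul_eq_mul]
      _ ≤ ∑ j ∈ range n, Real.cos (2 * Real.pi * (j : ℝ) * (a : ℝ) / P - θ) :=
          Finset.sum_le_sum hcos
      _ = ((Dn P n (a : ZMod P)) * Complex.exp (((-θ : ℝ) : ℂ) * Complex.I)).re := hre.symm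
      _ ≤ ‖(Dn P n (a : ZMod P)) * Complex.exp (((-θ : ℝ) : ℂ) * Complex.I)‖ := Complex.re_le_norm _
      _ = ‖Dn P n (a : ZMod P)‖ := by
          rw [norm_mul, Complex.norm_exp_ofReal_mul_I, mul_one]
  rw [wt, le_div_iff₀ (by positivity)]
  have h5 : ((n : ℝ) * (Real.sqrt 2 / 2)) ^ 2 ≤ ‖Dn P n (a : ZMod P)‖ ^ 2 :=
    pow_le_pow_left₀ (by positivity) hnorm 2
  have h6 : ((n : ℝ) * (Real.sqrt 2 / 2)) ^ 2 = 1 / 2 * (n : ℝ) ^ 2 := by
    rw [mul_pow, div_pow, Real.sq_sqrt (by norm_num)]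
    ring
  linarith

end Pool.Agent.Lib.MP_e426f4_ag.DG
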