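import Pool.Agent.Lib.MP_e426f4_ag.DG.Defs
import Pool.Agent.Lib.MP_e426f4_ag.DG.Ident
import Pool.Agent.Lib.MP_e426f4_ag.DG.Ker2
import Pool.Agent.Lib.MP_e426f4_ag.DG.Ker1

/-!
# Bad: Chebyshev
The map `a -> (a_i mod P)` is injective on `A` (`|a_i| <= H`, `2H < P`). By `ident` and nonnegativity of all terms
`rhs >= sum_{a in A} prod_i wt(a_i) * (N - M)^2 >= |A| 2^{-s} m0^2` (`wt_ge`; `N = 0`, `M >= m0 >= 0`).
-/

set_option autoImplicit false

namespace Pool.Agent.Lib.MP_e426f4_ag.DG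

open Finset

variable {P : ℕ} [NeZero P]

private theorem cast_inj_of_small {P H : ℕ} (h2 : 2 * H < P) (x y : ℤ) (hx : |x| ≤ H) (hy : |y| ≤ H)
    (h : (x : ZMod P) = (y : ZMod P)) : x = y := by
  rw [ZMod.intCast_eq_intCast_iff_dvd_sub] at h
  have h3 : |y - x| < (P : ℤ) := by
    have h4 : |y - x| ≤ |y| + |x| := abs_sub _ _
    have h5 : (2 * H : ℤ) < P := by exact_mod_cast h2
    linarith
  have h6 := Int.eq_zero_of_abs_lt_dvd h h3
  linarith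

theorem bad_count {s : ℕ} (n d W J H : ℕ) (hn : 0 < n) (hnH : 4 * n * H ≤ P) (h2 : 2 * H < P)
    (X : Fin s → Finset ℕ) (A : Finset (Fin s → ℤ)) (hA : ∀ a ∈ A, ∀ i, |a i| ≤ H)
    (m0 : ℝ) (hm0 : 0 ≤ m0)
    (hN : ∀ a ∈ A, NN P d X (fun i => ((a i : ℤ) : ZMod P)) 0 = 0)
    (hM : ∀ a ∈ A, m0 ≤ Mavg P d W J X (fun i => ((a i : ℤ) : ZMod P))) :
    (A.card : ℝ) * m0 ^ 2 ≤ 2 ^ s * rhs P n d W J X := by
  classical
  set φ : (Fin s → ℤ) → (Fin s → ZMod P) := fun a i => ((a i : ℤ) : ZMod P) with hφ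
  have hinj : Set.InjOn φ (A : Set (Fin s → ℤ)) := by
    intro a ha a' ha' haa
    funext i
    exact cast_inj_of_small h2 _ _ (hA a ha i) (hA a' ha' i) (congrFun haa i)
  set f : (Fin s → ZMod P) → ℝ := fun a =>
    (∏ i, wt P n (a i)) * (NN P d X a 0 - Mavg P d W J X a) ^ 2 with hf
  have hf0 : ∀ a, 0 ≤ f a := fun a =>
    mul_nonneg (Finset.prod_nonneg fun i _ => wt_nonneg n (a i)) (sq_nonneg _)
  have h3 : ∑ a ∈ A, f (φ a) ≤ rhs P n d W J X := by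
    rw [← ident n d W J hn X, ← Finset.sum_image hinj]
    exact Finset.sum_le_sum_of_subset_of_nonneg (Finset.subset_univ _) fun a _ _ => hf0 a
  have h4 : ∀ a ∈ A, (1 / 2 : ℝ) ^ s * m0 ^ 2 ≤ f (φ a) := by
    intro a ha
    have h5 : (1 / 2 : ℝ) ^ s ≤ ∏ i, wt P n (φ a i) := by
      have h6 : ∏ i : Fin s, (1 / 2 : ℝ) ≤ ∏ i, wt P n (φ a i) := by
        apply Finset.prod_le_prod
        · intro i _
          norm_num
        · intro i _
          apply wt_ge n hn (a i)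
          have h7 := hA a ha i
          calc (4 * n * |a i| : ℤ) ≤ 4 * n * H := by gcongr
            _ ≤ P := by exact_mod_cast hnH
      simpa using h6
    have h8 : m0 ^ 2 ≤ (NN P d X (φ a) 0 - Mavg P d W J X (φ a)) ^ 2 := by
      rw [hN a ha, zero_sub, neg_sq]
      exact pow_le_pow_left₀ hm0 (hM a ha) 2
    exact mul_le_mul h5 h8 (sq_nonneg _) (Finset.prod_nonneg fun i _ => wt_nonneg n _)
  have h9 : (A.card : ℝ) * ((1 / 2 : ℝ) ^ s * m0 ^ 2) ≤ rhs P n d W J X := by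
    refine le_trans ?_ h3
    rw [← nsmul_eq_mul]
    exact Finset.card_nsmul_le_sum _ _ _ h4
  have h10 : (2 : ℝ) ^ s * (1 / 2 : ℝ) ^ s = 1 := by
    rw [← mul_pow]
    norm_num
  calc (A.card : ℝ) * m0 ^ 2 = (2 : ℝ) ^ s * (1 / 2 : ℝ) ^ s * ((A.card : ℝ) * m0 ^ 2) := by
        rw [h10, one_mul]
    _ = 2 ^ s * ((A.card : ℝ) * ((1 / 2 : ℝ) ^ s * m0 ^ 2)) := by ring
    _ ≤ 2 ^ s * rhs P n d W J X := mul_le_mul_of_nonneg_left h9 (by positivity)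

end Pool.Agent.Lib.MP_e426f4_ag.DG
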