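import Pool.Agent.Lib.MP_e426f4_ag.DG.Defs

/-!
# BoxRes: residue conditions on the box
For one class `r`: each coordinate `a_i in [-H,H]`, `a_i = r_i mod m`: at most `(2H)/m + 1 <= 3H/m` values (`m <= H`). So `(4H/m)^s` is enough; sum over `Bd`.
Small coefficients: `#{a : |a_i| < c1 H} <= (2 c1 H + 1)(2H+1)^(s-1)` for each i; with `2H + 1 <= 3H`, `1 <= c1 H` (H >= H0): `<= 3 c1 H (3H)^(s-1)`; sum over i: `<= s 3^s c1 H^s`; choose c1.
-/

set_option autoImplicit false

namespace Pool.Agent.Lib.MP_e426f4_ag.DG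

open Finset

open Classical in
theorem box_residue (s H m : ℕ) (hm : 1 ≤ m) (hmH : m ≤ H) (Bd : Finset (Fin s → ℕ)) :
    (((box s H).filter fun a : Fin s → ℤ => ∃ r ∈ Bd, ∀ i, a i ≡ r i [ZMOD m]).card : ℝ) ≤
      Bd.card * (4 * (H : ℝ) / m) ^ s := by
  have hm0 : (0 : ℝ) < m := by exact_mod_cast hm
  have hH1 : (1 : ℝ) ≤ H := by exact_mod_cast hm.trans hmH
  have hmH' : (m : ℝ) ≤ H := by exact_mod_cast hmH
  have hone : ∀ v : ℤ, (((Icc (-(H : ℤ)) H).filter fun x => x ≡ v [ZMOD m]).card : ℝ) ≤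
      4 * (H : ℝ) / m := by
    intro v
    have hI : Icc (-(H : ℤ)) H = Ioc (-(H : ℤ) - 1) H := by
      ext x
      simp only [mem_Icc, mem_Ioc]
      omega
    have hmz : (0 : ℤ) < m := by exact_mod_cast hm
    have hc := Int.Ioc_filter_modEq_card (-(H : ℤ) - 1) H hmz v
    rw [hI]
    have h2 : (((max (⌊((H : ℤ) - v) / ((m : ℤ) : ℚ)⌋ - ⌊((-(H : ℤ) - 1 : ℤ) - v) / ((m : ℤ) : ℚ)⌋) 0 : ℤ)) : ℚ) ≤
        4 * (H : ℚ) / m := by
      have hmq : (0 : ℚ) < m := by exact_mod_cast hm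
      have hHq : (1 : ℚ) ≤ H := by exact_mod_cast hm.trans hmH
      have hmHq : (m : ℚ) ≤ H := by exact_mod_cast hmH
      rw [Int.cast_max, Int.cast_sub]
      apply max_le
      · have e1 := Int.floor_le ((((H : ℤ) : ℚ) - v) / ((m : ℤ) : ℚ))
        have e2 := Int.lt_floor_add_one ((((-(H : ℤ) - 1 : ℤ) : ℚ) - v) / ((m : ℤ) : ℚ))
        have e3 : (((H : ℤ) : ℚ) - v) / ((m : ℤ) : ℚ) - (((-(H : ℤ) - 1 : ℤ) : ℚ) - v) / ((m : ℤ) : ℚ)
            = (2 * H + 1) / m := by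
          push_cast
          field_simp
          ring
        have e4 : (2 * (H : ℚ) + 1) / m + 1 ≤ 4 * (H : ℚ) / m := by
          rw [div_add_one hmq.ne', div_le_div_iff_of_pos_right hmq]
          linarith
        linarith
      · rw [Int.cast_zero]; positivity
    rw [← hc] at h2
    have h3 := (Rat.cast_le (K := ℝ)).mpr h2
    simpa using h3
  have hsub : ((box s H).filter fun a : Fin s → ℤ => ∃ r ∈ Bd, ∀ i, a i ≡ r i [ZMOD m]) ⊆
      Bd.biUnion fun r => Fintype.piFinset fun i =>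
        (Icc (-(H : ℤ)) H).filter fun x => x ≡ r i [ZMOD m] := by
    intro a ha
    rw [mem_filter] at ha
    obtain ⟨ha1, r, hr, har⟩ := ha
    rw [mem_biUnion]
    refine ⟨r, hr, ?_⟩
    rw [Fintype.mem_piFinset]
    intro i
    rw [mem_filter]
    exact ⟨(Fintype.mem_piFinset.mp ha1) i, har i⟩
  have h1 := (card_le_card hsub).trans card_biUnion_le
  calc (((box s H).filter fun a : Fin s → ℤ => ∃ r ∈ Bd, ∀ i, a i ≡ r i [ZMOD m]).card : ℝ)
      ≤ ((∑ r ∈ Bd, (Fintype.piFinset fun i =>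
        (Icc (-(H : ℤ)) H).filter fun x => x ≡ r i [ZMOD m]).card : ℕ) : ℝ) := by
        exact_mod_cast h1
    _ = ∑ r ∈ Bd, ∏ i, (((Icc (-(H : ℤ)) H).filter fun x => x ≡ r i [ZMOD m]).card : ℝ) := by
        push_cast
        apply sum_congr rfl
        intro r _
        rw [Fintype.card_piFinset]
        push_cast
        rfl
    _ ≤ ∑ _r ∈ Bd, (4 * (H : ℝ) / m) ^ s := by
        apply sum_le_sum
        intro r _
        calc ∏ i, (((Icc (-(H : ℤ)) H).filter fun x => x ≡ r i [ZMOD m]).card : ℝ)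
            ≤ ∏ _i : Fin s, (4 * (H : ℝ) / m) := by
              apply prod_le_prod
              · intro i _; positivity
              · intro i _; exact hone (r i)
          _ = (4 * (H : ℝ) / m) ^ s := by rw [prod_const, card_univ, Fintype.card_fin]
    _ = Bd.card * (4 * (H : ℝ) / m) ^ s := by rw [sum_const, nsmul_eq_mul]

open Classical in
theorem small_coeff (s : ℕ) (eps : ℝ) (heps : 0 < eps) : ∃ c1 : ℝ, 0 < c1 ∧ c1 ≤ 1 ∧
    ∃ H0 : ℕ, ∀ H : ℕ, H0 ≤ H →
    (((box s H).filter fun a : Fin s → ℤ => ∃ i, |(a i : ℝ)| < c1 * H).card : ℝ) ≤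
      eps * (H : ℝ) ^ s := by
  have hden : (0 : ℝ) < (s : ℝ) * 3 ^ s + 1 := by positivity
  refine ⟨min 1 (eps / ((s : ℝ) * 3 ^ s + 1)), by positivity, min_le_left _ _, ?_⟩
  set c1 : ℝ := min 1 (eps / ((s : ℝ) * 3 ^ s + 1)) with hc1
  have hc1pos : 0 < c1 := by rw [hc1]; positivity
  refine ⟨max 1 ⌈1 / c1⌉₊, ?_⟩
  intro H hH
  have hH1 : (1 : ℝ) ≤ H := by
    have : 1 ≤ H := (le_max_left _ _).trans hH
    exact_mod_cast this
  have hcH : 1 ≤ c1 * H := by
    have h1 : 1 / c1 ≤ H := by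
      have h2 : ⌈1 / c1⌉₊ ≤ H := (le_max_right _ _).trans hH
      exact (Nat.le_ceil _).trans (by exact_mod_cast h2)
    rw [div_le_iff₀ hc1pos] at h1
    linarith
  have hcount : (((Icc (-(H : ℤ)) H).filter fun x : ℤ => |(x : ℝ)| < c1 * H).card : ℝ) ≤
      3 * (c1 * H) := by
    have hsub : ((Icc (-(H : ℤ)) H).filter fun x : ℤ => |(x : ℝ)| < c1 * H) ⊆
        Icc (-⌊c1 * H⌋) ⌊c1 * H⌋ := by
      intro x hx
      rw [mem_filter] at hx
      have h1 := abs_lt.mp hx.2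
      rw [mem_Icc]
      refine ⟨?_, Int.le_floor.mpr h1.2.le⟩
      rw [neg_le]
      apply Int.le_floor.mpr
      push_cast
      linarith
    have h2 := card_le_card hsub
    rw [Int.card_Icc] at h2
    have h3 : (0 : ℤ) ≤ ⌊c1 * H⌋ := Int.floor_nonneg.mpr (by linarith)
    have h4 : (((⌊c1 * H⌋ + 1 - -⌊c1 * H⌋).toNat : ℕ) : ℝ) = 2 * (⌊c1 * H⌋ : ℝ) + 1 := by
      have : (((⌊c1 * H⌋ + 1 - -⌊c1 * H⌋).toNat : ℕ) : ℤ) = 2 * ⌊c1 * H⌋ + 1 := by
        rw [Int.toNat_of_nonneg (by linarith)]; ring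
      exact_mod_cast this
    have h5 : (((Icc (-(H : ℤ)) H).filter fun x : ℤ => |(x : ℝ)| < c1 * H).card : ℝ) ≤
        2 * (⌊c1 * H⌋ : ℝ) + 1 := by
      rw [← h4]; exact_mod_cast h2
    have h6 := Int.floor_le (c1 * (H : ℝ))
    linarith
  have hfull : ((Icc (-(H : ℤ)) H).card : ℝ) ≤ 3 * H := by
    rw [Int.card_Icc]
    have h4 : ((((H : ℤ) + 1 - -(H : ℤ)).toNat : ℕ) : ℝ) = 2 * (H : ℝ) + 1 := by
      have : ((((H : ℤ) + 1 - -(H : ℤ)).toNat : ℕ) : ℤ) = 2 * (H : ℤ) + 1 := by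
        rw [Int.toNat_of_nonneg (by omega)]; ring
      exact_mod_cast this
    rw [h4]; linarith
  have hsub : ((box s H).filter fun a : Fin s → ℤ => ∃ i, |(a i : ℝ)| < c1 * H) ⊆
      (univ : Finset (Fin s)).biUnion fun i => Fintype.piFinset fun j =>
        if j = i then (Icc (-(H : ℤ)) H).filter (fun x : ℤ => |(x : ℝ)| < c1 * H)
          else Icc (-(H : ℤ)) H := by
    intro a ha
    rw [mem_filter] at ha
    obtain ⟨ha1, i, hi⟩ := ha
    rw [mem_biUnion]
    refine ⟨i, mem_univ _, ?_⟩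
    rw [Fintype.mem_piFinset]
    intro j
    have hj := (Fintype.mem_piFinset.mp ha1) j
    by_cases hji : j = i
    · subst hji
      rw [if_pos rfl, mem_filter]
      exact ⟨hj, hi⟩
    · rw [if_neg hji]
      exact hj
  have h1 := (card_le_card hsub).trans card_biUnion_le
  have hper : ∀ i : Fin s, ((Fintype.piFinset fun j =>
        if j = i then (Icc (-(H : ℤ)) H).filter (fun x : ℤ => |(x : ℝ)| < c1 * H)
          else Icc (-(H : ℤ)) H).card : ℝ) ≤ 3 ^ s * c1 * (H : ℝ) ^ s := by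
    intro i
    have hs : 1 ≤ s := by have := i.2; omega
    rw [Fintype.card_piFinset]
    push_cast
    calc ∏ j : Fin s, ((if j = i then (Icc (-(H : ℤ)) H).filter (fun x : ℤ => |(x : ℝ)| < c1 * H)
          else Icc (-(H : ℤ)) H).card : ℝ)
        ≤ ∏ j : Fin s, (if j = i then 3 * (c1 * H) else 3 * (H : ℝ)) := by
          apply prod_le_prod
          · intro j _; positivity
          · intro j _
            by_cases hji : j = i
            · rw [if_pos hji, if_pos hji]; exact hcount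
            · rw [if_neg hji, if_neg hji]; exact hfull
      _ = ∏ j : Fin s, ((if j = i then c1 else 1) * (3 * (H : ℝ))) := by
          apply prod_congr rfl
          intro j _
          split_ifs <;> ring
      _ = c1 * (3 * (H : ℝ)) ^ s := by
          rw [prod_mul_distrib, prod_ite_eq' univ i (fun _ => c1)]
          simp
      _ = 3 ^ s * c1 * (H : ℝ) ^ s := by rw [mul_pow]; ring
  calc (((box s H).filter fun a : Fin s → ℤ => ∃ i, |(a i : ℝ)| < c1 * H).card : ℝ)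
      ≤ ((∑ i : Fin s, (Fintype.piFinset fun j =>
        if j = i then (Icc (-(H : ℤ)) H).filter (fun x : ℤ => |(x : ℝ)| < c1 * H)
          else Icc (-(H : ℤ)) H).card : ℕ) : ℝ) := by exact_mod_cast h1
    _ ≤ ∑ _i : Fin s, 3 ^ s * c1 * (H : ℝ) ^ s := by
        push_cast
        exact sum_le_sum fun i _ => hper i
    _ = c1 * ((s : ℝ) * 3 ^ s) * (H : ℝ) ^ s := by
        rw [sum_const, card_univ, Fintype.card_fin, nsmul_eq_mul]; ring
    _ ≤ eps * (H : ℝ) ^ s := by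
        apply mul_le_mul_of_nonneg_right _ (by positivity)
        calc c1 * ((s : ℝ) * 3 ^ s) ≤ (eps / ((s : ℝ) * 3 ^ s + 1)) * ((s : ℝ) * 3 ^ s) := by
              apply mul_le_mul_of_nonneg_right (min_le_right _ _) (by positivity)
          _ ≤ (eps / ((s : ℝ) * 3 ^ s + 1)) * ((s : ℝ) * 3 ^ s + 1) := by
              apply mul_le_mul_of_nonneg_left _ (by positivity)
              linarith
          _ = eps := by field_simp

end Pool.Agent.Lib.MP_e426f4_ag.DG
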