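import Pool.Agent.Lib.MP_e426f4_ag.DG.Defs

/-!
# CardTwo: a congruence in two variables
Let `q0 = gcd(D, D3, D4)`, `mm = |D|/q0`, `D3' = D3/q0`, `D4' = D4/q0`: the condition is `mm | a1 D3' + a2 D4'`, and `gcd(mm,D3',D4') = 1`. Let
`g = gcd(mm, D3')`. Then `g | a2 D4'` and `gcd(g,D4') = 1`, so `g | a2`: at most `2H/g + 1` values of `a2` in `(-H,H)`. Given `a2`, `a1` is determined modulo
`mm/g` (difference of two solutions: `mm | (a1-a1') D3'`, `mm/g | a1-a1'`): at most `2H g/mm + 1` values. Product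
`<= 4H^2/mm + 2H/g + 2H g/mm + 1 <= 4H^2 q0/|D| + 4H + 1`.
-/

set_option autoImplicit false

namespace Pool.Agent.Lib.MP_e426f4_ag.DG

open Finset

private theorem card_ap (H m : ℕ) (hm : 1 ≤ m) (S : Finset ℤ)
    (hS : ∀ a ∈ S, -(H : ℤ) < a ∧ a < H) (hd : ∀ a ∈ S, ∀ b ∈ S, (m : ℤ) ∣ a - b) :
    S.card ≤ 2 * H / m + 1 := by
  rcases S.eq_empty_or_nonempty with h | h
  · rw [h]; simp
  · set a0 := S.min' h with ha0
    have ha0S : a0 ∈ S := S.min'_mem h
    have hm0 : (0 : ℤ) < m := by exact_mod_cast hm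
    calc S.card ≤ (Finset.range (2 * H / m + 1)).card := by
          refine Finset.card_le_card_of_injOn (fun a => ((a - a0) / m).toNat) ?_ ?_
          · intro a ha
            have ha : a ∈ S := ha
            have h1 : a0 ≤ a := S.min'_le a ha
            have h2 := hS a ha
            have h3 := hS a0 ha0S
            simp only [Finset.coe_range, Set.mem_Iio]
            have h4 : (a - a0) / m ≤ (2 * H : ℤ) / m := Int.ediv_le_ediv hm0 (by omega)
            have h5 : ((2 * H / m : ℕ) : ℤ) = (2 * H : ℤ) / m := by push_cast; rfl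
            rw [← h5] at h4
            have h6 : (0 : ℤ) ≤ ((2 * H / m : ℕ) : ℤ) := Int.natCast_nonneg _
            generalize 2 * H / m = q at h4 h6 ⊢
            omega
          · intro a ha b hb hab
            have ha : a ∈ S := ha
            have hb : b ∈ S := hb
            have h1 : a0 ≤ a := S.min'_le a ha
            have h1' : a0 ≤ b := S.min'_le b hb
            obtain ⟨k, hk⟩ := hd a ha a0 ha0S
            obtain ⟨l, hl⟩ := hd b hb a0 ha0S
            simp only at hab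
            rw [hk, hl, Int.mul_ediv_cancel_left _ hm0.ne', Int.mul_ediv_cancel_left _ hm0.ne'] at hab
            have hk0 : 0 ≤ k := by
              by_contra hneg
              push Not at hneg
              nlinarith
            have hl0 : 0 ≤ l := by
              by_contra hneg
              push Not at hneg
              nlinarith
            have : k = l := by omega
            subst this
            omega
      _ = 2 * H / m + 1 := Finset.card_range _

theorem card_two (H : ℕ) (hH : 1 ≤ H) (D D3 D4 : ℤ) (hD : D ≠ 0) :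
    ((((Ioo (-(H : ℤ)) H) ×ˢ (Ioo (-(H : ℤ)) H)).filter
      fun a : ℤ × ℤ => D ∣ a.1 * D3 + a.2 * D4).card : ℝ) ≤
      4 * (H : ℝ) ^ 2 * ((D.gcd (D3.gcd D4) : ℕ) : ℝ) / |(D : ℝ)| + 4 * H + 1 := by
  set q0 : ℕ := D.gcd (D3.gcd D4) with hq0
  have hq0pos : 0 < q0 := Int.gcd_pos_of_ne_zero_left _ hD
  have hq0z : (q0 : ℤ) ≠ 0 := by exact_mod_cast hq0pos.ne'
  obtain ⟨D', hD'⟩ : (q0 : ℤ) ∣ D := Int.gcd_dvd_left ..
  have h34 : (q0 : ℤ) ∣ ((D3.gcd D4 : ℕ) : ℤ) := Int.gcd_dvd_right ..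
  obtain ⟨D3', hD3'⟩ : (q0 : ℤ) ∣ D3 := h34.trans (Int.gcd_dvd_left ..)
  obtain ⟨D4', hD4'⟩ : (q0 : ℤ) ∣ D4 := h34.trans (Int.gcd_dvd_right ..)
  have hcop : D'.gcd (D3'.gcd D4') = 1 := by
    have h1 : q0 = q0 * D'.gcd (D3'.gcd D4') := by
      conv_lhs => rw [hq0, hD', hD3', hD4', Int.gcd_mul_left, Int.natAbs_natCast, Nat.cast_mul,
        Int.gcd_mul_left, Int.natAbs_natCast]
    exact (Nat.eq_of_mul_eq_mul_left hq0pos (by rw [mul_one]; exact h1)).symm
  have hD'0 : D' ≠ 0 := by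
    rintro rfl; exact hD (by rw [hD', mul_zero])
  set g : ℕ := D'.gcd D3' with hg
  have hgpos : 0 < g := Int.gcd_pos_of_ne_zero_left _ hD'0
  have hgz : (g : ℤ) ≠ 0 := by exact_mod_cast hgpos.ne'
  obtain ⟨m, hm⟩ : (g : ℤ) ∣ D' := Int.gcd_dvd_left ..
  obtain ⟨d3, hd3⟩ : (g : ℤ) ∣ D3' := Int.gcd_dvd_right ..
  have hm0 : m ≠ 0 := by
    rintro rfl; exact hD'0 (by rw [hm, mul_zero])
  have hmpos : 0 < m.natAbs := Int.natAbs_pos.mpr hm0
  have hcop2 : IsCoprime m d3 := by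
    rw [Int.isCoprime_iff_gcd_eq_one]
    have h1 : g = g * m.gcd d3 := by
      conv_lhs => rw [hg, hm, hd3, Int.gcd_mul_left, Int.natAbs_natCast]
    exact (Nat.eq_of_mul_eq_mul_left hgpos (by rw [mul_one]; exact h1)).symm
  have hcop3 : IsCoprime (g : ℤ) D4' := by
    rw [Int.isCoprime_iff_gcd_eq_one]
    have h1 : ((g : ℤ).gcd D4' : ℕ) ∣ D'.gcd (D3'.gcd D4') := by
      apply Int.dvd_gcd
      · exact (Int.gcd_dvd_left ..).trans ⟨m, hm⟩
      · rw [Int.natCast_dvd_natCast]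
        apply Int.dvd_gcd
        · exact (Int.gcd_dvd_left ..).trans ⟨d3, hd3⟩
        · exact Int.gcd_dvd_right ..
    rw [hcop] at h1
    exact Nat.dvd_one.mp h1
  -- the condition
  have hcond : ∀ a : ℤ × ℤ, D ∣ a.1 * D3 + a.2 * D4 → D' ∣ a.1 * D3' + a.2 * D4' := by
    intro a ha
    rw [hD', hD3', hD4', show a.1 * (q0 * D3') + a.2 * (q0 * D4') =
      q0 * (a.1 * D3' + a.2 * D4') by ring] at ha
    exact (mul_dvd_mul_iff_left hq0z).mp ha
  set F := ((Ioo (-(H : ℤ)) H) ×ˢ (Ioo (-(H : ℤ)) H)).filter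
      fun a : ℤ × ℤ => D ∣ a.1 * D3 + a.2 * D4 with hF
  have hmem : ∀ a ∈ F, (-(H : ℤ) < a.1 ∧ a.1 < H) ∧ (-(H : ℤ) < a.2 ∧ a.2 < H) ∧
      D' ∣ a.1 * D3' + a.2 * D4' := by
    intro a ha
    rw [hF, Finset.mem_filter, Finset.mem_product, Finset.mem_Ioo, Finset.mem_Ioo] at ha
    exact ⟨ha.1.1, ha.1.2, hcond a ha.2⟩
  have hga2 : ∀ a ∈ F, (g : ℤ) ∣ a.2 := by
    intro a ha
    have h1 := (hmem a ha).2.2
    have h2 : (g : ℤ) ∣ a.1 * D3' + a.2 * D4' := (Dvd.intro m hm.symm).trans h1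
    have h3 : (g : ℤ) ∣ a.1 * D3' := (Dvd.intro d3 hd3.symm).mul_left _
    have h4 : (g : ℤ) ∣ a.2 * D4' := (dvd_add_right h3).mp h2
    exact hcop3.dvd_of_dvd_mul_right h4
  have hS2 : (F.image Prod.snd).card ≤ 2 * H / g + 1 := by
    refine card_ap H g hgpos _ ?_ ?_
    · intro b hb
      obtain ⟨a, ha, rfl⟩ := Finset.mem_image.mp hb
      exact (hmem a ha).2.1
    · intro b hb b' hb'
      obtain ⟨a, ha, rfl⟩ := Finset.mem_image.mp hb
      obtain ⟨a', ha', rfl⟩ := Finset.mem_image.mp hb'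
      exact dvd_sub (hga2 a ha) (hga2 a' ha')
  have hfib : ∀ b ∈ F.image Prod.snd, (F.filter fun x => x.2 = b).card ≤
      2 * H / m.natAbs + 1 := by
    intro b _
    have hinj : (F.filter fun x => x.2 = b).card =
        ((F.filter fun x => x.2 = b).image Prod.fst).card := by
      rw [Finset.card_image_of_injOn]
      rintro ⟨x1, x2⟩ hx ⟨y1, y2⟩ hy hxy
      have hx := (Finset.mem_filter.mp hx).2
      have hy := (Finset.mem_filter.mp hy).2
      simp only at hx hy hxy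
      rw [hx, hy, hxy]
    rw [hinj]
    refine card_ap H m.natAbs hmpos _ ?_ ?_
    · intro c hc
      obtain ⟨a, ha, rfl⟩ := Finset.mem_image.mp hc
      exact (hmem a (Finset.mem_filter.mp ha).1).1
    · intro c hc c' hc'
      obtain ⟨a, ha, rfl⟩ := Finset.mem_image.mp hc
      obtain ⟨a', ha', rfl⟩ := Finset.mem_image.mp hc'
      obtain ⟨haF, hab⟩ := Finset.mem_filter.mp ha
      obtain ⟨haF', hab'⟩ := Finset.mem_filter.mp ha'
      have h1 := (hmem a haF).2.2
      have h2 := (hmem a' haF').2.2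
      rw [hab] at h1
      rw [hab'] at h2
      have h3 : D' ∣ (a.1 - a'.1) * D3' := by
        have := dvd_sub h1 h2
        rwa [show a.1 * D3' + b * D4' - (a'.1 * D3' + b * D4') = (a.1 - a'.1) * D3' by ring] at this
      rw [hm, hd3, show (a.1 - a'.1) * (g * d3) = g * ((a.1 - a'.1) * d3) by ring] at h3
      have h4 := (mul_dvd_mul_iff_left hgz).mp h3
      rw [Int.natAbs_dvd]
      exact hcop2.dvd_of_dvd_mul_right h4
  have hcard : F.card ≤ (2 * H / m.natAbs + 1) * (2 * H / g + 1) :=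
    (Finset.card_le_mul_card_image F _ hfib).trans (Nat.mul_le_mul_left _ hS2)
  -- final computation
  have hgR : (1 : ℝ) ≤ g := by exact_mod_cast hgpos
  have hmR : (1 : ℝ) ≤ (m.natAbs : ℝ) := by exact_mod_cast hmpos
  have hqR : (0 : ℝ) < q0 := by exact_mod_cast hq0pos
  have hDabs : |(D : ℝ)| = q0 * (g * m.natAbs) := by
    rw [hD', hm]
    push_cast
    rw [abs_mul, abs_mul, Nat.abs_cast, Nat.abs_cast, Nat.cast_natAbs, Int.cast_abs]
  have h1 : ((2 * H / m.natAbs : ℕ) : ℝ) ≤ 2 * H / m.natAbs := by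
    refine (Nat.cast_div_le).trans ?_
    push_cast
    exact le_refl _
  have h2 : ((2 * H / g : ℕ) : ℝ) ≤ 2 * H / g := by
    refine (Nat.cast_div_le).trans ?_
    push_cast
    exact le_refl _
  have hH0 : (0 : ℝ) ≤ H := Nat.cast_nonneg _
  calc (F.card : ℝ) ≤ ((2 * H / m.natAbs + 1 : ℕ) : ℝ) * ((2 * H / g + 1 : ℕ) : ℝ) := by
        exact_mod_cast hcard
    _ = (((2 * H / m.natAbs : ℕ) : ℝ) + 1) * (((2 * H / g : ℕ) : ℝ) + 1) := by push_cast; rfl
    _ ≤ (2 * H / m.natAbs + 1) * (2 * H / g + 1) := by gcongr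
    _ = 4 * (H : ℝ) ^ 2 * q0 / |(D : ℝ)| + (2 * H / m.natAbs + 2 * H / g) + 1 := by
        rw [hDabs]
        have : (g : ℝ) ≠ 0 := by positivity
        have : (m.natAbs : ℝ) ≠ 0 := by positivity
        field_simp
        ring
    _ ≤ 4 * (H : ℝ) ^ 2 * q0 / |(D : ℝ)| + 4 * H + 1 := by
        have h3 : 2 * (H : ℝ) / m.natAbs ≤ 2 * H := div_le_self (by positivity) hmR
        have h4 : 2 * (H : ℝ) / g ≤ 2 * H := div_le_self (by positivity) hgR
        linarith

end Pool.Agent.Lib.MP_e426f4_ag.DG
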