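import Pool.Agent.Lib.MP_e426f4_ag.DG.Defs

/-!
# CntA: one residue condition with coprime variables
Let `m | q`.. here `m >= 1`, `c0, c1` coprime to `m`. If `m | c1 u^d - c0 v^d` and `gcd(u,v) = 1` then `u` and `v` are units modulo `m` (a prime
dividing m and u divides c0 v^d, hence v, contradiction; similarly v). For fixed `v` with at least one such `u` (call it `u0`) all the `u` satisfy
`u^d = u0^d mod m`, so `(u/u0)^d = 1`: the classes of `u` mod `m` are at most `rho d m` in number. The natural numbers `u` in a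
set of diameter `<= D` (`u - u' <= D` for all u,u' in it) in one class mod m: at most `D/m + 1`.
-/

set_option autoImplicit false

namespace Pool.Agent.Lib.MP_e426f4_ag.DG

open Finset

private theorem card_class (m : ℕ) (D : ℝ) (s : Finset ℕ)
    (hs : ∀ u ∈ s, ∀ u' ∈ s, (u : ℝ) - u' ≤ D) (hc : ∀ u ∈ s, ∀ u' ∈ s, u ≡ u' [MOD m]) :
    s.card ≤ ⌊D / m⌋₊ + 1 := by
  rcases s.eq_empty_or_nonempty with rfl | hne
  · simp
  set u0 := s.min' hne
  have h0 : u0 ∈ s := s.min'_mem hne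
  have hmin : ∀ u ∈ s, u0 ≤ u := fun u hu => s.min'_le u hu
  have hcard : s.card ≤ (range (⌊D / m⌋₊ + 1)).card := by
    apply Finset.card_le_card_of_injOn (fun u => (u - u0) / m)
    · intro u hu
      simp only [coe_range, Set.mem_Iio]
      rw [Nat.lt_succ_iff]
      apply Nat.le_floor
      calc (((u - u0) / m : ℕ) : ℝ) ≤ ((u - u0 : ℕ) : ℝ) / m := Nat.cast_div_le
        _ ≤ D / m := by
          gcongr
          rw [Nat.cast_sub (hmin u hu)]
          exact hs u hu u0 h0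
    · intro u hu u' hu' h
      have h1 : m * ((u - u0) / m) = u - u0 :=
        Nat.mul_div_cancel' ((Nat.modEq_iff_dvd' (hmin u hu)).1 (hc u0 h0 u hu))
      have h2 : m * ((u' - u0) / m) = u' - u0 :=
        Nat.mul_div_cancel' ((Nat.modEq_iff_dvd' (hmin u' hu')).1 (hc u0 h0 u' hu'))
      simp only at h
      rw [h, h2] at h1
      have h3 := hmin u hu
      have h4 := hmin u' hu'
      omega
  simpa using hcard

private theorem unit_of (d m c0 c1 u v : ℕ) (hd : 1 ≤ d) (h0 : Nat.Coprime c0 m)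
    (huv : Nat.Coprime u v) (h : (m : ℤ) ∣ (c1 : ℤ) * (u : ℤ) ^ d - c0 * (v : ℤ) ^ d) :
    Nat.Coprime u m := by
  rw [Nat.coprime_iff_gcd_eq_one]
  by_contra hne
  obtain ⟨p, hp, hpd⟩ := Nat.exists_prime_and_dvd hne
  have hpu : p ∣ u := hpd.trans (Nat.gcd_dvd_left _ _)
  have hpm : p ∣ m := hpd.trans (Nat.gcd_dvd_right _ _)
  have h1 : (p : ℤ) ∣ (c1 : ℤ) * (u : ℤ) ^ d - c0 * (v : ℤ) ^ d :=
    (Int.natCast_dvd_natCast.2 hpm).trans h
  have h2 : (p : ℤ) ∣ (c1 : ℤ) * (u : ℤ) ^ d :=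
    Dvd.dvd.mul_left ((Int.natCast_dvd_natCast.2 hpu).trans (dvd_pow_self _ (by omega))) _
  have h3 : (p : ℤ) ∣ (c0 : ℤ) * (v : ℤ) ^ d := by
    have := dvd_sub h2 h1
    simpa using this
  have h4 : p ∣ c0 * v ^ d := by exact_mod_cast h3
  rcases (Nat.Prime.dvd_mul hp).1 h4 with h5 | h5
  · exact hp.one_lt.ne' (Nat.dvd_one.1 (h0 ▸ Nat.dvd_gcd h5 hpm))
  · have h6 := hp.dvd_of_dvd_pow h5
    exact hp.one_lt.ne' (Nat.dvd_one.1 (huv ▸ Nat.dvd_gcd hpu h6))

theorem cnt_coprime (d m c0 c1 v : ℕ) (hd : 1 ≤ d) (hm : 1 ≤ m) (h0 : Nat.Coprime c0 m)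
    (h1 : Nat.Coprime c1 m) (D : ℝ) (hD : 0 ≤ D) (I : Set ℕ) (hI : ∀ u ∈ I, ∀ u' ∈ I, (u : ℝ) - u' ≤ D) :
    (Set.ncard {u : ℕ | u ∈ I ∧ Nat.Coprime u v ∧
      (m : ℤ) ∣ (c1 : ℤ) * (u : ℤ) ^ d - c0 * (v : ℤ) ^ d} : ℝ) ≤ rho d m * (D / m + 1) ∧
    {u : ℕ | u ∈ I ∧ Nat.Coprime u v ∧ (m : ℤ) ∣ (c1 : ℤ) * (u : ℤ) ^ d - c0 * (v : ℤ) ^ d}.Finite := by
  classical
  set T : Set ℕ := {u : ℕ | u ∈ I ∧ Nat.Coprime u v ∧
      (m : ℤ) ∣ (c1 : ℤ) * (u : ℤ) ^ d - c0 * (v : ℤ) ^ d} with hT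
  have hfin : T.Finite := by
    rcases I.eq_empty_or_nonempty with hIe | ⟨u', hu'⟩
    · apply Set.Finite.subset (Set.finite_empty)
      intro u hu
      rw [← hIe]; exact hu.1
    · apply Set.Finite.subset (Set.finite_Iic (u' + ⌊D⌋₊))
      intro u hu
      rw [Set.mem_Iic]
      rcases le_total u u' with h | h
      · exact h.trans (Nat.le_add_right _ _)
      · have h2 : u - u' ≤ ⌊D⌋₊ := by
          apply Nat.le_floor
          rw [Nat.cast_sub h]
          exact hI u hu.1 u' hu'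
        omega
  refine ⟨?_, hfin⟩
  rcases T.eq_empty_or_nonempty with hTe | ⟨u0, hu0⟩
  · rw [hTe, Set.ncard_empty, Nat.cast_zero]
    positivity
  rw [Set.ncard_eq_toFinset_card T hfin]
  have hu0m : Nat.Coprime u0 m := unit_of d m c0 c1 u0 v hd h0 hu0.2.1 hu0.2.2
  have : NeZero m := ⟨by omega⟩
  -- translation to `ZMod m`
  have hz : ∀ u ∈ T, (c1 : ZMod m) * (u : ZMod m) ^ d = (c0 : ZMod m) * (v : ZMod m) ^ d := by
    intro u hu
    have h2 := (ZMod.intCast_zmod_eq_zero_iff_dvd _ m).2 hu.2.2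
    push_cast at h2
    exact sub_eq_zero.1 h2
  have hc1 : (c1 : ZMod m) * (c1 : ZMod m)⁻¹ = 1 := ZMod.coe_mul_inv_eq_one c1 h1
  have hzu : ∀ u ∈ T, (u : ZMod m) ^ d = (u0 : ZMod m) ^ d := by
    intro u hu
    have h2 : (c1 : ZMod m) * (u : ZMod m) ^ d = (c1 : ZMod m) * (u0 : ZMod m) ^ d :=
      (hz u hu).trans (hz u0 hu0).symm
    have h3 := congrArg (fun x => x * (c1 : ZMod m)⁻¹) h2
    calc (u : ZMod m) ^ d = (c1 : ZMod m) * (c1 : ZMod m)⁻¹ * (u : ZMod m) ^ d := by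
          rw [hc1, one_mul]
      _ = (c1 : ZMod m) * (u : ZMod m) ^ d * (c1 : ZMod m)⁻¹ := by ring
      _ = (c1 : ZMod m) * (u0 : ZMod m) ^ d * (c1 : ZMod m)⁻¹ := h3
      _ = (c1 : ZMod m) * (c1 : ZMod m)⁻¹ * (u0 : ZMod m) ^ d := by ring
      _ = (u0 : ZMod m) ^ d := by rw [hc1, one_mul]
  set w : ℕ := ((u0 : ZMod m)⁻¹).val with hw
  have hww : (u0 : ZMod m) * (w : ZMod m) = 1 := by
    rw [hw, ZMod.natCast_zmod_val]
    exact ZMod.coe_mul_inv_eq_one u0 hu0m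
  have himg : (hfin.toFinset.image fun u => (u * w) % m) ⊆
      (range m).filter fun u => u ^ d ≡ 1 [MOD m] := by
    intro x hx
    obtain ⟨u, hu, rfl⟩ := Finset.mem_image.1 hx
    rw [Set.Finite.mem_toFinset] at hu
    rw [Finset.mem_filter, Finset.mem_range]
    refine ⟨Nat.mod_lt _ hm, ?_⟩
    rw [← ZMod.natCast_eq_natCast_iff]
    push_cast
    rw [ZMod.natCast_mod]
    push_cast
    rw [mul_pow, hzu u hu, ← mul_pow, hww, one_pow]
  have hkey := Finset.card_le_mul_card_image (f := fun u => (u * w) % m) hfin.toFinset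
    (⌊D / m⌋₊ + 1) (by
      intro a _
      apply card_class m D
      · intro u hu u' hu'
        rw [Finset.mem_filter, Set.Finite.mem_toFinset] at hu hu'
        exact hI u hu.1.1 u' hu'.1.1
      · intro u hu u' hu'
        rw [Finset.mem_filter] at hu hu'
        have h2 : (u * w) % m = (u' * w) % m := hu.2.trans hu'.2.symm
        have h3 : ((u * w : ℕ) : ZMod m) = ((u' * w : ℕ) : ZMod m) :=
          (ZMod.natCast_eq_natCast_iff _ _ _).2 h2
        push_cast at h3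
        rw [← ZMod.natCast_eq_natCast_iff]
        calc (u : ZMod m) = (u : ZMod m) * w * u0 := by rw [mul_assoc, mul_comm (w : ZMod m), hww,
              mul_one]
          _ = (u' : ZMod m) * w * u0 := by rw [h3]
          _ = (u' : ZMod m) := by rw [mul_assoc, mul_comm (w : ZMod m), hww, mul_one])
  have h5 : (hfin.toFinset.image fun u => (u * w) % m).card ≤ rho d m := Finset.card_le_card himg
  calc ((hfin.toFinset.card : ℕ) : ℝ) ≤ (((⌊D / m⌋₊ + 1) *
        (hfin.toFinset.image fun u => (u * w) % m).card : ℕ) : ℝ) := by exact_mod_cast hkey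
    _ ≤ (((⌊D / m⌋₊ + 1) * rho d m : ℕ) : ℝ) := by
        exact_mod_cast Nat.mul_le_mul_left _ h5
    _ = rho d m * ((⌊D / m⌋₊ : ℝ) + 1) := by push_cast; ring
    _ ≤ rho d m * (D / m + 1) := by
        have := Nat.floor_le (show (0 : ℝ) ≤ D / m by positivity)
        gcongr

end Pool.Agent.Lib.MP_e426f4_ag.DG
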