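import Pool.Agent.Lib.MP_e426f4_ag.DG.Defs

/-!
# Ed: the function e(h)
* the set in the definition of `ed` contains `h` itself (`h | h^d`, d >= 1), so `ed` is its minimum: `1 <= ed d h`, `h | (ed d h)^d`
  (`Nat.sInf_mem`).
* `ed_dvd_iff`: (<=) `ed^d | g^d`. (=>) let `e = ed d h`, `g' = gcd(e,g)`. `h | gcd(e^d, g^d) = gcd(e,g)^d` (`Nat.pow_gcd_pow`-type lemma, or
  prime by prime), so `g'` is in the set, `e <= g' <= e`, `g' = e`, `e | g`.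
* `kap_ge`: the term `h = 1` (`ed d 1 = 1`).
* `le_ed_pow`: `h | ed^d` gives `h <= ed^d`.
* `sum_gcd`: `gcd(q, g^d) = h` divides q and `h | g^d`, so `sum_{g<=Y} gcd(q,g^d)/(g^2 q) <= sum_{h|q} (h/q) sum_{g<=Y, ed h | g} 1/g^2
  <= sum_h (h/q) 2/(ed h)^2` (write `g = (ed h) k`, `sum 1/k^2 <= 2`).
-/

set_option autoImplicit false

namespace Pool.Agent.Lib.MP_e426f4_ag.DG

open Finset

private theorem ed_mem (d h : ℕ) (hd : 1 ≤ d) (hh : 1 ≤ h) : 1 ≤ ed d h ∧ h ∣ ed d h ^ d :=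
  Nat.sInf_mem (s := {e | 1 ≤ e ∧ h ∣ e ^ d}) ⟨h, hh, dvd_pow_self h (by omega)⟩

theorem ed_pos (d h : ℕ) (hd : 1 ≤ d) (hh : 1 ≤ h) : 1 ≤ ed d h := (ed_mem d h hd hh).1

theorem ed_spec (d h : ℕ) (hd : 1 ≤ d) (hh : 1 ≤ h) : h ∣ ed d h ^ d := (ed_mem d h hd hh).2

theorem ed_dvd_iff (d h g : ℕ) (hd : 1 ≤ d) (hh : 1 ≤ h) (hg : 1 ≤ g) :
    h ∣ g ^ d ↔ ed d h ∣ g := by
  constructor
  · intro h1
    have h2 : h ∣ (Nat.gcd (ed d h) g) ^ d := by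
      have := Nat.dvd_gcd (ed_spec d h hd hh) h1
      rwa [Nat.pow_gcd_pow] at this
    have h3 : 1 ≤ Nat.gcd (ed d h) g := Nat.gcd_pos_of_pos_right _ hg
    have h4 : ed d h ≤ Nat.gcd (ed d h) g :=
      Nat.sInf_le (s := {e | 1 ≤ e ∧ h ∣ e ^ d}) ⟨h3, h2⟩
    have h5 : Nat.gcd (ed d h) g ≤ ed d h :=
      Nat.le_of_dvd (ed_pos d h hd hh) (Nat.gcd_dvd_left _ _)
    have h6 : Nat.gcd (ed d h) g = ed d h := le_antisymm h5 h4
    rw [← h6]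
    exact Nat.gcd_dvd_right _ _
  · intro h1
    exact (ed_spec d h hd hh).trans (pow_dvd_pow_of_dvd h1 d)

theorem kap_nonneg (d q : ℕ) : 0 ≤ kap d q := by
  unfold kap
  exact Finset.sum_nonneg fun h _ => by positivity

theorem kap_ge (d q : ℕ) (hd : 1 ≤ d) (hq : 1 ≤ q) : 1 / (q : ℝ) ≤ kap d q := by
  have h1 : ed d 1 = 1 := by
    refine le_antisymm ?_ (ed_pos d 1 hd le_rfl)
    exact Nat.sInf_le (s := {e | 1 ≤ e ∧ 1 ∣ e ^ d}) ⟨le_rfl, one_dvd _⟩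
  have h2 : (((1 : ℕ) : ℝ) / q / (ed d 1 : ℝ) ^ 2) ≤ kap d q := by
    unfold kap
    refine Finset.single_le_sum (f := fun h : ℕ => (h : ℝ) / q / (ed d h : ℝ) ^ 2)
      (fun h _ => by positivity) ?_
    rw [Nat.mem_divisors]
    exact ⟨one_dvd _, by omega⟩
  rw [h1] at h2
  simpa using h2

private theorem sum_inv_sq (Y : ℕ) : ∑ k ∈ Icc 1 Y, 1 / (k : ℝ) ^ 2 ≤ 2 - 1 / (Y : ℝ) := by
  induction Y with
  | zero => simp
  | succ n ih =>
    rw [Finset.sum_Icc_succ_top (by omega)]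
    rcases Nat.eq_zero_or_pos n with rfl | hn
    · norm_num
    · have hn' : (0 : ℝ) < n := by exact_mod_cast hn
      have key : 1 / ((n : ℝ) + 1) ^ 2 ≤ 1 / (n : ℝ) - 1 / ((n : ℝ) + 1) := by
        rw [div_sub_div _ _ hn'.ne' (by positivity), div_le_div_iff₀ (by positivity)
          (by positivity)]
        nlinarith
      push_cast
      linarith

private theorem sum_mult (e Y : ℕ) (he : 1 ≤ e) :
    ∑ g ∈ (Icc 1 Y).filter (e ∣ ·), 1 / (g : ℝ) ^ 2 ≤ 2 / (e : ℝ) ^ 2 := by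
  have he' : (0 : ℝ) < e := by exact_mod_cast he
  have hsub : (Icc 1 Y).filter (e ∣ ·) ⊆ (Icc 1 Y).image (e * ·) := by
    intro g hg
    rw [Finset.mem_filter, Finset.mem_Icc] at hg
    obtain ⟨⟨h1, h2⟩, k, rfl⟩ := hg
    refine Finset.mem_image.2 ⟨k, ?_, rfl⟩
    rw [Finset.mem_Icc]
    constructor
    · exact Nat.pos_of_mul_pos_left h1
    · exact (Nat.le_mul_of_pos_left k he).trans h2
  calc ∑ g ∈ (Icc 1 Y).filter (e ∣ ·), 1 / (g : ℝ) ^ 2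
      ≤ ∑ g ∈ (Icc 1 Y).image (e * ·), 1 / (g : ℝ) ^ 2 :=
        Finset.sum_le_sum_of_subset_of_nonneg hsub fun g _ _ => by positivity
    _ = ∑ k ∈ Icc 1 Y, 1 / ((e * k : ℕ) : ℝ) ^ 2 := by
        refine Finset.sum_image fun a _ b _ hab => ?_
        exact Nat.eq_of_mul_eq_mul_left he hab
    _ = (1 / (e : ℝ) ^ 2) * ∑ k ∈ Icc 1 Y, 1 / (k : ℝ) ^ 2 := by
        rw [Finset.mul_sum]
        refine Finset.sum_congr rfl fun k _ => ?_
        push_cast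
        rw [mul_pow, one_div_mul_one_div]
    _ ≤ (1 / (e : ℝ) ^ 2) * 2 := by
        refine mul_le_mul_of_nonneg_left ?_ (by positivity)
        have := sum_inv_sq Y
        have h0 : (0 : ℝ) ≤ 1 / (Y : ℝ) := by positivity
        linarith
    _ = 2 / (e : ℝ) ^ 2 := by ring

theorem sum_gcd (d q Y : ℕ) (hd : 1 ≤ d) (hq : 1 ≤ q) :
    ∑ g ∈ Icc 1 Y, ((Nat.gcd q (g ^ d) : ℕ) : ℝ) / ((g : ℝ) ^ 2 * q) ≤ 2 * kap d q := by
  have hq' : (0 : ℝ) < q := by exact_mod_cast hq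
  have h1 : ∀ g ∈ Icc 1 Y, ((Nat.gcd q (g ^ d) : ℕ) : ℝ) / ((g : ℝ) ^ 2 * q) ≤
      ∑ h ∈ q.divisors, if ed d h ∣ g then ((h : ℝ) / q) * (1 / (g : ℝ) ^ 2) else 0 := by
    intro g hg
    have hg1 : 1 ≤ g := (Finset.mem_Icc.1 hg).1
    set h := Nat.gcd q (g ^ d) with hh
    have hpos : 1 ≤ h := Nat.gcd_pos_of_pos_left _ hq
    have hmem : h ∈ q.divisors := Nat.mem_divisors.2 ⟨Nat.gcd_dvd_left _ _, by omega⟩
    have hed : ed d h ∣ g := (ed_dvd_iff d h g hd hpos hg1).1 (Nat.gcd_dvd_right _ _)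
    have h2 : (if ed d h ∣ g then ((h : ℝ) / q) * (1 / (g : ℝ) ^ 2) else 0) ≤
        ∑ h ∈ q.divisors, if ed d h ∣ g then ((h : ℝ) / q) * (1 / (g : ℝ) ^ 2) else 0 := by
      refine Finset.single_le_sum
        (f := fun h : ℕ => if ed d h ∣ g then ((h : ℝ) / q) * (1 / (g : ℝ) ^ 2) else 0)
        (fun k _ => ?_) hmem
      split_ifs
      · positivity
      · exact le_rfl
    rw [if_pos hed] at h2
    refine le_trans (le_of_eq ?_) h2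
    have hg' : (g : ℝ) ≠ 0 := by
      exact_mod_cast (by omega : g ≠ 0)
    field_simp
  refine (Finset.sum_le_sum h1).trans ?_
  rw [Finset.sum_comm]
  unfold kap
  rw [Finset.mul_sum]
  refine Finset.sum_le_sum fun h hh => ?_
  have hpos : 1 ≤ h := Nat.pos_of_mem_divisors hh
  rw [← Finset.sum_filter, ← Finset.mul_sum]
  have h3 := sum_mult (ed d h) Y (ed_pos d h hd hpos)
  calc (h : ℝ) / q * ∑ g ∈ (Icc 1 Y).filter (ed d h ∣ ·), 1 / (g : ℝ) ^ 2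
      ≤ (h : ℝ) / q * (2 / (ed d h : ℝ) ^ 2) :=
        mul_le_mul_of_nonneg_left h3 (by positivity)
    _ = 2 * ((h : ℝ) / q / (ed d h : ℝ) ^ 2) := by ring

end Pool.Agent.Lib.MP_e426f4_ag.DG
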