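import Pool.Agent.Lib.MP_e426f4_ag.DG.Defs
import Pool.Agent.Lib.MP_e426f4_ag.DG.CntA
import Pool.Agent.Lib.MP_e426f4_ag.DG.Ed

/-!
# Cnt: the counting lemma (CNT)
Sort the pairs `(u,v)` by `g = gcd(u,v) <= Y`, `u = g u1`, `v = g v1`, `gcd(u1,v1) = 1`, `v1 <= Y/g`. Let `G = gcd(q,g^d)`, `qg = q/G`.
From `q | g^d (c1 u1^d - c0 v1^d)` we get `qg | c1 u1^d - c0 v1^d` (`qg` is coprime to `g^d/G`). `u1` lies in the set `{u1 : g u1 in I(g v1)}` of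
diameter `<= lam Y/g`. By `cnt_coprime` (m := qg, D := lam Y/g) at most `r (lam Y/(g qg) + 1)` values of `u1`. Sum over `v1 <= Y/g` (at most
`Y/g` values) and `g`: `sum_g (Y/g) r (lam Y G/(g q) + 1) = r (lam Y^2 sum_g G/(g^2 q) + Y sum_g 1/g) <= r(2 lam Y^2 kap + Y(1 + log Y))`
(`sum_gcd`; harmonic sum: Mathlib `harmonic_le_one_add_log`).
-/

set_option autoImplicit false

namespace Pool.Agent.Lib.MP_e426f4_ag.DG

open Finset

/-- the inner set -/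
private def cntA (d q c0 c1 : ℕ) (I : ℕ → Set ℕ) (g v : ℕ) : Set ℕ :=
  {u : ℕ | u ∈ {x : ℕ | g * x ∈ I (g * v)} ∧ Nat.Coprime u v ∧
    ((q / Nat.gcd q (g ^ d) : ℕ) : ℤ) ∣ (c1 : ℤ) * (u : ℤ) ^ d - c0 * (v : ℤ) ^ d}

private theorem cnt_one (d q c0 Y : ℕ) (hd : 1 ≤ d) (hq : 1 ≤ q) (hc : Nat.Coprime c0 q)
    (c1 : ℕ) (hc1 : Nat.Coprime c1 q)
    (lam r : ℝ) (hlam : 0 ≤ lam) (I : ℕ → Set ℕ)
    (hI : ∀ v, ∀ u ∈ I v, ∀ u' ∈ I v, (u : ℝ) - u' ≤ lam * Y)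
    (hr : ∀ m, m ∣ q → (rho d m : ℝ) ≤ r) (g v : ℕ) (hg : 1 ≤ g) :
    ((cntA d q c0 c1 I g v).ncard : ℝ) ≤
      r * (lam * Y * (Nat.gcd q (g ^ d) : ℕ) / (g * q) + 1) ∧
      (cntA d q c0 c1 I g v).Finite := by
  set G := Nat.gcd q (g ^ d) with hG
  have hGq : G ∣ q := Nat.gcd_dvd_left _ _
  have hGpos : 0 < G := Nat.gcd_pos_of_pos_left _ hq
  have hqg : q / G ∣ q := Nat.div_dvd_of_dvd hGq
  have hqgpos : 1 ≤ q / G := Nat.div_pos (Nat.le_of_dvd hq hGq) hGpos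
  have hgR : (0 : ℝ) < g := by exact_mod_cast hg
  have hqR : (0 : ℝ) < q := by exact_mod_cast hq
  have hGR : (0 : ℝ) < G := by exact_mod_cast hGpos
  have h := cnt_coprime d (q / G) c0 c1 v hd hqgpos (Nat.Coprime.coprime_dvd_right hqg hc)
    (Nat.Coprime.coprime_dvd_right hqg hc1) (lam * Y / g) (by positivity)
    {x : ℕ | g * x ∈ I (g * v)} (by
      intro u hu u' hu'
      have := hI _ _ hu _ hu'
      rw [le_div_iff₀ hgR]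
      push_cast at this
      nlinarith)
  refine ⟨h.1.trans ?_, h.2⟩
  have hcast : ((q / G : ℕ) : ℝ) = (q : ℝ) / G := Nat.cast_div hGq (by positivity)
  rw [hcast]
  have e : lam * Y / g / ((q : ℝ) / G) + 1 = lam * Y * G / (g * q) + 1 := by
    field_simp
  rw [e]
  exact mul_le_mul_of_nonneg_right (hr _ hqg) (by positivity)

theorem cnt (d q c0 Y : ℕ) (hd : 1 ≤ d) (hq : 1 ≤ q) (hY : 1 ≤ Y) (hc : Nat.Coprime c0 q)
    (c1 : ℕ) (hc1 : Nat.Coprime c1 q)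
    (lam r : ℝ) (hlam : 0 ≤ lam) (I : ℕ → Set ℕ)
    (hI : ∀ v, ∀ u ∈ I v, ∀ u' ∈ I v, (u : ℝ) - u' ≤ lam * Y)
    (hr : ∀ m, m ∣ q → (rho d m : ℝ) ≤ r) :
    (Set.ncard {uv : ℕ × ℕ | 1 ≤ uv.1 ∧ uv.1 ≤ Y ∧ 1 ≤ uv.2 ∧ uv.2 ≤ Y ∧
      (q : ℤ) ∣ (c1 : ℤ) * (uv.1 : ℤ) ^ d - c0 * (uv.2 : ℤ) ^ d ∧ uv.1 ∈ I uv.2} : ℝ) ≤
      r * (2 * lam * Y ^ 2 * kap d q + Y * (1 + Real.log Y)) := by
  classical
  have hr0 : 0 ≤ r := le_trans (Nat.cast_nonneg _) (hr 1 (one_dvd _))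
  have hYR : (1 : ℝ) ≤ Y := by exact_mod_cast hY
  have hqR : (0 : ℝ) < q := by exact_mod_cast hq
  set S : Set (ℕ × ℕ) := {uv : ℕ × ℕ | 1 ≤ uv.1 ∧ uv.1 ≤ Y ∧ 1 ≤ uv.2 ∧ uv.2 ≤ Y ∧
      (q : ℤ) ∣ (c1 : ℤ) * (uv.1 : ℤ) ^ d - c0 * (uv.2 : ℤ) ^ d ∧ uv.1 ∈ I uv.2} with hS
  have hfin : ∀ g v, (if 1 ≤ g then cntA d q c0 c1 I g v else ∅).Finite := by
    intro g v
    split_ifs with hg
    · exact (cnt_one d q c0 Y hd hq hc c1 hc1 lam r hlam I hI hr g v hg).2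
    · exact Set.finite_empty
  set F : Finset (ℕ × ℕ) := (Icc 1 Y).biUnion fun g => (Icc 1 (Y / g)).biUnion fun v =>
    (hfin g v).toFinset.image fun u => (g * u, g * v) with hF
  have hsub : S ⊆ (F : Set (ℕ × ℕ)) := by
    rintro ⟨u, v⟩ ⟨hu1, hu2, hv1, hv2, hdv, hI'⟩
    simp only at hu1 hu2 hv1 hv2 hdv hI'
    set g := Nat.gcd u v with hg
    have hgpos : 0 < g := Nat.gcd_pos_of_pos_left _ hu1
    obtain ⟨u1, hu⟩ : g ∣ u := Nat.gcd_dvd_left _ _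
    obtain ⟨v1, hv⟩ : g ∣ v := Nat.gcd_dvd_right _ _
    have hcop : Nat.Coprime u1 v1 := by
      have : g * Nat.gcd u1 v1 = g * 1 := by
        rw [← Nat.gcd_mul_left, ← hu, ← hv, mul_one]
      exact Nat.eq_of_mul_eq_mul_left hgpos this
    have hgY : g ≤ Y := le_trans (Nat.le_of_dvd hu1 ⟨u1, hu⟩) hu2
    have hv1pos : 1 ≤ v1 := by
      rcases Nat.eq_zero_or_pos v1 with h0 | h0
      · rw [h0, mul_zero] at hv
        omega
      · exact h0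
    have hv1le : v1 ≤ Y / g := by
      rw [Nat.le_div_iff_mul_le hgpos, mul_comm, ← hv]
      exact hv2
    set G := Nat.gcd q (g ^ d) with hG
    have hGq : G ∣ q := Nat.gcd_dvd_left _ _
    have hGpos : 0 < G := Nat.gcd_pos_of_pos_left _ hq
    have hdvd : ((q / G : ℕ) : ℤ) ∣ (c1 : ℤ) * (u1 : ℤ) ^ d - c0 * (v1 : ℤ) ^ d := by
      have h1 : (q : ℤ) ∣ ((g ^ d : ℕ) : ℤ) * ((c1 : ℤ) * (u1 : ℤ) ^ d - c0 * (v1 : ℤ) ^ d) := by
        have e : ((g ^ d : ℕ) : ℤ) * ((c1 : ℤ) * (u1 : ℤ) ^ d - c0 * (v1 : ℤ) ^ d) =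
            (c1 : ℤ) * (u : ℤ) ^ d - c0 * (v : ℤ) ^ d := by
          rw [hu, hv]
          push_cast
          ring
        rw [e]
        exact hdv
      obtain ⟨k, hk⟩ : G ∣ g ^ d := Nat.gcd_dvd_right _ _
      have hqe : q = G * (q / G) := (Nat.mul_div_cancel' hGq).symm
      have hcop2 : Nat.Coprime (q / G) k := by
        have h2 := Nat.coprime_div_gcd_div_gcd (m := q) (n := g ^ d) hGpos
        have h3 : g ^ d / Nat.gcd q (g ^ d) = k := by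
          rw [← hG, hk, Nat.mul_div_cancel_left _ hGpos]
        rw [h3] at h2
        exact h2
      have h4 : (G : ℤ) * ((q / G : ℕ) : ℤ) ∣ (G : ℤ) * ((k : ℤ) *
          ((c1 : ℤ) * (u1 : ℤ) ^ d - c0 * (v1 : ℤ) ^ d)) := by
        have e1 : (G : ℤ) * ((q / G : ℕ) : ℤ) = (q : ℤ) := by
          exact_mod_cast hqe.symm
        rw [e1, ← mul_assoc]
        rw [hk] at h1
        push_cast at h1 ⊢
        exact h1
      have h5 : ((q / G : ℕ) : ℤ) ∣ (k : ℤ) *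
          ((c1 : ℤ) * (u1 : ℤ) ^ d - c0 * (v1 : ℤ) ^ d) :=
        (mul_dvd_mul_iff_left (by exact_mod_cast hGpos.ne')).1 h4
      exact IsCoprime.dvd_of_dvd_mul_left (Nat.isCoprime_iff_coprime.2 hcop2) h5
    rw [hF]
    simp only [coe_biUnion, Set.mem_iUnion, coe_image, Set.mem_image, coe_Icc, Set.mem_Icc]
    refine ⟨g, ⟨hgpos, hgY⟩, v1, ⟨hv1pos, hv1le⟩, u1, ?_, ?_⟩
    · simp only [Set.Finite.coe_toFinset]
      rw [if_pos (show 1 ≤ g from hgpos)]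
      refine ⟨?_, hcop, hdvd⟩
      show g * u1 ∈ I (g * v1)
      rw [← hu, ← hv]
      exact hI'
    · rw [← hu, ← hv]
  have hcard : (S.ncard : ℝ) ≤ F.card := by
    have := Set.ncard_le_ncard hsub F.finite_toSet
    rw [Set.ncard_coe_finset] at this
    exact_mod_cast this
  have hFcard : (F.card : ℝ) ≤ ∑ g ∈ Icc 1 Y, ∑ v ∈ Icc 1 (Y / g),
      r * (lam * Y * (Nat.gcd q (g ^ d) : ℕ) / (g * q) + 1) := by
    have h1 : F.card ≤ ∑ g ∈ Icc 1 Y, ∑ v ∈ Icc 1 (Y / g), (hfin g v).toFinset.card := by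
      refine card_biUnion_le.trans (sum_le_sum fun g _ => ?_)
      refine card_biUnion_le.trans (sum_le_sum fun v _ => ?_)
      exact card_image_le
    have h2 : (F.card : ℝ) ≤ ∑ g ∈ Icc 1 Y, ∑ v ∈ Icc 1 (Y / g), ((hfin g v).toFinset.card : ℝ) := by
      exact_mod_cast h1
    refine h2.trans (sum_le_sum fun g hg => sum_le_sum fun v _ => ?_)
    have hg1 : 1 ≤ g := (mem_Icc.1 hg).1
    have h3 := (cnt_one d q c0 Y hd hq hc c1 hc1 lam r hlam I hI hr g v hg1).1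
    rw [← Set.ncard_eq_toFinset_card _ (hfin g v)]
    rw [if_pos hg1]
    exact h3
  refine hcard.trans (hFcard.trans ?_)
  have hstep : ∀ g ∈ Icc 1 Y, ∑ v ∈ Icc 1 (Y / g),
      r * (lam * Y * (Nat.gcd q (g ^ d) : ℕ) / (g * q) + 1) ≤
      r * (lam * Y ^ 2 * (((Nat.gcd q (g ^ d) : ℕ) : ℝ) / ((g : ℝ) ^ 2 * q)) + Y * (1 / (g : ℝ))) := by
    intro g hg
    have hg1 : 1 ≤ g := (mem_Icc.1 hg).1
    have hgR : (0 : ℝ) < g := by exact_mod_cast hg1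
    rw [sum_const, nsmul_eq_mul, Nat.card_Icc, Nat.add_sub_cancel]
    have h1 : ((Y / g : ℕ) : ℝ) ≤ (Y : ℝ) / g := Nat.cast_div_le
    have h2 : 0 ≤ r * (lam * Y * (Nat.gcd q (g ^ d) : ℕ) / (g * q) + 1) := by positivity
    calc ((Y / g : ℕ) : ℝ) * (r * (lam * Y * (Nat.gcd q (g ^ d) : ℕ) / (g * q) + 1))
        ≤ ((Y : ℝ) / g) * (r * (lam * Y * (Nat.gcd q (g ^ d) : ℕ) / (g * q) + 1)) :=
          mul_le_mul_of_nonneg_right h1 h2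
      _ = _ := by field_simp
  refine (sum_le_sum hstep).trans ?_
  rw [← mul_sum]
  refine mul_le_mul_of_nonneg_left ?_ hr0
  rw [sum_add_distrib, ← mul_sum, ← mul_sum]
  have hA := sum_gcd d q Y hd hq
  have hB : ∑ g ∈ Icc 1 Y, (1 / (g : ℝ)) ≤ 1 + Real.log Y := by
    have h1 := harmonic_le_one_add_log Y
    rw [harmonic_eq_sum_Icc] at h1
    push_cast at h1
    simpa [one_div] using h1
  have hk := kap_nonneg d q
  calc lam * Y ^ 2 * ∑ g ∈ Icc 1 Y, (((Nat.gcd q (g ^ d) : ℕ) : ℝ) / ((g : ℝ) ^ 2 * q)) +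
        Y * ∑ g ∈ Icc 1 Y, (1 / (g : ℝ))
      ≤ lam * Y ^ 2 * (2 * kap d q) + Y * (1 + Real.log Y) := by
        gcongr
    _ = _ := by ring

end Pool.Agent.Lib.MP_e426f4_ag.DG
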