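import Pool.Agent.Lib.MP_e426f4_ag.DG.Defs

/-!
# Facts1: elementary facts on a Setup
`B = 4 L T`; elements of `X i` are `t l`, `t in I` (1 <= t <= T, T < E t), `l in PS i` prime, `L < l <= 4L`.
* `X_bounds`: `t l <= T 4L = B`; `B = 4LT < 4 L E t < 4 E l t`.
* `X_card`: `(t,l) -> t l` is injective on `I x PS i`: `l | t' l'`, `t' <= T < L < l` (m < Mx, R >= 2) so `l = l'`.
* `XX_bounds`: `I` contains all `t` in `(T/2, T]` (E >= 2), so `|I| >= T/2`, `|I| <= T`; `R^(Mx-1) = L/R`.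
* `n_facts`: `n = P/(4H)`, `8(s+2) H B^d < P`, so `P >= 8H`, `n >= 1`, `4 n H <= P < 4(n+1)H <= 8 n H`.
* `FF_split`, `Z_mem`: definitions (`Z0`, `Z1` partition `X i x X i`); `z in Z1 i` iff `z = (t l, t' l)`, `z in Z0 i` iff `z = (t l, t' l')`, `l != l'`.
* `disj`: l in PS i, l' in PS j, i != j: l != l'.
-/

set_option autoImplicit false

namespace Pool.Agent.Lib.MP_e426f4_ag.DG

open Finset

variable {d s m Mx E : ℕ} (S : Setup d s m Mx E)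

theorem Setup.B_pos : 1 ≤ S.B := by
  have h := S.hR
  unfold Setup.B
  have h0 : 0 < S.R := by omega
  exact Nat.one_le_iff_ne_zero.mpr (by positivity)

theorem Setup.B_eq : S.B = 4 * S.L * S.T := rfl

theorem Setup.T_lt_L (h : m < Mx) : S.T < S.L := by
  unfold Setup.T Setup.L
  have h2 := S.hR
  exact Nat.pow_lt_pow_right (by omega) h

theorem Setup.X_mem (i : Fin s) (x : ℕ) : x ∈ S.X i ↔
    ∃ t l, t ∈ S.I ∧ l ∈ S.PS i ∧ x = t * l := by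
  unfold Setup.X
  simp only [mem_image, mem_product, Prod.exists]
  constructor
  · rintro ⟨t, l, ⟨ht, hl⟩, rfl⟩
    exact ⟨t, l, ht, hl, rfl⟩
  · rintro ⟨t, l, ht, hl, rfl⟩
    exact ⟨t, l, ⟨ht, hl⟩, rfl⟩

theorem Setup.I_mem (t : ℕ) : t ∈ S.I ↔ 1 ≤ t ∧ t ≤ S.T ∧ S.T < E * t := by
  unfold Setup.I Setup.T
  simp only [mem_filter, mem_Icc]
  tauto

theorem Setup.X_bounds (hE : 1 ≤ E) (i : Fin s) (x : ℕ) (hx : x ∈ S.X i) :
    1 ≤ x ∧ x ≤ S.B ∧ S.B < 4 * E * x := by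
  obtain ⟨t, l, ht, hl, rfl⟩ := (S.X_mem i x).1 hx
  obtain ⟨h1, h2, h3⟩ := (S.I_mem t).1 ht
  obtain ⟨hp, hl1, hl2⟩ := S.hPS i l hl
  have hl0 : 0 < l := hp.pos
  refine ⟨Nat.mul_pos (by omega) hl0, ?_, ?_⟩
  · rw [S.B_eq]
    have : t * l ≤ S.T * (4 * S.L) := Nat.mul_le_mul h2 hl2
    linarith
  · rw [S.B_eq]
    have hL : S.L < l := hl1
    have hpos : 0 < E * t := by omega
    calc 4 * S.L * S.T ≤ 4 * S.L * (E * t) := Nat.mul_le_mul_left _ h3.le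
      _ < 4 * l * (E * t) := by
        apply Nat.mul_lt_mul_of_pos_right _ hpos
        omega
      _ = 4 * E * (t * l) := by ring

theorem Setup.F1_l_dvd (hm : m < Mx) (i j : Fin s) {t' l l' : ℕ} (ht' : t' ∈ S.I)
    (hl : l ∈ S.PS i) (hl' : l' ∈ S.PS j) (h : l ∣ t' * l') : l = l' := by
  obtain ⟨h1, h2, _⟩ := (S.I_mem t').1 ht'
  obtain ⟨hp, hl1, _⟩ := S.hPS i l hl
  obtain ⟨hp', _, _⟩ := S.hPS j l' hl'
  have hTL := S.T_lt_L hm
  have hL : S.L < l := hl1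
  rcases (Nat.Prime.dvd_mul hp).1 h with h | h
  · exfalso
    have := Nat.le_of_dvd (by omega) h
    omega
  · exact (Nat.prime_dvd_prime_iff_eq hp hp').1 h

theorem Setup.X_card (hm : m < Mx) (hm0 : 1 ≤ m) (i : Fin s) : ((S.X i).card : ℝ) = S.XX := by
  unfold Setup.XX
  have h : (S.X i).card = S.I.card * S.R ^ (Mx - 1) := by
    unfold Setup.X
    rw [card_image_of_injOn, card_product, S.hcard i]
    rintro ⟨t, l⟩ h1 ⟨t', l'⟩ h2 h3
    simp only [coe_product, Set.mem_prod, mem_coe] at h1 h2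
    simp only at h3
    obtain ⟨hp, hl1, _⟩ := S.hPS i l h1.2
    have e : l = l' := S.F1_l_dvd hm i i h2.1 h1.2 h2.2 (by rw [← h3]; exact Dvd.intro_left t rfl)
    subst e
    have : t = t' := Nat.eq_of_mul_eq_mul_right hp.pos h3
    rw [this]
  rw [h]
  push_cast
  ring

theorem Setup.F1_I_card_le : S.I.card ≤ S.T := by
  unfold Setup.I Setup.T
  calc _ ≤ (Icc 1 (S.R ^ m)).card := card_filter_le _ _
    _ = _ := by simp

theorem Setup.F1_I_card_ge (hE : 2 ≤ E) : S.T ≤ 2 * S.I.card := by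
  have hR := S.hR
  have hT : 0 < S.T := by
    unfold Setup.T
    have : 0 < S.R := by omega
    positivity
  have hsub : Ioc (S.T / 2) S.T ⊆ S.I := by
    intro t ht
    rw [mem_Ioc] at ht
    rw [S.I_mem]
    refine ⟨by omega, ht.2, ?_⟩
    have h1 : S.T < 2 * t := by omega
    have h2 : 2 * t ≤ E * t := Nat.mul_le_mul_right _ hE
    omega
  have := card_le_card hsub
  rw [Nat.card_Ioc] at this
  omega

theorem Setup.XX_bounds (hE : 2 ≤ E) (hM : 1 ≤ Mx) :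
    (S.B : ℝ) / (8 * S.R) ≤ S.XX ∧ S.XX ≤ S.B := by
  have hR := S.hR
  have hR0 : (0 : ℝ) < S.R := by
    have : 0 < S.R := by omega
    exact_mod_cast this
  have hR1 : (1 : ℝ) ≤ S.R := by
    have : 1 ≤ S.R := by omega
    exact_mod_cast this
  have h1 : (S.T : ℝ) ≤ 2 * S.I.card := by exact_mod_cast S.F1_I_card_ge hE
  have h2 : (S.I.card : ℝ) ≤ S.T := by exact_mod_cast S.F1_I_card_le
  have hL : (S.L : ℝ) = S.R * (S.R : ℝ) ^ (Mx - 1) := by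
    unfold Setup.L
    obtain ⟨k, rfl⟩ : ∃ k, Mx = k + 1 := ⟨Mx - 1, by omega⟩
    simp only [Nat.add_sub_cancel]
    push_cast
    ring
  have hB : (S.B : ℝ) = 4 * S.L * S.T := by
    rw [S.B_eq]; push_cast; ring
  have hW : (0 : ℝ) < (S.R : ℝ) ^ (Mx - 1) := by positivity
  have hI0 : (0 : ℝ) ≤ S.I.card := by positivity
  have hT0 : (0 : ℝ) ≤ S.T := by positivity
  unfold Setup.XX
  constructor
  · rw [hB, hL, div_le_iff₀ (by positivity)]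
    have : (S.T : ℝ) * (S.R : ℝ) ^ (Mx - 1) * S.R ≤
        2 * S.I.card * (S.R : ℝ) ^ (Mx - 1) * S.R := by
      gcongr
    nlinarith
  · rw [hB, hL]
    calc (S.I.card : ℝ) * (S.R : ℝ) ^ (Mx - 1) ≤ S.T * (S.R : ℝ) ^ (Mx - 1) := by gcongr
      _ = 1 * (S.T * (S.R : ℝ) ^ (Mx - 1)) := by ring
      _ ≤ (4 * S.R) * (S.T * (S.R : ℝ) ^ (Mx - 1)) := by
        apply mul_le_mul_of_nonneg_right _ (by positivity)
        linarith
      _ = _ := by ring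

theorem Setup.n_facts : 0 < S.n ∧ S.n ≤ S.P ∧ 4 * S.n * S.H ≤ S.P ∧
    (S.P : ℝ) / S.n ≤ 8 * S.H ∧ 4 * S.H * S.B ^ d < S.P ∧ 2 * S.H < S.P ∧ 0 < S.H := by
  have hB := S.B_pos
  have hBd : 1 ≤ S.B ^ d := Nat.one_le_pow _ _ hB
  have hH0 : 0 < S.H := by
    have := S.hH1
    have h2 : 1 ≤ (4 * S.R ^ Mx * S.R ^ m) ^ d := hBd
    omega
  have hP : 8 * (s + 2) * S.H * S.B ^ d < S.P := S.hP
  have h16 : 16 * S.H * S.B ^ d ≤ 8 * (s + 2) * S.H * S.B ^ d := by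
    have : 16 ≤ 8 * (s + 2) := by omega
    gcongr
  have hHB : S.H ≤ S.H * S.B ^ d := Nat.le_mul_of_pos_right _ hBd
  have h3 : 16 * S.H ≤ 16 * S.H * S.B ^ d := by
    rw [mul_assoc]; exact Nat.mul_le_mul_left _ hHB
  have hn0 : 0 < S.n := by
    unfold Setup.n
    apply Nat.div_pos _ (by omega)
    omega
  have hn4 : 4 * S.n * S.H ≤ S.P := by
    unfold Setup.n
    have := Nat.div_mul_le_self S.P (4 * S.H)
    calc _ = S.P / (4 * S.H) * (4 * S.H) := by ring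
      _ ≤ _ := this
  have hlt : S.P < 4 * (S.n + 1) * S.H := by
    unfold Setup.n
    have := Nat.lt_div_mul_add (a := S.P) (b := 4 * S.H) (by omega)
    calc S.P < S.P / (4 * S.H) * (4 * S.H) + 4 * S.H := this
      _ = _ := by ring
  refine ⟨hn0, ?_, hn4, ?_, ?_, ?_, hH0⟩
  · unfold Setup.n
    exact Nat.div_le_self _ _
  · have hnr : (0 : ℝ) < S.n := by exact_mod_cast hn0
    rw [div_le_iff₀ hnr]
    have h5 : S.P ≤ 8 * S.H * S.n := by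
      have : 4 * (S.n + 1) * S.H ≤ 8 * S.H * S.n := by
        have : S.n + 1 ≤ 2 * S.n := by omega
        calc 4 * (S.n + 1) * S.H ≤ 4 * (2 * S.n) * S.H := by gcongr
          _ = _ := by ring
      omega
    exact_mod_cast h5
  · have : 4 * S.H * S.B ^ d ≤ 16 * S.H * S.B ^ d := by
      have : 4 ≤ 16 := by norm_num
      gcongr
    omega
  · omega

theorem FF_split (i : Fin s) (b b' : ZMod S.P) :
    FF S.P S.n d (S.X i) b b' = FZ S.P S.n d (S.Z0 i) b b' + FZ S.P S.n d (S.Z1 i) b b' := by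
  unfold FF FZ Setup.Z0 Setup.Z1
  rw [add_comm]
  exact (sum_filter_add_sum_filter_not _ _ _).symm

theorem Setup.Z1_mem (hm : m < Mx) (i : Fin s) (z : ℕ × ℕ) : z ∈ S.Z1 i ↔
    ∃ t t' l, t ∈ S.I ∧ t' ∈ S.I ∧ l ∈ S.PS i ∧ z = (t * l, t' * l) := by
  obtain ⟨x, y⟩ := z
  unfold Setup.Z1
  simp only [mem_filter, mem_product, Prod.mk.injEq]
  constructor
  · rintro ⟨⟨hx, hy⟩, l, hl, h1, h2⟩
    obtain ⟨t, l1, ht, hl1, rfl⟩ := (S.X_mem i x).1 hx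
    obtain ⟨t', l2, ht', hl2, rfl⟩ := (S.X_mem i y).1 hy
    have e1 : l = l1 := S.F1_l_dvd hm i i ht hl hl1 h1
    have e2 : l = l2 := S.F1_l_dvd hm i i ht' hl hl2 h2
    subst e1
    subst e2
    exact ⟨t, t', l, ht, ht', hl, rfl, rfl⟩
  · rintro ⟨t, t', l, ht, ht', hl, rfl, rfl⟩
    exact ⟨⟨(S.X_mem i _).2 ⟨t, l, ht, hl, rfl⟩, (S.X_mem i _).2 ⟨t', l, ht', hl, rfl⟩⟩, l, hl,
      Dvd.intro_left t rfl, Dvd.intro_left t' rfl⟩

theorem Setup.Z0_mem (hm : m < Mx) (i : Fin s) (z : ℕ × ℕ) : z ∈ S.Z0 i ↔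
    ∃ t t' l l', t ∈ S.I ∧ t' ∈ S.I ∧ l ∈ S.PS i ∧ l' ∈ S.PS i ∧ l ≠ l' ∧
      z = (t * l, t' * l') := by
  obtain ⟨x, y⟩ := z
  unfold Setup.Z0
  simp only [mem_filter, mem_product, Prod.mk.injEq]
  constructor
  · rintro ⟨⟨hx, hy⟩, h⟩
    obtain ⟨t, l1, ht, hl1, rfl⟩ := (S.X_mem i x).1 hx
    obtain ⟨t', l2, ht', hl2, rfl⟩ := (S.X_mem i y).1 hy
    refine ⟨t, t', l1, l2, ht, ht', hl1, hl2, ?_, rfl, rfl⟩
    rintro rfl
    exact h ⟨l1, hl1, Dvd.intro_left t rfl, Dvd.intro_left t' rfl⟩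
  · rintro ⟨t, t', l, l', ht, ht', hl, hl', hne, rfl, rfl⟩
    refine ⟨⟨(S.X_mem i _).2 ⟨t, l, ht, hl, rfl⟩, (S.X_mem i _).2 ⟨t', l', ht', hl', rfl⟩⟩, ?_⟩
    rintro ⟨l0, hl0, h1, h2⟩
    have e1 : l0 = l := S.F1_l_dvd hm i i ht hl0 hl h1
    have e2 : l0 = l' := S.F1_l_dvd hm i i ht' hl0 hl' h2
    exact hne (e1.symm.trans e2)

theorem Setup.main_nonneg : 0 ≤ S.main := by
  unfold Setup.main
  positivity

end Pool.Agent.Lib.MP_e426f4_ag.DG
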