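import Pool.Agent.Lib.MP_e426f4_ag.DG.Defs

/-!
# RhoP: roots of unity modulo prime powers
`rho_prime_pow`: for `p` odd the unit group of `Z/p^e` is cyclic (`ZMod.isCyclic_units_of_prime_pow`-type results in
`Mathlib.RingTheory.ZMod.UnitsCyclic`: `ZMod.isCyclic_units_iff`), and in a finite cyclic group `#{u : u^d = 1} <= d`
(`IsCyclic.card_pow_eq_one_le`). For `p = 2`: by strong induction on `d`: if `d` is odd then `u^d = 1` and `u^(2^e) = 1`.. give `u = 1` (the group has
2-power order), one solution; if `d = 2 d'` the map `u -> u^2` maps the solutions to the solutions for `d'` and each fibre has at most 4 elements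
(`u^2 = u0^2` iff `(u/u0)^2 = 1`; `w^2 = 1` mod `2^e` has at most 4 solutions: 2^e | (w-1)(w+1), one of the factors is divisible by `2^{e-1}`).
So at most `4^{v_2(d)} <= d^2`.
(`rho d m` counts the residues `u < m` with `u^d = 1 mod m`.)
-/

set_option autoImplicit false

namespace Pool.Agent.Lib.MP_e426f4_ag.DG

open Finset

private lemma rhop_units (d m : ℕ) [NeZero m] (hd : 1 ≤ d) :
    rho d m ≤ ((univ : Finset (ZMod m)ˣ).filter fun w => w ^ d = 1).card := by
  classical
  unfold rho
  have hcop : ∀ u ∈ (range m).filter (fun u => u ^ d ≡ 1 [MOD m]), Nat.Coprime u m := by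
    intro u hu
    have h1 := (Finset.mem_filter.1 hu).2
    have h2 : Nat.Coprime (u ^ d) m := by
      have h3 := h1.gcd_eq
      rw [Nat.gcd_one_left] at h3
      exact h3
    exact Nat.Coprime.coprime_dvd_left (dvd_pow_self u (by omega)) h2
  refine Finset.card_le_card_of_injOn
    (fun u => if h : Nat.Coprime u m then ZMod.unitOfCoprime u h else 1) ?_ ?_
  · intro u hu
    have hc := hcop u hu
    have h1 := (Finset.mem_filter.1 hu).2
    show (if h : Nat.Coprime u m then ZMod.unitOfCoprime u h else 1) ∈ _
    rw [dif_pos hc, Finset.mem_coe, Finset.mem_filter]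
    refine ⟨Finset.mem_univ _, ?_⟩
    apply Units.ext
    rw [Units.val_pow_eq_pow_val, ZMod.coe_unitOfCoprime, Units.val_one]
    have h2 := (ZMod.natCast_eq_natCast_iff _ _ _).2 h1
    push_cast at h2
    exact h2
  · intro u hu v hv huv
    have hcu := hcop u hu
    have hcv := hcop v hv
    have huv' : (if h : Nat.Coprime u m then ZMod.unitOfCoprime u h else 1)
        = (if h : Nat.Coprime v m then ZMod.unitOfCoprime v h else 1) := huv
    rw [dif_pos hcu, dif_pos hcv] at huv'
    have h1 := congrArg (fun w : (ZMod m)ˣ => (w : ZMod m)) huv'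
    simp only [ZMod.coe_unitOfCoprime] at h1
    rw [ZMod.natCast_eq_natCast_iff'] at h1
    have hu1 := Finset.mem_range.1 (Finset.mem_filter.1 hu).1
    have hv1 := Finset.mem_range.1 (Finset.mem_filter.1 hv).1
    rwa [Nat.mod_eq_of_lt hu1, Nat.mod_eq_of_lt hv1] at h1

/-- square roots of one modulo a power of two -/
private lemma rhop_sq (e : ℕ) :
    ((univ : Finset (ZMod (2 ^ e))ˣ).filter fun w => w ^ 2 = 1).card ≤ 4 := by
  classical
  have key : ∀ w : (ZMod (2 ^ e))ˣ, w ^ 2 = 1 → (w : ZMod (2 ^ e)) ∈
      ({1, 1 + 2 ^ (e - 1), -1, -1 + 2 ^ (e - 1)} : Finset (ZMod (2 ^ e))) := by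
    intro w hw
    rcases Nat.lt_or_ge e 1 with he | he
    · have he0 : e = 0 := by omega
      subst he0
      have : Subsingleton (ZMod (2 ^ 0)) := by
        rw [pow_zero]
        infer_instance
      rw [Finset.mem_insert]
      exact Or.inl (Subsingleton.elim _ _)
    have hw' : (w : ZMod (2 ^ e)) ^ 2 = 1 := by
      have := congrArg (fun w : (ZMod (2 ^ e))ˣ => (w : ZMod (2 ^ e))) hw
      simpa using this
    obtain ⟨x, hx⟩ := ZMod.intCast_surjective (w : ZMod (2 ^ e))
    rw [← hx] at hw' ⊢
    have h1 : ((2 : ℤ) ^ e) ∣ (x - 1) * (x + 1) := by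
      have h2 : (((x - 1) * (x + 1) : ℤ) : ZMod (2 ^ e)) = 0 := by
        push_cast
        linear_combination hw'
      have h3 := (ZMod.intCast_zmod_eq_zero_iff_dvd _ _).1 h2
      exact_mod_cast h3
    -- `x` is odd
    have h2 : (2 : ℤ) ∣ (x - 1) * (x + 1) := (dvd_pow_self _ (by omega)).trans h1
    have hodd : ∃ a, x = 2 * a + 1 := by
      rcases Int.even_or_odd x with ⟨b, hb⟩ | ⟨b, hb⟩
      · exfalso
        obtain ⟨c, hc⟩ := h2
        have h3 : (x - 1) * (x + 1) = 2 * (2 * b * b) - 1 := by rw [hb]; ring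
        omega
      · exact ⟨b, hb⟩
    obtain ⟨a, ha⟩ := hodd
    have h3 : ((2 : ℤ) ^ (e - 1)) ∣ x - 1 ∨ ((2 : ℤ) ^ (e - 1)) ∣ x + 1 := by
      rcases Nat.lt_or_ge e 2 with he2 | he2
      · left
        have : e - 1 = 0 := by omega
        rw [this, pow_zero]
        exact one_dvd _
      · obtain ⟨f, rfl⟩ : ∃ f, e = f + 2 := ⟨e - 2, by omega⟩
        have h4 : ((2 : ℤ) ^ f) ∣ a * (a + 1) := by
          obtain ⟨c, hc⟩ := h1
          refine ⟨c, ?_⟩
          have h5 : (4 : ℤ) * (a * (a + 1)) = 4 * (2 ^ f * c) := by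
            have h6 : (x - 1) * (x + 1) = 4 * (a * (a + 1)) := by rw [ha]; ring
            rw [← h6, hc, pow_add]
            ring
          linarith
        have hcop : IsCoprime a (a + 1) := ⟨-1, 1, by ring⟩
        have h5 : ((2 : ℤ) ^ f) ∣ a ∨ ((2 : ℤ) ^ f) ∣ a + 1 := by
          rcases Nat.eq_zero_or_pos f with hf | hf
          · left
            rw [hf, pow_zero]
            exact one_dvd _
          by_cases h6 : (2 : ℤ) ∣ a
          · left
            have h7 : ¬ (2 : ℤ) ∣ a + 1 := by omega
            have h8 : IsCoprime ((2 : ℤ) ^ f) (a + 1) :=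
              IsCoprime.pow_left ((Int.prime_two.coprime_iff_not_dvd).2 h7)
            exact h8.dvd_of_dvd_mul_right h4
          · right
            have h8 : IsCoprime ((2 : ℤ) ^ f) a :=
              IsCoprime.pow_left ((Int.prime_two.coprime_iff_not_dvd).2 h6)
            exact h8.dvd_of_dvd_mul_left h4
        have he1 : f + 2 - 1 = f + 1 := by omega
        rw [he1, pow_succ]
        rcases h5 with ⟨c, hc⟩ | ⟨c, hc⟩
        · left
          exact ⟨c, by rw [ha, hc]; ring⟩
        · right
          refine ⟨c, ?_⟩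
          have : x + 1 = 2 * (a + 1) := by rw [ha]; ring
          rw [this, hc]
          ring
    have h2e : (2 : ZMod (2 ^ e)) ^ (e - 1) * 2 = 0 := by
      rw [← pow_succ, Nat.sub_add_cancel he]
      have := ZMod.natCast_self (2 ^ e)
      push_cast at this
      exact this
    have h4 : ∀ c : ℤ, ((2 : ZMod (2 ^ e)) ^ (e - 1) * (c : ZMod (2 ^ e))) = 0 ∨
        ((2 : ZMod (2 ^ e)) ^ (e - 1) * (c : ZMod (2 ^ e))) = 2 ^ (e - 1) := by
      intro c
      rcases Int.even_or_odd c with ⟨b, hb⟩ | ⟨b, hb⟩
      · left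
        rw [hb]
        push_cast
        linear_combination (b : ZMod (2 ^ e)) * h2e
      · right
        rw [hb]
        push_cast
        linear_combination (b : ZMod (2 ^ e)) * h2e
    rw [Finset.mem_insert, Finset.mem_insert, Finset.mem_insert, Finset.mem_singleton]
    rcases h3 with ⟨c, hc⟩ | ⟨c, hc⟩
    · have h5 : (x : ZMod (2 ^ e)) - 1 = 2 ^ (e - 1) * (c : ZMod (2 ^ e)) := by
        have := congrArg (fun z : ℤ => (z : ZMod (2 ^ e))) hc
        push_cast at this
        exact this
      rcases h4 c with h6 | h6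
      · left
        rw [h6] at h5
        linear_combination h5
      · right; left
        rw [h6] at h5
        linear_combination h5
    · have h5 : (x : ZMod (2 ^ e)) + 1 = 2 ^ (e - 1) * (c : ZMod (2 ^ e)) := by
        have := congrArg (fun z : ℤ => (z : ZMod (2 ^ e))) hc
        push_cast at this
        exact this
      rcases h4 c with h6 | h6
      · right; right; left
        rw [h6] at h5
        linear_combination h5
      · right; right; right
        rw [h6] at h5
        linear_combination h5
  calc ((univ : Finset (ZMod (2 ^ e))ˣ).filter fun w => w ^ 2 = 1).card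
      ≤ ({1, 1 + 2 ^ (e - 1), -1, -1 + 2 ^ (e - 1)} : Finset (ZMod (2 ^ e))).card := by
        refine Finset.card_le_card_of_injOn (fun w => (w : ZMod (2 ^ e))) ?_ ?_
        · intro w hw
          exact key w (Finset.mem_filter.1 hw).2
        · intro w _ v _ h
          exact Units.ext h
    _ ≤ 4 := by
        refine (Finset.card_insert_le _ _).trans ?_
        have h1 := Finset.card_insert_le (1 + 2 ^ (e - 1) : ZMod (2 ^ e))
          ({-1, -1 + 2 ^ (e - 1)} : Finset (ZMod (2 ^ e)))
        have h2 := Finset.card_insert_le (-1 : ZMod (2 ^ e))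
          ({-1 + 2 ^ (e - 1)} : Finset (ZMod (2 ^ e)))
        rw [Finset.card_singleton] at h2
        omega

private lemma rhop_two (e d : ℕ) (hd : 1 ≤ d) :
    ((univ : Finset (ZMod (2 ^ e))ˣ).filter fun w => w ^ d = 1).card ≤ d ^ 2 := by
  classical
  induction d using Nat.strong_induction_on with
  | _ d ih =>
    rcases Nat.even_or_odd d with ⟨c, hc⟩ | hodd
    · have hc' : d = 2 * c := by omega
      subst hc'
      have h1 := ih c (by omega) (by omega)
      have h2 : ((univ : Finset (ZMod (2 ^ e))ˣ).filter fun w => w ^ (2 * c) = 1).card ≤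
          4 * ((univ : Finset (ZMod (2 ^ e))ˣ).filter fun w => w ^ c = 1).card := by
        refine Finset.card_le_mul_card_image_of_maps_to (f := fun w : (ZMod (2 ^ e))ˣ => w ^ 2)
          ?_ 4 ?_
        · intro w hw
          rw [Finset.mem_filter] at hw ⊢
          refine ⟨Finset.mem_univ _, ?_⟩
          rw [← pow_mul]
          exact hw.2
        · intro v hv
          rcases (((univ : Finset (ZMod (2 ^ e))ˣ).filter fun w => w ^ (2 * c) = 1).filter
            fun w => w ^ 2 = v).eq_empty_or_nonempty with h | ⟨w0, hw0⟩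
          · rw [h]
            simp
          · rw [Finset.mem_filter] at hw0
            refine le_trans ?_ (rhop_sq e)
            refine Finset.card_le_card_of_injOn (fun w => w * w0⁻¹) ?_ ?_
            · intro w hw
              rw [Finset.mem_coe, Finset.mem_filter] at hw
              rw [Finset.mem_coe, Finset.mem_filter]
              refine ⟨Finset.mem_univ _, ?_⟩
              rw [mul_pow, inv_pow, hw.2, hw0.2, mul_inv_cancel]
            · intro w _ w' _ h
              exact mul_right_cancel h
      calc _ ≤ 4 * c ^ 2 := h2.trans (Nat.mul_le_mul_left _ h1)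
        _ = (2 * c) ^ 2 := by ring
    · have h1 : ((univ : Finset (ZMod (2 ^ e))ˣ).filter fun w => w ^ d = 1) ⊆ {1} := by
        intro w hw
        rw [Finset.mem_singleton]
        have hw2 := (Finset.mem_filter.1 hw).2
        have h2 : orderOf w ∣ d := orderOf_dvd_of_pow_eq_one hw2
        have h3 : orderOf w ∣ Fintype.card (ZMod (2 ^ e))ˣ := orderOf_dvd_card
        rw [ZMod.card_units_eq_totient] at h3
        have h4 : Nat.totient (2 ^ e) ∣ 2 ^ e := by
          rcases Nat.eq_zero_or_pos e with he | he
          · subst he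
            simp
          · rw [Nat.totient_prime_pow Nat.prime_two he]
            obtain ⟨f, rfl⟩ : ∃ f, e = f + 1 := ⟨e - 1, by omega⟩
            simp [pow_succ]
        have h5 : Nat.Coprime d (2 ^ e) :=
          Nat.Coprime.pow_right _ (Nat.coprime_two_right.2 hodd)
        have h6 : orderOf w ∣ 1 := by
          rw [← h5.gcd_eq_one]
          exact Nat.dvd_gcd h2 (h3.trans h4)
        exact orderOf_eq_one_iff.1 (Nat.dvd_one.1 h6)
      calc _ ≤ ({1} : Finset (ZMod (2 ^ e))ˣ).card := Finset.card_le_card h1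
        _ = 1 := Finset.card_singleton _
        _ ≤ d ^ 2 := Nat.one_le_pow _ _ hd

theorem rho_prime_pow (d p e : ℕ) (hd : 1 ≤ d) (hp : p.Prime) : rho d (p ^ e) ≤ d ^ 2 := by
  classical
  have : NeZero (p ^ e) := ⟨(pow_pos hp.pos e).ne'⟩
  refine (rhop_units d (p ^ e) hd).trans ?_
  by_cases hp2 : p = 2
  · subst hp2
    exact rhop_two e d hd
  · have hc := ZMod.isCyclic_units_of_prime_pow p hp hp2 e
    have h1 := IsCyclic.card_pow_eq_one_le (α := (ZMod (p ^ e))ˣ) (n := d) hd
    refine h1.trans ?_
    nlinarith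

end Pool.Agent.Lib.MP_e426f4_ag.DG
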