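import Pool.Agent.Lib.MP_e426f4_ag.DG.Defs
import Pool.Agent.Lib.MP_e426f4_ag.DG.RhoP
import Pool.Agent.Lib.MP_dd84fd_nt.DivBound

/-!
# Rho: roots of unity modulo m
`rho_mul`: for coprime `m, n` the map `u -> (u mod m, u mod n)` is injective from the solutions mod `mn` to pairs of solutions.
Hence `rho d m <= prod_{p | m} d^2 = (d^2)^{omega(m)}` (`rho_prime_pow`, induction `Nat.recOnPosPrimePosCoprime`), and
`omega`: `2^{omega(m)} <= tau(m)` so `(d^2)^{omega(m)} <= tau(m)^{2 d}`  (`d^2 <= 2^{2d}`; `d <= 2^d`).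
Divisor bound: `Pool.Agent.Lib.MP_dd84fd_nt.DivBound.div_bound (k) : ∃ C, 1 ≤ C ∧ ∀ m ≠ 0, m.divisors.card ^ k ≤ C * m`
(file Pool/Agent/Lib/MP_dd84fd_nt/DivBound.lean, import it) with exponent `2 d k`.
-/

set_option autoImplicit false

namespace Pool.Agent.Lib.MP_e426f4_ag.DG

open Finset

private lemma rho_mul_le (d m n : ℕ) (h : Nat.Coprime m n) :
    rho d (m * n) ≤ rho d m * rho d n := by
  classical
  unfold rho
  rw [← Finset.card_product]
  refine Finset.card_le_card_of_injOn (fun u => (u % m, u % n)) ?_ ?_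
  · intro u hu
    rw [Finset.mem_coe, Finset.mem_filter, Finset.mem_range] at hu
    obtain ⟨hu1, hu2⟩ := hu
    have hmn : 0 < m * n := by omega
    have hm : 0 < m := Nat.pos_of_mul_pos_right hmn
    have hn : 0 < n := Nat.pos_of_mul_pos_left hmn
    rw [Finset.mem_coe, Finset.mem_product, Finset.mem_filter, Finset.mem_filter,
      Finset.mem_range, Finset.mem_range]
    refine ⟨⟨Nat.mod_lt _ hm, ?_⟩, ⟨Nat.mod_lt _ hn, ?_⟩⟩
    · exact ((Nat.mod_modEq u m).pow d).trans (hu2.of_dvd (dvd_mul_right m n))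
    · exact ((Nat.mod_modEq u n).pow d).trans (hu2.of_dvd (dvd_mul_left n m))
  · intro u hu v hv huv
    have hu1 := Finset.mem_range.1 (Finset.mem_filter.1 hu).1
    have hv1 := Finset.mem_range.1 (Finset.mem_filter.1 hv).1
    have h1 := congrArg Prod.fst huv
    have h2 := congrArg Prod.snd huv
    have h3 : u ≡ v [MOD m * n] := (Nat.modEq_and_modEq_iff_modEq_mul h).1 ⟨h1, h2⟩
    exact h3.eq_of_lt_of_lt hu1 hv1

private lemma rho_le_div (d : ℕ) (hd : 1 ≤ d) (m : ℕ) (hm : 1 ≤ m) :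
    rho d m ≤ m.divisors.card ^ (2 * d) := by
  induction m using Nat.recOnPosPrimePosCoprime with
  | zero => omega
  | one =>
    have h1 := rho_prime_pow d 2 0 hd Nat.prime_two
    have h2 : rho d 1 ≤ 1 := by
      unfold rho
      refine (Finset.card_filter_le _ _).trans ?_
      rw [Finset.card_range]
    simpa using h2
  | prime_pow p n hp hn =>
    refine (rho_prime_pow d p n hd hp).trans ?_
    rw [Nat.divisors_prime_pow hp, Finset.card_map, Finset.card_range]
    calc d ^ 2 ≤ (2 ^ d) ^ 2 := Nat.pow_le_pow_left (Nat.lt_two_pow_self).le _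
      _ = 2 ^ (2 * d) := by rw [← pow_mul, mul_comm]
      _ ≤ (n + 1) ^ (2 * d) := Nat.pow_le_pow_left (by omega) _
  | coprime a b ha hb hab iha ihb =>
    rw [hab.card_divisors_mul, mul_pow]
    exact (rho_mul_le d a b hab).trans (Nat.mul_le_mul (iha (by omega)) (ihb (by omega)))

theorem rho_bound (d : ℕ) (hd : 1 ≤ d) (k : ℕ) :
    ∃ C : ℕ, 1 ≤ C ∧ ∀ m : ℕ, 1 ≤ m → rho d m ^ k ≤ C * m := by
  obtain ⟨C, hC, h⟩ := Pool.Agent.Lib.MP_dd84fd_nt.DivBound.div_bound (2 * d * k)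
  refine ⟨C, hC, fun m hm => ?_⟩
  calc rho d m ^ k ≤ (m.divisors.card ^ (2 * d)) ^ k := Nat.pow_le_pow_left (rho_le_div d hd m hm) _
    _ = m.divisors.card ^ (2 * d * k) := by rw [← pow_mul]
    _ ≤ C * m := h m (by omega)

end Pool.Agent.Lib.MP_e426f4_ag.DG
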