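import Pool.Agent.Lib.MP_e426f4_ag.DG.Defs
import Pool.Agent.Lib.MP_e426f4_ag.DG.Ed
import Pool.Agent.Lib.MP_dd84fd_nt.DivBound

/-!
# KapA: the sum over h
Let `al = 1 + 1/(2 d)` (any real exponent `1 <= al <= 1 + 1/(2d)` follows). Group by `e = ed d h` (`h | e^d`, `ed_spec`):
`sum_{h in D} h^al e(h)^{-2d} <= sum_e e^{-2d} sum_{h | e^d} h^al <= sum_e e^{-2d} tau(e^d) e^{d al}`, `d al = d + 1/2`. The divisor bound
(`DivBound.div_bound (k)`, file Pool/Agent/Lib/MP_dd84fd_nt/DivBound.lean): with `k = 2 d`, `tau(e^d)^{2d} <= C e^d`, so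
`tau(e^d) <= C' e^{1/2}`. Total `sum_e C' e^{-2d+d+1/2+1/2} = C' sum_e e^{1-d}`. If all `h` in the sum satisfy `Y <= h` then `e^d >= h >= Y`, `e >= Y^{1/d}`, and
(d >= 4) `sum_{e >= Y0} e^{1-d} <= C Y0^{2-d} <= C Y0^{-2}..`: with `Y0 = Y^{1/d}`: `<= C Y^{-(d-2)/d} <= C Y^{-1/2}`.
-/

set_option autoImplicit false

namespace Pool.Agent.Lib.MP_e426f4_ag.DG

open Finset

/-- tail of the sum of inverse squares -/
private theorem KapA_tail (E₀ : ℕ) (hE : 1 ≤ E₀) (N : ℕ) :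
    ∑ e ∈ (Icc 1 N).filter (fun e => E₀ ≤ e), 1 / (e : ℝ) ^ 2 ≤ 2 / (E₀ : ℝ) := by
  have h1 : (Icc 1 N).filter (fun e => E₀ ≤ e) ⊆ Ioo (E₀ - 1) (N + 1) := by
    intro e he
    rw [mem_filter, mem_Icc] at he
    rw [mem_Ioo]
    omega
  have h2 := sum_Ioo_inv_sq_le (α := ℝ) (E₀ - 1) (N + 1)
  rw [Nat.cast_sub hE, Nat.cast_one, sub_add_cancel] at h2
  refine le_trans ?_ h2
  refine le_trans (sum_le_sum_of_subset_of_nonneg h1 (fun i _ _ => by positivity)) ?_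
  exact le_of_eq (sum_congr rfl (fun i _ => by rw [one_div]))

/-- the divisor bound for `e ^ d` -/
private theorem KapA_div (d : ℕ) (hd : 1 ≤ d) : ∃ C : ℝ, 0 < C ∧ ∀ e : ℕ, 1 ≤ e →
    ((e ^ d).divisors.card : ℝ) ≤ C * (e : ℝ) ^ (1 / 2 : ℝ) := by
  obtain ⟨C, hC1, hC⟩ := Pool.Agent.Lib.MP_dd84fd_nt.DivBound.div_bound (2 * d)
  refine ⟨C, by exact_mod_cast hC1, fun e he => ?_⟩
  have h1 := hC (e ^ d) (pow_ne_zero _ (by omega))
  have he0 : (0 : ℝ) < e := by exact_mod_cast he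
  have hC1' : (1 : ℝ) ≤ C := by exact_mod_cast hC1
  have h2 : ((e ^ d).divisors.card : ℝ) ^ (2 * d) ≤ (C : ℝ) * (e : ℝ) ^ d := by
    exact_mod_cast h1
  have h3 : ((C : ℝ) * (e : ℝ) ^ (1 / 2 : ℝ)) ^ (2 * d) = (C : ℝ) ^ (2 * d) * (e : ℝ) ^ d := by
    rw [mul_pow]
    congr 1
    rw [← Real.rpow_natCast ((e : ℝ) ^ (1 / 2 : ℝ)), ← Real.rpow_mul he0.le, ← Real.rpow_natCast (e : ℝ) d]
    congr 1
    push_cast
    ring
  have h4 : ((e ^ d).divisors.card : ℝ) ^ (2 * d) ≤ ((C : ℝ) * (e : ℝ) ^ (1 / 2 : ℝ)) ^ (2 * d) := by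
    rw [h3]
    refine le_trans h2 (mul_le_mul_of_nonneg_right ?_ (by positivity))
    exact le_self_pow₀ hC1' (by omega)
  exact le_of_pow_le_pow_left₀ (by omega) (by positivity) h4

theorem kap_h (d : ℕ) (hd : 4 ≤ d) : ∃ C : ℝ, 0 < C ∧ ∀ Y N : ℕ, 1 ≤ Y →
    ∑ h ∈ (Icc 1 N).filter (fun h => Y ≤ h),
      (h : ℝ) ^ (1 + 1 / (2 * (d : ℝ))) / (ed d h : ℝ) ^ (2 * d) ≤ C * (Y : ℝ) ^ (-(1 / 2 : ℝ)) := by
  obtain ⟨C, hC0, hC⟩ := KapA_div d (by omega)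
  refine ⟨2 * C, by positivity, fun Y N hY => ?_⟩
  have hex : ∃ e : ℕ, Y ≤ e ^ d := ⟨Y, Nat.le_self_pow (by omega) Y⟩
  classical
  obtain ⟨E₀, hE₀, hEmin⟩ : ∃ E₀ : ℕ, Y ≤ E₀ ^ d ∧ ∀ e : ℕ, Y ≤ e ^ d → E₀ ≤ e :=
    ⟨Nat.find hex, Nat.find_spec hex, fun e he => Nat.find_min' hex he⟩
  have hE1 : 1 ≤ E₀ := by
    rcases Nat.eq_zero_or_pos E₀ with h | h
    · rw [h, zero_pow (by omega)] at hE₀
      omega
    · exact h
  have hdR : (4 : ℝ) ≤ d := by exact_mod_cast hd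
  have hE0R : (0 : ℝ) < E₀ := by exact_mod_cast hE1
  -- the grouping
  have hmaps : ∀ h ∈ (Icc 1 N).filter (fun h => Y ≤ h), ed d h ∈
      (Icc 1 N).filter (fun e => E₀ ≤ e) := by
    intro h hh
    rw [mem_filter, mem_Icc] at hh
    have h1 := ed_pos d h (by omega) hh.1.1
    have h2 := ed_spec d h (by omega) hh.1.1
    have h3 : ed d h ∣ h := (ed_dvd_iff d h h (by omega) hh.1.1 hh.1.1).1
      (dvd_pow_self h (by omega))
    have h4 := Nat.le_of_dvd hh.1.1 h3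
    have h5 := Nat.le_of_dvd (Nat.pow_pos h1) h2
    rw [mem_filter, mem_Icc]
    exact ⟨⟨h1, by omega⟩, hEmin _ (by omega)⟩
  rw [← sum_fiberwise_of_maps_to hmaps]
  have hinner : ∀ e ∈ (Icc 1 N).filter (fun e => E₀ ≤ e),
      ∑ h ∈ ((Icc 1 N).filter (fun h => Y ≤ h)).filter (fun h => ed d h = e),
        (h : ℝ) ^ (1 + 1 / (2 * (d : ℝ))) / (ed d h : ℝ) ^ (2 * d) ≤
      C * (1 / (E₀ : ℝ) ^ (d - 3)) * (1 / (e : ℝ) ^ 2) := by
    intro e he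
    rw [mem_filter, mem_Icc] at he
    have he0 : (0 : ℝ) < e := by exact_mod_cast he.1.1
    have h1 : ∀ h ∈ ((Icc 1 N).filter (fun h => Y ≤ h)).filter (fun h => ed d h = e),
        h ∈ (e ^ d).divisors ∧ (h : ℝ) ^ (1 + 1 / (2 * (d : ℝ))) / (ed d h : ℝ) ^ (2 * d) ≤
          (e : ℝ) ^ ((d : ℝ) + 1 / 2) / (e : ℝ) ^ (2 * d) := by
      intro h hh
      rw [mem_filter, mem_filter, mem_Icc] at hh
      have h2 := ed_spec d h (by omega) hh.1.1.1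
      rw [hh.2] at h2
      refine ⟨Nat.mem_divisors.2 ⟨h2, pow_ne_zero _ (by omega)⟩, ?_⟩
      rw [hh.2]
      refine div_le_div_of_nonneg_right ?_ (by positivity)
      have h3 : (h : ℝ) ≤ (e : ℝ) ^ d := by
        exact_mod_cast Nat.le_of_dvd (Nat.pow_pos (by omega)) h2
      calc (h : ℝ) ^ (1 + 1 / (2 * (d : ℝ))) ≤ ((e : ℝ) ^ d) ^ (1 + 1 / (2 * (d : ℝ))) :=
            Real.rpow_le_rpow (by positivity) h3 (by positivity)
        _ = (e : ℝ) ^ ((d : ℝ) + 1 / 2) := by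
            rw [← Real.rpow_natCast (e : ℝ) d, ← Real.rpow_mul he0.le]
            congr 1
            field_simp
    calc _ ≤ ∑ h ∈ ((Icc 1 N).filter (fun h => Y ≤ h)).filter (fun h => ed d h = e),
          (e : ℝ) ^ ((d : ℝ) + 1 / 2) / (e : ℝ) ^ (2 * d) := sum_le_sum (fun h hh => (h1 h hh).2)
      _ = ((((Icc 1 N).filter (fun h => Y ≤ h)).filter (fun h => ed d h = e)).card : ℝ) *
          ((e : ℝ) ^ ((d : ℝ) + 1 / 2) / (e : ℝ) ^ (2 * d)) := by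
          rw [sum_const, nsmul_eq_mul]
      _ ≤ (C * (e : ℝ) ^ (1 / 2 : ℝ)) * ((e : ℝ) ^ ((d : ℝ) + 1 / 2) / (e : ℝ) ^ (2 * d)) := by
          refine mul_le_mul_of_nonneg_right ?_ (by positivity)
          refine le_trans ?_ (hC e he.1.1)
          exact_mod_cast card_le_card (fun h hh => (h1 h hh).1)
      _ = C * (1 / (e : ℝ) ^ (d - 3)) * (1 / (e : ℝ) ^ 2) := by
          have h4 : (e : ℝ) ^ (2 * d) = (e : ℝ) ^ (d - 3) * (e : ℝ) ^ 2 * (e : ℝ) ^ (d + 1) := by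
            rw [← pow_add, ← pow_add]
            congr 1
            omega
          have h5 : (e : ℝ) ^ (1 / 2 : ℝ) * (e : ℝ) ^ ((d : ℝ) + 1 / 2) = (e : ℝ) ^ (d + 1) := by
            rw [← Real.rpow_add he0, ← Real.rpow_natCast]
            congr 1
            push_cast
            ring
          rw [mul_assoc, mul_div_assoc', h5, h4]
          field_simp
      _ ≤ C * (1 / (E₀ : ℝ) ^ (d - 3)) * (1 / (e : ℝ) ^ 2) := by
          have h6 : (E₀ : ℝ) ≤ e := by exact_mod_cast he.2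
          gcongr
  refine le_trans (sum_le_sum hinner) ?_
  rw [← mul_sum]
  have htail := KapA_tail E₀ hE1 N
  have hYR : (0 : ℝ) < Y := by exact_mod_cast hY
  have hsq : (Y : ℝ) ^ (1 / 2 : ℝ) ≤ (E₀ : ℝ) ^ (d - 2) := by
    have h7 : (Y : ℝ) ≤ ((E₀ : ℝ) ^ (d - 2)) ^ 2 := by
      have h8 : Y ≤ (E₀ ^ (d - 2)) ^ 2 := by
        refine le_trans hE₀ ?_
        rw [← pow_mul]
        exact Nat.pow_le_pow_right hE1 (by omega)
      exact_mod_cast h8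
    rw [← Real.sqrt_eq_rpow]
    exact Real.sqrt_le_iff.2 ⟨by positivity, h7⟩
  calc C * (1 / (E₀ : ℝ) ^ (d - 3)) * ∑ e ∈ (Icc 1 N).filter (fun e => E₀ ≤ e), 1 / (e : ℝ) ^ 2
      ≤ C * (1 / (E₀ : ℝ) ^ (d - 3)) * (2 / E₀) := by gcongr
    _ = 2 * C * (1 / (E₀ : ℝ) ^ (d - 2)) := by
        have h9 : (E₀ : ℝ) ^ (d - 2) = (E₀ : ℝ) ^ (d - 3) * E₀ := by
          rw [← pow_succ]
          congr 1
          omega
        rw [h9]
        field_simp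
    _ ≤ 2 * C * (Y : ℝ) ^ (-(1 / 2 : ℝ)) := by
        rw [Real.rpow_neg hYR.le, ← one_div]
        have h10 : 0 < (Y : ℝ) ^ (1 / 2 : ℝ) := by positivity
        gcongr

end Pool.Agent.Lib.MP_e426f4_ag.DG
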