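import Pool.Agent.Lib.MP_e426f4_ag.DG.Defs
import Pool.Agent.Lib.MP_e426f4_ag.DG.Ed
import Pool.Agent.Lib.MP_e426f4_ag.DG.KapA
import Pool.Agent.Lib.MP_dd84fd_nt.DivBound

/-!
# KapSum: sums of kap
`theta d = 1/(4 d^2)`, so `(q^theta)^d = q^{1/(4d)}`. Power mean: `kap(q)^d <= tau(q)^{d-1} sum_{h | q} ((h/q)/e(h)^2)^d` and
`tau(q)^{d-1} <= C q^{1/(4d)}` (`DivBound.div_bound (k)` with `k = 4 d (d-1)`). So with `q = h k`:
`q (q^theta kap(q))^d <= C q^{1 + 1/(2d)} sum_{h k = q} k^{-d} e(h)^{-2d} = C sum_{hk = q} k^{1+1/(2d)-d} h^{1+1/(2d)} e(h)^{-2d}`.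
Sum over q in [Z, N]: pairs (h,k) with `hk >= Z`: `k^2 >= Z` or `h^2 >= Z`.
First case: `sum_{k >= sqrt Z} k^{1+1/(2d)-d} <= C Z^{-1/2}`-ish (exponent `<= -2`; so `sum_{k>=K0} k^{-2} <= 2/K0`), times the full h-sum
(`kap_h` with Y = 1). Second case: the full k-sum times `kap_h` with `Y = ceil(sqrt Z)`: `C Z^{-1/4}`. Both are `<= C Z^{-1/(4d)}`.
-/

set_option autoImplicit false

namespace Pool.Agent.Lib.MP_e426f4_ag.DG

open Finset

noncomputable def theta (d : ℕ) : ℝ := 1 / (4 * (d : ℝ) ^ 2)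

private theorem ks_tail (E₀ : ℕ) (hE : 1 ≤ E₀) (N : ℕ) :
    ∑ e ∈ (Icc 1 N).filter (fun e => E₀ ≤ e), 1 / (e : ℝ) ^ 2 ≤ 2 / (E₀ : ℝ) := by
  have h1 : (Icc 1 N).filter (fun e => E₀ ≤ e) ⊆ Ioo (E₀ - 1) (N + 1) := by
    intro e he
    rw [mem_filter, mem_Icc] at he
    rw [mem_Ioo]
    omega
  have h2 := sum_Ioo_inv_sq_le (α := ℝ) (E₀ - 1) (N + 1)
  rw [Nat.cast_sub hE, Nat.cast_one, sub_add_cancel] at h2
  refine le_trans ?_ h2
  refine le_trans (sum_le_sum_of_subset_of_nonneg h1 (fun i _ _ => by positivity)) ?_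
  exact le_of_eq (sum_congr rfl (fun i _ => by rw [one_div]))

/-- the divisor bound for the power of `tau` -/
private theorem ks_div (d : ℕ) (hd : 2 ≤ d) : ∃ C : ℝ, 0 < C ∧ ∀ q : ℕ, 1 ≤ q →
    ((q.divisors.card : ℝ)) ^ (d - 1) ≤ C * (q : ℝ) ^ (1 / (4 * (d : ℝ))) := by
  obtain ⟨C, hC1, hC⟩ := Pool.Agent.Lib.MP_dd84fd_nt.DivBound.div_bound ((d - 1) * (4 * d))
  refine ⟨C, by exact_mod_cast hC1, fun q hq => ?_⟩
  have h1 := hC q (by omega)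
  have hq0 : (0 : ℝ) < q := by exact_mod_cast hq
  have hC1' : (1 : ℝ) ≤ C := by exact_mod_cast hC1
  have h2 : (((q.divisors.card : ℝ)) ^ (d - 1)) ^ (4 * d) ≤ (C : ℝ) * (q : ℝ) := by
    rw [← pow_mul]
    exact_mod_cast h1
  have hd0 : (d : ℝ) ≠ 0 := by
    have : (2 : ℝ) ≤ d := by exact_mod_cast hd
    linarith
  have h3 : ((C : ℝ) * (q : ℝ) ^ (1 / (4 * (d : ℝ)))) ^ (4 * d) = (C : ℝ) ^ (4 * d) * (q : ℝ) := by
    rw [mul_pow]
    congr 1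
    rw [← Real.rpow_natCast ((q : ℝ) ^ (1 / (4 * (d : ℝ)))), ← Real.rpow_mul hq0.le]
    have : 1 / (4 * (d : ℝ)) * ((4 * d : ℕ) : ℝ) = 1 := by
      push_cast
      field_simp
    rw [this, Real.rpow_one]
  have h4 : (((q.divisors.card : ℝ)) ^ (d - 1)) ^ (4 * d) ≤
      ((C : ℝ) * (q : ℝ) ^ (1 / (4 * (d : ℝ)))) ^ (4 * d) := by
    rw [h3]
    refine le_trans h2 (mul_le_mul_of_nonneg_right ?_ (by positivity))
    exact le_self_pow₀ hC1' (by omega)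
  exact le_of_pow_le_pow_left₀ (by omega) (by positivity) h4

/-- one `q` -/
private theorem ks_one (d : ℕ) (hd : 4 ≤ d) (C : ℝ) (hC : 0 < C)
    (hdiv : ∀ q : ℕ, 1 ≤ q → ((q.divisors.card : ℝ)) ^ (d - 1) ≤ C * (q : ℝ) ^ (1 / (4 * (d : ℝ))))
    (q : ℕ) (hq : 1 ≤ q) :
    (q : ℝ) * ((q : ℝ) ^ theta d * kap d q) ^ d ≤
      C * ∑ x ∈ q.divisorsAntidiagonal,
        (x.1 : ℝ) ^ (1 + 1 / (2 * (d : ℝ))) / (ed d x.1 : ℝ) ^ (2 * d) * (1 / (x.2 : ℝ) ^ 2) := by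
  have hq0 : (0 : ℝ) < q := by exact_mod_cast hq
  have hdR : (4 : ℝ) ≤ d := by exact_mod_cast hd
  have hd0 : (d : ℝ) ≠ 0 := by linarith
  have h1 : kap d q ^ d ≤ (q.divisors.card : ℝ) ^ (d - 1) *
      ∑ h ∈ q.divisors, ((h : ℝ) / q / (ed d h : ℝ) ^ 2) ^ d := by
    obtain ⟨n, rfl⟩ : ∃ n, d = n + 1 := ⟨d - 1, by omega⟩
    unfold kap
    exact pow_sum_le_card_mul_sum_pow (fun h _ => by positivity) n
  have h2 : ((q : ℝ) ^ theta d) ^ d = (q : ℝ) ^ (1 / (4 * (d : ℝ))) := by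
    rw [← Real.rpow_natCast ((q : ℝ) ^ theta d), ← Real.rpow_mul hq0.le]
    congr 1
    unfold theta
    field_simp
  have h5 : (q : ℝ) * ((q : ℝ) ^ (1 / (4 * (d : ℝ))) * (q : ℝ) ^ (1 / (4 * (d : ℝ)))) =
      (q : ℝ) ^ (1 + 1 / (2 * (d : ℝ))) := by
    rw [← Real.rpow_add hq0]
    nth_rewrite 1 [← Real.rpow_one (q : ℝ)]
    rw [← Real.rpow_add hq0]
    congr 1
    field_simp
    ring
  have h6 : ∑ h ∈ q.divisors, ((h : ℝ) / q / (ed d h : ℝ) ^ 2) ^ d =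
      ∑ x ∈ q.divisorsAntidiagonal, ((x.1 : ℝ) / q / (ed d x.1 : ℝ) ^ 2) ^ d :=
    (Nat.sum_divisorsAntidiagonal (n := q)
      (fun h _ : ℕ => (((h : ℝ) / (q : ℝ) / (ed d h : ℝ) ^ 2) ^ d : ℝ))).symm
  calc (q : ℝ) * ((q : ℝ) ^ theta d * kap d q) ^ d
      = (q : ℝ) * ((q : ℝ) ^ (1 / (4 * (d : ℝ))) * kap d q ^ d) := by rw [mul_pow, h2]
    _ ≤ (q : ℝ) * ((q : ℝ) ^ (1 / (4 * (d : ℝ))) * ((C * (q : ℝ) ^ (1 / (4 * (d : ℝ)))) *
          ∑ h ∈ q.divisors, ((h : ℝ) / q / (ed d h : ℝ) ^ 2) ^ d)) := by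
        refine mul_le_mul_of_nonneg_left (mul_le_mul_of_nonneg_left (le_trans h1 ?_)
          (by positivity)) hq0.le
        exact mul_le_mul_of_nonneg_right (hdiv q hq) (sum_nonneg fun h _ => by positivity)
    _ = C * ((q : ℝ) * ((q : ℝ) ^ (1 / (4 * (d : ℝ))) * (q : ℝ) ^ (1 / (4 * (d : ℝ))))) *
          ∑ h ∈ q.divisors, ((h : ℝ) / q / (ed d h : ℝ) ^ 2) ^ d := by ring
    _ = C * ∑ x ∈ q.divisorsAntidiagonal, (q : ℝ) ^ (1 + 1 / (2 * (d : ℝ))) *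
          ((x.1 : ℝ) / q / (ed d x.1 : ℝ) ^ 2) ^ d := by rw [h5, h6, mul_assoc, mul_sum]
    _ ≤ _ := by
        refine mul_le_mul_of_nonneg_left (sum_le_sum fun x hx => ?_) hC.le
        rw [Nat.mem_divisorsAntidiagonal] at hx
        obtain ⟨hx1, hx0⟩ := hx
        have hx1' : x.1 ≠ 0 := by
          rintro h; rw [h, zero_mul] at hx1; exact hx0 hx1.symm
        have hx2' : x.2 ≠ 0 := by
          rintro h; rw [h, mul_zero] at hx1; exact hx0 hx1.symm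
        have e1 : (0 : ℝ) < x.1 := by exact_mod_cast Nat.pos_of_ne_zero hx1'
        have e2 : (0 : ℝ) < x.2 := by exact_mod_cast Nat.pos_of_ne_zero hx2'
        have e2' : (1 : ℝ) ≤ x.2 := by exact_mod_cast Nat.pos_of_ne_zero hx2'
        have e3 : (0 : ℝ) < ed d x.1 := by
          exact_mod_cast ed_pos d x.1 (by omega) (Nat.pos_of_ne_zero hx1')
        have hqx : (q : ℝ) = (x.1 : ℝ) * x.2 := by
          rw [← hx1]; push_cast; ring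
        have e4 : ((x.1 : ℝ) / q / (ed d x.1 : ℝ) ^ 2) ^ d =
            (1 / (x.2 : ℝ) ^ d) * (1 / (ed d x.1 : ℝ) ^ (2 * d)) := by
          rw [hqx, pow_mul, ← mul_pow_sub_one (n := d) (by omega : d ≠ 0)]
          rw [mul_pow_sub_one (by omega : d ≠ 0)]
          rw [div_pow, div_pow, mul_pow]
          field_simp
        rw [e4, hqx, Real.mul_rpow e1.le e2.le]
        have e5 : (x.2 : ℝ) ^ (1 + 1 / (2 * (d : ℝ))) * (1 / (x.2 : ℝ) ^ d) ≤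
            1 / (x.2 : ℝ) ^ 2 := by
          rw [mul_one_div, div_le_div_iff₀ (by positivity) (by positivity), one_mul,
            ← Real.rpow_natCast (x.2 : ℝ) 2, ← Real.rpow_natCast (x.2 : ℝ) d,
            ← Real.rpow_add e2]
          apply Real.rpow_le_rpow_of_exponent_le e2'
          have : 1 / (2 * (d : ℝ)) ≤ 1 := by
            rw [div_le_one (by positivity)]; linarith
          push_cast
          linarith
        calc (x.1 : ℝ) ^ (1 + 1 / (2 * (d : ℝ))) * (x.2 : ℝ) ^ (1 + 1 / (2 * (d : ℝ))) *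
              (1 / (x.2 : ℝ) ^ d * (1 / (ed d x.1 : ℝ) ^ (2 * d)))
            = (x.1 : ℝ) ^ (1 + 1 / (2 * (d : ℝ))) / (ed d x.1 : ℝ) ^ (2 * d) *
              ((x.2 : ℝ) ^ (1 + 1 / (2 * (d : ℝ))) * (1 / (x.2 : ℝ) ^ d)) := by ring
          _ ≤ _ := by gcongr

theorem kap_sum (d : ℕ) (hd : 4 ≤ d) : ∃ C : ℝ, 0 < C ∧ ∀ Z N : ℕ, 1 ≤ Z →
    ∑ q ∈ (Icc 1 N).filter (fun q => Z ≤ q), (q : ℝ) * ((q : ℝ) ^ theta d * kap d q) ^ d ≤
      C * (Z : ℝ) ^ (-(1 / (4 * (d : ℝ)))) := by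
  classical
  obtain ⟨C, hC, hdiv⟩ := ks_div d (by omega)
  obtain ⟨C2, hC2, hk⟩ := kap_h d hd
  refine ⟨C * (4 * C2), by positivity, fun Z N hZ => ?_⟩
  have hdR : (4 : ℝ) ≤ d := by exact_mod_cast hd
  set F : ℕ × ℕ → ℝ := fun x =>
    (x.1 : ℝ) ^ (1 + 1 / (2 * (d : ℝ))) / (ed d x.1 : ℝ) ^ (2 * d) * (1 / (x.2 : ℝ) ^ 2) with hF
  have hF0 : ∀ x, 0 ≤ F x := fun x => by rw [hF]; positivity
  have hZR : (1 : ℝ) ≤ Z := by exact_mod_cast hZ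
  -- the square root
  set K := Nat.sqrt (Z - 1) + 1 with hK
  have hK1 : 1 ≤ K := by omega
  have hKZ : Z ≤ K ^ 2 := by
    have := Nat.lt_succ_sqrt' (Z - 1)
    rw [hK]
    have h2 : (Nat.sqrt (Z - 1)).succ ^ 2 = (Nat.sqrt (Z - 1) + 1) ^ 2 := rfl
    omega
  have hKmin : ∀ k : ℕ, Z ≤ k ^ 2 → K ≤ k := by
    intro k hk
    by_contra hlt
    push Not at hlt
    have h1 : k ≤ Nat.sqrt (Z - 1) := by omega
    have h2 : k ^ 2 ≤ Z - 1 := le_trans (Nat.pow_le_pow_left h1 2) (Nat.sqrt_le' _)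
    omega
  -- first step: pass to pairs
  have step1 : ∑ q ∈ (Icc 1 N).filter (fun q => Z ≤ q), ∑ x ∈ q.divisorsAntidiagonal, F x ≤
      ∑ x ∈ ((Icc 1 N) ×ˢ (Icc 1 N)).filter (fun x : ℕ × ℕ => Z ≤ x.1 * x.2), F x := by
    have h1 : ∀ q ∈ (Icc 1 N).filter (fun q => Z ≤ q), ∑ x ∈ q.divisorsAntidiagonal, F x ≤
        ∑ x ∈ ((Icc 1 N) ×ˢ (Icc 1 N)).filter (fun x : ℕ × ℕ => Z ≤ x.1 * x.2),
          if x.1 * x.2 = q then F x else 0 := by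
      intro q hq
      rw [mem_filter, mem_Icc] at hq
      rw [← Finset.sum_filter]
      apply sum_le_sum_of_subset_of_nonneg
      · intro x hx
        rw [Nat.mem_divisorsAntidiagonal] at hx
        obtain ⟨hx1, hx0⟩ := hx
        have hx1' : 1 ≤ x.1 := by
          rcases Nat.eq_zero_or_pos x.1 with h | h
          · rw [h, zero_mul] at hx1; exact absurd hx1.symm hx0
          · exact h
        have hx2' : 1 ≤ x.2 := by
          rcases Nat.eq_zero_or_pos x.2 with h | h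
          · rw [h, mul_zero] at hx1; exact absurd hx1.symm hx0
          · exact h
        have hb1 : x.1 ≤ x.1 * x.2 := Nat.le_mul_of_pos_right _ hx2'
        have hb2 : x.2 ≤ x.1 * x.2 := Nat.le_mul_of_pos_left _ hx1'
        rw [mem_filter, mem_filter, mem_product, mem_Icc, mem_Icc]
        refine ⟨⟨⟨⟨hx1', ?_⟩, ⟨hx2', ?_⟩⟩, ?_⟩, hx1⟩ <;> omega
      · intro x _ _
        exact hF0 x
    refine le_trans (sum_le_sum h1) ?_
    rw [sum_comm]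
    refine sum_le_sum fun x _ => ?_
    rw [Finset.sum_ite_eq]
    split_ifs
    · exact le_rfl
    · exact hF0 x
  -- second step: split
  have step2 : ∑ x ∈ ((Icc 1 N) ×ˢ (Icc 1 N)).filter (fun x : ℕ × ℕ => Z ≤ x.1 * x.2), F x ≤
      ∑ x ∈ ((Icc 1 N).filter (fun h => 1 ≤ h)) ×ˢ ((Icc 1 N).filter (fun k => K ≤ k)), F x +
      ∑ x ∈ ((Icc 1 N).filter (fun h => K ≤ h)) ×ˢ ((Icc 1 N).filter (fun k => 1 ≤ k)), F x := by
    refine le_trans (sum_le_sum_of_subset_of_nonneg (t :=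
      (((Icc 1 N).filter (fun h => 1 ≤ h)) ×ˢ ((Icc 1 N).filter (fun k => K ≤ k))) ∪
      (((Icc 1 N).filter (fun h => K ≤ h)) ×ˢ ((Icc 1 N).filter (fun k => 1 ≤ k)))) ?_
      (fun x _ _ => hF0 x)) ?_
    · intro x hx
      rw [mem_filter, mem_product, mem_Icc, mem_Icc] at hx
      obtain ⟨⟨⟨h1, h2⟩, h3, h4⟩, h5⟩ := hx
      rw [mem_union, mem_product, mem_product, mem_filter, mem_filter, mem_filter, mem_filter,
        mem_Icc, mem_Icc]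
      rcases le_total x.1 x.2 with h | h
      · left
        refine ⟨⟨⟨h1, h2⟩, h1⟩, ⟨h3, h4⟩, hKmin _ ?_⟩
        nlinarith
      · right
        refine ⟨⟨⟨h1, h2⟩, hKmin _ ?_⟩, ⟨h3, h4⟩, h3⟩
        nlinarith
    · have := Finset.sum_union_inter (f := F)
        (s₁ := ((Icc 1 N).filter (fun h => 1 ≤ h)) ×ˢ ((Icc 1 N).filter (fun k => K ≤ k)))
        (s₂ := ((Icc 1 N).filter (fun h => K ≤ h)) ×ˢ ((Icc 1 N).filter (fun k => 1 ≤ k)))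
      have h0 : 0 ≤ ∑ x ∈ (((Icc 1 N).filter (fun h => 1 ≤ h)) ×ˢ
          ((Icc 1 N).filter (fun k => K ≤ k))) ∩
        (((Icc 1 N).filter (fun h => K ≤ h)) ×ˢ ((Icc 1 N).filter (fun k => 1 ≤ k))), F x :=
        sum_nonneg fun x _ => hF0 x
      linarith
  have hprod : ∀ A B : Finset ℕ, ∑ x ∈ A ×ˢ B, F x =
      (∑ h ∈ A, (h : ℝ) ^ (1 + 1 / (2 * (d : ℝ))) / (ed d h : ℝ) ^ (2 * d)) *
        ∑ k ∈ B, 1 / (k : ℝ) ^ 2 := by
    intro A B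
    rw [Finset.sum_product, Finset.sum_mul_sum]
  have hKR : (0 : ℝ) < K := by exact_mod_cast hK1
  have hKhalf : (Z : ℝ) ^ (1 / 2 : ℝ) ≤ K := by
    have h1 : (Z : ℝ) ≤ (K : ℝ) ^ 2 := by exact_mod_cast hKZ
    calc (Z : ℝ) ^ (1 / 2 : ℝ) ≤ ((K : ℝ) ^ 2) ^ (1 / 2 : ℝ) :=
          Real.rpow_le_rpow (by positivity) h1 (by norm_num)
      _ = K := by
          rw [← Real.rpow_natCast (K : ℝ) 2, ← Real.rpow_mul hKR.le]
          norm_num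
  have hexp : (Z : ℝ) ^ (-(1 / 4 : ℝ)) ≤ (Z : ℝ) ^ (-(1 / (4 * (d : ℝ)))) := by
    apply Real.rpow_le_rpow_of_exponent_le hZR
    rw [neg_le_neg_iff]
    apply one_div_le_one_div_of_le (by norm_num)
    linarith
  have hA : (∑ h ∈ (Icc 1 N).filter (fun h => 1 ≤ h),
      (h : ℝ) ^ (1 + 1 / (2 * (d : ℝ))) / (ed d h : ℝ) ^ (2 * d)) ≤ C2 := by
    have := hk 1 N le_rfl
    simpa using this
  have hB : (∑ h ∈ (Icc 1 N).filter (fun h => K ≤ h),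
      (h : ℝ) ^ (1 + 1 / (2 * (d : ℝ))) / (ed d h : ℝ) ^ (2 * d)) ≤
      C2 * (Z : ℝ) ^ (-(1 / 4 : ℝ)) := by
    refine le_trans (hk K N hK1) ?_
    apply mul_le_mul_of_nonneg_left _ hC2.le
    rw [Real.rpow_neg hKR.le, Real.rpow_neg (by linarith)]
    apply inv_anti₀ (by positivity)
    calc (Z : ℝ) ^ (1 / 4 : ℝ) = ((Z : ℝ) ^ (1 / 2 : ℝ)) ^ (1 / 2 : ℝ) := by
          rw [← Real.rpow_mul (by linarith)]; norm_num
      _ ≤ (K : ℝ) ^ (1 / 2 : ℝ) := Real.rpow_le_rpow (by positivity) hKhalf (by norm_num)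
  have hC1 : (∑ k ∈ (Icc 1 N).filter (fun k => K ≤ k), 1 / (k : ℝ) ^ 2) ≤
      2 * (Z : ℝ) ^ (-(1 / 4 : ℝ)) := by
    refine le_trans (ks_tail K hK1 N) ?_
    rw [Real.rpow_neg (by linarith), ← div_eq_mul_inv]
    apply div_le_div_of_nonneg_left (by norm_num) (by positivity)
    refine le_trans ?_ hKhalf
    exact Real.rpow_le_rpow_of_exponent_le hZR (by norm_num)
  have hC1' : (∑ k ∈ (Icc 1 N).filter (fun k => 1 ≤ k), 1 / (k : ℝ) ^ 2) ≤ 2 := by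
    have := ks_tail 1 le_rfl N
    simpa using this
  have hAn : 0 ≤ (∑ h ∈ (Icc 1 N).filter (fun h => K ≤ h),
      (h : ℝ) ^ (1 + 1 / (2 * (d : ℝ))) / (ed d h : ℝ) ^ (2 * d)) :=
    sum_nonneg fun h _ => by positivity
  have hBn : 0 ≤ (∑ k ∈ (Icc 1 N).filter (fun k => K ≤ k), 1 / (k : ℝ) ^ 2) :=
    sum_nonneg fun h _ => by positivity
  have hBn' : 0 ≤ (∑ k ∈ (Icc 1 N).filter (fun k => 1 ≤ k), 1 / (k : ℝ) ^ 2) :=
    sum_nonneg fun h _ => by positivity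
  calc _ ≤ ∑ q ∈ (Icc 1 N).filter (fun q => Z ≤ q), C * ∑ x ∈ q.divisorsAntidiagonal, F x := by
        refine sum_le_sum fun q hq => ?_
        rw [mem_filter, mem_Icc] at hq
        exact ks_one d hd C hC hdiv q hq.1.1
    _ = C * ∑ q ∈ (Icc 1 N).filter (fun q => Z ≤ q), ∑ x ∈ q.divisorsAntidiagonal, F x := by
        rw [mul_sum]
    _ ≤ C * (C2 * (2 * (Z : ℝ) ^ (-(1 / 4 : ℝ))) + (C2 * (Z : ℝ) ^ (-(1 / 4 : ℝ))) * 2) := by
        refine mul_le_mul_of_nonneg_left (le_trans step1 (le_trans step2 ?_)) hC.le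
        rw [hprod, hprod]
        refine add_le_add ?_ ?_
        · exact mul_le_mul hA hC1 hBn hC2.le
        · exact mul_le_mul hB hC1' hBn' (by positivity)
    _ = C * (4 * C2) * (Z : ℝ) ^ (-(1 / 4 : ℝ)) := by ring
    _ ≤ _ := by gcongr

end Pool.Agent.Lib.MP_e426f4_ag.DG
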