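import Pool.Agent.Lib.MP_e426f4_ag.DG.Defs
import Pool.Agent.Lib.MP_e426f4_ag.DG.Facts1
import Pool.Agent.Lib.MP_e426f4_ag.DG.KapSum

/-!
# VDefs: definitions (no work)
-/

set_option autoImplicit false

namespace Pool.Agent.Lib.MP_e426f4_ag.DG

open Finset

/-- minor/major threshold quantity -/
noncomputable def Setup.V {d s m Mx E : ℕ} (S : Setup d s m Mx E) (A : Arc S.P (4 * S.B ^ d))
    (b : ZMod S.P) : ℝ := S.lam A b * kap d (A.q b)

/-- `b` is minor -/
def Setup.Minor {d s m Mx E : ℕ} (S : Setup d s m Mx E) (A : Arc S.P (4 * S.B ^ d))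
    (b : ZMod S.P) : Prop := (S.B : ℝ) * S.V A b ≤ 1

/-- exponent of the losses in the fourth moment -/
def cM (d : ℕ) : ℕ := 20 * d + 40

/-- exponent for the losses in the combination -/
def cE (d s : ℕ) : ℕ := 100 * (d + s) + 1000

/-- the values of `m`, `Mx` used -/
def mm4 (d : ℕ) : ℕ := 16 * d * (4 * d + 1) + 1
def MMx (d s : ℕ) : ℕ := 2 * cE d s * (4 * mm4 d) + 8 * mm4 d

theorem Setup.lam_nonneg {d s m Mx E : ℕ} (S : Setup d s m Mx E) (A : Arc S.P (4 * S.B ^ d))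
    (b : ZMod S.P) : 0 ≤ S.lam A b := by
  unfold Setup.lam
  positivity

theorem Setup.V_nonneg {d s m Mx E : ℕ} (S : Setup d s m Mx E) (A : Arc S.P (4 * S.B ^ d))
    (b : ZMod S.P) : 0 ≤ S.V A b := mul_nonneg (S.lam_nonneg A b) (kap_nonneg d _)

end Pool.Agent.Lib.MP_e426f4_ag.DG
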