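import Pool.Agent.Lib.MP_e426f4_ag.DG.Defs
import Pool.Agent.Lib.MP_e426f4_ag.DG.Facts1
import Pool.Agent.Lib.MP_e426f4_ag.DG.Rigid
import Pool.Agent.Lib.MP_e426f4_ag.DG.FFb
import Pool.Agent.Lib.MP_e426f4_ag.DG.Cnt
import Pool.Agent.Lib.MP_e426f4_ag.DG.Ed
import Pool.Agent.Lib.MP_e426f4_ag.DG.VDefs

/-!
# Lossy: majorant of F_i(b,b) for every b (losing powers of R)
`FF(b,b) = sum_{x,y in X_i} wh(b x^d - b y^d) <= (P/n) #{(x,y) in X_i^2 : wh != 0} <= 8 H #{(x,y) : q | x^d - y^d, |dl| |x^d-y^d| <= 1/(4H)}`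
(`wh_le`, `n_facts`, `rigid` with `q = A.q b`, `c = A.c b`, `A.approx b`). Apply `cnt` with `Y = B`, `c0 = c1 = 1`, `r = R` (`hrho`: divisors of q
are `<= 4 B^d <= B^(4d)`; B >= 4), `I v = {u : u <= B, B < 4 E u, |dl| |u^d - v^d| <= 1/(4H)}`.
Diameter: if `u' < u` are in `I v` then `u - u' <= B` and, if `dl != 0`, `(u - u') u'^{d-1} <= u^d - u'^d <= 2/(4H|dl|)` and `u' > B/(4E)`, so
`u - u' <= (4E)^{d-1} B/(2 H B^d |dl|)`. So `lam = (4E)^{d} * S.lam A b` works (`S.lam = 1/max 1 (H B^d |dl|)`). `1 + log B <= R` (`hlog`).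
Result: `8 H R (2 (4E)^d lam B^2 kap + B R) <= C H R^2 (B + B^2 V)`.
-/

set_option autoImplicit false

namespace Pool.Agent.Lib.MP_e426f4_ag.DG

open Finset

/-- `(u - w) w^(d-1) <= u^d - w^d` for `0 <= w <= u`. -/
private theorem lossy_pow (d : ℕ) (hd : 1 ≤ d) (u w : ℝ) (hw : 0 ≤ w) (hwu : w ≤ u) :
    (u - w) * w ^ (d - 1) ≤ u ^ d - w ^ d := by
  obtain ⟨k, rfl⟩ : ∃ k, d = k + 1 := ⟨d - 1, by omega⟩
  have h1 : w ^ k ≤ u ^ k := pow_le_pow_left₀ hw hwu k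
  have h2 : (u - w) * w ^ k + w * w ^ k ≤ u * u ^ k := by
    have : (u - w) * w ^ k + w * w ^ k = u * w ^ k := by ring
    rw [this]
    exact mul_le_mul_of_nonneg_left h1 (le_trans hw hwu)
  have h3 : u ^ (k + 1) = u * u ^ k := by ring
  have h4 : w ^ (k + 1) = w * w ^ k := by ring
  simp only [Nat.add_sub_cancel]
  rw [h3, h4]
  linarith

/-- The diameter estimate. -/
private theorem lossy_diam (d E B H : ℕ) (hd : 1 ≤ d) (hE : 2 ≤ E) (hB : 1 ≤ B) (hH : 0 < H)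
    (dl : ℝ) (hdl : 0 ≤ dl) (u w v : ℕ) (hu : u ≤ B) (hw' : B < 4 * E * w)
    (h1 : dl * |(u : ℝ) ^ d - (v : ℝ) ^ d| ≤ 1 / (4 * H))
    (h2 : dl * |(w : ℝ) ^ d - (v : ℝ) ^ d| ≤ 1 / (4 * H)) :
    (u : ℝ) - w ≤ (4 * (E : ℝ)) ^ d * (1 / max 1 ((H : ℝ) * (B : ℝ) ^ d * dl)) * B := by
  have hE' : (2 : ℝ) ≤ E := by exact_mod_cast hE
  have hB' : (1 : ℝ) ≤ B := by exact_mod_cast hB
  have hH' : (0 : ℝ) < H := by exact_mod_cast hH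
  have hu' : (u : ℝ) ≤ B := by exact_mod_cast hu
  have hw0 : (0 : ℝ) ≤ w := Nat.cast_nonneg w
  have h4E : (1 : ℝ) ≤ 4 * (E : ℝ) := by linarith
  have hmax : (0 : ℝ) < max 1 ((H : ℝ) * (B : ℝ) ^ d * dl) := lt_of_lt_of_le one_pos (le_max_left _ _)
  have hpow : (1 : ℝ) ≤ (4 * (E : ℝ)) ^ d := one_le_pow₀ h4E
  by_cases huw : (u : ℝ) ≤ w
  · have : (0 : ℝ) ≤ (4 * (E : ℝ)) ^ d * (1 / max 1 ((H : ℝ) * (B : ℝ) ^ d * dl)) * B := by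
      positivity
    linarith
  push Not at huw
  rcases le_total ((H : ℝ) * (B : ℝ) ^ d * dl) 1 with hc | hc
  · rw [max_eq_left hc]
    have : (1 : ℝ) * B ≤ (4 * (E : ℝ)) ^ d * B := mul_le_mul_of_nonneg_right hpow (by linarith)
    rw [div_one, mul_one]
    linarith
  · rw [max_eq_right hc]
    have hpos : (0 : ℝ) < (H : ℝ) * (B : ℝ) ^ d * dl := lt_of_lt_of_le one_pos hc
    have hdlpos : 0 < dl := by
      rcases hdl.eq_or_lt with h | h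
      · rw [← h] at hpos; simp at hpos
      · exact h
    have e1 : (u : ℝ) ^ d - (w : ℝ) ^ d ≤
        |(u : ℝ) ^ d - (v : ℝ) ^ d| + |(w : ℝ) ^ d - (v : ℝ) ^ d| := by
      have a1 := le_abs_self ((u : ℝ) ^ d - (v : ℝ) ^ d)
      have a2 := neg_abs_le ((w : ℝ) ^ d - (v : ℝ) ^ d)
      linarith
    have e2 : dl * ((u : ℝ) ^ d - (w : ℝ) ^ d) ≤ 1 / (2 * H) := by
      calc dl * ((u : ℝ) ^ d - (w : ℝ) ^ d)
          ≤ dl * (|(u : ℝ) ^ d - (v : ℝ) ^ d| + |(w : ℝ) ^ d - (v : ℝ) ^ d|) :=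
            mul_le_mul_of_nonneg_left e1 hdl
        _ = dl * |(u : ℝ) ^ d - (v : ℝ) ^ d| + dl * |(w : ℝ) ^ d - (v : ℝ) ^ d| := by ring
        _ ≤ 1 / (4 * H) + 1 / (4 * H) := add_le_add h1 h2
        _ = 1 / (2 * H) := by field_simp; norm_num
    have e3 := lossy_pow d hd (u : ℝ) (w : ℝ) hw0 huw.le
    have e4 : dl * (((u : ℝ) - w) * (w : ℝ) ^ (d - 1)) ≤ 1 / (2 * H) :=
      le_trans (mul_le_mul_of_nonneg_left e3 hdl) e2
    have hBw : (B : ℝ) ≤ 4 * (E : ℝ) * w := by exact_mod_cast hw'.le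
    have e5 : (B : ℝ) ^ (d - 1) ≤ (4 * (E : ℝ)) ^ (d - 1) * (w : ℝ) ^ (d - 1) := by
      rw [← mul_pow]
      exact pow_le_pow_left₀ (by linarith) hBw _
    have hsub : (0 : ℝ) < (u : ℝ) - w := by linarith
    have e6 : dl * (((u : ℝ) - w) * (B : ℝ) ^ (d - 1)) ≤ (4 * (E : ℝ)) ^ (d - 1) * (1 / (2 * H)) := by
      calc dl * (((u : ℝ) - w) * (B : ℝ) ^ (d - 1))
          ≤ dl * (((u : ℝ) - w) * ((4 * (E : ℝ)) ^ (d - 1) * (w : ℝ) ^ (d - 1))) := by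
            apply mul_le_mul_of_nonneg_left _ hdl
            exact mul_le_mul_of_nonneg_left e5 hsub.le
        _ = (4 * (E : ℝ)) ^ (d - 1) * (dl * (((u : ℝ) - w) * (w : ℝ) ^ (d - 1))) := by ring
        _ ≤ (4 * (E : ℝ)) ^ (d - 1) * (1 / (2 * H)) :=
            mul_le_mul_of_nonneg_left e4 (by positivity)
    have e7 : (4 * (E : ℝ)) ^ (d - 1) * (1 / (2 * H)) ≤ (4 * (E : ℝ)) ^ d * (1 / H) := by
      apply mul_le_mul
      · exact pow_le_pow_right₀ h4E (Nat.sub_le d 1)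
      · apply one_div_le_one_div_of_le hH'
        linarith
      · positivity
      · positivity
    have e8 : dl * (((u : ℝ) - w) * (B : ℝ) ^ (d - 1)) ≤ (4 * (E : ℝ)) ^ d * (1 / H) := le_trans e6 e7
    have hBd : (B : ℝ) ^ d = (B : ℝ) ^ (d - 1) * B := by
      rw [← pow_succ]; congr 1; omega
    have e9 : ((u : ℝ) - w) * ((H : ℝ) * (B : ℝ) ^ d * dl) ≤ (4 * (E : ℝ)) ^ d * B := by
      calc ((u : ℝ) - w) * ((H : ℝ) * (B : ℝ) ^ d * dl)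
          = (dl * (((u : ℝ) - w) * (B : ℝ) ^ (d - 1))) * (H * B) := by rw [hBd]; ring
        _ ≤ ((4 * (E : ℝ)) ^ d * (1 / H)) * (H * B) :=
            mul_le_mul_of_nonneg_right e8 (by positivity)
        _ = (4 * (E : ℝ)) ^ d * B := by field_simp
    have e10 : (4 * (E : ℝ)) ^ d * (1 / ((H : ℝ) * (B : ℝ) ^ d * dl)) * B =
        ((4 * (E : ℝ)) ^ d * B) / ((H : ℝ) * (B : ℝ) ^ d * dl) := by ring
    rw [e10, le_div_iff₀ hpos]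
    exact e9

theorem lossy (d s E : ℕ) (hd : 4 ≤ d) (hE : 2 ≤ E) : ∃ C : ℝ, 1 ≤ C ∧ ∀ (m Mx : ℕ),
    1 ≤ m → m < Mx → ∀ (S : Setup d s m Mx E) (A : Arc S.P (4 * S.B ^ d)) (b : ZMod S.P) (i : Fin s),
    FF S.P S.n d (S.X i) b b ≤ C * S.H * (S.R : ℝ) ^ 2 * (S.B + (S.B : ℝ) ^ 2 * S.V A b) := by
  have hE' : (2 : ℝ) ≤ E := by exact_mod_cast hE
  have h4E : (1 : ℝ) ≤ 4 * (E : ℝ) := by linarith
  have hpow : (1 : ℝ) ≤ (4 * (E : ℝ)) ^ d := one_le_pow₀ h4E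
  refine ⟨16 * (4 * (E : ℝ)) ^ d, by linarith, ?_⟩
  intro m Mx hm hmM S A b i
  obtain ⟨hn0, hnP, hnH, hPn, -, -, hH0⟩ := S.n_facts
  have hB4 : 4 ≤ S.B := by
    have h1 : 1 ≤ S.R ^ Mx := Nat.one_le_pow _ _ (by have := S.hR; omega)
    have h2 : 1 ≤ S.R ^ m := Nat.one_le_pow _ _ (by have := S.hR; omega)
    show 4 ≤ 4 * S.R ^ Mx * S.R ^ m
    nlinarith [Nat.mul_le_mul h1 h2]
  have hB1 : 1 ≤ S.B := le_trans (by norm_num) hB4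
  set q := A.q b with hqdef
  set F := ((S.X i ×ˢ S.X i).filter fun z : ℕ × ℕ =>
    wh S.P S.n (b * (z.1 : ZMod S.P) ^ d - b * (z.2 : ZMod S.P) ^ d) ≠ 0) with hF
  -- step 1
  have s1 : FF S.P S.n d (S.X i) b b ≤ (S.P : ℝ) / S.n * F.card := by
    unfold FF FZ
    rw [← Finset.sum_filter_ne_zero]
    have := Finset.sum_le_card_nsmul F
      (fun z : ℕ × ℕ => wh S.P S.n (b * (z.1 : ZMod S.P) ^ d - b * (z.2 : ZMod S.P) ^ d))
      ((S.P : ℝ) / S.n) (fun z _ => wh_le S.n hn0 hnP _)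
    rw [nsmul_eq_mul] at this
    rw [mul_comm]
    exact this
  -- step 2
  set J : ℕ → Set ℕ := fun v => {u | u ≤ S.B ∧ S.B < 4 * E * u ∧
    |A.dl b| * |(u : ℝ) ^ d - (v : ℝ) ^ d| ≤ 1 / (4 * S.H)} with hJ
  have hq1 : 1 ≤ q := A.qpos b
  have hqle : q ≤ 4 * S.B ^ d := A.qle b
  have s2 := cnt d q 1 S.B (by omega) hq1 hB1 (Nat.coprime_one_left q) 1 (Nat.coprime_one_left q)
    ((4 * (E : ℝ)) ^ d * S.lam A b) (S.R : ℝ)
    (mul_nonneg (by positivity) (S.lam_nonneg A b)) J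
    (by
      intro v u hu w hw
      obtain ⟨hu1, hu2, hu3⟩ := hu
      obtain ⟨hw1, hw2, hw3⟩ := hw
      exact lossy_diam d E S.B S.H (by omega) hE hB1 hH0 |A.dl b| (abs_nonneg _) u w v
        hu1 hw2 hu3 hw3)
    (by
      intro k hk
      have hk1 : 1 ≤ k := Nat.pos_of_dvd_of_pos hk hq1
      have hk2 : k ≤ S.B ^ (4 * d) := by
        calc k ≤ q := Nat.le_of_dvd hq1 hk
          _ ≤ 4 * S.B ^ d := hqle
          _ ≤ S.B * S.B ^ d := Nat.mul_le_mul_right _ hB4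
          _ = S.B ^ (d + 1) := by ring
          _ ≤ S.B ^ (4 * d) := Nat.pow_le_pow_right hB1 (by omega)
      exact_mod_cast S.hrho k hk1 hk2)
  have s3 : (F.card : ℝ) ≤ (Set.ncard {uv : ℕ × ℕ | 1 ≤ uv.1 ∧ uv.1 ≤ S.B ∧ 1 ≤ uv.2 ∧ uv.2 ≤ S.B ∧
      (q : ℤ) ∣ ((1 : ℕ) : ℤ) * (uv.1 : ℤ) ^ d - (1 : ℕ) * (uv.2 : ℤ) ^ d ∧ uv.1 ∈ J uv.2} : ℝ) := by
    rw [← Set.ncard_coe_finset]
    apply Nat.cast_le.mpr
    apply Set.ncard_le_ncard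
    · intro z hz
      have hz' : z ∈ F := by exact_mod_cast hz
      rw [hF, Finset.mem_filter, Finset.mem_product] at hz'
      obtain ⟨⟨hx, hy⟩, hne⟩ := hz'
      obtain ⟨hx1, hx2, hx3⟩ := S.X_bounds (by omega) i z.1 hx
      obtain ⟨hy1, hy2, hy3⟩ := S.X_bounds (by omega) i z.2 hy
      have hr := rigid S.n d S.H S.B q (A.c b) z.1 z.2 b hB1 hq1 hqle (A.cop b)
        (by exact_mod_cast A.approx b) S.hH1 hnH hx2 hy2 hne
      refine ⟨hx1, hx2, hy1, hy2, ?_, hx2, hx3, hr.2⟩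
      have := hr.1
      simpa using this
    · apply Set.Finite.subset (((Finset.Icc 1 S.B) ×ˢ (Finset.Icc 1 S.B)).finite_toSet)
      rintro ⟨x, y⟩ ⟨h1, h2, h3, h4, -⟩
      simp only [Finset.coe_product, Finset.coe_Icc, Set.mem_prod, Set.mem_Icc]
      exact ⟨⟨h1, h2⟩, ⟨h3, h4⟩⟩
  have hBr : (1 : ℝ) ≤ S.B := by exact_mod_cast hB1
  have hlog : 1 + Real.log (S.B : ℝ) ≤ S.R := by
    have h1 := S.hlog
    have h2 : (4 * (S.R : ℝ) ^ Mx * (S.R : ℝ) ^ m) = (S.B : ℝ) := by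
      show (4 * (S.R : ℝ) ^ Mx * (S.R : ℝ) ^ m) = ((4 * S.R ^ Mx * S.R ^ m : ℕ) : ℝ)
      push_cast
      ring
    rw [h2, Real.log_pow] at h1
    have h3 : 0 ≤ Real.log (S.B : ℝ) := Real.log_nonneg hBr
    push_cast at h1
    linarith
  have hR1 : (1 : ℝ) ≤ S.R := by
    have := S.hR
    exact_mod_cast (by omega : 1 ≤ S.R)
  have hHr : (0 : ℝ) < S.H := by exact_mod_cast hH0
  have hV : 0 ≤ S.V A b := S.V_nonneg A b
  have s4 : (S.R : ℝ) * (2 * ((4 * (E : ℝ)) ^ d * S.lam A b) * (S.B : ℝ) ^ 2 * kap d q +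
      S.B * (1 + Real.log (S.B : ℝ))) ≤
      (S.R : ℝ) ^ 2 * (2 * (4 * (E : ℝ)) ^ d) * (S.B + (S.B : ℝ) ^ 2 * S.V A b) := by
    have e1 : 2 * ((4 * (E : ℝ)) ^ d * S.lam A b) * (S.B : ℝ) ^ 2 * kap d q =
        2 * (4 * (E : ℝ)) ^ d * ((S.B : ℝ) ^ 2 * S.V A b) := by
      unfold Setup.V
      ring
    have e2 : (S.B : ℝ) * (1 + Real.log (S.B : ℝ)) ≤ S.B * S.R :=
      mul_le_mul_of_nonneg_left hlog (by linarith)
    rw [e1]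
    have e3 : 2 * (4 * (E : ℝ)) ^ d * ((S.B : ℝ) ^ 2 * S.V A b) ≤
        S.R * (2 * (4 * (E : ℝ)) ^ d * ((S.B : ℝ) ^ 2 * S.V A b)) := by
      have : 0 ≤ 2 * (4 * (E : ℝ)) ^ d * ((S.B : ℝ) ^ 2 * S.V A b) := by positivity
      nlinarith
    have e4 : (S.B : ℝ) * S.R ≤ S.R * (2 * (4 * (E : ℝ)) ^ d * S.B) := by
      have : (S.B : ℝ) * S.R ≤ (2 * (4 * (E : ℝ)) ^ d) * (S.B * S.R) := by
        have h0 : (0 : ℝ) ≤ S.B * S.R := by positivity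
        nlinarith
      linarith
    calc (S.R : ℝ) * (2 * (4 * (E : ℝ)) ^ d * ((S.B : ℝ) ^ 2 * S.V A b) +
          S.B * (1 + Real.log (S.B : ℝ)))
        ≤ (S.R : ℝ) * (S.R * (2 * (4 * (E : ℝ)) ^ d * ((S.B : ℝ) ^ 2 * S.V A b)) +
          S.R * (2 * (4 * (E : ℝ)) ^ d * S.B)) := by
          apply mul_le_mul_of_nonneg_left _ (by linarith)
          linarith
      _ = (S.R : ℝ) ^ 2 * (2 * (4 * (E : ℝ)) ^ d) * (S.B + (S.B : ℝ) ^ 2 * S.V A b) := by ring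
  calc FF S.P S.n d (S.X i) b b ≤ (S.P : ℝ) / S.n * F.card := s1
    _ ≤ 8 * S.H * F.card := mul_le_mul_of_nonneg_right hPn (Nat.cast_nonneg _)
    _ ≤ 8 * S.H * ((S.R : ℝ) ^ 2 * (2 * (4 * (E : ℝ)) ^ d) * (S.B + (S.B : ℝ) ^ 2 * S.V A b)) := by
        apply mul_le_mul_of_nonneg_left _ (by positivity)
        exact le_trans s3 (le_trans s2 s4)
    _ = 16 * (4 * (E : ℝ)) ^ d * S.H * (S.R : ℝ) ^ 2 * (S.B + (S.B : ℝ) ^ 2 * S.V A b) := by ring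

end Pool.Agent.Lib.MP_e426f4_ag.DG
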