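import Pool.Agent.Lib.MP_e426f4_ag.DG.Defs
import Pool.Agent.Lib.MP_e426f4_ag.DG.Facts1
import Pool.Agent.Lib.MP_e426f4_ag.DG.VDefs
import Pool.Agent.Lib.MP_e426f4_ag.DG.KapSum
import Pool.Agent.Lib.MP_e426f4_ag.DG.ArcTot
import Pool.Agent.Lib.MP_e426f4_ag.DG.Ed

/-!
# Maj: the sums over all arcs and over the non-core arcs
Let `Am = H B^d` (`1 <= Am <= P`), `S.lam A b = 1/max 1 (Am |dl b|)`, `V^d = kap(q)^d lam^d`.
`maj_all`: `arc_total` with `M = 1`, `g = kap^d`, `D = Icc 1 (4B^d)`, and `sum_q q kap^d <= sum_q q (q^theta kap)^d <= C` (`kap_sum`, Z = 1; `q^theta >= 1`).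
`maj_outer`: either `q b > R^m4` (then `D = {q > R^m4}`, M = 1, `kap_sum` with `Z = R^m4`: `C (R^m4)^{-1/(4d)}`) or `Am |dl b| > R^m4` (M = R^m4:
factor `(1/M)^{d-1} <= (R^m4)^{-1} <= (R^m4)^{-1/(4d)}`).
-/

set_option autoImplicit false

namespace Pool.Agent.Lib.MP_e426f4_ag.DG

open Finset

private theorem am_facts {d s m Mx E : ℕ} (S : Setup d s m Mx E) :
    1 ≤ (S.H : ℝ) * (S.B : ℝ) ^ d ∧ (S.H : ℝ) * (S.B : ℝ) ^ d ≤ S.P := by
  obtain ⟨_, _, _, _, h5, _, h7⟩ := S.n_facts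
  have hB := S.B_pos
  constructor
  · have h1 : 1 ≤ S.H * S.B ^ d := Nat.mul_pos h7 (pow_pos hB d)
    exact_mod_cast h1
  · have h1 : S.H * S.B ^ d ≤ S.P := by nlinarith [Nat.zero_le (S.H * S.B ^ d)]
    exact_mod_cast h1

private theorem sum_union_le' {ι : Type} [DecidableEq ι] {f : ι → ℝ} (hf : ∀ i, 0 ≤ f i)
    (s t : Finset ι) : ∑ i ∈ s ∪ t, f i ≤ ∑ i ∈ s, f i + ∑ i ∈ t, f i := by
  rw [← sum_union_inter]
  have := sum_nonneg (s := s ∩ t) (f := f) (fun i _ => hf i)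
  linarith

private theorem sum_kap_le (d : ℕ) (hd : 4 ≤ d) : ∃ C : ℝ, 0 < C ∧ ∀ Z N : ℕ, 1 ≤ Z →
    ∑ q ∈ (Icc 1 N).filter (fun q => Z ≤ q), (q : ℝ) * (kap d q) ^ d ≤
      C * (Z : ℝ) ^ (-(1 / (4 * (d : ℝ)))) := by
  obtain ⟨C, hC, h⟩ := kap_sum d hd
  refine ⟨C, hC, fun Z N hZ => le_trans (sum_le_sum fun q hq => ?_) (h Z N hZ)⟩
  have hq1 : 1 ≤ q := (mem_Icc.mp (mem_filter.mp hq).1).1
  have h1 : (1 : ℝ) ≤ (q : ℝ) ^ theta d := by
    apply Real.one_le_rpow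
    · exact_mod_cast hq1
    · unfold theta
      positivity
  have hk := kap_nonneg d q
  apply mul_le_mul_of_nonneg_left _ (by positivity)
  apply pow_le_pow_left₀ hk
  nlinarith

theorem maj_all (d s E : ℕ) (hd : 4 ≤ d) : ∃ C : ℝ, 0 < C ∧ ∀ (m Mx : ℕ)
    (S : Setup d s m Mx E) (A : Arc S.P (4 * S.B ^ d)),
    (1 / (S.P : ℝ)) * ∑ b : ZMod S.P, S.V A b ^ d ≤ C / ((S.H : ℝ) * (S.B : ℝ) ^ d) := by
  obtain ⟨C, hC, h⟩ := arc_total d (by omega)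
  obtain ⟨C', hC', h'⟩ := sum_kap_le d hd
  refine ⟨C * C', by positivity, fun m Mx S A => ?_⟩
  obtain ⟨hAm1, hAmP⟩ := am_facts S
  set Am : ℝ := (S.H : ℝ) * (S.B : ℝ) ^ d with hAm
  have hAm0 : 0 < Am := by linarith
  have hP0 : (0 : ℝ) < S.P := by linarith
  have h1 := h S.P (4 * S.B ^ d) A Am 1 hAm1 hAmP le_rfl (fun q => kap d q ^ d)
    (fun q => pow_nonneg (kap_nonneg d q) d) (Icc 1 (4 * S.B ^ d))
  have h2 := h' 1 (4 * S.B ^ d) le_rfl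
  have e1 : (univ : Finset (ZMod S.P)).filter (fun b => A.q b ∈ Icc 1 (4 * S.B ^ d) ∧
      (1 : ℝ) ≤ max 1 (Am * |A.dl b|)) = univ := by
    rw [filter_eq_self]
    intro b _
    exact ⟨mem_Icc.mpr ⟨A.qpos b, A.qle b⟩, le_max_left _ _⟩
  have e2 : (Icc 1 (4 * S.B ^ d)).filter (fun q => 1 ≤ q ∧ q ≤ 4 * S.B ^ d) =
      (Icc 1 (4 * S.B ^ d)).filter (fun q => 1 ≤ q) := by
    apply filter_congr
    intro q hq
    have := (mem_Icc.mp hq).2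
    simp [this]
  rw [e1, e2] at h1
  have e3 : ∑ b : ZMod S.P, S.V A b ^ d =
      ∑ b : ZMod S.P, kap d (A.q b) ^ d * (1 / max 1 (Am * |A.dl b|)) ^ d := by
    refine sum_congr rfl fun b _ => ?_
    unfold Setup.V Setup.lam
    rw [mul_pow, mul_comm]
  rw [Nat.cast_one, Real.one_rpow, mul_one] at h2
  rw [one_div_one, one_pow, mul_one] at h1
  rw [e3]
  have h3 : ∑ b : ZMod S.P, kap d (A.q b) ^ d * (1 / max 1 (Am * |A.dl b|)) ^ d ≤
      C * (S.P / Am) * C' := h1.trans (mul_le_mul_of_nonneg_left h2 (by positivity))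
  calc (1 / (S.P : ℝ)) * ∑ b : ZMod S.P, kap d (A.q b) ^ d * (1 / max 1 (Am * |A.dl b|)) ^ d
      ≤ (1 / (S.P : ℝ)) * (C * (S.P / Am) * C') := mul_le_mul_of_nonneg_left h3 (by positivity)
    _ = C * C' / Am := by field_simp

theorem maj_outer (d s E : ℕ) (hd : 4 ≤ d) : ∃ C : ℝ, 0 < C ∧ ∀ (m4 Mx : ℕ)
    (S : Setup d s (4 * m4) Mx E) (A : Arc S.P (4 * S.B ^ d)),
    (1 / (S.P : ℝ)) * ∑ b ∈ (univ : Finset (ZMod S.P)).filter (fun b =>
      ¬ (A.q b ≤ S.R ^ m4 ∧ (S.H : ℝ) * (S.B : ℝ) ^ d * |A.dl b| ≤ (S.R : ℝ) ^ m4)),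
      S.V A b ^ d ≤ C * ((S.R : ℝ) ^ m4) ^ (-(1 / (4 * (d : ℝ)))) /
        ((S.H : ℝ) * (S.B : ℝ) ^ d) := by
  obtain ⟨C, hC, h⟩ := arc_total d (by omega)
  obtain ⟨C', hC', h'⟩ := sum_kap_le d hd
  refine ⟨2 * (C * C'), by positivity, fun m4 Mx S A => ?_⟩
  obtain ⟨hAm1, hAmP⟩ := am_facts S
  set Am : ℝ := (S.H : ℝ) * (S.B : ℝ) ^ d with hAm
  have hAm0 : 0 < Am := by linarith
  have hP0 : (0 : ℝ) < S.P := by linarith
  have hR1 : 1 ≤ S.R ^ m4 := Nat.one_le_pow _ _ (by have := S.hR; omega)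
  set Z : ℝ := (S.R : ℝ) ^ m4 with hZ
  have hZ1 : 1 ≤ Z := by
    rw [hZ]
    exact_mod_cast hR1
  have hZ0 : 0 < Z := by linarith
  have hVnn : ∀ b, 0 ≤ S.V A b ^ d := fun b => pow_nonneg (S.V_nonneg A b) d
  have hVe : ∀ b, S.V A b ^ d = kap d (A.q b) ^ d * (1 / max 1 (Am * |A.dl b|)) ^ d := by
    intro b
    unfold Setup.V Setup.lam
    rw [mul_pow, mul_comm]
  -- first part
  have h1 := h S.P (4 * S.B ^ d) A Am 1 hAm1 hAmP le_rfl (fun q => kap d q ^ d)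
    (fun q => pow_nonneg (kap_nonneg d q) d) ((Icc 1 (4 * S.B ^ d)).filter
      (fun q => S.R ^ m4 ≤ q))
  have h2 := h' (S.R ^ m4) (4 * S.B ^ d) hR1
  have e2 : ((Icc 1 (4 * S.B ^ d)).filter (fun q => S.R ^ m4 ≤ q)).filter
      (fun q => 1 ≤ q ∧ q ≤ 4 * S.B ^ d) =
      (Icc 1 (4 * S.B ^ d)).filter (fun q => S.R ^ m4 ≤ q) := by
    rw [filter_eq_self]
    intro q hq
    exact mem_Icc.mp (mem_filter.mp hq).1
  rw [e2, one_div_one, one_pow, mul_one] at h1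
  have h3 := h1.trans (mul_le_mul_of_nonneg_left h2 (by positivity))
  -- second part
  have h4 := h S.P (4 * S.B ^ d) A Am Z hAm1 hAmP hZ1 (fun q => kap d q ^ d)
    (fun q => pow_nonneg (kap_nonneg d q) d) (Icc 1 (4 * S.B ^ d))
  have h5 := h' 1 (4 * S.B ^ d) le_rfl
  have e5 : (Icc 1 (4 * S.B ^ d)).filter (fun q => 1 ≤ q ∧ q ≤ 4 * S.B ^ d) =
      (Icc 1 (4 * S.B ^ d)).filter (fun q => 1 ≤ q) := by
    apply filter_congr
    intro q hq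
    have := (mem_Icc.mp hq).2
    simp [this]
  rw [e5] at h4
  rw [Nat.cast_one, Real.one_rpow, mul_one] at h5
  have h6 := h4.trans (mul_le_mul_of_nonneg_left h5 (by positivity))
  have hpow : (1 / Z) ^ (d - 1) ≤ Z ^ (-(1 / (4 * (d : ℝ)))) := by
    have hd0 : (0 : ℝ) < d := by
      have : 0 < d := by omega
      exact_mod_cast this
    have h7 : (1 / Z) ^ (d - 1) ≤ (1 / Z) ^ 1 := by
      apply pow_le_pow_of_le_one (by positivity)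
      · rw [div_le_one hZ0]
        exact hZ1
      · omega
    have h8 : (1 / Z) ^ 1 = Z ^ (-(1 : ℝ)) := by
      rw [pow_one, Real.rpow_neg_one, one_div]
    rw [h8] at h7
    refine h7.trans (Real.rpow_le_rpow_of_exponent_le hZ1 ?_)
    rw [neg_le_neg_iff, div_le_one (by positivity)]
    have : (4 : ℝ) ≤ d := by exact_mod_cast hd
    linarith
  have hcast : ((S.R ^ m4 : ℕ) : ℝ) = Z := by rw [hZ]; push_cast; rfl
  rw [hcast] at h3
  have hzz : 0 ≤ Z ^ (-(1 / (4 * (d : ℝ)))) := by positivity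
  have h9 : C * (S.P / Am) * (1 / Z) ^ (d - 1) * C' ≤
      C * (S.P / Am) * (C' * Z ^ (-(1 / (4 * (d : ℝ))))) := by
    have : C * (S.P / Am) * (1 / Z) ^ (d - 1) * C' = C * (S.P / Am) * (C' * (1 / Z) ^ (d - 1)) := by
      ring
    rw [this]
    apply mul_le_mul_of_nonneg_left _ (by positivity)
    exact mul_le_mul_of_nonneg_left hpow hC'.le
  have h10 := h6.trans h9
  -- combine
  have hsub : (univ : Finset (ZMod S.P)).filter (fun b =>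
      ¬ (A.q b ≤ S.R ^ m4 ∧ Am * |A.dl b| ≤ Z)) ⊆
      ((univ : Finset (ZMod S.P)).filter (fun b =>
        A.q b ∈ (Icc 1 (4 * S.B ^ d)).filter (fun q => S.R ^ m4 ≤ q) ∧
          (1 : ℝ) ≤ max 1 (Am * |A.dl b|))) ∪
      ((univ : Finset (ZMod S.P)).filter (fun b =>
        A.q b ∈ Icc 1 (4 * S.B ^ d) ∧ Z ≤ max 1 (Am * |A.dl b|))) := by
    intro b hb
    have hb2 := (mem_filter.mp hb).2
    rw [mem_union]
    by_cases hq : A.q b ≤ S.R ^ m4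
    · right
      rw [mem_filter]
      refine ⟨mem_univ _, mem_Icc.mpr ⟨A.qpos b, A.qle b⟩, ?_⟩
      have : ¬ Am * |A.dl b| ≤ Z := fun h0 => hb2 ⟨hq, h0⟩
      exact le_trans (le_of_lt (not_le.mp this)) (le_max_right _ _)
    · left
      rw [mem_filter, mem_filter]
      exact ⟨mem_univ _, ⟨mem_Icc.mpr ⟨A.qpos b, A.qle b⟩, (not_le.mp hq).le⟩, le_max_left _ _⟩
  have h11 : ∑ b ∈ (univ : Finset (ZMod S.P)).filter (fun b =>
      ¬ (A.q b ≤ S.R ^ m4 ∧ Am * |A.dl b| ≤ Z)), S.V A b ^ d ≤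
      2 * (C * (S.P / Am) * (C' * Z ^ (-(1 / (4 * (d : ℝ)))))) := by
    refine (sum_le_sum_of_subset_of_nonneg hsub (fun b _ _ => hVnn b)).trans ?_
    refine (sum_union_le' (fun b => hVnn b) _ _).trans ?_
    simp only [hVe]
    linarith
  calc (1 / (S.P : ℝ)) * ∑ b ∈ (univ : Finset (ZMod S.P)).filter (fun b =>
      ¬ (A.q b ≤ S.R ^ m4 ∧ Am * |A.dl b| ≤ Z)), S.V A b ^ d
      ≤ (1 / (S.P : ℝ)) * (2 * (C * (S.P / Am) * (C' * Z ^ (-(1 / (4 * (d : ℝ))))))) :=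
        mul_le_mul_of_nonneg_left h11 (by positivity)
    _ = 2 * (C * C') * Z ^ (-(1 / (4 * (d : ℝ)))) / Am := by field_simp

end Pool.Agent.Lib.MP_e426f4_ag.DG
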