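import Pool.Agent.Lib.MP_e426f4_ag.DG.Defs

/-!
# Psi
-/

set_option autoImplicit false

namespace Pool.Agent.Lib.MP_e426f4_ag.DG

open Finset

variable {P : ℕ} [NeZero P]

private theorem card_Icc_sym (J : ℕ) : ((Icc (-(J : ℤ)) J).card : ℝ) = 2 * J + 1 := by
  rw [Int.card_Icc]
  have : ((J : ℤ) + 1 - -(J : ℤ)).toNat = 2 * J + 1 := by omega
  rw [this]
  push_cast
  ring

private theorem psi_le_of (P W J : ℕ) [NeZero P] (b : ZMod P) (l : ℝ)
    (h : ∀ j ∈ Icc (-(J : ℤ)) J,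
      l ≤ Real.cos (2 * Real.pi * ((W : ℝ) * (j : ℝ) * ((b.val : ℝ) / P)))) :
    psi P W J b ≤ 1 - l := by
  unfold psi
  have hpos : (0 : ℝ) < 2 * J + 1 := by positivity
  have h1 : (2 * (J : ℝ) + 1) * l ≤ ∑ j ∈ Icc (-(J : ℤ)) J,
      Real.cos (2 * Real.pi * ((W : ℝ) * (j : ℝ) * ((b.val : ℝ) / P))) := by
    rw [← card_Icc_sym, ← nsmul_eq_mul]
    exact Finset.card_nsmul_le_sum _ _ _ h
  have h2 : l ≤ (∑ j ∈ Icc (-(J : ℤ)) J,
      Real.cos (2 * Real.pi * ((W : ℝ) * (j : ℝ) * ((b.val : ℝ) / P)))) / (2 * J + 1) := by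
    rw [le_div_iff₀ hpos]
    linarith
  linarith

theorem psi_nonneg (W J : ℕ) (b : ZMod P) : 0 ≤ psi P W J b := by
  unfold psi
  have hpos : (0 : ℝ) < 2 * J + 1 := by positivity
  have h1 : ∑ j ∈ Icc (-(J : ℤ)) J,
      Real.cos (2 * Real.pi * ((W : ℝ) * (j : ℝ) * ((b.val : ℝ) / P))) ≤ 2 * J + 1 := by
    have h2 := Finset.sum_le_card_nsmul (Icc (-(J : ℤ)) J)
      (fun j => Real.cos (2 * Real.pi * ((W : ℝ) * (j : ℝ) * ((b.val : ℝ) / P)))) 1
      (fun j _ => Real.cos_le_one _)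
    rw [nsmul_eq_mul, mul_one, card_Icc_sym] at h2
    exact h2
  have h3 : (∑ j ∈ Icc (-(J : ℤ)) J,
      Real.cos (2 * Real.pi * ((W : ℝ) * (j : ℝ) * ((b.val : ℝ) / P)))) / (2 * J + 1) ≤ 1 := by
    rw [div_le_one hpos]
    exact h1
  linarith

theorem psi_le_two (W J : ℕ) (b : ZMod P) : psi P W J b ≤ 2 := by
  have := psi_le_of P W J b (-1) (fun j _ => Real.neg_one_le_cos _)
  linarith

theorem psi_arc (W J q c : ℕ) (hq : 0 < q) (hqW : q ∣ W) (b : ZMod P) :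
    psi P W J b ≤ 2 * Real.pi ^ 2 * ((W : ℝ) * J * ((b.val : ℝ) / P - (c : ℝ) / q)) ^ 2 := by
  obtain ⟨k, rfl⟩ := hqW
  have hq' : (q : ℝ) ≠ 0 := by exact_mod_cast hq.ne'
  set δ : ℝ := (b.val : ℝ) / P - (c : ℝ) / q with hδ
  have h := psi_le_of P (q * k) J b
    (1 - 2 * Real.pi ^ 2 * (((q * k : ℕ) : ℝ) * J * δ) ^ 2) (by
      intro j hj
      rw [Finset.mem_Icc] at hj
      have h1 : 2 * Real.pi * (((q * k : ℕ) : ℝ) * (j : ℝ) * ((b.val : ℝ) / P)) =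
          2 * Real.pi * (((q * k : ℕ) : ℝ) * (j : ℝ) * δ) +
            ((k * j * c : ℤ) : ℝ) * (2 * Real.pi) := by
        rw [hδ]
        push_cast
        field_simp
        ring
      rw [h1, Real.cos_add_int_mul_two_pi]
      refine le_trans ?_ (Real.one_sub_sq_div_two_le_cos)
      have hj2 : (j : ℝ) ^ 2 ≤ (J : ℝ) ^ 2 := by
        have h3 : |(j : ℝ)| ≤ |(J : ℝ)| := by
          rw [Nat.abs_cast, abs_le]
          constructor
          · exact_mod_cast hj.1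
          · exact_mod_cast hj.2
        exact sq_le_sq.mpr h3
      have h4 : 0 ≤ 2 * Real.pi ^ 2 * (((q * k : ℕ) : ℝ) * δ) ^ 2 := by positivity
      have h5 := mul_le_mul_of_nonneg_left hj2 h4
      nlinarith [h5])
  linarith

end Pool.Agent.Lib.MP_e426f4_ag.DG
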