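import Pool.Agent.Lib.MP_e426f4_ag.DG.Defs
import Pool.Agent.Lib.MP_e426f4_ag.DG.Facts1
import Pool.Agent.Lib.MP_e426f4_ag.DG.VDefs
import Pool.Agent.Lib.MP_e426f4_ag.DG.KapSum
import Pool.Agent.Lib.MP_e426f4_ag.DG.ArcTot
import Pool.Agent.Lib.MP_e426f4_ag.DG.Ed
import Pool.Agent.Lib.MP_e426f4_ag.DG.Psi

/-!
# MajCore: the sum with psi is small
Split at `q <= om` and `q > om`. For `q > om`: `psi <= 2`, `arc_total` (M = 1, g = (q^theta kap)^d, D = {q > om}) and `kap_sum` with `Z = om + 1`: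
contribution `<= 2 C C' (om+1)^{-1/(4d)}/Am`, `<= eta/2/Am` for om large. For `q <= om`: `q | om!`, `psi_arc` (c = A.c b):
`psi <= 2 pi^2 (om! J dl)^2 <= 2 pi^2 e0^2 (Am dl)^2`, with `mu = max 1 (Am |dl|)`, `(Am dl)^2 lam^d <= mu^2 mu^{-d} = lam^{d-2}`; so
`psi * lam^d <= 2 pi^2 e0^2 lam^{d-2}` and `arc_total` with exponent `d - 2 >= 2` gives `<= 2 pi^2 e0^2 C C'/Am <= eta/2/Am` for e0 small.
-/

set_option autoImplicit false

namespace Pool.Agent.Lib.MP_e426f4_ag.DG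

open Finset

private theorem am_facts' {d s m Mx E : ℕ} (S : Setup d s m Mx E) :
    1 ≤ (S.H : ℝ) * (S.B : ℝ) ^ d ∧ (S.H : ℝ) * (S.B : ℝ) ^ d ≤ S.P := by
  obtain ⟨_, _, _, _, h5, _, h7⟩ := S.n_facts
  have hB := S.B_pos
  constructor
  · have h1 : 1 ≤ S.H * S.B ^ d := Nat.mul_pos h7 (pow_pos hB d)
    exact_mod_cast h1
  · have h1 : S.H * S.B ^ d ≤ S.P := by nlinarith [Nat.zero_le (S.H * S.B ^ d)]
    exact_mod_cast h1

private theorem exists_om (d : ℕ) (hd : 4 ≤ d) (K eps : ℝ) (hK : 0 < K) (heps : 0 < eps) :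
    ∃ om : ℕ, 1 ≤ om ∧ K * (((om + 1 : ℕ) : ℝ)) ^ (-(1 / (4 * (d : ℝ)))) ≤ eps := by
  have hd0 : (0 : ℝ) < d := by
    have : 0 < d := by omega
    exact_mod_cast this
  have h1 : Filter.Tendsto (fun x : ℝ => x ^ (-(1 / (4 * (d : ℝ))))) Filter.atTop (nhds 0) :=
    tendsto_rpow_neg_atTop (by positivity)
  have h2 : Filter.Tendsto (fun n : ℕ => (((n + 1 : ℕ) : ℝ)) ^ (-(1 / (4 * (d : ℝ)))))
      Filter.atTop (nhds 0) :=
    h1.comp (tendsto_natCast_atTop_atTop.comp (Filter.tendsto_add_atTop_nat 1))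
  have h3 := h2.eventually (gt_mem_nhds (show (0 : ℝ) < eps / K by positivity))
  obtain ⟨N, hN⟩ := Filter.eventually_atTop.mp h3
  refine ⟨max N 1, le_max_right _ _, ?_⟩
  have h4 := (hN (max N 1) (le_max_left _ _)).le
  rw [le_div_iff₀ hK] at h4
  linarith

theorem maj_core (d s E : ℕ) (hd : 4 ≤ d) (eta : ℝ) (heta : 0 < eta) :
    ∃ (om : ℕ) (e0 : ℝ), 1 ≤ om ∧ 0 < e0 ∧ ∀ (m Mx J : ℕ)
    (S : Setup d s m Mx E) (A : Arc S.P (4 * S.B ^ d)),
    ((om.factorial : ℝ) * J ≤ e0 * S.H * (S.B : ℝ) ^ d) →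
    (1 / (S.P : ℝ)) * ∑ b : ZMod S.P, psi S.P om.factorial J b *
      (((A.q b : ℕ) : ℝ) ^ theta d * S.V A b) ^ d ≤ eta / ((S.H : ℝ) * (S.B : ℝ) ^ d) := by
  obtain ⟨C1, hC1, h1⟩ := arc_total d (by omega)
  obtain ⟨C2, hC2, h2⟩ := arc_total (d - 2) (by omega)
  obtain ⟨C', hC', h'⟩ := kap_sum d hd
  obtain ⟨om, hom1, hom⟩ := exists_om d hd (2 * (C1 * C')) (eta / 2) (by positivity) (by positivity)
  have hpi := Real.pi_pos
  set e0 : ℝ := Real.sqrt (eta / (4 * Real.pi ^ 2 * (C2 * C'))) with he0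
  have he0p : 0 < e0 := Real.sqrt_pos.mpr (by positivity)
  have he0sq : e0 ^ 2 = eta / (4 * Real.pi ^ 2 * (C2 * C')) :=
    Real.sq_sqrt (by positivity)
  refine ⟨om, e0, hom1, he0p, fun m Mx J S A hJ => ?_⟩
  obtain ⟨hAm1, hAmP⟩ := am_facts' S
  rw [mul_assoc] at hJ
  set Am : ℝ := (S.H : ℝ) * (S.B : ℝ) ^ d with hAm
  have hAm0 : 0 < Am := by linarith
  have hP0 : (0 : ℝ) < S.P := by linarith
  set g : ℕ → ℝ := fun q => ((q : ℝ) ^ theta d * kap d q) ^ d with hg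
  have hgnn : ∀ q, 0 ≤ g q := fun q => pow_nonneg (mul_nonneg (by positivity) (kap_nonneg d q)) d
  -- terms
  have hterm : ∀ b, (((A.q b : ℕ) : ℝ) ^ theta d * S.V A b) ^ d =
      g (A.q b) * (1 / max 1 (Am * |A.dl b|)) ^ d := by
    intro b
    unfold Setup.V Setup.lam
    simp only [hg]
    rw [← mul_pow]
    congr 1
    ring
  -- large q
  have hL := h1 S.P (4 * S.B ^ d) A Am 1 hAm1 hAmP le_rfl g hgnn
    ((Icc 1 (4 * S.B ^ d)).filter (fun q => om + 1 ≤ q))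
  have hL2 := h' (om + 1) (4 * S.B ^ d) (by omega)
  have eL : ((Icc 1 (4 * S.B ^ d)).filter (fun q => om + 1 ≤ q)).filter
      (fun q => 1 ≤ q ∧ q ≤ 4 * S.B ^ d) =
      (Icc 1 (4 * S.B ^ d)).filter (fun q => om + 1 ≤ q) := by
    rw [filter_eq_self]
    intro q hq
    exact mem_Icc.mp (mem_filter.mp hq).1
  rw [eL, one_div_one, one_pow, mul_one] at hL
  have hL3 := hL.trans (mul_le_mul_of_nonneg_left hL2 (by positivity))
  -- small q
  have hS := h2 S.P (4 * S.B ^ d) A Am 1 hAm1 hAmP le_rfl g hgnn (Icc 1 (4 * S.B ^ d))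
  have hS2 := h' 1 (4 * S.B ^ d) le_rfl
  have eS : (Icc 1 (4 * S.B ^ d)).filter (fun q => 1 ≤ q ∧ q ≤ 4 * S.B ^ d) =
      (Icc 1 (4 * S.B ^ d)).filter (fun q => 1 ≤ q) := by
    apply filter_congr
    intro q hq
    have := (mem_Icc.mp hq).2
    simp [this]
  rw [eS, one_div_one, one_pow, mul_one] at hS
  rw [Nat.cast_one, Real.one_rpow, mul_one] at hS2
  have hS3 := hS.trans (mul_le_mul_of_nonneg_left hS2 (by positivity))
  -- pointwise bound
  set F1 : ZMod S.P → ℝ := fun b => if om + 1 ≤ A.q b then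
    2 * (g (A.q b) * (1 / max 1 (Am * |A.dl b|)) ^ d) else 0 with hF1
  set F2 : ZMod S.P → ℝ := fun b =>
    2 * Real.pi ^ 2 * e0 ^ 2 * (g (A.q b) * (1 / max 1 (Am * |A.dl b|)) ^ (d - 2)) with hF2
  have hF2nn : ∀ b, 0 ≤ F2 b := by
    intro b
    have h3 := hgnn (A.q b)
    simp only [hF2]
    positivity
  have hpt : ∀ b, psi S.P om.factorial J b * (((A.q b : ℕ) : ℝ) ^ theta d * S.V A b) ^ d ≤
      F1 b + F2 b := by
    intro b
    rw [hterm]
    set mu : ℝ := max 1 (Am * |A.dl b|) with hmu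
    have hmu1 : 1 ≤ mu := le_max_left _ _
    have hmu0 : 0 < mu := by linarith
    have hgb := hgnn (A.q b)
    by_cases hq : om + 1 ≤ A.q b
    · have h3 := psi_le_two (P := S.P) om.factorial J b
      have h4 : F1 b = 2 * (g (A.q b) * (1 / mu) ^ d) := by
        simp only [hF1, if_pos hq]
        rw [← hmu]
      have h5 := hF2nn b
      have h6 : psi S.P om.factorial J b * (g (A.q b) * (1 / mu) ^ d) ≤
          2 * (g (A.q b) * (1 / mu) ^ d) := by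
        apply mul_le_mul_of_nonneg_right h3
        positivity
      linarith
    · have hq2 : A.q b ≤ om := by omega
      have h3 := psi_arc (P := S.P) om.factorial J (A.q b) (A.c b) (A.qpos b)
        (Nat.dvd_factorial (A.qpos b) hq2) b
      have h4 : F1 b = 0 := by
        simp only [hF1, if_neg hq]
      rw [h4, zero_add]
      have hdl : (b.val : ℝ) / S.P - (A.c b : ℝ) / A.q b = A.dl b := rfl
      rw [hdl] at h3
      have h5 : ((om.factorial : ℝ) * J * A.dl b) ^ 2 ≤ e0 ^ 2 * mu ^ 2 := by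
        rw [← mul_pow, ← sq_abs]
        apply pow_le_pow_left₀ (abs_nonneg _)
        rw [abs_mul, abs_of_nonneg (by positivity : (0 : ℝ) ≤ (om.factorial : ℝ) * J)]
        calc (om.factorial : ℝ) * J * |A.dl b| ≤ (e0 * Am) * |A.dl b| :=
              mul_le_mul_of_nonneg_right hJ (abs_nonneg _)
          _ = e0 * (Am * |A.dl b|) := by ring
          _ ≤ e0 * mu := mul_le_mul_of_nonneg_left (le_max_right _ _) he0p.le
      have h6 : psi S.P om.factorial J b ≤ 2 * Real.pi ^ 2 * (e0 ^ 2 * mu ^ 2) :=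
        h3.trans (mul_le_mul_of_nonneg_left h5 (by positivity))
      have h7 : mu ^ 2 * (1 / mu) ^ d = (1 / mu) ^ (d - 2) := by
        obtain ⟨k, rfl⟩ : ∃ k, d = k + 2 := ⟨d - 2, by omega⟩
        rw [Nat.add_sub_cancel, pow_add]
        field_simp
      calc psi S.P om.factorial J b * (g (A.q b) * (1 / mu) ^ d)
          ≤ 2 * Real.pi ^ 2 * (e0 ^ 2 * mu ^ 2) * (g (A.q b) * (1 / mu) ^ d) :=
            mul_le_mul_of_nonneg_right h6 (by positivity)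
        _ = 2 * Real.pi ^ 2 * e0 ^ 2 * (g (A.q b) * (mu ^ 2 * (1 / mu) ^ d)) := by ring
        _ = F2 b := by rw [h7]
  -- sums
  have hsum1 : ∑ b : ZMod S.P, F1 b ≤
      2 * (C1 * (S.P / Am) * (C' * (((om + 1 : ℕ) : ℝ)) ^ (-(1 / (4 * (d : ℝ)))))) := by
    have e1 : ∑ b : ZMod S.P, F1 b = 2 * ∑ b ∈ (univ : Finset (ZMod S.P)).filter (fun b =>
        A.q b ∈ (Icc 1 (4 * S.B ^ d)).filter (fun q => om + 1 ≤ q) ∧
          (1 : ℝ) ≤ max 1 (Am * |A.dl b|)), g (A.q b) * (1 / max 1 (Am * |A.dl b|)) ^ d := by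
      rw [mul_sum, sum_filter]
      refine sum_congr rfl fun b _ => ?_
      have e2 : (A.q b ∈ (Icc 1 (4 * S.B ^ d)).filter (fun q => om + 1 ≤ q) ∧
          (1 : ℝ) ≤ max 1 (Am * |A.dl b|)) ↔ om + 1 ≤ A.q b := by
        rw [mem_filter, mem_Icc]
        exact ⟨fun h3 => h3.1.2, fun h3 => ⟨⟨⟨A.qpos b, A.qle b⟩, h3⟩, le_max_left _ _⟩⟩
      simp only [hF1]
      exact (if_congr e2 rfl rfl).symm
    rw [e1]
    exact mul_le_mul_of_nonneg_left hL3 (by norm_num)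
  have hsum2 : ∑ b : ZMod S.P, F2 b ≤
      2 * Real.pi ^ 2 * e0 ^ 2 * (C2 * (S.P / Am) * C') := by
    have e1 : ∑ b : ZMod S.P, F2 b = 2 * Real.pi ^ 2 * e0 ^ 2 *
        ∑ b ∈ (univ : Finset (ZMod S.P)).filter (fun b =>
        A.q b ∈ (Icc 1 (4 * S.B ^ d)) ∧
          (1 : ℝ) ≤ max 1 (Am * |A.dl b|)), g (A.q b) * (1 / max 1 (Am * |A.dl b|)) ^ (d - 2) := by
      rw [mul_sum]
      have e2 : (univ : Finset (ZMod S.P)).filter (fun b =>
        A.q b ∈ (Icc 1 (4 * S.B ^ d)) ∧ (1 : ℝ) ≤ max 1 (Am * |A.dl b|)) = univ := by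
        rw [filter_eq_self]
        intro b _
        exact ⟨mem_Icc.mpr ⟨A.qpos b, A.qle b⟩, le_max_left _ _⟩
      rw [e2]
    rw [e1]
    exact mul_le_mul_of_nonneg_left hS3 (by positivity)
  have hfin : ∑ b : ZMod S.P, psi S.P om.factorial J b *
      (((A.q b : ℕ) : ℝ) ^ theta d * S.V A b) ^ d ≤
      2 * (C1 * (S.P / Am) * (C' * (((om + 1 : ℕ) : ℝ)) ^ (-(1 / (4 * (d : ℝ)))))) +
      2 * Real.pi ^ 2 * e0 ^ 2 * (C2 * (S.P / Am) * C') := by
    refine (sum_le_sum fun b _ => hpt b).trans ?_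
    rw [sum_add_distrib]
    exact add_le_add hsum1 hsum2
  calc (1 / (S.P : ℝ)) * ∑ b : ZMod S.P, psi S.P om.factorial J b *
      (((A.q b : ℕ) : ℝ) ^ theta d * S.V A b) ^ d
      ≤ (1 / (S.P : ℝ)) * (2 * (C1 * (S.P / Am) *
          (C' * (((om + 1 : ℕ) : ℝ)) ^ (-(1 / (4 * (d : ℝ)))))) +
        2 * Real.pi ^ 2 * e0 ^ 2 * (C2 * (S.P / Am) * C')) :=
        mul_le_mul_of_nonneg_left hfin (by positivity)
    _ = (2 * (C1 * C') * (((om + 1 : ℕ) : ℝ)) ^ (-(1 / (4 * (d : ℝ)))) +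
        2 * Real.pi ^ 2 * e0 ^ 2 * (C2 * C')) / Am := by
        field_simp
    _ ≤ (eta / 2 + eta / 2) / Am := by
        apply div_le_div_of_nonneg_right _ hAm0.le
        apply add_le_add hom
        rw [he0sq]
        apply le_of_eq
        field_simp
        ring
    _ = eta / Am := by ring

end Pool.Agent.Lib.MP_e426f4_ag.DG
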