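import Pool.Agent.Lib.MP_e426f4_ag.DG.Defs
import Pool.Agent.Lib.MP_e426f4_ag.DG.Ker1
import Pool.Agent.Lib.MP_e426f4_ag.DG.Ker2

/-!
# Fej: Fejer majorant
* `Dn_sq`: `‖D_H(c)‖^2/H = sum_{|a|<H} (1 - |a|/H) ee(a c)`: `‖D_H‖^2 = sum_{j,j'<H} ee((j-j')c)` and `#{(j,j') : j-j' = a} = H - |a|`.
* `FZ_le_Ft`: termwise. If `wh P n c != 0` then `c = k mod P`, `|k| < n` (`wh_supp`); `wt_ge` with the roles `n := H`, `a := k`
  (`4 H |k| <= 4 H n <= P`) gives `‖D_H(c)‖^2/H^2 >= 1/2`, so `16 ‖D_H(c)‖^2/H >= 8 H >= P/n >= wh P n c` (`wh_le`).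
-/

set_option autoImplicit false

namespace Pool.Agent.Lib.MP_e426f4_ag.DG

open Finset

variable {P : ℕ} [NeZero P]

private theorem card_diff (H : ℕ) (a : ℤ) (ha : a ∈ Ioo (-(H : ℤ)) H) :
    (((range H ×ˢ range H).filter fun j : ℕ × ℕ => (j.1 : ℤ) - (j.2 : ℤ) = a).card : ℝ) =
      (H : ℝ) - |(a : ℝ)| := by
  rw [mem_Ioo] at ha
  obtain ⟨h1, h2⟩ := ha
  rcases le_total 0 a with h0 | h0
  · obtain ⟨k, rfl⟩ := Int.eq_ofNat_of_zero_le h0
    have hk : k < H := by exact_mod_cast h2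
    have e1 : ((range H ×ˢ range H).filter fun j : ℕ × ℕ => (j.1 : ℤ) - (j.2 : ℤ) = (k : ℤ)) =
        (range (H - k)).image (fun j => (j + k, j)) := by
      ext ⟨x, y⟩
      simp only [mem_filter, mem_product, mem_range, mem_image, Prod.mk.injEq]
      constructor
      · rintro ⟨⟨hx, hy⟩, hxy⟩
        exact ⟨y, by omega, by omega, rfl⟩
      · rintro ⟨j, hj, rfl, rfl⟩
        refine ⟨⟨by omega, by omega⟩, by push_cast; ring⟩
    rw [e1, card_image_of_injective _ (fun x y hxy => (Prod.mk.inj hxy).2), card_range]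
    push_cast [Nat.cast_sub hk.le]
    rw [abs_of_nonneg (by positivity)]
  · obtain ⟨k, hk0⟩ := Int.eq_ofNat_of_zero_le (neg_nonneg.mpr h0)
    have hak : a = -(k : ℤ) := by linarith
    subst hak
    have hk : k < H := by
      have : (k : ℤ) < H := by linarith
      exact_mod_cast this
    have e1 : ((range H ×ˢ range H).filter fun j : ℕ × ℕ => (j.1 : ℤ) - (j.2 : ℤ) = -(k : ℤ)) =
        (range (H - k)).image (fun j => (j, j + k)) := by
      ext ⟨x, y⟩
      simp only [mem_filter, mem_product, mem_range, mem_image, Prod.mk.injEq]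
      constructor
      · rintro ⟨⟨hx, hy⟩, hxy⟩
        exact ⟨x, by omega, rfl, by omega⟩
      · rintro ⟨j, hj, rfl, rfl⟩
        refine ⟨⟨by omega, by omega⟩, by push_cast; ring⟩
    rw [e1, card_image_of_injective _ (fun x y hxy => (Prod.mk.inj hxy).1), card_range]
    push_cast [Nat.cast_sub hk.le]
    rw [abs_neg, abs_of_nonneg (by positivity)]

theorem Dn_sq (H : ℕ) (hH : 0 < H) (c : ZMod P) :
    ((‖Dn P H c‖ ^ 2 / H : ℝ) : ℂ) =
      ∑ a ∈ Ioo (-(H : ℤ)) H, ((1 - |(a : ℝ)| / H : ℝ) : ℂ) * ee P ((a : ZMod P) * c) := by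
  have hH0 : (H : ℝ) ≠ 0 := by positivity
  have hconj : ∀ x : ZMod P, (starRingEnd ℂ) (ee P x) = ee P (-x) := by
    intro x
    unfold ee
    exact (AddChar.map_neg_eq_conj (ZMod.stdAddChar (N := P)) x).symm
  have h1 : ((‖Dn P H c‖ ^ 2 : ℝ) : ℂ) =
      ∑ j ∈ range H ×ˢ range H, ee P ((((j.1 : ℤ) - (j.2 : ℤ) : ℤ) : ZMod P) * c) := by
    have h2 : ((‖Dn P H c‖ ^ 2 : ℝ) : ℂ) = Dn P H c * (starRingEnd ℂ) (Dn P H c) := by
      rw [Complex.mul_conj, Complex.normSq_eq_norm_sq]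
    rw [h2, sum_product]
    unfold Dn
    rw [map_sum, sum_mul_sum]
    refine sum_congr rfl fun i _ => sum_congr rfl fun j _ => ?_
    rw [hconj]
    unfold ee
    rw [← AddChar.map_add_eq_mul]
    congr 1
    push_cast
    ring
  have h3 : ∑ j ∈ range H ×ˢ range H, ee P ((((j.1 : ℤ) - (j.2 : ℤ) : ℤ) : ZMod P) * c) =
      ∑ a ∈ Ioo (-(H : ℤ)) H, (((H : ℝ) - |(a : ℝ)| : ℝ) : ℂ) * ee P ((a : ZMod P) * c) := by
    rw [← sum_fiberwise_of_maps_to (g := fun j : ℕ × ℕ => (j.1 : ℤ) - (j.2 : ℤ))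
      (t := Ioo (-(H : ℤ)) H)]
    · refine sum_congr rfl fun a ha => ?_
      rw [← card_diff H a ha]
      push_cast
      rw [← nsmul_eq_mul, ← sum_const]
      refine sum_congr rfl fun j hj => ?_
      have h4 := (mem_filter.mp hj).2
      rw [← h4]
      push_cast
      rfl
    · rintro ⟨x, y⟩ hxy
      simp only [mem_product, mem_range] at hxy
      rw [mem_Ioo]
      constructor <;> push_cast <;> omega
  rw [Complex.ofReal_div, h1, h3, sum_div]
  refine sum_congr rfl fun a _ => ?_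
  have hH1 : (H : ℂ) ≠ 0 := by exact_mod_cast hH0
  push_cast
  field_simp

theorem Ft_nonneg (H d : ℕ) (Z : Finset (ℕ × ℕ)) (b b' : ZMod P) : 0 ≤ Ft P H d Z b b' := by
  unfold Ft
  exact sum_nonneg fun z _ => by positivity

theorem FZ_le_Ft (n d H : ℕ) (hH : 0 < H) (hn : 0 < n) (hnP : n ≤ P) (hnH : 4 * n * H ≤ P)
    (hP : (P : ℝ) / n ≤ 8 * H) (Z : Finset (ℕ × ℕ)) (b b' : ZMod P) :
    FZ P n d Z b b' ≤ 16 * Ft P H d Z b b' := by
  unfold FZ Ft
  rw [mul_sum]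
  refine sum_le_sum fun z _ => ?_
  set c : ZMod P := b * (z.1 : ZMod P) ^ d - b' * (z.2 : ZMod P) ^ d with hc
  by_cases h0 : wh P n c = 0
  · rw [h0]
    positivity
  · obtain ⟨k, hk, hkc⟩ := wh_supp n c h0
    have h1 : 4 * (H : ℤ) * |k| ≤ P := by
      have h2 : (H : ℤ) * |k| ≤ (H : ℤ) * n := by
        apply mul_le_mul_of_nonneg_left hk.le
        positivity
      have h3 : (4 : ℤ) * n * H ≤ P := by exact_mod_cast hnH
      nlinarith
    have h2 := wt_ge (P := P) H hH k h1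
    rw [hkc] at h2
    unfold wt at h2
    have hHp : (0 : ℝ) < H := by positivity
    rw [div_le_div_iff₀ (by norm_num) (by positivity)] at h2
    have h3 := wh_le (P := P) n hn hnP c
    have h4 : 8 * (H : ℝ) ≤ 16 * (‖Dn P H c‖ ^ 2 / H) := by
      rw [← mul_div_assoc, le_div_iff₀ hHp]
      nlinarith
    linarith

end Pool.Agent.Lib.MP_e426f4_ag.DG
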