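import Pool.Agent.Lib.MP_e426f4_ag.DG.Defs
import Pool.Agent.Lib.MP_e426f4_ag.DG.Fej
import Pool.Agent.Lib.MP_e426f4_ag.DG.FFb

/-!
# L4a: the fourth moment is a number of solutions
`FZ <= 16 Ft` for each factor, all nonnegative. By `Dn_sq`, `Ft(Z)(b,b') = sum_{z in Z} sum_{|a|<H} (1-|a|/H) ee(a (b z_1^d - b' z_2^d))`.
Multiply the four sums (`Finset.prod_univ_sum`), sum over b, b': `P^-2 sum_{b,b'} ee(b sum_k a_k z_{k,1}^d) ee(-b' sum_k a_k z_{k,2}^d)` is 1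
if both sums are 0 mod P, else 0 (`sum_ee`); |sums| <= 4 H B^d < P, so they are 0 in Z. The weights are between 0 and 1.
-/

set_option autoImplicit false

namespace Pool.Agent.Lib.MP_e426f4_ag.DG

open Finset

variable {P : ℕ} [NeZero P]

/-- number of solutions of the pair of equations in four variables -/
noncomputable def count4 (H d : ℕ) (Z : Fin 4 → Finset (ℕ × ℕ)) : ℝ :=
  ∑ z ∈ Fintype.piFinset Z, ((((Fintype.piFinset fun _ : Fin 4 => Ioo (-(H : ℤ)) H)).filter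
    fun a : Fin 4 → ℤ => ∑ k, a k * ((z k).1 : ℤ) ^ d = 0 ∧ ∑ k, a k * ((z k).2 : ℤ) ^ d = 0).card : ℝ)

private theorem ee_sum {ι : Type*} (s : Finset ι) (f : ι → ZMod P) :
    ee P (∑ i ∈ s, f i) = ∏ i ∈ s, ee P (f i) := by
  classical
  unfold ee
  induction s using Finset.induction_on with
  | empty => simp
  | insert a s ha ih => rw [Finset.sum_insert ha, Finset.prod_insert ha, AddChar.map_add_eq_mul, ih]

private theorem ee_add (x y : ZMod P) : ee P (x + y) = ee P x * ee P y := by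
  unfold ee
  exact AddChar.map_add_eq_mul _ _ _

omit [NeZero P] in
private theorem zero_of_zmod (d H B : ℕ) (hH : 0 < H) (hPB : 4 * H * B ^ d < P)
    (a : Fin 4 → ℤ) (ha : ∀ k, |a k| < H) (x : Fin 4 → ℕ) (hx : ∀ k, x k ≤ B)
    (h : ∑ k, (a k : ZMod P) * (x k : ZMod P) ^ d = 0) : ∑ k, a k * (x k : ℤ) ^ d = 0 := by
  have h1 : ((∑ k, a k * (x k : ℤ) ^ d : ℤ) : ZMod P) = 0 := by
    push_cast
    exact h
  rw [ZMod.intCast_zmod_eq_zero_iff_dvd] at h1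
  apply Int.eq_zero_of_abs_lt_dvd h1
  calc |∑ k, a k * (x k : ℤ) ^ d| ≤ ∑ k, |a k * (x k : ℤ) ^ d| := Finset.abs_sum_le_sum_abs _ _
    _ ≤ ∑ _k : Fin 4, (H : ℤ) * (B : ℤ) ^ d := by
        apply Finset.sum_le_sum
        intro k _
        rw [abs_mul, abs_pow, Nat.abs_cast]
        have h2 : ((x k : ℕ) : ℤ) ^ d ≤ (B : ℤ) ^ d := by
          exact_mod_cast Nat.pow_le_pow_left (hx k) d
        exact mul_le_mul (ha k).le h2 (by positivity) (by positivity)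
    _ = 4 * H * (B : ℤ) ^ d := by
        rw [Finset.sum_const, Finset.card_univ, Fintype.card_fin]
        ring
    _ < P := by exact_mod_cast hPB

private theorem expand (d H : ℕ) (hH : 0 < H) (z : Fin 4 → ℕ × ℕ) (b b' : ZMod P) :
    ((∏ k, (‖Dn P H (b * ((z k).1 : ZMod P) ^ d - b' * ((z k).2 : ZMod P) ^ d)‖ ^ 2 / H) : ℝ) : ℂ) =
      ∑ a ∈ Fintype.piFinset fun _ : Fin 4 => Ioo (-(H : ℤ)) H,
        ((∏ k, (1 - |(a k : ℝ)| / H) : ℝ) : ℂ) *
          (ee P (b * ∑ k, (a k : ZMod P) * ((z k).1 : ZMod P) ^ d) *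
            ee P (b' * -∑ k, (a k : ZMod P) * ((z k).2 : ZMod P) ^ d)) := by
  rw [Complex.ofReal_prod]
  simp_rw [Dn_sq H hH]
  rw [Finset.prod_univ_sum]
  apply Finset.sum_congr rfl
  intro a _
  rw [Finset.prod_mul_distrib, Complex.ofReal_prod, ← ee_sum, ← ee_add]
  congr 2
  rw [mul_neg, Finset.mul_sum, Finset.mul_sum, ← sub_eq_add_neg, ← Finset.sum_sub_distrib]
  apply Finset.sum_congr rfl
  intro k _
  ring

private theorem one_term (d H B : ℕ) (hH : 0 < H) (hPB : 4 * H * B ^ d < P)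
    (z : Fin 4 → ℕ × ℕ) (hz : ∀ k, (z k).1 ≤ B ∧ (z k).2 ≤ B) :
    (1 / (P : ℝ) ^ 2) * ∑ b : ZMod P, ∑ b' : ZMod P,
      ∏ k, (‖Dn P H (b * ((z k).1 : ZMod P) ^ d - b' * ((z k).2 : ZMod P) ^ d)‖ ^ 2 / H) ≤
    ((((Fintype.piFinset fun _ : Fin 4 => Ioo (-(H : ℤ)) H)).filter
      fun a : Fin 4 → ℤ => ∑ k, a k * ((z k).1 : ℤ) ^ d = 0 ∧
        ∑ k, a k * ((z k).2 : ℤ) ^ d = 0).card : ℝ) := by
  classical
  have hP0 : (P : ℂ) ≠ 0 := by exact_mod_cast NeZero.ne P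
  have hC : (((1 / (P : ℝ) ^ 2) * ∑ b : ZMod P, ∑ b' : ZMod P,
      ∏ k, (‖Dn P H (b * ((z k).1 : ZMod P) ^ d - b' * ((z k).2 : ZMod P) ^ d)‖ ^ 2 / H) : ℝ) : ℂ) =
      ((∑ a ∈ Fintype.piFinset fun _ : Fin 4 => Ioo (-(H : ℤ)) H,
        if (∑ k, (a k : ZMod P) * ((z k).1 : ZMod P) ^ d = 0 ∧
          ∑ k, (a k : ZMod P) * ((z k).2 : ZMod P) ^ d = 0) then
            (∏ k, (1 - |(a k : ℝ)| / H)) else 0 : ℝ) : ℂ) := by
    rw [Complex.ofReal_mul, Complex.ofReal_sum]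
    simp_rw [Complex.ofReal_sum (univ : Finset (ZMod P)), expand d H hH z]
    have h1 : ∀ b : ZMod P, (∑ b' : ZMod P, ∑ a ∈ Fintype.piFinset fun _ : Fin 4 => Ioo (-(H : ℤ)) H,
        ((∏ k, (1 - |(a k : ℝ)| / H) : ℝ) : ℂ) *
          (ee P (b * ∑ k, (a k : ZMod P) * ((z k).1 : ZMod P) ^ d) *
            ee P (b' * -∑ k, (a k : ZMod P) * ((z k).2 : ZMod P) ^ d))) =
        ∑ a ∈ Fintype.piFinset fun _ : Fin 4 => Ioo (-(H : ℤ)) H,
        ((∏ k, (1 - |(a k : ℝ)| / H) : ℝ) : ℂ) *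
          (ee P (b * ∑ k, (a k : ZMod P) * ((z k).1 : ZMod P) ^ d) *
            if (-∑ k, (a k : ZMod P) * ((z k).2 : ZMod P) ^ d) = 0 then (P : ℂ) else 0) := by
      intro b
      rw [Finset.sum_comm]
      apply Finset.sum_congr rfl
      intro a _
      rw [← Finset.mul_sum, ← Finset.mul_sum, sum_ee]
    simp_rw [h1]
    rw [Finset.sum_comm, Finset.mul_sum, Complex.ofReal_sum]
    apply Finset.sum_congr rfl
    intro a _
    rw [← Finset.mul_sum, ← Finset.sum_mul, sum_ee]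
    simp only [neg_eq_zero]
    by_cases hS1 : ∑ k, (a k : ZMod P) * ((z k).1 : ZMod P) ^ d = 0
    · by_cases hS2 : ∑ k, (a k : ZMod P) * ((z k).2 : ZMod P) ^ d = 0
      · rw [if_pos hS1, if_pos hS2, if_pos ⟨hS1, hS2⟩]
        push_cast
        field_simp
      · simp only [hS2, and_false, if_false, mul_zero, Complex.ofReal_zero]
    · simp only [hS1, false_and, if_false, mul_zero, zero_mul, Complex.ofReal_zero]
  rw [Complex.ofReal_injective hC, Finset.card_filter]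
  push_cast
  apply Finset.sum_le_sum
  intro a ha
  have ha' : ∀ k, |a k| < H := by
    intro k
    have := Fintype.mem_piFinset.1 ha k
    rw [Finset.mem_Ioo] at this
    exact abs_lt.2 this
  have hHr : (0 : ℝ) < H := by exact_mod_cast hH
  have hw : ∀ k, 0 ≤ 1 - |(a k : ℝ)| / H ∧ 1 - |(a k : ℝ)| / H ≤ 1 := by
    intro k
    have h2 : |(a k : ℝ)| ≤ H := by exact_mod_cast (ha' k).le
    have h3 : |(a k : ℝ)| / H ≤ 1 := (div_le_one hHr).2 h2
    have h4 : 0 ≤ |(a k : ℝ)| / H := by positivity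
    constructor <;> linarith
  split_ifs with h1 h2 h3
  · exact Finset.prod_le_one (fun k _ => (hw k).1) (fun k _ => (hw k).2)
  · exfalso
    exact h2 ⟨zero_of_zmod d H B hH hPB a ha' (fun k => (z k).1) (fun k => (hz k).1) h1.1,
      zero_of_zmod d H B hH hPB a ha' (fun k => (z k).2) (fun k => (hz k).2) h1.2⟩
  · exact zero_le_one
  · exact le_rfl

theorem L4 (n d H B : ℕ) (hH : 0 < H) (hn : 0 < n) (hnP : n ≤ P)
    (hnH : 4 * n * H ≤ P) (hP : (P : ℝ) / n ≤ 8 * H) (hPB : 4 * H * B ^ d < P)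
    (Z : Fin 4 → Finset (ℕ × ℕ)) (hZ : ∀ k, ∀ z ∈ Z k, z.1 ≤ B ∧ z.2 ≤ B) :
    (1 / (P : ℝ) ^ 2) * ∑ b : ZMod P, ∑ b' : ZMod P, ∏ k, FZ P n d (Z k) b b' ≤
      16 ^ 4 * count4 H d Z := by
  have h1 : ∀ b b' : ZMod P, ∏ k, FZ P n d (Z k) b b' ≤ 16 ^ 4 * ∏ k, Ft P H d (Z k) b b' := by
    intro b b'
    calc ∏ k, FZ P n d (Z k) b b' ≤ ∏ k, (16 * Ft P H d (Z k) b b') :=
          Finset.prod_le_prod (fun k _ => FZ_nonneg n d (Z k) b b')
            (fun k _ => FZ_le_Ft n d H hH hn hnP hnH hP (Z k) b b')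
      _ = 16 ^ 4 * ∏ k, Ft P H d (Z k) b b' := by
          rw [Finset.prod_mul_distrib, Finset.prod_const, Finset.card_univ, Fintype.card_fin]
  calc (1 / (P : ℝ) ^ 2) * ∑ b : ZMod P, ∑ b' : ZMod P, ∏ k, FZ P n d (Z k) b b'
      ≤ (1 / (P : ℝ) ^ 2) * ∑ b : ZMod P, ∑ b' : ZMod P,
          (16 ^ 4 * ∏ k, Ft P H d (Z k) b b') := by
        gcongr with b _ b' _
        exact h1 b b'
    _ = 16 ^ 4 * ∑ z ∈ Fintype.piFinset Z, ((1 / (P : ℝ) ^ 2) * ∑ b : ZMod P, ∑ b' : ZMod P,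
          ∏ k, (‖Dn P H (b * ((z k).1 : ZMod P) ^ d - b' * ((z k).2 : ZMod P) ^ d)‖ ^ 2 / H)) := by
        simp_rw [← Finset.mul_sum, Ft]
        simp_rw [Finset.prod_univ_sum]
        rw [← mul_assoc, mul_comm (1 / (P : ℝ) ^ 2), mul_assoc]
        congr 2
        calc ∑ b : ZMod P, ∑ b' : ZMod P, ∑ z ∈ Fintype.piFinset Z,
              ∏ k, ‖Dn P H (b * ((z k).1 : ZMod P) ^ d - b' * ((z k).2 : ZMod P) ^ d)‖ ^ 2 / H
            = ∑ b : ZMod P, ∑ z ∈ Fintype.piFinset Z, ∑ b' : ZMod P,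
              ∏ k, ‖Dn P H (b * ((z k).1 : ZMod P) ^ d - b' * ((z k).2 : ZMod P) ^ d)‖ ^ 2 / H :=
              Finset.sum_congr rfl (fun b _ => Finset.sum_comm)
          _ = _ := Finset.sum_comm
    _ ≤ 16 ^ 4 * count4 H d Z := by
        unfold count4
        gcongr with z hz
        apply one_term d H B hH hPB z
        intro k
        exact hZ k _ (Fintype.mem_piFinset.1 hz k)

end Pool.Agent.Lib.MP_e426f4_ag.DG
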