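import Pool.Agent.Lib.MP_e426f4_ag.DG.Defs

/-!
# Seven: combinatorial inequality
Let `S = {i : g i <= f i}`. One of `S`, its complement has at least 4 elements. If `4 <= |S|` choose an injective `k0 : Fin 4 -> S`. For `i` in the image of `k0` `f i + g i <= 2 f i`, for the
three other indices `f i + g i <= U`. So the left side is `<= 2^4 U^3 prod_j f (k0 j)`. Otherwise the same with `g`. All terms of the right-hand sum are nonnegative.
-/

set_option autoImplicit false

namespace Pool.Agent.Lib.MP_e426f4_ag.DG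

open Finset

private theorem half (f g : Fin 7 → ℝ) (hf : ∀ i, 0 ≤ f i) (hg : ∀ i, 0 ≤ g i) (U : ℝ)
    (hU : ∀ i, f i + g i ≤ U) (T : Finset (Fin 7)) (hT : T.card = 4) (hfg : ∀ i ∈ T, g i ≤ f i) :
    ∃ k : Fin 4 → Fin 7, Function.Injective k ∧
      ∏ i, (f i + g i) ≤ 16 * U ^ 3 * ∏ j, f (k j) := by
  classical
  refine ⟨T.orderEmbOfFin hT, (T.orderEmbOfFin hT).injective, ?_⟩
  have h1 : ∏ j, f (T.orderEmbOfFin hT j) = ∏ i ∈ T, f i := by
    have h2 : T = (univ : Finset (Fin 4)).map (T.orderEmbOfFin hT).toEmbedding := by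
      ext i
      simp only [mem_map, mem_univ, true_and]
      constructor
      · intro hi
        have h3 : i ∈ Set.range (T.orderEmbOfFin hT) := by
          rw [Finset.range_orderEmbOfFin]
          exact hi
        exact h3
      · rintro ⟨j, rfl⟩
        exact Finset.orderEmbOfFin_mem T hT j
    conv_rhs => rw [h2]
    rw [Finset.prod_map]
    rfl
  have hTc : Tᶜ.card = 3 := by
    rw [Finset.card_compl, hT]
    rfl
  rw [h1, ← Finset.prod_mul_prod_compl T]
  have h4 : ∏ i ∈ T, (f i + g i) ≤ 16 * ∏ i ∈ T, f i := by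
    calc ∏ i ∈ T, (f i + g i) ≤ ∏ i ∈ T, (2 * f i) := by
          apply Finset.prod_le_prod
          · intro i _
            exact add_nonneg (hf i) (hg i)
          · intro i hi
            linarith [hfg i hi]
      _ = 16 * ∏ i ∈ T, f i := by
          rw [Finset.prod_mul_distrib, Finset.prod_const, hT]
          norm_num
  have h5 : ∏ i ∈ Tᶜ, (f i + g i) ≤ U ^ 3 := by
    calc ∏ i ∈ Tᶜ, (f i + g i) ≤ ∏ i ∈ Tᶜ, U := by
          apply Finset.prod_le_prod
          · intro i _
            exact add_nonneg (hf i) (hg i)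
          · intro i _
            exact hU i
      _ = U ^ 3 := by rw [Finset.prod_const, hTc]
  have h6 : 0 ≤ ∏ i ∈ Tᶜ, (f i + g i) := Finset.prod_nonneg fun i _ => add_nonneg (hf i) (hg i)
  have h7 : 0 ≤ ∏ i ∈ T, f i := Finset.prod_nonneg fun i _ => hf i
  calc (∏ i ∈ T, (f i + g i)) * ∏ i ∈ Tᶜ, (f i + g i)
      ≤ (16 * ∏ i ∈ T, f i) * U ^ 3 := mul_le_mul h4 h5 h6 (by positivity)
    _ = 16 * U ^ 3 * ∏ i ∈ T, f i := by ring

open Classical in
theorem seven_four (f g : Fin 7 → ℝ) (hf : ∀ i, 0 ≤ f i) (hg : ∀ i, 0 ≤ g i) (U : ℝ)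
    (hU : ∀ i, f i + g i ≤ U) :
    ∏ i, (f i + g i) ≤ 16 * U ^ 3 *
      ∑ k ∈ (univ : Finset (Fin 4 → Fin 7)).filter Function.Injective,
        (∏ j, f (k j) + ∏ j, g (k j)) := by
  have hU0 : 0 ≤ U := (add_nonneg (hf 0) (hg 0)).trans (hU 0)
  have hpf : ∀ k : Fin 4 → Fin 7, 0 ≤ ∏ j, f (k j) := fun k => Finset.prod_nonneg fun j _ => hf _
  have hpg : ∀ k : Fin 4 → Fin 7, 0 ≤ ∏ j, g (k j) := fun k => Finset.prod_nonneg fun j _ => hg _
  have hsum : ∀ k : Fin 4 → Fin 7, Function.Injective k → ∏ j, f (k j) + ∏ j, g (k j) ≤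
      ∑ k ∈ (univ : Finset (Fin 4 → Fin 7)).filter Function.Injective,
        (∏ j, f (k j) + ∏ j, g (k j)) := by
    intro k hk
    exact Finset.single_le_sum (f := fun k : Fin 4 → Fin 7 => ∏ j, f (k j) + ∏ j, g (k j))
      (fun k _ => add_nonneg (hpf k) (hpg k)) (Finset.mem_filter.2 ⟨Finset.mem_univ k, hk⟩)
  set S : Finset (Fin 7) := univ.filter fun i => g i ≤ f i with hS
  have h16 : 0 ≤ 16 * U ^ 3 := by positivity
  rcases le_or_gt 4 S.card with h4 | h4
  · obtain ⟨T, hTS, hT⟩ := Finset.exists_subset_card_eq h4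
    obtain ⟨k, hk, hle⟩ := half f g hf hg U hU T hT fun i hi => (Finset.mem_filter.1 (hTS hi)).2
    refine hle.trans (mul_le_mul_of_nonneg_left ?_ h16)
    exact le_trans (le_add_of_nonneg_right (hpg k)) (hsum k hk)
  · have h5 : 4 ≤ Sᶜ.card := by
      rw [Finset.card_compl, Fintype.card_fin]
      omega
    obtain ⟨T, hTS, hT⟩ := Finset.exists_subset_card_eq h5
    obtain ⟨k, hk, hle⟩ := half g f hg hf U (fun i => by rw [add_comm]; exact hU i) T hT
      (fun i hi => by
        have h6 := hTS hi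
        rw [hS, Finset.mem_compl, Finset.mem_filter] at h6
        push Not at h6
        exact (h6 (Finset.mem_univ i)).le)
    have h7 : ∏ i, (f i + g i) = ∏ i, (g i + f i) := Finset.prod_congr rfl fun i _ => add_comm _ _
    rw [h7]
    refine hle.trans (mul_le_mul_of_nonneg_left ?_ h16)
    exact le_trans (le_add_of_nonneg_left (hpf k)) (hsum k hk)

end Pool.Agent.Lib.MP_e426f4_ag.DG
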