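import Pool.Agent.Lib.MP_e426f4_ag.DG.Defs

/-!
# InvDet: (C3)
Let `A = t1 l1 t2' l2'`, `A' = t1' l1' t2 l2` (z1 = (l1,l1'), z2 = (l2,l2')). The denominator is `|A^d - A'^d|`. `A != A'`: the prime `l1` (in P1) does not divide
`A'` (T < L < l1, l1 != l1', l1 != l2 because P1, P2 are disjoint). `A, A' >= L^2`, so `|A^d - A'^d| >= |A - A'| (L^2)^(d-1)`. For fixed `(l1', l2)` (at most `L^2`
pairs) the map `(l1,l2') -> A` is injective (`l1 l2'` determines the primes `l1 in P1`, `l2' in P2`: if `l1 l2' = m1 m2'` then `l1 | m1 m2'`, `l1 != m2'`), so the `A - A'` are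
distinct non-zero integers of absolute value `<= 16 L^2 T^2 =: N`, and `sum 1/|A-A'| <= 2 sum_{k<=N} 1/k <= 2(1 + log N)` (`harmonic_le_one_add_log`).
-/

set_option autoImplicit false

namespace Pool.Agent.Lib.MP_e426f4_ag.DG

open Finset

private theorem harm_le (n N : ℕ) (h : n ≤ N) :
    ∑ k ∈ range n, 1 / ((k : ℝ) + 1) ≤ 1 + Real.log N := by
  have h1 : ∑ k ∈ range n, 1 / ((k : ℝ) + 1) ≤ ∑ k ∈ range N, 1 / ((k : ℝ) + 1) := by
    refine Finset.sum_le_sum_of_subset_of_nonneg (Finset.range_mono h) fun k _ _ => ?_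
    positivity
  refine h1.trans ?_
  have h2 := harmonic_le_one_add_log N
  have h3 : ((harmonic N : ℚ) : ℝ) = ∑ k ∈ range N, 1 / ((k : ℝ) + 1) := by
    unfold harmonic
    push_cast
    refine Finset.sum_congr rfl fun k _ => ?_
    rw [one_div]
  rw [← h3]
  exact h2

private theorem rec_sum (N a : ℕ) (ha : a ≤ N) :
    ∑ x ∈ (range (N + 1)).erase a, 1 / |(x : ℝ) - a| ≤ 2 * (1 + Real.log N) := by
  have h1 : (range (N + 1)).erase a ⊆ range a ∪ (range (N - a)).image (fun k => a + 1 + k) := by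
    intro x hx
    rw [Finset.mem_erase, Finset.mem_range] at hx
    rw [Finset.mem_union, Finset.mem_range, Finset.mem_image]
    rcases lt_or_gt_of_ne hx.1 with h | h
    · exact Or.inl h
    · refine Or.inr ⟨x - (a + 1), ?_, by omega⟩
      rw [Finset.mem_range]; omega
  have hnn : ∀ x : ℕ, 0 ≤ 1 / |(x : ℝ) - a| := fun x => by positivity
  calc ∑ x ∈ (range (N + 1)).erase a, 1 / |(x : ℝ) - a|
      ≤ ∑ x ∈ range a ∪ (range (N - a)).image (fun k => a + 1 + k), 1 / |(x : ℝ) - a| :=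
        Finset.sum_le_sum_of_subset_of_nonneg h1 fun x _ _ => hnn x
    _ ≤ ∑ x ∈ range a, 1 / |(x : ℝ) - a| +
        ∑ x ∈ (range (N - a)).image (fun k => a + 1 + k), 1 / |(x : ℝ) - a| := by
        rw [← Finset.sum_union_inter]
        exact le_add_of_nonneg_right (Finset.sum_nonneg fun x _ => hnn x)
    _ ≤ (1 + Real.log N) + (1 + Real.log N) := by
        refine add_le_add ?_ ?_
        · refine le_trans (le_of_eq ?_) (harm_le a N ha)
          rw [← Finset.sum_range_reflect]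
          refine Finset.sum_congr rfl fun k hk => ?_
          rw [Finset.mem_range] at hk
          have h2 : ((a - 1 - k : ℕ) : ℝ) = (a : ℝ) - 1 - k := by
            rw [Nat.cast_sub (by omega), Nat.cast_sub (by omega)]; simp
          rw [h2, abs_of_nonpos]
          · congr 1; ring
          · have : (0 : ℝ) ≤ k := Nat.cast_nonneg k
            linarith
        · rw [Finset.sum_image (by intro x _ y _ h; simpa using h)]
          refine le_trans (le_of_eq ?_) (harm_le (N - a) N (Nat.sub_le _ _))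
          refine Finset.sum_congr rfl fun k _ => ?_
          have h2 : ((a + 1 + k : ℕ) : ℝ) - a = (k : ℝ) + 1 := by push_cast; ring
          rw [h2, abs_of_nonneg (by positivity)]
    _ = 2 * (1 + Real.log N) := by ring

private theorem inj_sum {ι : Type} (S : Finset ι) (A : ι → ℕ) (N a : ℕ) (ha : a ≤ N)
    (hinj : ∀ x ∈ S, ∀ y ∈ S, A x = A y → x = y) (hA : ∀ x ∈ S, A x ≤ N) (hne : ∀ x ∈ S, A x ≠ a) :
    ∑ x ∈ S, 1 / |(A x : ℝ) - a| ≤ 2 * (1 + Real.log N) := by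
  classical
  refine le_trans ?_ (rec_sum N a ha)
  have h1 : ∑ x ∈ S, 1 / |(A x : ℝ) - a| = ∑ y ∈ S.image A, 1 / |(y : ℝ) - a| := by
    rw [Finset.sum_image (fun x hx y hy h => hinj x hx y hy h)]
  rw [h1]
  refine Finset.sum_le_sum_of_subset_of_nonneg ?_ fun x _ _ => by positivity
  intro y hy
  obtain ⟨x, hx, rfl⟩ := Finset.mem_image.1 hy
  rw [Finset.mem_erase, Finset.mem_range]
  exact ⟨hne x hx, Nat.lt_succ_of_le (hA x hx)⟩

private theorem pow_sub_lower (d : ℕ) (hd : 1 ≤ d) (x y M : ℝ) (hM : 0 ≤ M) (hx : M ≤ x)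
    (hy : M ≤ y) : |x - y| * M ^ (d - 1) ≤ |x ^ d - y ^ d| := by
  have hx0 : 0 ≤ x := hM.trans hx
  have hy0 : 0 ≤ y := hM.trans hy
  have h1 : x ^ d - y ^ d = (∑ i ∈ range d, x ^ i * y ^ (d - 1 - i)) * (x - y) :=
    ((Commute.all x y).geom_sum₂_mul d).symm
  have h2 : M ^ (d - 1) ≤ ∑ i ∈ range d, x ^ i * y ^ (d - 1 - i) := by
    calc M ^ (d - 1) ≤ x ^ (d - 1) * y ^ (d - 1 - (d - 1)) := by
          rw [Nat.sub_self, pow_zero, mul_one]
          exact pow_le_pow_left₀ hM hx _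
      _ ≤ _ := Finset.single_le_sum (f := fun i => x ^ i * y ^ (d - 1 - i))
          (fun i _ => by positivity) (Finset.mem_range.2 (by omega))
  rw [h1, abs_mul, mul_comm |x - y|]
  refine mul_le_mul_of_nonneg_right ?_ (abs_nonneg _)
  exact h2.trans (le_abs_self _)

theorem sum_inv_det (d T L t1 t1' t2 t2' : ℕ) (hd : 1 ≤ d) (hTL : T < L)
    (ht : 1 ≤ t1 ∧ t1 ≤ T ∧ 1 ≤ t1' ∧ t1' ≤ T ∧ 1 ≤ t2 ∧ t2 ≤ T ∧ 1 ≤ t2' ∧ t2' ≤ T)
    (P1 P2 : Finset ℕ) (h1 : ∀ l ∈ P1, l.Prime ∧ L < l ∧ l ≤ 4 * L)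
    (h2 : ∀ l ∈ P2, l.Prime ∧ L < l ∧ l ≤ 4 * L) (hdis : Disjoint P1 P2)
    (hc1 : P1.card ≤ L) (hc2 : P2.card ≤ L) :
    ∑ z1 ∈ (P1 ×ˢ P1).filter (fun z : ℕ × ℕ => z.1 ≠ z.2),
      ∑ z2 ∈ (P2 ×ˢ P2).filter (fun z : ℕ × ℕ => z.1 ≠ z.2),
        1 / |(((t1 * z1.1 : ℕ) : ℝ)) ^ d * ((t2' * z2.2 : ℕ) : ℝ) ^ d -
          ((t1' * z1.2 : ℕ) : ℝ) ^ d * ((t2 * z2.1 : ℕ) : ℝ) ^ d| ≤
      2 * (1 + Real.log (16 * (L : ℝ) ^ 2 * (T : ℝ) ^ 2)) * (L : ℝ) ^ 2 / ((L : ℝ) ^ 2) ^ (d - 1) := by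
  classical
  obtain ⟨ht1, ht1T, ht1', ht1'T, ht2, ht2T, ht2', ht2'T⟩ := ht
  have hL : 0 < L := by omega
  have hLR : (0 : ℝ) < L := by exact_mod_cast hL
  set G : ℕ → ℕ → ℕ → ℕ → ℝ := fun l1 l1' l2 l2' =>
    1 / |(((t1 * l1 : ℕ) : ℝ)) ^ d * ((t2' * l2' : ℕ) : ℝ) ^ d -
          ((t1' * l1' : ℕ) : ℝ) ^ d * ((t2 * l2 : ℕ) : ℝ) ^ d| with hG
  set K : ℝ := 2 * (1 + Real.log (16 * (L : ℝ) ^ 2 * (T : ℝ) ^ 2)) / ((L : ℝ) ^ 2) ^ (d - 1) with hK
  -- the bound for fixed `l1'`, `l2`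
  have hinner : ∀ l1' ∈ P1, ∀ l2 ∈ P2,
      ∑ y ∈ (P1 ×ˢ P2).filter (fun y : ℕ × ℕ => y.1 ≠ l1' ∧ l2 ≠ y.2), G y.1 l1' l2 y.2 ≤ K := by
    intro l1' hl1' l2 hl2
    obtain ⟨p1', hp1'L, hp1'4⟩ := h1 l1' hl1'
    obtain ⟨p2, hp2L, hp24⟩ := h2 l2 hl2
    set S := (P1 ×ˢ P2).filter (fun y : ℕ × ℕ => y.1 ≠ l1' ∧ l2 ≠ y.2) with hS
    have hmem : ∀ y ∈ S, y.1 ∈ P1 ∧ y.2 ∈ P2 ∧ y.1 ≠ l1' ∧ l2 ≠ y.2 := by
      intro y hy
      rw [hS, Finset.mem_filter, Finset.mem_product] at hy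
      exact ⟨hy.1.1, hy.1.2, hy.2.1, hy.2.2⟩
    have hbound : ∀ s s' l l' : ℕ, s ≤ T → s' ≤ T → l ≤ 4 * L → l' ≤ 4 * L →
        s * l * (s' * l') ≤ 16 * L ^ 2 * T ^ 2 := by
      intro s s' l l' hs hs' hl hl'
      calc s * l * (s' * l') ≤ T * (4 * L) * (T * (4 * L)) :=
            Nat.mul_le_mul (Nat.mul_le_mul hs hl) (Nat.mul_le_mul hs' hl')
        _ = 16 * L ^ 2 * T ^ 2 := by ring
    have hlow : ∀ s s' l l' : ℕ, 1 ≤ s → 1 ≤ s' → L < l → L < l' →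
        (L : ℝ) ^ 2 ≤ ((s * l * (s' * l') : ℕ) : ℝ) := by
      intro s s' l l' hs hs' hl hl'
      have : L ^ 2 ≤ s * l * (s' * l') := by
        calc L ^ 2 = (1 * L) * (1 * L) := by ring
          _ ≤ s * l * (s' * l') :=
            Nat.mul_le_mul (Nat.mul_le_mul hs hl.le) (Nat.mul_le_mul hs' hl'.le)
      exact_mod_cast this
    have hterm : ∀ y ∈ S, G y.1 l1' l2 y.2 ≤
        1 / |((t1 * y.1 * (t2' * y.2) : ℕ) : ℝ) - ((t1' * l1' * (t2 * l2) : ℕ) : ℝ)| /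
          ((L : ℝ) ^ 2) ^ (d - 1) := by
      intro y hy
      obtain ⟨hy1, hy2, hy3, hy4⟩ := hmem y hy
      obtain ⟨q1, hq1L, hq14⟩ := h1 _ hy1
      obtain ⟨q2, hq2L, hq24⟩ := h2 _ hy2
      have e1 : (((t1 * y.1 : ℕ) : ℝ)) ^ d * ((t2' * y.2 : ℕ) : ℝ) ^ d =
          ((t1 * y.1 * (t2' * y.2) : ℕ) : ℝ) ^ d := by
        rw [← mul_pow]; push_cast; ring
      have e2 : (((t1' * l1' : ℕ) : ℝ)) ^ d * ((t2 * l2 : ℕ) : ℝ) ^ d =
          ((t1' * l1' * (t2 * l2) : ℕ) : ℝ) ^ d := by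
        rw [← mul_pow]; push_cast; ring
      have hne : t1 * y.1 * (t2' * y.2) ≠ t1' * l1' * (t2 * l2) := by
        intro heq
        have hdvd : y.1 ∣ t1' * l1' * (t2 * l2) := by
          rw [← heq]
          exact Dvd.dvd.mul_right (Dvd.intro_left _ rfl) _
        have hsmall : ∀ s : ℕ, 1 ≤ s → s ≤ T → ¬ y.1 ∣ s := fun s hs hsT hd' => by
          have := Nat.le_of_dvd (by omega) hd'
          omega
        rcases (Nat.Prime.dvd_mul q1).1 hdvd with hd1 | hd1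
        · rcases (Nat.Prime.dvd_mul q1).1 hd1 with hd2 | hd2
          · exact hsmall _ ht1' ht1'T hd2
          · exact hy3 ((Nat.prime_dvd_prime_iff_eq q1 p1').1 hd2)
        · rcases (Nat.Prime.dvd_mul q1).1 hd1 with hd2 | hd2
          · exact hsmall _ ht2 ht2T hd2
          · have := (Nat.prime_dvd_prime_iff_eq q1 p2).1 hd2
            rw [this] at hy1
            exact Finset.disjoint_left.1 hdis hy1 hl2
      have hpos : 0 < |((t1 * y.1 * (t2' * y.2) : ℕ) : ℝ) - ((t1' * l1' * (t2 * l2) : ℕ) : ℝ)| := by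
        rw [abs_pos, sub_ne_zero]
        exact_mod_cast hne
      have hM := pow_sub_lower d hd ((t1 * y.1 * (t2' * y.2) : ℕ) : ℝ)
        ((t1' * l1' * (t2 * l2) : ℕ) : ℝ) ((L : ℝ) ^ 2) (by positivity)
        (hlow t1 t2' y.1 y.2 ht1 ht2' hq1L hq2L) (hlow t1' t2 l1' l2 ht1' ht2 hp1'L hp2L)
      rw [hG]
      simp only []
      rw [e1, e2, div_div]
      exact one_div_le_one_div_of_le (mul_pos hpos (by positivity)) hM
    have hN : ((16 * L ^ 2 * T ^ 2 : ℕ) : ℝ) = 16 * (L : ℝ) ^ 2 * (T : ℝ) ^ 2 := by push_cast; ring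
    have hsum := inj_sum S (fun y => t1 * y.1 * (t2' * y.2)) (16 * L ^ 2 * T ^ 2)
      (t1' * l1' * (t2 * l2)) (hbound _ _ _ _ ht1'T ht2T hp1'4 hp24)
      (by
        intro x hx y hy hxy
        obtain ⟨hx1, hx2, -, -⟩ := hmem x hx
        obtain ⟨hy1, hy2, -, -⟩ := hmem y hy
        have e3 : x.1 * x.2 = y.1 * y.2 := by
          have e4 : (t1 * t2') * (x.1 * x.2) = (t1 * t2') * (y.1 * y.2) := by
            calc (t1 * t2') * (x.1 * x.2) = t1 * x.1 * (t2' * x.2) := by ring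
              _ = t1 * y.1 * (t2' * y.2) := hxy
              _ = (t1 * t2') * (y.1 * y.2) := by ring
          exact Nat.eq_of_mul_eq_mul_left (Nat.mul_pos ht1 ht2') e4
        have e5 : x.1 = y.1 := by
          have hd' : x.1 ∣ y.1 * y.2 := by rw [← e3]; exact Dvd.intro _ rfl
          rcases (Nat.Prime.dvd_mul (h1 _ hx1).1).1 hd' with h | h
          · exact (Nat.prime_dvd_prime_iff_eq (h1 _ hx1).1 (h1 _ hy1).1).1 h
          · exfalso
            have := (Nat.prime_dvd_prime_iff_eq (h1 _ hx1).1 (h2 _ hy2).1).1 h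
            rw [this] at hx1
            exact Finset.disjoint_left.1 hdis hx1 hy2
        have e6 : x.2 = y.2 := by
          rw [e5] at e3
          exact Nat.eq_of_mul_eq_mul_left (h1 _ hy1).1.pos e3
        exact Prod.ext e5 e6)
      (by
        intro x hx
        obtain ⟨hx1, hx2, -, -⟩ := hmem x hx
        exact hbound _ _ _ _ ht1T ht2'T (h1 _ hx1).2.2 (h2 _ hx2).2.2)
      (by
        intro y hy heq
        obtain ⟨hy1, hy2, hy3, hy4⟩ := hmem y hy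
        obtain ⟨q1, hq1L, hq14⟩ := h1 _ hy1
        have hdvd : y.1 ∣ t1' * l1' * (t2 * l2) := by
          rw [← heq]
          exact Dvd.dvd.mul_right (Dvd.intro_left _ rfl) _
        have hsmall : ∀ s : ℕ, 1 ≤ s → s ≤ T → ¬ y.1 ∣ s := fun s hs hsT hd' => by
          have := Nat.le_of_dvd (by omega) hd'
          omega
        rcases (Nat.Prime.dvd_mul q1).1 hdvd with hd1 | hd1
        · rcases (Nat.Prime.dvd_mul q1).1 hd1 with hd2 | hd2
          · exact hsmall _ ht1' ht1'T hd2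
          · exact hy3 ((Nat.prime_dvd_prime_iff_eq q1 p1').1 hd2)
        · rcases (Nat.Prime.dvd_mul q1).1 hd1 with hd2 | hd2
          · exact hsmall _ ht2 ht2T hd2
          · have := (Nat.prime_dvd_prime_iff_eq q1 p2).1 hd2
            rw [this] at hy1
            exact Finset.disjoint_left.1 hdis hy1 hl2)
    calc ∑ y ∈ S, G y.1 l1' l2 y.2
        ≤ ∑ y ∈ S, 1 / |((t1 * y.1 * (t2' * y.2) : ℕ) : ℝ) - ((t1' * l1' * (t2 * l2) : ℕ) : ℝ)| /
          ((L : ℝ) ^ 2) ^ (d - 1) := Finset.sum_le_sum hterm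
      _ = (∑ y ∈ S, 1 / |((t1 * y.1 * (t2' * y.2) : ℕ) : ℝ) -
            ((t1' * l1' * (t2 * l2) : ℕ) : ℝ)|) / ((L : ℝ) ^ 2) ^ (d - 1) := by
          rw [Finset.sum_div]
      _ ≤ K := by
          rw [hK, ← hN]
          exact div_le_div_of_nonneg_right hsum (by positivity)
  -- rearrangement of the sum
  have hre : ∑ z1 ∈ (P1 ×ˢ P1).filter (fun z : ℕ × ℕ => z.1 ≠ z.2),
      ∑ z2 ∈ (P2 ×ˢ P2).filter (fun z : ℕ × ℕ => z.1 ≠ z.2), G z1.1 z1.2 z2.1 z2.2 =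
      ∑ l1' ∈ P1, ∑ l2 ∈ P2,
        ∑ y ∈ (P1 ×ˢ P2).filter (fun y : ℕ × ℕ => y.1 ≠ l1' ∧ l2 ≠ y.2), G y.1 l1' l2 y.2 := by
    have e1 : ∀ l1' ∈ P1, ∀ l2 ∈ P2,
        ∑ y ∈ (P1 ×ˢ P2).filter (fun y : ℕ × ℕ => y.1 ≠ l1' ∧ l2 ≠ y.2), G y.1 l1' l2 y.2 =
        ∑ l1 ∈ P1, ∑ l2' ∈ P2, if l1 ≠ l1' ∧ l2 ≠ l2' then G l1 l1' l2 l2' else 0 := by
      intro l1' _ l2 _
      rw [Finset.sum_filter, Finset.sum_product]
    rw [Finset.sum_congr rfl fun l1' h => Finset.sum_congr rfl fun l2 h' => e1 l1' h l2 h']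
    rw [Finset.sum_filter, Finset.sum_product, Finset.sum_comm]
    refine Finset.sum_congr rfl fun l1' _ => ?_
    rw [Finset.sum_comm]
    refine Finset.sum_congr rfl fun l1 _ => ?_
    rw [Finset.sum_filter, Finset.sum_product]
    by_cases hne : l1 ≠ l1'
    · rw [if_pos hne]
      refine Finset.sum_congr rfl fun l2 _ => Finset.sum_congr rfl fun l2' _ => ?_
      by_cases hne2 : l2 ≠ l2'
      · rw [if_pos hne2, if_pos ⟨hne, hne2⟩]
      · rw [if_neg hne2, if_neg fun h => hne2 h.2]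
    · rw [if_neg hne, eq_comm]
      refine Finset.sum_eq_zero fun l2 _ => Finset.sum_eq_zero fun l2' _ => ?_
      rw [if_neg fun h => hne h.1]
  have hK0 : 0 ≤ K := by
    rw [hK]
    have hT1 : (1 : ℝ) ≤ T := by exact_mod_cast (by omega : 1 ≤ T)
    have hL1 : (1 : ℝ) ≤ L := by exact_mod_cast hL
    have : 0 ≤ Real.log (16 * (L : ℝ) ^ 2 * (T : ℝ) ^ 2) := by
      apply Real.log_nonneg
      have h3 : (1 : ℝ) ≤ (L : ℝ) ^ 2 := one_le_pow₀ hL1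
      have h4 : (1 : ℝ) ≤ (T : ℝ) ^ 2 := one_le_pow₀ hT1
      nlinarith
    positivity
  calc _ = ∑ l1' ∈ P1, ∑ l2 ∈ P2,
        ∑ y ∈ (P1 ×ˢ P2).filter (fun y : ℕ × ℕ => y.1 ≠ l1' ∧ l2 ≠ y.2), G y.1 l1' l2 y.2 := hre
    _ ≤ ∑ l1' ∈ P1, ∑ l2 ∈ P2, K :=
        Finset.sum_le_sum fun l1' h => Finset.sum_le_sum fun l2 h' => hinner l1' h l2 h'
    _ = (P1.card : ℝ) * ((P2.card : ℝ) * K) := by
        rw [Finset.sum_const, Finset.sum_const, nsmul_eq_mul, nsmul_eq_mul]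
    _ ≤ (L : ℝ) * ((L : ℝ) * K) := by
        have h5 : (P1.card : ℝ) ≤ L := by exact_mod_cast hc1
        have h6 : (P2.card : ℝ) ≤ L := by exact_mod_cast hc2
        gcongr
    _ = 2 * (1 + Real.log (16 * (L : ℝ) ^ 2 * (T : ℝ) ^ 2)) * (L : ℝ) ^ 2 /
          ((L : ℝ) ^ 2) ^ (d - 1) := by
        rw [hK]; ring

end Pool.Agent.Lib.MP_e426f4_ag.DG
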