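import Pool.Agent.Lib.MP_e426f4_ag.DG.Defs

/-!
# LatA: a short vector of the lattice {(v,w) : q | al1 w - al2 v}
Pigeonhole: with `k = Nat.sqrt q` the `(k+1)^2 > q` pairs `(v,w)` in `[0,k]^2` have two with the same `al1 w - al2 v` mod q; the difference is a non-zero
vector of the lattice with sup norm `<= k`. Among the non-zero lattice vectors choose one with minimal sup norm (well-founded on ℕ). If `(v,w)` is in the lattice
and parallel to it, `v w0 = w v0`: say `|v0| = max > 0` (the other case is symmetric); let `j` be the nearest integer such that `|v - j v0| <= |v0|/2`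
(or Euclidean division, remainder `r` with `0 <= r < |v0|`); the vector `(v - j v0, w - j w0)` is in the lattice and parallel to `(v0,w0)`, so its sup norm is
`|v - j v0| < |v0|`, hence it is zero by minimality.
-/

set_option autoImplicit false

namespace Pool.Agent.Lib.MP_e426f4_ag.DG

open Finset

private theorem latA_aux (Lam : ℤ → ℤ → Prop)
    (hsub : ∀ v w v' w' j : ℤ, Lam v w → Lam v' w' → Lam (v - j * v') (w - j * w'))
    (v0 w0 : ℤ) (h0 : Lam v0 w0) (hv0 : v0 ≠ 0) (hle : |w0| ≤ |v0|)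
    (hmin : ∀ v w, Lam v w → |v| < |v0| → |w| < |v0| → v = 0 ∧ w = 0)
    (v w : ℤ) (h : Lam v w) (hp : v * w0 = w * v0) : ∃ j : ℤ, v = j * v0 ∧ w = j * w0 := by
  refine ⟨v / v0, ?_⟩
  have hr0 : 0 ≤ v % v0 := Int.emod_nonneg v hv0
  have hr1 : v % v0 < |v0| := Int.emod_lt_abs v hv0
  have hr : v - v / v0 * v0 = v % v0 := by
    have := Int.emod_add_mul_ediv v v0
    linarith
  have h1 := hsub v w v0 w0 (v / v0) h h0
  have hv0' : 0 < |v0| := abs_pos.2 hv0
  have h2 : |v - v / v0 * v0| < |v0| := by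
    rw [hr, abs_of_nonneg hr0]
    exact hr1
  have h3 : (w - v / v0 * w0) * v0 = (v - v / v0 * v0) * w0 := by
    rw [sub_mul, sub_mul, ← hp]
    ring
  have h4 : |w - v / v0 * w0| * |v0| ≤ |v - v / v0 * v0| * |v0| := by
    rw [← abs_mul, h3, abs_mul]
    exact mul_le_mul_of_nonneg_left hle (abs_nonneg _)
  have h5 : |w - v / v0 * w0| ≤ |v - v / v0 * v0| := le_of_mul_le_mul_right h4 hv0'
  obtain ⟨h6, h7⟩ := hmin _ _ h1 h2 (lt_of_le_of_lt h5 h2)
  exact ⟨by linarith, by linarith⟩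

theorem short_vec (q al1 al2 : ℕ) (hq : 1 ≤ q) : ∃ v0 w0 : ℤ, (v0 ≠ 0 ∨ w0 ≠ 0) ∧
    (q : ℤ) ∣ al1 * w0 - al2 * v0 ∧ v0 ^ 2 ≤ q ∧ w0 ^ 2 ≤ q ∧
    ∀ v w : ℤ, (q : ℤ) ∣ al1 * w - al2 * v → v * w0 = w * v0 → ∃ j : ℤ, v = j * v0 ∧ w = j * w0 := by
  classical
  -- pigeonhole
  have hex : ∃ m : ℕ, ∃ v w : ℤ, (v ≠ 0 ∨ w ≠ 0) ∧ (q : ℤ) ∣ al1 * w - al2 * v ∧
      |v| ≤ m ∧ |w| ≤ m ∧ m ^ 2 ≤ q := by
    set k := Nat.sqrt q with hk
    have hk1 : k ^ 2 ≤ q := Nat.sqrt_le' q
    have hk2 : q < (k + 1) ^ 2 := by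
      have := Nat.lt_succ_sqrt' q
      exact this
    have hqz : (0 : ℤ) < q := by exact_mod_cast hq
    obtain ⟨x, hx, y, hy, hne, hxy⟩ := Finset.exists_ne_map_eq_of_card_lt_of_maps_to
      (s := range (k + 1) ×ˢ range (k + 1)) (t := Ico (0 : ℤ) q)
      (f := fun p : ℕ × ℕ => ((al1 : ℤ) * p.2 - al2 * p.1) % q)
      (by rw [card_product, card_range, Int.card_Ico, sub_zero, Int.toNat_natCast, ← sq]; exact hk2)
      (fun p _ => by
        rw [Finset.mem_coe, Finset.mem_Ico]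
        exact ⟨Int.emod_nonneg _ hqz.ne', Int.emod_lt_of_pos _ hqz⟩)
    rw [mem_product, mem_range, mem_range] at hx hy
    refine ⟨k, (x.1 : ℤ) - y.1, (x.2 : ℤ) - y.2, ?_, ?_, ?_, ?_, hk1⟩
    · by_contra hc
      push Not at hc
      apply hne
      refine Prod.ext ?_ ?_
      · have := hc.1
        omega
      · have := hc.2
        omega
    · have h1 := Int.emod_emod_of_dvd
      have h2 := Int.ModEq.dvd (show ((al1 : ℤ) * y.2 - al2 * y.1) ≡ ((al1 : ℤ) * x.2 - al2 * x.1)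
        [ZMOD q] from hxy.symm)
      have h3 : (al1 : ℤ) * ((x.2 : ℤ) - y.2) - al2 * ((x.1 : ℤ) - y.1) =
          (al1 : ℤ) * x.2 - al2 * x.1 - ((al1 : ℤ) * y.2 - al2 * y.1) := by ring
      rw [h3]
      exact h2
    · rw [abs_le]
      constructor <;> omega
    · rw [abs_le]
      constructor <;> omega
  set m := Nat.find hex with hm
  obtain ⟨v0, w0, hne, hdvd, hv, hw, hmq⟩ := Nat.find_spec hex
  rw [← hm] at hv hw hmq
  have hsq : ∀ u : ℤ, |u| ≤ m → u ^ 2 ≤ q := by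
    intro u hu
    have h1 : u ^ 2 ≤ (m : ℤ) ^ 2 := by
      rw [← sq_abs u]
      exact pow_le_pow_left₀ (abs_nonneg u) hu 2
    have h2 : ((m : ℤ)) ^ 2 ≤ q := by exact_mod_cast hmq
    exact h1.trans h2
  -- minimality
  have hmin : ∀ v w : ℤ, (q : ℤ) ∣ al1 * w - al2 * v → |v| < m → |w| < m → v = 0 ∧ w = 0 := by
    intro v w h hv' hw'
    by_contra hc
    have hc' : v ≠ 0 ∨ w ≠ 0 := by
      by_contra h2
      push Not at h2
      exact hc h2
    have hm1 : 1 ≤ m := by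
      have := abs_nonneg v
      omega
    refine Nat.find_min hex (m := m - 1) (by omega) ⟨v, w, hc', h, by omega, by omega, ?_⟩
    exact (Nat.pow_le_pow_left (Nat.sub_le m 1) 2).trans hmq
  have hm0 : (m : ℤ) ≤ max |v0| |w0| := by
    by_contra hc
    push Not at hc
    rw [max_lt_iff] at hc
    obtain ⟨h1, h2⟩ := hmin v0 w0 hdvd hc.1 hc.2
    rcases hne with h | h
    · exact h h1
    · exact h h2
  refine ⟨v0, w0, hne, hdvd, hsq v0 hv, hsq w0 hw, fun v w h hp => ?_⟩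
  rcases le_total |w0| |v0| with hle | hle
  · rw [max_eq_left hle] at hm0
    have hveq : |v0| = m := le_antisymm hv hm0
    have hv0 : v0 ≠ 0 := by
      rintro rfl
      rw [abs_zero] at hle
      have h1 : w0 = 0 := abs_nonpos_iff.1 hle
      rcases hne with h | h
      · exact h rfl
      · exact h h1
    refine latA_aux (fun v w => (q : ℤ) ∣ al1 * w - al2 * v) ?_ v0 w0 hdvd hv0 hle ?_ v w h hp
    · intro v w v' w' j h1 h2
      have h3 := dvd_sub h1 (h2.mul_left j)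
      have h4 : (al1 : ℤ) * (w - j * w') - al2 * (v - j * v') =
          (al1 * w - al2 * v) - j * (al1 * w' - al2 * v') := by ring
      show (q : ℤ) ∣ (al1 : ℤ) * (w - j * w') - al2 * (v - j * v')
      rw [h4]
      exact h3
    · intro v w h h1 h2
      rw [hveq] at h1 h2
      exact hmin v w h h1 h2
  · rw [max_eq_right hle] at hm0
    have hweq : |w0| = m := le_antisymm hw hm0
    have hw0 : w0 ≠ 0 := by
      rintro rfl
      rw [abs_zero] at hle
      have h1 : v0 = 0 := abs_nonpos_iff.1 hle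
      rcases hne with h | h
      · exact h h1
      · exact h rfl
    have hs : ∀ w v w' v' j : ℤ, (q : ℤ) ∣ al1 * w - al2 * v → (q : ℤ) ∣ al1 * w' - al2 * v' →
        (q : ℤ) ∣ al1 * (w - j * w') - al2 * (v - j * v') := by
      intro w v w' v' j h1 h2
      have h3 := dvd_sub h1 (h2.mul_left j)
      have h4 : (al1 : ℤ) * (w - j * w') - al2 * (v - j * v') =
          (al1 * w - al2 * v) - j * (al1 * w' - al2 * v') := by ring
      rw [h4]
      exact h3
    have hmn : ∀ w v : ℤ, (q : ℤ) ∣ al1 * w - al2 * v → |w| < |w0| → |v| < |w0| →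
        w = 0 ∧ v = 0 := by
      intro w v h h1 h2
      rw [hweq] at h1 h2
      obtain ⟨h3, h4⟩ := hmin v w h h2 h1
      exact ⟨h4, h3⟩
    obtain ⟨j, h1, h2⟩ := latA_aux (fun w v => (q : ℤ) ∣ al1 * w - al2 * v) hs w0 v0 hdvd hw0 hle
      hmn w v h hp.symm
    exact ⟨j, h2, h1⟩

end Pool.Agent.Lib.MP_e426f4_ag.DG
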