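import Pool.Agent.Lib.MP_e426f4_ag.DG.Defs

/-!
# LatB: d-th powers of primes in one residue class
Let `PP` consist of primes in `(L,4L]`, `V` an integer with `4L <= |V|`. In a set `A ⊆ PP` of primes all of whose `d`-th powers are congruent modulo `V` there are at
most `max 1 (rho d |V|)` elements: if there are two, `l != l*`, then both are units mod V (if `l | V` then `l | l*^d`, `l = l*`), so every element of A is a unit
mod V, and `l -> l/l*` maps `A` to the solutions of `u^d = 1` mod |V|; it is injective since the elements of A are distinct mod V (they lie in an interval of length `3L < |V|`).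
-/

set_option autoImplicit false

namespace Pool.Agent.Lib.MP_e426f4_ag.DG

open Finset

theorem class_count (d L : ℕ) (hd : 1 ≤ d) (V : ℤ) (hV : 4 * (L : ℤ) ≤ |V|) (hL : 1 ≤ L)
    (A : Finset ℕ) (hA : ∀ l ∈ A, l.Prime ∧ L < l ∧ l ≤ 4 * L)
    (h : ∀ l ∈ A, ∀ l' ∈ A, V ∣ (l : ℤ) ^ d - (l' : ℤ) ^ d) :
    A.card ≤ max 1 (rho d V.natAbs) := by
  by_cases hc : A.card ≤ 1
  · exact hc.trans (le_max_left _ _)
  push Not at hc
  refine le_trans ?_ (le_max_right _ _)
  set M := V.natAbs with hM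
  have hMV : (M : ℤ) = |V| := Int.natCast_natAbs V
  have hM4 : 4 * L ≤ M := by
    rw [← hMV] at hV
    exact_mod_cast hV
  have hmod : ∀ l ∈ A, ∀ l' ∈ A, l ^ d ≡ l' ^ d [MOD M] := by
    intro l hl l' hl'
    rw [Nat.modEq_iff_dvd]
    have h1 := h l' hl' l hl
    rw [hMV]
    push_cast
    exact (abs_dvd V _).2 h1
  have hcop : ∀ l ∈ A, Nat.Coprime l M := by
    intro l hl
    rw [(hA l hl).1.coprime_iff_not_dvd]
    intro hd1
    obtain ⟨l', hl', hne⟩ := Finset.exists_mem_ne hc l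
    have h1 : l ^ d ≡ l' ^ d [MOD l] := (hmod l hl l' hl').of_dvd hd1
    have h2 : l ∣ l' ^ d := by
      have h3 : l ∣ l ^ d := dvd_pow_self l (by omega)
      exact (Nat.modEq_zero_iff_dvd.1 (h1.symm.trans (Nat.modEq_zero_iff_dvd.2 h3)))
    have h3 : l ∣ l' := (hA l hl).1.dvd_of_dvd_pow h2
    exact hne ((Nat.prime_dvd_prime_iff_eq (hA l hl).1 (hA l' hl').1).1 h3).symm
  obtain ⟨l0, hl0⟩ : ∃ l0, l0 ∈ A := by
    obtain ⟨a, ha⟩ := Finset.card_pos.1 (by omega : 0 < A.card)
    exact ⟨a, ha⟩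
  have hM1 : 1 < M := by omega
  obtain ⟨c, -, hc1⟩ : ∃ c, c < M ∧ l0 * c % M = 1 :=
    Nat.exists_mul_mod_eq_one_of_coprime (hcop l0 hl0) hM1
  have hc2 : l0 * c ≡ 1 [MOD M] := by
    unfold Nat.ModEq
    rw [hc1, Nat.mod_eq_of_lt hM1]
  unfold rho
  refine Finset.card_le_card_of_injOn (fun l => l * c % M) ?_ ?_
  · intro l hl
    rw [Finset.mem_coe, Finset.mem_filter, Finset.mem_range]
    refine ⟨Nat.mod_lt _ (by omega), ?_⟩
    have h1 : (l * c % M) ^ d ≡ (l * c) ^ d [MOD M] := (Nat.mod_modEq _ _).pow d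
    have h2 : (l * c) ^ d ≡ (l0 * c) ^ d [MOD M] := by
      rw [mul_pow, mul_pow]
      exact (hmod l hl l0 hl0).mul_right _
    have h3 : (l0 * c) ^ d ≡ 1 ^ d [MOD M] := hc2.pow d
    rw [one_pow] at h3
    exact h1.trans (h2.trans h3)
  · intro l hl l' hl' hll
    have h1 : l * c ≡ l' * c [MOD M] := hll
    have h2 : l * c * l0 ≡ l' * c * l0 [MOD M] := h1.mul_right l0
    have h3 : ∀ x : ℕ, x * c * l0 ≡ x [MOD M] := by
      intro x
      have h4 : x * c * l0 = x * (l0 * c) := by ring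
      rw [h4]
      have := hc2.mul_left x
      rwa [mul_one] at this
    have h4 : l ≡ l' [MOD M] := (h3 l).symm.trans (h2.trans (h3 l'))
    have e1 := hA l hl
    have e2 := hA l' hl'
    rw [Nat.modEq_iff_dvd] at h4
    obtain ⟨z, hz⟩ := h4
    have hz0 : z = 0 := by
      by_contra hz0
      have h5 : (M : ℤ) ≤ |(M : ℤ) * z| := by
        rw [abs_mul]
        have h6 : 1 ≤ |z| := Int.one_le_abs hz0
        have h7 : |(M : ℤ)| = M := abs_of_nonneg (by positivity)
        rw [h7]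
        nlinarith
      rw [← hz] at h5
      have h6 : |(l' : ℤ) - l| < 4 * L := by
        rw [abs_lt]
        constructor <;> omega
      omega
    rw [hz0, mul_zero] at hz
    omega

end Pool.Agent.Lib.MP_e426f4_ag.DG
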