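import Pool.Agent.Lib.MP_e426f4_ag.DG.Defs
import Pool.Agent.Lib.MP_e426f4_ag.DG.LatA
import Pool.Agent.Lib.MP_e426f4_ag.DG.LatB

/-!
# Lat: the short vector argument
The set `Lam = {(v,w) : q | al1 w - al2 v}`, `(v0,w0)` from `short_vec`, `|v0|,|w0| <= sqrt q`. For `(v,w) in Lam`:
`al1 (v w0 - w v0) = v (al1 w0) - (al1 w) v0 = v al2 v0 - al2 v v0 = 0 mod q`, so `q' := q/gcd(q,al1) >= q/G` divides `det = v w0 - w v0`. For the points
`(l^d, l'^d)` in question `|det| <= 2 (4L)^d sqrt q` hence at most `1 + 2 * 2 (4L)^d sqrt q/q' <= 1 + 4 G (4L)^d/sqrt q` values of det.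
For a fixed value of det the differences of two points are in Lam and parallel to (v0,w0), hence integer multiples of it. By `hshort` `4L <= |v0|` or `4L <= |w0|`.
If `4L <= |v0|`: all `l^d` are congruent mod `v0`, so at most `max 1 (rho d |v0|) <= r` values of `l` (`class_count`, `hr`: `|v0|^2 <= q`); `l` determines the multiple j (v0 != 0) and
so `l'^d` and `l'`. The other case is symmetric. So the number of pairs is `<= r (1 + 4G(4L)^d/sqrt q)`.
-/

set_option autoImplicit false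

namespace Pool.Agent.Lib.MP_e426f4_ag.DG

open Finset

theorem lattice_count (d L q al1 al2 G r : ℕ) (hd : 1 ≤ d) (hL : 1 ≤ L) (hq : 1 ≤ q)
    (hG : Nat.gcd q al1 ≤ G) (PP : Finset ℕ) (hPP : ∀ l ∈ PP, l.Prime ∧ L < l ∧ l ≤ 4 * L)
    (hshort : ∀ v w : ℤ, (v ≠ 0 ∨ w ≠ 0) → (q : ℤ) ∣ al1 * w - al2 * v →
      4 * (L : ℤ) ≤ |v| ∨ 4 * (L : ℤ) ≤ |w|)
    (hr : ∀ k, 1 ≤ k → k ^ 2 ≤ q → rho d k ≤ r) (hr1 : 1 ≤ r) :
    (((PP ×ˢ PP).filter fun l : ℕ × ℕ =>
      (q : ℤ) ∣ (al1 : ℤ) * (l.2 : ℤ) ^ d - al2 * (l.1 : ℤ) ^ d).card : ℝ) ≤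
      3 * r * (1 + 4 * G * (4 * (L : ℝ)) ^ d / Real.sqrt q) := by
  classical
  obtain ⟨v0, w0, hne, hdvd, hv0q, hw0q, hpar⟩ := short_vec q al1 al2 hq
  set S := (PP ×ˢ PP).filter fun l : ℕ × ℕ =>
      (q : ℤ) ∣ (al1 : ℤ) * (l.2 : ℤ) ^ d - al2 * (l.1 : ℤ) ^ d with hS
  have hqr : (0 : ℝ) < q := by exact_mod_cast hq
  have hsq : 0 < Real.sqrt q := Real.sqrt_pos.2 hqr
  have hd0 : d ≠ 0 := by omega
  set g := Nat.gcd q al1 with hg
  have hg1 : 0 < g := Nat.gcd_pos_of_pos_left _ hq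
  set q' := q / g with hq'
  have hgq : g * q' = q := Nat.mul_div_cancel' (Nat.gcd_dvd_left q al1)
  have hq'1 : 0 < q' := Nat.pos_of_ne_zero fun h => by
    rw [h, mul_zero] at hgq
    omega
  -- the determinant
  let det : ℕ × ℕ → ℤ := fun l => (l.1 : ℤ) ^ d * w0 - (l.2 : ℤ) ^ d * v0
  have hdet : ∀ l ∈ S, (q' : ℤ) ∣ det l := by
    intro l hl
    have h1 := (mem_filter.1 hl).2
    have h2 : (q : ℤ) ∣ al1 * det l := by
      have h3 := dvd_sub (hdvd.mul_left ((l.1 : ℤ) ^ d)) (h1.mul_left v0)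
      have h4 : (al1 : ℤ) * det l = (l.1 : ℤ) ^ d * (al1 * w0 - al2 * v0) -
          v0 * ((al1 : ℤ) * (l.2 : ℤ) ^ d - al2 * (l.1 : ℤ) ^ d) := by
        show (al1 : ℤ) * ((l.1 : ℤ) ^ d * w0 - (l.2 : ℤ) ^ d * v0) = _
        ring
      rw [h4]
      exact h3
    obtain ⟨a', ha'⟩ : g ∣ al1 := Nat.gcd_dvd_right q al1
    have hcop : Nat.Coprime q' a' := by
      have h3 := Nat.coprime_div_gcd_div_gcd (m := q) (n := al1) hg1
      have h4 : al1 / Nat.gcd q al1 = a' := by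
        rw [← hg]
        exact Nat.div_eq_of_eq_mul_right hg1 ha'
      rw [h4] at h3
      exact h3
    have h5 : (g : ℤ) * q' ∣ g * (a' * det l) := by
      have h6 : ((g : ℤ) * q') = q := by exact_mod_cast hgq
      have h7 : (g : ℤ) * (a' * det l) = al1 * det l := by
        rw [ha']
        push_cast
        ring
      rw [h6, h7]
      exact h2
    have h8 : (q' : ℤ) ∣ a' * det l :=
      (mul_dvd_mul_iff_left (by exact_mod_cast hg1.ne' : (g : ℤ) ≠ 0)).1 h5
    exact IsCoprime.dvd_of_dvd_mul_left (Nat.isCoprime_iff_coprime.2 hcop) h8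
  have habs : ∀ u : ℤ, u ^ 2 ≤ q → (|u| : ℝ) ≤ Real.sqrt q := by
    intro u hu
    rw [← Real.sqrt_sq_eq_abs]
    exact Real.sqrt_le_sqrt (by exact_mod_cast hu)
  have hpow : ∀ l ∈ PP, ((l : ℝ)) ^ d ≤ (4 * (L : ℝ)) ^ d := by
    intro l hl
    have h1 := (hPP l hl).2.2
    have h2 : (l : ℝ) ≤ 4 * L := by exact_mod_cast h1
    exact pow_le_pow_left₀ (by positivity) h2 d
  set X : ℝ := 2 * (4 * (L : ℝ)) ^ d * Real.sqrt q / q' with hX
  have hq'r : (0 : ℝ) < q' := by exact_mod_cast hq'1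
  have hX0 : 0 ≤ X := by positivity
  have hdetle : ∀ l ∈ S, (|((det l / q' : ℤ) : ℝ)|) ≤ X := by
    intro l hl
    obtain ⟨z, hz⟩ := hdet l hl
    have h1 : det l / q' = z := by
      rw [hz]
      exact Int.mul_ediv_cancel_left z (by exact_mod_cast hq'1.ne')
    have hl' := mem_product.1 (mem_filter.1 hl).1
    have h2 : (|(det l : ℝ)|) ≤ 2 * (4 * (L : ℝ)) ^ d * Real.sqrt q := by
      have h3 : ((det l : ℤ) : ℝ) = (l.1 : ℝ) ^ d * w0 - (l.2 : ℝ) ^ d * v0 := by
        show (((l.1 : ℤ) ^ d * w0 - (l.2 : ℤ) ^ d * v0 : ℤ) : ℝ) = _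
        push_cast
        ring
      rw [h3]
      calc |(l.1 : ℝ) ^ d * w0 - (l.2 : ℝ) ^ d * v0|
          ≤ |(l.1 : ℝ) ^ d * w0| + |(l.2 : ℝ) ^ d * v0| := abs_sub _ _
        _ = (l.1 : ℝ) ^ d * |(w0 : ℝ)| + (l.2 : ℝ) ^ d * |(v0 : ℝ)| := by
            rw [abs_mul, abs_mul, abs_of_nonneg (by positivity : (0 : ℝ) ≤ (l.1 : ℝ) ^ d),
              abs_of_nonneg (by positivity : (0 : ℝ) ≤ (l.2 : ℝ) ^ d)]
        _ ≤ (4 * (L : ℝ)) ^ d * Real.sqrt q + (4 * (L : ℝ)) ^ d * Real.sqrt q := by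
            have e1 := hpow l.1 hl'.1
            have e2 := hpow l.2 hl'.2
            have e3 := habs w0 hw0q
            have e4 := habs v0 hv0q
            gcongr
        _ = _ := by ring
    rw [h1, hX, le_div_iff₀ hq'r]
    have h4 : ((det l : ℤ) : ℝ) = q' * z := by
      rw [hz]
      push_cast
      ring
    rw [h4, abs_mul, abs_of_pos hq'r] at h2
    linarith
  -- the fibres
  have hfib : ∀ D ∈ S.image (fun l => det l / q'), (S.filter fun l => det l / q' = D).card ≤ r := by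
    intro D _
    set SD := S.filter fun l => det l / q' = D with hSD
    have hpair : ∀ l ∈ SD, ∀ l' ∈ SD, ∃ j : ℤ, (l.1 : ℤ) ^ d - (l'.1 : ℤ) ^ d = j * v0 ∧
        (l.2 : ℤ) ^ d - (l'.2 : ℤ) ^ d = j * w0 := by
      intro l hl l' hl'
      have h1 := mem_filter.1 hl
      have h2 := mem_filter.1 hl'
      have h3 : det l = det l' := by
        rw [← Int.ediv_mul_cancel (hdet l h1.1), ← Int.ediv_mul_cancel (hdet l' h2.1), h1.2, h2.2]
      refine hpar _ _ ?_ ?_
      · have h4 := dvd_sub (mem_filter.1 h1.1).2 (mem_filter.1 h2.1).2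
        have h5 : (al1 : ℤ) * ((l.2 : ℤ) ^ d - (l'.2 : ℤ) ^ d) -
            al2 * ((l.1 : ℤ) ^ d - (l'.1 : ℤ) ^ d) =
            (al1 : ℤ) * (l.2 : ℤ) ^ d - al2 * (l.1 : ℤ) ^ d -
              ((al1 : ℤ) * (l'.2 : ℤ) ^ d - al2 * (l'.1 : ℤ) ^ d) := by ring
        rw [h5]
        exact h4
      · have h4 : (l.1 : ℤ) ^ d * w0 - (l.2 : ℤ) ^ d * v0 =
            (l'.1 : ℤ) ^ d * w0 - (l'.2 : ℤ) ^ d * v0 := h3
        linarith
    have hcast : ∀ a b : ℕ, (a : ℤ) ^ d = (b : ℤ) ^ d → a = b := by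
      intro a b hab
      have h1 : a ^ d = b ^ d := by exact_mod_cast hab
      exact Nat.pow_left_injective hd0 h1
    have hPPm : ∀ l ∈ SD, l.1 ∈ PP ∧ l.2 ∈ PP := by
      intro l hl
      exact mem_product.1 (mem_filter.1 (mem_filter.1 hl).1).1
    rcases hshort v0 w0 hne hdvd with hbig | hbig
    · have hinj : Set.InjOn (fun l : ℕ × ℕ => l.1) (SD : Set (ℕ × ℕ)) := by
        intro l hl l' hl' hll
        obtain ⟨j, h1, h2⟩ := hpair l hl l' hl'
        have hll' : l.1 = l'.1 := hll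
        rw [hll', sub_self] at h1
        have hv : v0 ≠ 0 := by
          intro h
          rw [h, abs_zero] at hbig
          have : (1 : ℤ) ≤ L := by exact_mod_cast hL
          linarith
        have hj : j = 0 := by
          rcases mul_eq_zero.1 h1.symm with h | h
          · exact h
          · exact absurd h hv
        rw [hj, zero_mul] at h2
        exact Prod.ext hll' (hcast _ _ (by linarith))
      rw [← card_image_of_injOn hinj]
      refine (class_count d L hd v0 hbig hL _ ?_ ?_).trans (max_le hr1 (hr _ ?_ ?_))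
      · intro l hl
        obtain ⟨x, hx, rfl⟩ := mem_image.1 hl
        exact hPP _ (hPPm x hx).1
      · intro l hl l' hl'
        obtain ⟨x, hx, rfl⟩ := mem_image.1 hl
        obtain ⟨y, hy, rfl⟩ := mem_image.1 hl'
        obtain ⟨j, h1, _⟩ := hpair x hx y hy
        exact ⟨j, by rw [h1]; ring⟩
      · have h1 : (1 : ℤ) ≤ L := by exact_mod_cast hL
        refine Int.natAbs_pos.2 fun h => ?_
        rw [h, abs_zero] at hbig
        linarith
      · have h1 : ((v0.natAbs ^ 2 : ℕ) : ℤ) ≤ q := by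
          rw [Nat.cast_pow, Int.natCast_natAbs, sq_abs]
          exact hv0q
        exact_mod_cast h1
    · have hinj : Set.InjOn (fun l : ℕ × ℕ => l.2) (SD : Set (ℕ × ℕ)) := by
        intro l hl l' hl' hll
        obtain ⟨j, h1, h2⟩ := hpair l hl l' hl'
        have hll' : l.2 = l'.2 := hll
        rw [hll', sub_self] at h2
        have hv : w0 ≠ 0 := by
          intro h
          rw [h, abs_zero] at hbig
          have : (1 : ℤ) ≤ L := by exact_mod_cast hL
          linarith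
        have hj : j = 0 := by
          rcases mul_eq_zero.1 h2.symm with h | h
          · exact h
          · exact absurd h hv
        rw [hj, zero_mul] at h1
        exact Prod.ext (hcast _ _ (by linarith)) hll'
      rw [← card_image_of_injOn hinj]
      refine (class_count d L hd w0 hbig hL _ ?_ ?_).trans (max_le hr1 (hr _ ?_ ?_))
      · intro l hl
        obtain ⟨x, hx, rfl⟩ := mem_image.1 hl
        exact hPP _ (hPPm x hx).2
      · intro l hl l' hl'
        obtain ⟨x, hx, rfl⟩ := mem_image.1 hl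
        obtain ⟨y, hy, rfl⟩ := mem_image.1 hl'
        obtain ⟨j, _, h1⟩ := hpair x hx y hy
        exact ⟨j, by rw [h1]; ring⟩
      · have h1 : (1 : ℤ) ≤ L := by exact_mod_cast hL
        refine Int.natAbs_pos.2 fun h => ?_
        rw [h, abs_zero] at hbig
        linarith
      · have h1 : ((w0.natAbs ^ 2 : ℕ) : ℤ) ≤ q := by
          rw [Nat.cast_pow, Int.natCast_natAbs, sq_abs]
          exact hw0q
        exact_mod_cast h1
  -- the number of values of det
  have hcard := card_le_mul_card_image (f := fun l => det l / q') S r hfib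
  have himg : ((S.image (fun l => det l / q')).card : ℝ) ≤ 2 * X + 1 := by
    have h1 : S.image (fun l => det l / q') ⊆ Icc (-⌊X⌋) ⌊X⌋ := by
      intro D hD
      obtain ⟨l, hl, rfl⟩ := mem_image.1 hD
      have h2 := hdetle l hl
      rw [abs_le] at h2
      rw [mem_Icc]
      constructor
      · have h3 : -(det l / q') ≤ ⌊X⌋ := by
          rw [Int.le_floor]
          push_cast
          linarith [h2.1]
        linarith
      · rw [Int.le_floor]
        exact h2.2
    have h2 := card_le_card h1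
    rw [Int.card_Icc] at h2
    have h3 : 0 ≤ ⌊X⌋ := Int.floor_nonneg.2 hX0
    have h4 : ((⌊X⌋ + 1 - -⌊X⌋).toNat : ℤ) = 2 * ⌊X⌋ + 1 := by
      rw [Int.toNat_of_nonneg (by linarith)]
      ring
    have h5 : (((⌊X⌋ + 1 - -⌊X⌋).toNat : ℕ) : ℝ) = 2 * (⌊X⌋ : ℝ) + 1 := by
      exact_mod_cast h4
    have h6 : ((S.image (fun l => det l / q')).card : ℝ) ≤
        (((⌊X⌋ + 1 - -⌊X⌋).toNat : ℕ) : ℝ) := by exact_mod_cast h2
    have h7 := Int.floor_le X
    rw [h5] at h6
    linarith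
  have hfin : (S.card : ℝ) ≤ r * (2 * X + 1) := by
    have h1 : (S.card : ℝ) ≤ (r : ℝ) * ((S.image (fun l => det l / q')).card : ℝ) := by
      exact_mod_cast hcard
    exact h1.trans (mul_le_mul_of_nonneg_left himg (by positivity))
  have hXle : 2 * X ≤ 4 * G * (4 * (L : ℝ)) ^ d / Real.sqrt q := by
    rw [hX, ← mul_div_assoc, div_le_div_iff₀ hq'r hsq]
    have h1 : Real.sqrt q * Real.sqrt q = q := Real.mul_self_sqrt hqr.le
    have h2 : (q : ℝ) ≤ G * q' := by
      have h3 : (g : ℝ) * q' = q := by exact_mod_cast hgq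
      have h4 : (g : ℝ) ≤ G := by exact_mod_cast hG
      rw [← h3]
      exact mul_le_mul_of_nonneg_right h4 hq'r.le
    have h5 : 0 ≤ 4 * (4 * (L : ℝ)) ^ d := by positivity
    calc 2 * (2 * (4 * (L : ℝ)) ^ d * Real.sqrt q) * Real.sqrt q
        = 4 * (4 * (L : ℝ)) ^ d * (Real.sqrt q * Real.sqrt q) := by ring
      _ = 4 * (4 * (L : ℝ)) ^ d * q := by rw [h1]
      _ ≤ 4 * (4 * (L : ℝ)) ^ d * (G * q') := mul_le_mul_of_nonneg_left h2 h5
      _ = _ := by ring
  have hr0 : (0 : ℝ) ≤ r := by positivity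
  have hY0 : 0 ≤ 4 * G * (4 * (L : ℝ)) ^ d / Real.sqrt q := by positivity
  calc (S.card : ℝ) ≤ r * (2 * X + 1) := hfin
    _ ≤ r * (4 * G * (4 * (L : ℝ)) ^ d / Real.sqrt q + 1) :=
        mul_le_mul_of_nonneg_left (by linarith) hr0
    _ ≤ 3 * r * (1 + 4 * G * (4 * (L : ℝ)) ^ d / Real.sqrt q) := by nlinarith

end Pool.Agent.Lib.MP_e426f4_ag.DG
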