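import Pool.Agent.Lib.MP_e426f4_ag.DG.Defs
import Pool.Agent.Lib.MP_e426f4_ag.DG.Lat

/-!
# Rq: (C2), all ranges
`al1 = (t1 l1)^d t'^d`, `al2 = (t1' l1')^d t^d`: the condition is `q | al1 l.2^d - al2 l.1^d`.
(i) `|PP|^2 <= L^2`. (ii) `l.1` determines `l.2`: for two values `l2, l2'` we get `q | al1 (l2^d - l2'^d)`, `q` is coprime to `l1`, so
`q | (t1 t')^d (l2^d - l2'^d)`; if `l2 != l2'` this is non-zero and `q <= T^(2d) (4L)^d`.
(iii) `lattice_count` with `G = T^(2d)`: `gcd(q,al1) | (t1 t')^d` as q is coprime to l1. hshort: let `q | al1 w - al2 v`, `(v,w) != 0`, `|v|,|w| < 4L`. If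
`al1 w - al2 v != 0` then `q <= (|v|+|w|) max(al1,al2) < 2 * 4L * T^(2d) (4L)^d`, contradiction. If `al1 w = al2 v`: `l1^d` divides `al2 v`, `l1` is prime and does
not divide `t1' l1' t` (T < L < l1, l1 != l1'), so `l1^d | v`; if v != 0, `|v| >= l1^d > L^4 >= 4L` (L >= 2 since T >= 1, d >= 4), contradiction; if `v = 0` then `al1 w = 0`, `w = 0`.
-/

set_option autoImplicit false

namespace Pool.Agent.Lib.MP_e426f4_ag.DG

open Finset

theorem Rq_bounds (d T L q l1 l1' t1 t1' t t' r : ℕ) (hd : 4 ≤ d) (hTL : T < L)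
    (ht : 1 ≤ t1 ∧ t1 ≤ T ∧ 1 ≤ t1' ∧ t1' ≤ T ∧ 1 ≤ t ∧ t ≤ T ∧ 1 ≤ t' ∧ t' ≤ T)
    (hl1 : l1.Prime) (hl1' : l1'.Prime) (hl : L < l1 ∧ l1 ≤ 4 * L ∧ L < l1' ∧ l1' ≤ 4 * L)
    (hne : l1 ≠ l1') (hq : 1 ≤ q) (hq1 : Nat.Coprime q l1) (hq1' : Nat.Coprime q l1')
    (PP : Finset ℕ) (hPP : ∀ l ∈ PP, l.Prime ∧ L < l ∧ l ≤ 4 * L)
    (hcard : PP.card ≤ L) (hr : ∀ k, 1 ≤ k → k ^ 2 ≤ q → rho d k ≤ r) (hr1 : 1 ≤ r) :
    let N : ℝ := (((PP ×ˢ PP).filter fun l : ℕ × ℕ => (q : ℤ) ∣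
      ((t1 * l1 : ℕ) : ℤ) ^ d * ((t' * l.2 : ℕ) : ℤ) ^ d -
        ((t1' * l1' : ℕ) : ℤ) ^ d * ((t * l.1 : ℕ) : ℤ) ^ d).card : ℝ)
    N ≤ (L : ℝ) ^ 2 ∧ (T ^ (2 * d) * (4 * L) ^ d < q → N ≤ L) ∧
      (2 * T ^ (2 * d) * (4 * L) ^ d * (4 * L) ≤ q →
        N ≤ 3 * r * (1 + 4 * (T : ℝ) ^ (2 * d) * (4 * (L : ℝ)) ^ d / Real.sqrt q)) := by
  obtain ⟨ht1, ht1T, ht1', ht1'T, htp, htT, ht', ht'T⟩ := ht
  obtain ⟨hl1L, hl14, hl1L', hl14'⟩ := hl
  have hL2 : 2 ≤ L := by omega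
  set al1 : ℕ := (t1 * l1) ^ d * t' ^ d with hal1
  set al2 : ℕ := (t1' * l1') ^ d * t ^ d with hal2
  have hal1pos : 0 < al1 := by
    have := hl1.pos
    positivity
  have hal2pos : 0 < al2 := by
    have := hl1'.pos
    positivity
  have hfilter : ((PP ×ˢ PP).filter fun l : ℕ × ℕ => (q : ℤ) ∣
      ((t1 * l1 : ℕ) : ℤ) ^ d * ((t' * l.2 : ℕ) : ℤ) ^ d -
        ((t1' * l1' : ℕ) : ℤ) ^ d * ((t * l.1 : ℕ) : ℤ) ^ d) =
      ((PP ×ˢ PP).filter fun l : ℕ × ℕ =>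
        (q : ℤ) ∣ (al1 : ℤ) * (l.2 : ℤ) ^ d - al2 * (l.1 : ℤ) ^ d) := by
    apply Finset.filter_congr
    intro l _
    have h : ((t1 * l1 : ℕ) : ℤ) ^ d * ((t' * l.2 : ℕ) : ℤ) ^ d -
        ((t1' * l1' : ℕ) : ℤ) ^ d * ((t * l.1 : ℕ) : ℤ) ^ d =
        (al1 : ℤ) * (l.2 : ℤ) ^ d - al2 * (l.1 : ℤ) ^ d := by
      rw [hal1, hal2]
      push_cast
      ring
    rw [h]
  have hb1 : al1 ≤ T ^ (2 * d) * (4 * L) ^ d := by
    calc al1 = (t1 * l1) ^ d * t' ^ d := rfl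
      _ ≤ (T * (4 * L)) ^ d * T ^ d := Nat.mul_le_mul
          (Nat.pow_le_pow_left (Nat.mul_le_mul ht1T hl14) d) (Nat.pow_le_pow_left ht'T d)
      _ = T ^ (2 * d) * (4 * L) ^ d := by rw [mul_pow, two_mul, pow_add]; ring
  have hb2 : al2 ≤ T ^ (2 * d) * (4 * L) ^ d := by
    calc al2 = (t1' * l1') ^ d * t ^ d := rfl
      _ ≤ (T * (4 * L)) ^ d * T ^ d := Nat.mul_le_mul
          (Nat.pow_le_pow_left (Nat.mul_le_mul ht1'T hl14') d) (Nat.pow_le_pow_left htT d)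
      _ = T ^ (2 * d) * (4 * L) ^ d := by rw [mul_pow, two_mul, pow_add]; ring
  have hb3 : (t1 * t') ^ d ≤ T ^ (2 * d) := by
    calc (t1 * t') ^ d ≤ (T * T) ^ d := Nat.pow_le_pow_left (Nat.mul_le_mul ht1T ht'T) d
      _ = T ^ (2 * d) := by rw [← pow_two, ← pow_mul]
  have hal1' : al1 = l1 ^ d * (t1 * t') ^ d := by
    rw [hal1, mul_pow, mul_pow]; ring
  intro N
  have hN : N = (((PP ×ˢ PP).filter fun l : ℕ × ℕ =>
        (q : ℤ) ∣ (al1 : ℤ) * (l.2 : ℤ) ^ d - al2 * (l.1 : ℤ) ^ d).card : ℝ) := by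
    show _ = _
    rw [← hfilter]
  refine ⟨?_, ?_, ?_⟩
  · rw [hN]
    have h1 := Finset.card_filter_le (PP ×ˢ PP) (fun l : ℕ × ℕ =>
        (q : ℤ) ∣ (al1 : ℤ) * (l.2 : ℤ) ^ d - al2 * (l.1 : ℤ) ^ d)
    have h2 : (PP ×ˢ PP).card ≤ L ^ 2 := by
      rw [Finset.card_product, pow_two]
      exact Nat.mul_le_mul hcard hcard
    exact_mod_cast h1.trans h2
  · intro hlarge
    rw [hN]
    have hinj : ((PP ×ˢ PP).filter fun l : ℕ × ℕ =>
        (q : ℤ) ∣ (al1 : ℤ) * (l.2 : ℤ) ^ d - al2 * (l.1 : ℤ) ^ d).card ≤ PP.card := by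
      apply Finset.card_le_card_of_injOn (fun l => l.1)
      · intro l hl
        have hl' := Finset.mem_coe.1 hl
        rw [Finset.mem_filter, Finset.mem_product] at hl'
        exact hl'.1.1
      · intro l hl l' hl' he
        rw [Finset.mem_coe, Finset.mem_filter, Finset.mem_product] at hl hl'
        have he1 : l.1 = l'.1 := he
        have hdv := dvd_sub hl.2 hl'.2
        rw [he1] at hdv
        have hq1c : IsCoprime (q : ℤ) ((l1 : ℤ) ^ d) :=
          (Nat.isCoprime_iff_coprime.2 hq1).pow_right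
        have h3 : (q : ℤ) ∣ (l1 : ℤ) ^ d * (((t1 * t' : ℕ) : ℤ) ^ d * ((l.2 : ℤ) ^ d - (l'.2 : ℤ) ^ d)) := by
          have h4 : (al1 : ℤ) * (l.2 : ℤ) ^ d - al2 * (l'.1 : ℤ) ^ d -
              ((al1 : ℤ) * (l'.2 : ℤ) ^ d - al2 * (l'.1 : ℤ) ^ d) =
              (l1 : ℤ) ^ d * (((t1 * t' : ℕ) : ℤ) ^ d * ((l.2 : ℤ) ^ d - (l'.2 : ℤ) ^ d)) := by
            rw [hal1']
            push_cast
            ring
          rw [← h4]
          exact hdv
        have h5 := hq1c.dvd_of_dvd_mul_left h3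
        have h6 := hPP _ hl.1.2
        have h7 := hPP _ hl'.1.2
        by_contra hcon
        have hne2 : l.2 ≠ l'.2 := fun h => hcon (Prod.ext he1 h)
        have hne3 : (l.2 : ℤ) ^ d - (l'.2 : ℤ) ^ d ≠ 0 := by
          intro h
          have h8 : l.2 ^ d = l'.2 ^ d := by
            have := sub_eq_zero.1 h
            exact_mod_cast this
          exact hne2 (Nat.pow_left_injective (by omega : d ≠ 0) h8)
        have hne4 : ((t1 * t' : ℕ) : ℤ) ^ d * ((l.2 : ℤ) ^ d - (l'.2 : ℤ) ^ d) ≠ 0 := by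
          refine mul_ne_zero (pow_ne_zero _ ?_) hne3
          have : 0 < t1 * t' := Nat.mul_pos ht1 ht'
          exact_mod_cast this.ne'
        have h9 := Int.le_of_dvd (abs_pos.2 hne4) ((dvd_abs _ _).2 h5)
        have hx : (l.2 : ℤ) ^ d ≤ (4 * L : ℤ) ^ d := by
          exact_mod_cast Nat.pow_le_pow_left h6.2.2 d
        have hy : (l'.2 : ℤ) ^ d ≤ (4 * L : ℤ) ^ d := by
          exact_mod_cast Nat.pow_le_pow_left h7.2.2 d
        have hx0 : (0 : ℤ) ≤ (l.2 : ℤ) ^ d := by positivity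
        have hy0 : (0 : ℤ) ≤ (l'.2 : ℤ) ^ d := by positivity
        have h10 : |(l.2 : ℤ) ^ d - (l'.2 : ℤ) ^ d| ≤ (4 * L : ℤ) ^ d := by
          rw [abs_le]
          constructor <;> linarith
        have h11 : |((t1 * t' : ℕ) : ℤ) ^ d * ((l.2 : ℤ) ^ d - (l'.2 : ℤ) ^ d)| ≤
            (T : ℤ) ^ (2 * d) * (4 * L : ℤ) ^ d := by
          rw [abs_mul, abs_of_nonneg (by positivity : (0 : ℤ) ≤ ((t1 * t' : ℕ) : ℤ) ^ d)]
          exact mul_le_mul (by exact_mod_cast hb3) h10 (abs_nonneg _) (by positivity)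
        have h12 : ((T ^ (2 * d) * (4 * L) ^ d : ℕ) : ℤ) < q := by exact_mod_cast hlarge
        push_cast at h12
        linarith
    exact_mod_cast hinj.trans hcard
  · intro hlarge
    rw [hN]
    have hG : Nat.gcd q al1 ≤ T ^ (2 * d) := by
      have h1 : Nat.gcd q al1 ∣ l1 ^ d * (t1 * t') ^ d := hal1' ▸ Nat.gcd_dvd_right q al1
      have h2 : Nat.Coprime (Nat.gcd q al1) (l1 ^ d) :=
        Nat.Coprime.pow_right d (Nat.Coprime.coprime_dvd_left (Nat.gcd_dvd_left q al1) hq1)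
      have h3 := h2.dvd_of_dvd_mul_left h1
      have h4 : 0 < (t1 * t') ^ d := by positivity
      exact (Nat.le_of_dvd h4 h3).trans hb3
    have hshort : ∀ v w : ℤ, (v ≠ 0 ∨ w ≠ 0) → (q : ℤ) ∣ al1 * w - al2 * v →
        4 * (L : ℤ) ≤ |v| ∨ 4 * (L : ℤ) ≤ |w| := by
      intro v w hvw hdv
      by_contra hcon
      rw [not_or, not_le, not_le] at hcon
      obtain ⟨hv, hw⟩ := hcon
      by_cases hz : (al1 : ℤ) * w - al2 * v = 0
      · have hz' : (al1 : ℤ) * w = al2 * v := sub_eq_zero.1 hz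
        have hcop : IsCoprime ((l1 : ℤ) ^ d) (al2 : ℤ) := by
          have hc1 : Nat.Coprime l1 t1' := (hl1.coprime_iff_not_dvd).2
            (fun h => absurd (Nat.le_of_dvd ht1' h) (by omega))
          have hc2 : Nat.Coprime l1 t := (hl1.coprime_iff_not_dvd).2
            (fun h => absurd (Nat.le_of_dvd htp h) (by omega))
          have hc3 : Nat.Coprime l1 l1' := (Nat.coprime_primes hl1 hl1').2 hne
          have hc4 : Nat.Coprime (l1 ^ d) al2 := by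
            rw [hal2]
            exact Nat.Coprime.pow_left d (Nat.Coprime.mul_right
              (Nat.Coprime.pow_right d (Nat.Coprime.mul_right hc1 hc3)) (Nat.Coprime.pow_right d hc2))
          have := Nat.isCoprime_iff_coprime.2 hc4
          exact_mod_cast this
        have h1 : (l1 : ℤ) ^ d ∣ al2 * v := by
          rw [← hz', hal1']
          push_cast
          exact ⟨((t1 : ℤ) * t') ^ d * w, by ring⟩
        have h2 := hcop.dvd_of_dvd_mul_left h1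
        by_cases hv0 : v = 0
        · rw [hv0, mul_zero] at hz'
          have hw0 : w = 0 := by
            rcases mul_eq_zero.1 hz' with h | h
            · exact absurd (by exact_mod_cast h : al1 = 0) hal1pos.ne'
            · exact h
          rcases hvw with h | h
          · exact h hv0
          · exact h hw0
        · have h3 := Int.le_of_dvd (abs_pos.2 hv0) ((dvd_abs _ _).2 h2)
          have h4 : (4 * L : ℕ) ≤ l1 ^ d := by
            have h5 : 3 ≤ l1 := by omega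
            calc 4 * L ≤ 27 * l1 := by omega
              _ = 3 ^ 3 * l1 := by norm_num
              _ ≤ l1 ^ 3 * l1 := Nat.mul_le_mul_right _ (Nat.pow_le_pow_left h5 3)
              _ = l1 ^ 4 := by ring
              _ ≤ l1 ^ d := Nat.pow_le_pow_right (by omega) hd
          have h6 : (4 * L : ℤ) ≤ (l1 : ℤ) ^ d := by exact_mod_cast h4
          linarith
      · have h1 := Int.le_of_dvd (abs_pos.2 hz) ((dvd_abs _ _).2 hdv)
        have h2 : |(al1 : ℤ) * w - al2 * v| ≤ al1 * |w| + al2 * |v| := by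
          refine (abs_sub _ _).trans (le_of_eq ?_)
          rw [abs_mul, abs_mul, Nat.abs_cast, Nat.abs_cast]
        have ha1 : (0 : ℤ) < al1 := by exact_mod_cast hal1pos
        have ha2 : (0 : ℤ) < al2 := by exact_mod_cast hal2pos
        have h3 : (al1 : ℤ) * |w| < al1 * (4 * L) := by
          exact mul_lt_mul_of_pos_left hw ha1
        have h4 : (al2 : ℤ) * |v| < al2 * (4 * L) := by
          exact mul_lt_mul_of_pos_left hv ha2
        have h5 : (al1 : ℤ) * (4 * L) ≤ (T : ℤ) ^ (2 * d) * (4 * L) ^ d * (4 * L) := by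
          exact_mod_cast Nat.mul_le_mul_right (4 * L) hb1
        have h6 : (al2 : ℤ) * (4 * L) ≤ (T : ℤ) ^ (2 * d) * (4 * L) ^ d * (4 * L) := by
          exact_mod_cast Nat.mul_le_mul_right (4 * L) hb2
        have h7 : (2 * (T : ℤ) ^ (2 * d) * (4 * L) ^ d * (4 * L)) ≤ q := by exact_mod_cast hlarge
        have h8 : (2 * (T : ℤ) ^ (2 * d) * (4 * L) ^ d * (4 * L)) =
            (T : ℤ) ^ (2 * d) * (4 * L) ^ d * (4 * L) + (T : ℤ) ^ (2 * d) * (4 * L) ^ d * (4 * L) := by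
          ring
        linarith
    have key := lattice_count d L q al1 al2 (T ^ (2 * d)) r (by omega) (by omega) hq hG PP hPP
      hshort hr hr1
    push_cast at key
    exact key

end Pool.Agent.Lib.MP_e426f4_ag.DG
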