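import Pool.Agent.Lib.MP_e426f4_ag.DG.Defs
import Pool.Agent.Lib.MP_e426f4_ag.DG.Rq
import Pool.Agent.Lib.MP_e426f4_ag.DG.InvDet

set_option autoImplicit false

namespace Pool.Agent.Lib.MP_e426f4_ag.DG

open Finset

/-- the count of `Rq_bounds` as a real number -/
noncomputable def NR (d q x1 x1' t t' : ℕ) (PP : Finset ℕ) : ℝ :=
  (((PP ×ˢ PP).filter fun l : ℕ × ℕ => (q : ℤ) ∣ (x1 : ℤ) ^ d * ((t' * l.2 : ℕ) : ℤ) ^ d -
    (x1' : ℤ) ^ d * ((t * l.1 : ℕ) : ℤ) ^ d).card : ℝ)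

/-- the determinant `x_0^d y_1^d - y_0^d x_1^d` -/
def DD (d : ℕ) (t t' : Fin 4 → ℕ) (z1 z2 : ℕ × ℕ) : ℤ :=
  ((t 0 * z1.1 : ℕ) : ℤ) ^ d * ((t' 1 * z2.2 : ℕ) : ℤ) ^ d -
    ((t' 0 * z1.2 : ℕ) : ℤ) ^ d * ((t 1 * z2.1 : ℕ) : ℤ) ^ d

/-- the bound for one term -/
theorem t0a_term (d T L r q : ℕ) (D : ℝ) (N3 N4 : ℝ) (hL : 1 ≤ L) (hq : 1 ≤ q)
    (hT : 1 ≤ T) (h3p : 0 ≤ N3) (h4p : 0 ≤ N4)
    (hDq : (q : ℝ) ≤ D)
    (h3a : N3 ≤ (L : ℝ) ^ 2) (h3b : T ^ (2 * d) * (4 * L) ^ d < q → N3 ≤ L)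
    (h3c : 2 * T ^ (2 * d) * (4 * L) ^ d * (4 * L) ≤ q →
        N3 ≤ 3 * r * (1 + 4 * (T : ℝ) ^ (2 * d) * (4 * (L : ℝ)) ^ d / Real.sqrt q))
    (h4a : N4 ≤ (L : ℝ) ^ 2) (h4b : T ^ (2 * d) * (4 * L) ^ d < q → N4 ≤ L)
    (h4c : 2 * T ^ (2 * d) * (4 * L) ^ d * (4 * L) ≤ q →
        N4 ≤ 3 * r * (1 + 4 * (T : ℝ) ^ (2 * d) * (4 * (L : ℝ)) ^ d / Real.sqrt q)) :
    (q : ℝ) / D * (N3 * N4) ≤ 18 * (r : ℝ) ^ 2 +
      (16 * 4 ^ d * (T : ℝ) ^ (2 * d) * (L : ℝ) ^ (d + 4) +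
        18 * (r : ℝ) ^ 2 * (16 * ((T : ℝ) ^ (4 * d) * (16 ^ d * (L : ℝ) ^ (2 * d))))) * (1 / D) := by
  have hq0 : (0 : ℝ) < q := by exact_mod_cast hq
  have hD : 0 < D := lt_of_lt_of_le hq0 hDq
  have hLr : (1 : ℝ) ≤ L := by exact_mod_cast hL
  have hTr : (1 : ℝ) ≤ T := by exact_mod_cast hT
  have hr0 : (0 : ℝ) ≤ r := by positivity
  set W := (T : ℝ) ^ (2 * d) * (4 * (L : ℝ)) ^ d with hW
  have hWe : W = 4 ^ d * (T : ℝ) ^ (2 * d) * (L : ℝ) ^ d := by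
    rw [hW, mul_pow]; ring
  have hW0 : 0 ≤ W := by positivity
  have hW2 : W ^ 2 = (T : ℝ) ^ (4 * d) * (16 ^ d * (L : ℝ) ^ (2 * d)) := by
    rw [hWe, mul_pow, mul_pow, ← pow_mul, ← pow_mul, ← pow_mul]
    have : (16 : ℝ) ^ d = 4 ^ (d * 2) := by
      rw [mul_comm d 2, pow_mul]; norm_num
    rw [this]
    have e1 : 2 * d * 2 = 4 * d := by ring
    have e2 : d * 2 = 2 * d := by ring
    rw [e1, e2]
    ring
  have key : (q : ℝ) * (N3 * N4) ≤ 18 * (r : ℝ) ^ 2 * D + (16 * W * (L : ℝ) ^ 4 +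
      18 * (r : ℝ) ^ 2 * (16 * W ^ 2)) := by
    by_cases hc : 2 * T ^ (2 * d) * (4 * L) ^ d * (4 * L) ≤ q
    · have h3 := h3c hc
      have h4 := h4c hc
      have hsq : 0 < Real.sqrt q := Real.sqrt_pos.mpr hq0
      have hsq2 : Real.sqrt q ^ 2 = q := Real.sq_sqrt hq0.le
      set x := 4 * (T : ℝ) ^ (2 * d) * (4 * (L : ℝ)) ^ d / Real.sqrt q with hx
      have hx0 : 0 ≤ x := by positivity
      have hx2 : x ^ 2 * q = 16 * W ^ 2 := by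
        rw [hx, div_pow, hsq2, hW]
        field_simp
        ring
      have h34 : N3 * N4 ≤ 9 * (r : ℝ) ^ 2 * (1 + x) ^ 2 := by
        calc N3 * N4 ≤ (3 * r * (1 + x)) * (3 * r * (1 + x)) := by
              apply mul_le_mul h3 h4 h4p (by positivity)
          _ = 9 * (r : ℝ) ^ 2 * (1 + x) ^ 2 := by ring
      have h1 : (1 + x) ^ 2 ≤ 2 * (1 + x ^ 2) := by nlinarith [sq_nonneg (1 - x)]
      calc (q : ℝ) * (N3 * N4) ≤ q * (9 * (r : ℝ) ^ 2 * (1 + x) ^ 2) := by gcongr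
        _ ≤ q * (9 * (r : ℝ) ^ 2 * (2 * (1 + x ^ 2))) := by gcongr
        _ = 18 * (r : ℝ) ^ 2 * q + 18 * (r : ℝ) ^ 2 * (x ^ 2 * q) := by ring
        _ = 18 * (r : ℝ) ^ 2 * q + 18 * (r : ℝ) ^ 2 * (16 * W ^ 2) := by rw [hx2]
        _ ≤ 18 * (r : ℝ) ^ 2 * D + (16 * W * (L : ℝ) ^ 4 + 18 * (r : ℝ) ^ 2 * (16 * W ^ 2)) := by
            have : 18 * (r : ℝ) ^ 2 * q ≤ 18 * (r : ℝ) ^ 2 * D := by gcongr
            have h5 : 0 ≤ 16 * W * (L : ℝ) ^ 4 := by positivity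
            linarith
    · push Not at hc
      have hb : (q : ℝ) * (N3 * N4) ≤ 16 * W * (L : ℝ) ^ 4 := by
        by_cases h2 : T ^ (2 * d) * (4 * L) ^ d < q
        · have h3 := h3b h2
          have h4 := h4b h2
          have hq' : (q : ℝ) ≤ 2 * (T : ℝ) ^ (2 * d) * (4 * (L : ℝ)) ^ d * (4 * L) := by
            exact_mod_cast hc.le
          calc (q : ℝ) * (N3 * N4) ≤ (2 * (T : ℝ) ^ (2 * d) * (4 * (L : ℝ)) ^ d * (4 * L)) *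
                ((L : ℝ) * L) := by
                apply mul_le_mul hq' _ (by positivity) (by positivity)
                exact mul_le_mul h3 h4 h4p (by positivity)
            _ = 8 * W * (L : ℝ) ^ 3 := by rw [hW]; ring
            _ ≤ 16 * W * (L : ℝ) ^ 4 := by
                have : (L : ℝ) ^ 3 ≤ (L : ℝ) ^ 4 := pow_le_pow_right₀ hLr (by norm_num)
                have h7 : 0 ≤ W * (L : ℝ) ^ 4 := by positivity
                nlinarith [mul_le_mul_of_nonneg_left this hW0]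
        · push Not at h2
          have hq' : (q : ℝ) ≤ W := by
            rw [hW]
            exact_mod_cast h2
          calc (q : ℝ) * (N3 * N4) ≤ W * ((L : ℝ) ^ 2 * (L : ℝ) ^ 2) := by
                apply mul_le_mul hq' _ (by positivity) (by positivity)
                exact mul_le_mul h3a h4a h4p (by positivity)
            _ = W * (L : ℝ) ^ 4 := by ring
            _ ≤ 16 * W * (L : ℝ) ^ 4 := by
                have h7 : 0 ≤ W * (L : ℝ) ^ 4 := by positivity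
                linarith
      have h5 : 0 ≤ 18 * (r : ℝ) ^ 2 * D := by positivity
      have h6 : 0 ≤ 18 * (r : ℝ) ^ 2 * (16 * W ^ 2) := by positivity
      linarith
  rw [hW2] at key
  have e5 : 16 * W * (L : ℝ) ^ 4 = 16 * 4 ^ d * (T : ℝ) ^ (2 * d) * (L : ℝ) ^ (d + 4) := by
    rw [hWe, pow_add]; ring
  rw [e5] at key
  rw [div_mul_eq_mul_div, div_le_iff₀ hD]
  calc (q : ℝ) * (N3 * N4) ≤ _ := key
    _ = _ := by
      field_simp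

theorem t0_sum (d : ℕ) (hd : 4 ≤ d) : ∃ C : ℝ, 0 < C ∧ ∀ (T L r : ℕ), T < L → 1 ≤ r →
    1 + Real.log (16 * (L : ℝ) ^ 2 * (T : ℝ) ^ 2) ≤ r →
    (∀ k, 1 ≤ k → k ≤ (4 * L * T) ^ (4 * d) → k.divisors.card ≤ r) →
    (∀ k, 1 ≤ k → k ≤ (4 * L * T) ^ (4 * d) → rho d k ≤ r) →
    ∀ (t t' : Fin 4 → ℕ), (∀ j, 1 ≤ t j ∧ t j ≤ T ∧ 1 ≤ t' j ∧ t' j ≤ T) →
    ∀ (PS : Fin 4 → Finset ℕ), (∀ j, ∀ l ∈ PS j, l.Prime ∧ L < l ∧ l ≤ 4 * L) →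
    (∀ i j, i ≠ j → Disjoint (PS i) (PS j)) → (∀ j, (PS j).card ≤ L) →
    ∑ z1 ∈ (PS 0 ×ˢ PS 0).filter (fun z : ℕ × ℕ => z.1 ≠ z.2),
      ∑ z2 ∈ (PS 1 ×ˢ PS 1).filter (fun z : ℕ × ℕ => z.1 ≠ z.2),
        ∑ q ∈ (DD d t t' z1 z2).natAbs.divisors, (q : ℝ) / |((DD d t t' z1 z2 : ℤ) : ℝ)| *
          (NR d q (t 0 * z1.1) (t' 0 * z1.2) (t 2) (t' 2) (PS 2) *
            NR d q (t 0 * z1.1) (t' 0 * z1.2) (t 3) (t' 3) (PS 3)) ≤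
      C * (r : ℝ) ^ 4 * (T : ℝ) ^ (4 * d) * (L : ℝ) ^ 4 := by
  refine ⟨18 + 32 * 4 ^ d + 576 * 16 ^ d, by positivity, ?_⟩
  intro T L r hTL hr1 hlog htau hrho t t' ht PS hPS hdis hcard
  have hT : 1 ≤ T := le_trans (ht 0).1 (ht 0).2.1
  have hL : 1 ≤ L := by omega
  have hLr : (1 : ℝ) ≤ L := by exact_mod_cast hL
  have hTr : (1 : ℝ) ≤ T := by exact_mod_cast hT
  have hrr : (1 : ℝ) ≤ r := by exact_mod_cast hr1
  have hdis01 := hdis 0 1 (by decide)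
  -- the constant in front of 1/|D|
  set K := 16 * 4 ^ d * (T : ℝ) ^ (2 * d) * (L : ℝ) ^ (d + 4) +
        18 * (r : ℝ) ^ 2 * (16 * ((T : ℝ) ^ (4 * d) * (16 ^ d * (L : ℝ) ^ (2 * d)))) with hK
  have hK0 : 0 ≤ K := by positivity
  -- small facts
  have hndvd : ∀ l k : ℕ, L < l → 1 ≤ k → k ≤ T → ¬ l ∣ k := by
    intro l k h1 h2 h3 h4
    have := Nat.le_of_dvd h2 h4
    omega
  have hin : ∀ z1 ∈ (PS 0 ×ˢ PS 0).filter (fun z : ℕ × ℕ => z.1 ≠ z.2),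
      ∀ z2 ∈ (PS 1 ×ˢ PS 1).filter (fun z : ℕ × ℕ => z.1 ≠ z.2),
        ∑ q ∈ (DD d t t' z1 z2).natAbs.divisors, (q : ℝ) / |((DD d t t' z1 z2 : ℤ) : ℝ)| *
          (NR d q (t 0 * z1.1) (t' 0 * z1.2) (t 2) (t' 2) (PS 2) *
            NR d q (t 0 * z1.1) (t' 0 * z1.2) (t 3) (t' 3) (PS 3)) ≤
        18 * (r : ℝ) ^ 3 + r * K * (1 / |((DD d t t' z1 z2 : ℤ) : ℝ)|) := by
    intro z1 hz1 z2 hz2
    rw [mem_filter, mem_product] at hz1 hz2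
    obtain ⟨⟨hz11, hz12⟩, hne1⟩ := hz1
    obtain ⟨⟨hz21, hz22⟩, hne2⟩ := hz2
    obtain ⟨hp11, hl11, hu11⟩ := hPS 0 _ hz11
    obtain ⟨hp12, hl12, hu12⟩ := hPS 0 _ hz12
    obtain ⟨hp21, hl21, hu21⟩ := hPS 1 _ hz21
    obtain ⟨hp22, hl22, hu22⟩ := hPS 1 _ hz22
    set D := DD d t t' z1 z2 with hD
    by_cases hD0 : D = 0
    · rw [hD0]
      simp
    have hA0 : (0 : ℤ) ≤ ((t 0 * z1.1 : ℕ) : ℤ) ^ d * ((t' 1 * z2.2 : ℕ) : ℤ) ^ d := by positivity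
    have hA0' : (0 : ℤ) ≤ ((t' 0 * z1.2 : ℕ) : ℤ) ^ d * ((t 1 * z2.1 : ℕ) : ℤ) ^ d := by positivity
    have hbd : ∀ k l : ℕ, k ≤ T → l ≤ 4 * L → k * l ≤ 4 * L * T := by
      intro k l hk hl
      calc k * l ≤ T * (4 * L) := Nat.mul_le_mul hk hl
        _ = 4 * L * T := by ring
    have hbdp : ∀ k l k' l' : ℕ, k ≤ T → l ≤ 4 * L → k' ≤ T → l' ≤ 4 * L →
        ((k * l : ℕ) : ℤ) ^ d * ((k' * l' : ℕ) : ℤ) ^ d ≤ (((4 * L * T) ^ (2 * d) : ℕ) : ℤ) := by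
      intro k l k' l' h1 h2 h3 h4
      have : (k * l) ^ d * (k' * l') ^ d ≤ (4 * L * T) ^ (2 * d) := by
        calc (k * l) ^ d * (k' * l') ^ d ≤ (4 * L * T) ^ d * (4 * L * T) ^ d :=
              Nat.mul_le_mul (Nat.pow_le_pow_left (hbd k l h1 h2) _)
                (Nat.pow_le_pow_left (hbd k' l' h3 h4) _)
          _ = (4 * L * T) ^ (2 * d) := by rw [← pow_add]; congr 1; ring
      exact_mod_cast this
    have hDle : D.natAbs ≤ (4 * L * T) ^ (2 * d) := by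
      have h1 := hbdp (t 0) z1.1 (t' 1) z2.2 (ht 0).2.1 hu11 (ht 1).2.2.2 hu22
      have h2 := hbdp (t' 0) z1.2 (t 1) z2.1 (ht 0).2.2.2 hu12 (ht 1).2.1 hu21
      have : |D| ≤ (((4 * L * T) ^ (2 * d) : ℕ) : ℤ) := by
        rw [hD, DD, abs_le]
        constructor <;> linarith
      rw [Int.abs_eq_natAbs] at this
      exact_mod_cast this
    have h4LT : 1 ≤ 4 * L * T := by
      have := Nat.mul_le_mul hL hT
      nlinarith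
    have hDle4 : D.natAbs ≤ (4 * L * T) ^ (4 * d) :=
      le_trans hDle (Nat.pow_le_pow_right h4LT (by omega))
    have hDpos : 1 ≤ D.natAbs := by
      have := Int.natAbs_pos.mpr hD0
      omega
    have hDabs : |((D : ℤ) : ℝ)| = (D.natAbs : ℝ) := by
      rw [Nat.cast_natAbs, Int.cast_abs]
    have hterm : ∀ q ∈ D.natAbs.divisors, (q : ℝ) / |((D : ℤ) : ℝ)| *
          (NR d q (t 0 * z1.1) (t' 0 * z1.2) (t 2) (t' 2) (PS 2) *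
            NR d q (t 0 * z1.1) (t' 0 * z1.2) (t 3) (t' 3) (PS 3)) ≤
        18 * (r : ℝ) ^ 2 + K * (1 / |((D : ℤ) : ℝ)|) := by
      intro q hq
      have hqdvd : q ∣ D.natAbs := Nat.dvd_of_mem_divisors hq
      have hq1 : 1 ≤ q := Nat.pos_of_mem_divisors hq
      have hqle : q ≤ D.natAbs := Nat.le_of_dvd hDpos hqdvd
      have hqdvd' : (q : ℤ) ∣ D := Int.natCast_dvd.mpr hqdvd
      -- coprimality
      have hcop1 : Nat.Coprime q z1.1 := by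
        rw [Nat.coprime_comm, Nat.Prime.coprime_iff_not_dvd hp11]
        intro hdv
        have h1 : ((z1.1 : ℕ) : ℤ) ∣ D := dvd_trans (Int.natCast_dvd_natCast.mpr hdv) hqdvd'
        have h2 : ((z1.1 : ℕ) : ℤ) ∣ ((t 0 * z1.1 : ℕ) : ℤ) ^ d * ((t' 1 * z2.2 : ℕ) : ℤ) ^ d := by
          apply Dvd.dvd.mul_right
          apply dvd_pow _ (by omega)
          exact Int.natCast_dvd_natCast.mpr (dvd_mul_left _ _)
        have h3 : ((z1.1 : ℕ) : ℤ) ∣ ((t' 0 * z1.2 : ℕ) : ℤ) ^ d * ((t 1 * z2.1 : ℕ) : ℤ) ^ d := by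
          have h4 := dvd_sub h2 h1
          have h5 : ((t 0 * z1.1 : ℕ) : ℤ) ^ d * ((t' 1 * z2.2 : ℕ) : ℤ) ^ d - D =
            ((t' 0 * z1.2 : ℕ) : ℤ) ^ d * ((t 1 * z2.1 : ℕ) : ℤ) ^ d := by
            rw [hD, DD]; ring
          rwa [h5] at h4
        have h4 : z1.1 ∣ (t' 0 * z1.2) ^ d * (t 1 * z2.1) ^ d := by exact_mod_cast h3
        rcases hp11.dvd_mul.mp h4 with h5 | h5
        · rcases hp11.dvd_mul.mp (hp11.dvd_of_dvd_pow h5) with h6 | h6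
          · exact hndvd _ _ hl11 (ht 0).2.2.1 (ht 0).2.2.2 h6
          · exact hne1 ((Nat.prime_dvd_prime_iff_eq hp11 hp12).mp h6)
        · rcases hp11.dvd_mul.mp (hp11.dvd_of_dvd_pow h5) with h6 | h6
          · exact hndvd _ _ hl11 (ht 1).1 (ht 1).2.1 h6
          · have := (Nat.prime_dvd_prime_iff_eq hp11 hp21).mp h6
            exact (Finset.disjoint_left.mp hdis01 hz11) (this ▸ hz21)
      have hcop2 : Nat.Coprime q z1.2 := by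
        rw [Nat.coprime_comm, Nat.Prime.coprime_iff_not_dvd hp12]
        intro hdv
        have h1 : ((z1.2 : ℕ) : ℤ) ∣ D := dvd_trans (Int.natCast_dvd_natCast.mpr hdv) hqdvd'
        have h2 : ((z1.2 : ℕ) : ℤ) ∣ ((t' 0 * z1.2 : ℕ) : ℤ) ^ d * ((t 1 * z2.1 : ℕ) : ℤ) ^ d := by
          apply Dvd.dvd.mul_right
          apply dvd_pow _ (by omega)
          exact Int.natCast_dvd_natCast.mpr (dvd_mul_left _ _)
        have h3 : ((z1.2 : ℕ) : ℤ) ∣ ((t 0 * z1.1 : ℕ) : ℤ) ^ d * ((t' 1 * z2.2 : ℕ) : ℤ) ^ d := by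
          have h4 := dvd_add h1 h2
          have h5 : D + ((t' 0 * z1.2 : ℕ) : ℤ) ^ d * ((t 1 * z2.1 : ℕ) : ℤ) ^ d =
            ((t 0 * z1.1 : ℕ) : ℤ) ^ d * ((t' 1 * z2.2 : ℕ) : ℤ) ^ d := by
            rw [hD, DD]; ring
          rwa [h5] at h4
        have h4 : z1.2 ∣ (t 0 * z1.1) ^ d * (t' 1 * z2.2) ^ d := by exact_mod_cast h3
        rcases hp12.dvd_mul.mp h4 with h5 | h5
        · rcases hp12.dvd_mul.mp (hp12.dvd_of_dvd_pow h5) with h6 | h6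
          · exact hndvd _ _ hl12 (ht 0).1 (ht 0).2.1 h6
          · exact hne1 ((Nat.prime_dvd_prime_iff_eq hp12 hp11).mp h6).symm
        · rcases hp12.dvd_mul.mp (hp12.dvd_of_dvd_pow h5) with h6 | h6
          · exact hndvd _ _ hl12 (ht 1).2.2.1 (ht 1).2.2.2 h6
          · have := (Nat.prime_dvd_prime_iff_eq hp12 hp22).mp h6
            exact (Finset.disjoint_left.mp hdis01 hz12) (this ▸ hz22)
      have hr' : ∀ k, 1 ≤ k → k ^ 2 ≤ q → rho d k ≤ r := by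
        intro k hk hk2
        apply hrho k hk
        calc k ≤ k ^ 2 := by nlinarith
          _ ≤ q := hk2
          _ ≤ _ := le_trans hqle hDle4
      obtain ⟨h3a, h3b, h3c⟩ := Rq_bounds d T L q z1.1 z1.2 (t 0) (t' 0) (t 2) (t' 2) r hd hTL
        ⟨(ht 0).1, (ht 0).2.1, (ht 0).2.2.1, (ht 0).2.2.2, (ht 2).1, (ht 2).2.1, (ht 2).2.2.1,
          (ht 2).2.2.2⟩ hp11 hp12 ⟨hl11, hu11, hl12, hu12⟩ hne1 hq1 hcop1 hcop2 (PS 2) (hPS 2)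
        (hcard 2) hr' hr1
      obtain ⟨h4a, h4b, h4c⟩ := Rq_bounds d T L q z1.1 z1.2 (t 0) (t' 0) (t 3) (t' 3) r hd hTL
        ⟨(ht 0).1, (ht 0).2.1, (ht 0).2.2.1, (ht 0).2.2.2, (ht 3).1, (ht 3).2.1, (ht 3).2.2.1,
          (ht 3).2.2.2⟩ hp11 hp12 ⟨hl11, hu11, hl12, hu12⟩ hne1 hq1 hcop1 hcop2 (PS 3) (hPS 3)
        (hcard 3) hr' hr1
      rw [hDabs]
      exact t0a_term d T L r q (D.natAbs : ℝ) _ _ hL hq1 hT (by unfold NR; positivity)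
        (by unfold NR; positivity) (by exact_mod_cast hqle) h3a h3b h3c h4a h4b h4c
    calc _ ≤ ∑ q ∈ D.natAbs.divisors, (18 * (r : ℝ) ^ 2 + K * (1 / |((D : ℤ) : ℝ)|)) :=
          Finset.sum_le_sum hterm
      _ = (D.natAbs.divisors.card : ℝ) * (18 * (r : ℝ) ^ 2 + K * (1 / |((D : ℤ) : ℝ)|)) := by
          rw [Finset.sum_const, nsmul_eq_mul]
      _ ≤ r * (18 * (r : ℝ) ^ 2 + K * (1 / |((D : ℤ) : ℝ)|)) := by
          have : (D.natAbs.divisors.card : ℝ) ≤ r := by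
            exact_mod_cast htau _ hDpos hDle4
          gcongr
      _ = 18 * (r : ℝ) ^ 3 + r * K * (1 / |((D : ℤ) : ℝ)|) := by ring
  have hinv := sum_inv_det d T L (t 0) (t' 0) (t 1) (t' 1) (by omega) hTL
    ⟨(ht 0).1, (ht 0).2.1, (ht 0).2.2.1, (ht 0).2.2.2, (ht 1).1, (ht 1).2.1, (ht 1).2.2.1,
          (ht 1).2.2.2⟩ (PS 0) (PS 1) (hPS 0) (hPS 1) hdis01 (hcard 0) (hcard 1)
  have hcards : ∀ j, (((PS j ×ˢ PS j).filter (fun z : ℕ × ℕ => z.1 ≠ z.2)).card : ℝ) ≤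
      (L : ℝ) ^ 2 := by
    intro j
    have h1 : ((PS j ×ˢ PS j).filter (fun z : ℕ × ℕ => z.1 ≠ z.2)).card ≤ L ^ 2 := by
      refine le_trans (Finset.card_filter_le _ _) ?_
      rw [card_product, pow_two]
      exact Nat.mul_le_mul (hcard j) (hcard j)
    exact_mod_cast h1
  calc _ ≤ ∑ z1 ∈ (PS 0 ×ˢ PS 0).filter (fun z : ℕ × ℕ => z.1 ≠ z.2),
      ∑ z2 ∈ (PS 1 ×ˢ PS 1).filter (fun z : ℕ × ℕ => z.1 ≠ z.2),
        (18 * (r : ℝ) ^ 3 + r * K * (1 / |((DD d t t' z1 z2 : ℤ) : ℝ)|)) :=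
        Finset.sum_le_sum fun z1 hz1 => Finset.sum_le_sum fun z2 hz2 => hin z1 hz1 z2 hz2
    _ = (((PS 0 ×ˢ PS 0).filter (fun z : ℕ × ℕ => z.1 ≠ z.2)).card : ℝ) *
        (((PS 1 ×ˢ PS 1).filter (fun z : ℕ × ℕ => z.1 ≠ z.2)).card : ℝ) * (18 * (r : ℝ) ^ 3) +
        r * K * ∑ z1 ∈ (PS 0 ×ˢ PS 0).filter (fun z : ℕ × ℕ => z.1 ≠ z.2),
      ∑ z2 ∈ (PS 1 ×ˢ PS 1).filter (fun z : ℕ × ℕ => z.1 ≠ z.2),
        (1 / |((DD d t t' z1 z2 : ℤ) : ℝ)|) := by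
        simp only [Finset.sum_add_distrib, Finset.sum_const, nsmul_eq_mul, ← Finset.mul_sum]
        ring
    _ ≤ (L : ℝ) ^ 2 * (L : ℝ) ^ 2 * (18 * (r : ℝ) ^ 3) + r * K *
        (2 * r * (L : ℝ) ^ 2 / ((L : ℝ) ^ 2) ^ (d - 1)) := by
        gcongr
        · exact hcards 0
        · exact hcards 1
        · calc _ = ∑ z1 ∈ (PS 0 ×ˢ PS 0).filter (fun z : ℕ × ℕ => z.1 ≠ z.2),
              ∑ z2 ∈ (PS 1 ×ˢ PS 1).filter (fun z : ℕ × ℕ => z.1 ≠ z.2),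
              1 / |(((t 0 * z1.1 : ℕ) : ℝ)) ^ d * ((t' 1 * z2.2 : ℕ) : ℝ) ^ d -
                ((t' 0 * z1.2 : ℕ) : ℝ) ^ d * ((t 1 * z2.1 : ℕ) : ℝ) ^ d| := by
                simp only [DD]
                push_cast
                rfl
            _ ≤ _ := hinv
            _ ≤ _ := by gcongr
    _ ≤ (18 + 32 * 4 ^ d + 576 * 16 ^ d) * (r : ℝ) ^ 4 * (T : ℝ) ^ (4 * d) * (L : ℝ) ^ 4 := by
        have hLp : (0 : ℝ) < L := by linarith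
        obtain ⟨e, rfl⟩ : ∃ e, d = e + 4 := ⟨d - 4, by omega⟩
        have hden : ((L : ℝ) ^ 2) ^ (e + 4 - 1) = (L : ℝ) ^ (2 * e + 6) := by
          rw [← pow_mul]; congr 1
        rw [hden]
        have h1 : (L : ℝ) ^ (e + 4 + 4) * ((L : ℝ) ^ 2 / (L : ℝ) ^ (2 * e + 6)) ≤ (L : ℝ) ^ 4 := by
          rw [mul_div_assoc', div_le_iff₀ (by positivity), ← pow_add, ← pow_add]
          exact pow_le_pow_right₀ hLr (by omega)
        have h2 : (L : ℝ) ^ (2 * (e + 4)) * ((L : ℝ) ^ 2 / (L : ℝ) ^ (2 * e + 6)) =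
            (L : ℝ) ^ 4 := by
          rw [mul_div_assoc', div_eq_iff (by positivity), ← pow_add, ← pow_add]
          congr 1; ring
        have h3 : (T : ℝ) ^ (2 * (e + 4)) ≤ (T : ℝ) ^ (4 * (e + 4)) :=
          pow_le_pow_right₀ hTr (by omega)
        have h4 : (1 : ℝ) ≤ (T : ℝ) ^ (4 * (e + 4)) := one_le_pow₀ hTr
        have h5 : (r : ℝ) ^ 3 ≤ (r : ℝ) ^ 4 := pow_le_pow_right₀ hrr (by norm_num)
        have h6 : (r : ℝ) ^ 2 ≤ (r : ℝ) ^ 4 := pow_le_pow_right₀ hrr (by norm_num)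
        have hA : (r : ℝ) * K * (2 * r * (L : ℝ) ^ 2 / (L : ℝ) ^ (2 * e + 6)) =
            (r : ℝ) ^ 2 * (T : ℝ) ^ (2 * (e + 4)) * (32 * 4 ^ (e + 4)) *
              ((L : ℝ) ^ (e + 4 + 4) * ((L : ℝ) ^ 2 / (L : ℝ) ^ (2 * e + 6))) +
            576 * 16 ^ (e + 4) * (r : ℝ) ^ 4 * (T : ℝ) ^ (4 * (e + 4)) *
              ((L : ℝ) ^ (2 * (e + 4)) * ((L : ℝ) ^ 2 / (L : ℝ) ^ (2 * e + 6))) := by
          rw [hK]
          ring
        rw [hA, h2]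
        have hB1 : (L : ℝ) ^ 2 * (L : ℝ) ^ 2 * (18 * (r : ℝ) ^ 3) ≤
            18 * (r : ℝ) ^ 4 * (T : ℝ) ^ (4 * (e + 4)) * (L : ℝ) ^ 4 := by
          calc (L : ℝ) ^ 2 * (L : ℝ) ^ 2 * (18 * (r : ℝ) ^ 3) =
              18 * (r : ℝ) ^ 3 * 1 * (L : ℝ) ^ 4 := by ring
            _ ≤ 18 * (r : ℝ) ^ 4 * (T : ℝ) ^ (4 * (e + 4)) * (L : ℝ) ^ 4 := by gcongr
        have hB2 : (r : ℝ) ^ 2 * (T : ℝ) ^ (2 * (e + 4)) * (32 * 4 ^ (e + 4)) *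
              ((L : ℝ) ^ (e + 4 + 4) * ((L : ℝ) ^ 2 / (L : ℝ) ^ (2 * e + 6))) ≤
            (r : ℝ) ^ 4 * (T : ℝ) ^ (4 * (e + 4)) * (32 * 4 ^ (e + 4)) * (L : ℝ) ^ 4 := by
          gcongr
        calc _ ≤ 18 * (r : ℝ) ^ 4 * (T : ℝ) ^ (4 * (e + 4)) * (L : ℝ) ^ 4 +
            ((r : ℝ) ^ 4 * (T : ℝ) ^ (4 * (e + 4)) * (32 * 4 ^ (e + 4)) * (L : ℝ) ^ 4 +
            576 * 16 ^ (e + 4) * (r : ℝ) ^ 4 * (T : ℝ) ^ (4 * (e + 4)) * (L : ℝ) ^ 4) := by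
              gcongr
          _ = _ := by ring

end Pool.Agent.Lib.MP_e426f4_ag.DG
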