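import Pool.Agent.Lib.MP_e426f4_ag.DG.Defs
import Pool.Agent.Lib.MP_e426f4_ag.DG.T0a
import Pool.Agent.Lib.MP_e426f4_ag.DG.CardTwo

/-!
# T0b: number of solutions of type 0 with fixed t's
For `z_j = (l_j,l_j')`, `x_j = t_j l_j`, `y_j = t'_j l'_j`. If `sum a_j x_j^d = 0 = sum a_j y_j^d` then, with `D_ij = x_i^d y_j^d - y_i^d x_j^d`, (eliminate a_0)
`a_1 D_01 + a_2 D_02 + a_3 D_03 = 0`, so `D_01 | a_2 D_02 + a_3 D_03`, and (a_2,a_3) determine (a_0,a_1) because `D_01 != 0`. By `card_two` the number of `a` is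
`<= 4H^2 gcd(D_01,D_02,D_03)/|D_01| + 4H + 1`. Sum over z_2, z_3 (indices 2 and 3): group by `q = gcd(..)`, a divisor of `D_01` which divides `D_02` and `D_03`:
`sum_{z_2,z_3} gcd/|D| <= sum_{q | D} (q/|D|) NR(q; 2) NR(q; 3)`. Then `t0_sum`. The remaining part is `(4H+1) * (number of z's <= (L^2)^4) <= 5 H L^8 <= 5 H^2 L^4`
by the hypothesis `L^4 <= H`.
-/

set_option autoImplicit false

namespace Pool.Agent.Lib.MP_e426f4_ag.DG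

open Finset

private theorem sum_pi4 {β : Type} [DecidableEq β] (S : Fin 4 → Finset β) (F : (Fin 4 → β) → ℝ) :
    ∑ z ∈ Fintype.piFinset S, F z =
      ∑ z0 ∈ S 0, ∑ z1 ∈ S 1, ∑ z2 ∈ S 2, ∑ z3 ∈ S 3, F ![z0, z1, z2, z3] := by
  have h1 : ∑ z0 ∈ S 0, ∑ z1 ∈ S 1, ∑ z2 ∈ S 2, ∑ z3 ∈ S 3, F ![z0, z1, z2, z3] =
      ∑ p ∈ S 0 ×ˢ (S 1 ×ˢ (S 2 ×ˢ S 3)), F ![p.1, p.2.1, p.2.2.1, p.2.2.2] := by
    rw [Finset.sum_product]
    refine Finset.sum_congr rfl fun z0 _ => ?_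
    rw [Finset.sum_product]
    refine Finset.sum_congr rfl fun z1 _ => ?_
    rw [Finset.sum_product]
  rw [h1]
  refine Finset.sum_nbij' (fun z => (z 0, z 1, z 2, z 3))
    (fun p => ![p.1, p.2.1, p.2.2.1, p.2.2.2]) ?_ ?_ ?_ ?_ ?_
  · intro z hz
    rw [Fintype.mem_piFinset] at hz
    simp only [mem_product]
    exact ⟨hz 0, hz 1, hz 2, hz 3⟩
  · intro p hp
    simp only [mem_product] at hp
    rw [Fintype.mem_piFinset]
    intro j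
    fin_cases j
    · exact hp.1
    · exact hp.2.1
    · exact hp.2.2.1
    · exact hp.2.2.2
  · intro z _
    funext j
    fin_cases j <;> rfl
  · intro p _
    rfl
  · intro z _
    congr 1
    funext j
    fin_cases j <;> rfl

/-- the number of solutions for fixed `x`, `y` -/
private theorem count_xy (H d : ℕ) (hH : 1 ≤ H) (x y : Fin 4 → ℤ) (hx0 : x 0 ^ d ≠ 0)
    (hD : x 0 ^ d * y 1 ^ d - y 0 ^ d * x 1 ^ d ≠ 0) :
    ((((Fintype.piFinset fun _ : Fin 4 => Ioo (-(H : ℤ)) H)).filter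
        fun a : Fin 4 → ℤ => ∑ k, a k * x k ^ d = 0 ∧ ∑ k, a k * y k ^ d = 0).card : ℝ) ≤
      4 * (H : ℝ) ^ 2 * (((x 0 ^ d * y 1 ^ d - y 0 ^ d * x 1 ^ d).gcd
        ((x 0 ^ d * y 2 ^ d - y 0 ^ d * x 2 ^ d).gcd (x 0 ^ d * y 3 ^ d - y 0 ^ d * x 3 ^ d)) : ℕ) : ℝ)
        / |((x 0 ^ d * y 1 ^ d - y 0 ^ d * x 1 ^ d : ℤ) : ℝ)| + 4 * H + 1 := by
  refine le_trans ?_ (card_two H hH _ _ _ hD)
  have hrel : ∀ a : Fin 4 → ℤ, ∑ k, a k * x k ^ d = 0 → ∑ k, a k * y k ^ d = 0 →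
      a 1 * (x 0 ^ d * y 1 ^ d - y 0 ^ d * x 1 ^ d) + a 2 * (x 0 ^ d * y 2 ^ d - y 0 ^ d * x 2 ^ d) +
        a 3 * (x 0 ^ d * y 3 ^ d - y 0 ^ d * x 3 ^ d) = 0 := by
    intro a h1 h2
    rw [Fin.sum_univ_four] at h1 h2
    linear_combination (x 0 ^ d) * h2 - (y 0 ^ d) * h1
  have hcard : (((Fintype.piFinset fun _ : Fin 4 => Ioo (-(H : ℤ)) H)).filter
        fun a : Fin 4 → ℤ => ∑ k, a k * x k ^ d = 0 ∧ ∑ k, a k * y k ^ d = 0).card ≤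
      (((Ioo (-(H : ℤ)) H) ×ˢ (Ioo (-(H : ℤ)) H)).filter
      fun a : ℤ × ℤ => (x 0 ^ d * y 1 ^ d - y 0 ^ d * x 1 ^ d) ∣
        a.1 * (x 0 ^ d * y 2 ^ d - y 0 ^ d * x 2 ^ d) +
          a.2 * (x 0 ^ d * y 3 ^ d - y 0 ^ d * x 3 ^ d)).card := by
    refine Finset.card_le_card_of_injOn (fun a => (a 2, a 3)) ?_ ?_
    · intro a ha
      rw [Finset.mem_coe, mem_filter, Fintype.mem_piFinset] at ha
      obtain ⟨h1, h2, h3⟩ := ha
      rw [Finset.mem_coe, mem_filter, mem_product]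
      refine ⟨⟨h1 2, h1 3⟩, ?_⟩
      have h4 := hrel a h2 h3
      refine ⟨- a 1, ?_⟩
      linear_combination h4
    · intro a ha b hb hab
      rw [Finset.mem_coe, mem_filter, Fintype.mem_piFinset] at ha hb
      obtain ⟨_, h2, h3⟩ := ha
      obtain ⟨_, h5, h6⟩ := hb
      have h7 := hrel a h2 h3
      have h8 := hrel b h5 h6
      have hab2 : a 2 = b 2 := (Prod.mk.inj hab).1
      have hab3 : a 3 = b 3 := (Prod.mk.inj hab).2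
      have h9 : (a 1 - b 1) * (x 0 ^ d * y 1 ^ d - y 0 ^ d * x 1 ^ d) = 0 := by
        rw [hab2, hab3] at h7
        linear_combination h7 - h8
      have hab1 : a 1 = b 1 := by
        rcases mul_eq_zero.mp h9 with h | h
        · linarith
        · exact absurd h hD
      have h10 : (a 0 - b 0) * x 0 ^ d = 0 := by
        rw [Fin.sum_univ_four] at h2 h5
        rw [hab1, hab2, hab3] at h2
        linear_combination h2 - h5
      have hab0 : a 0 = b 0 := by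
        rcases mul_eq_zero.mp h10 with h | h
        · linarith
        · exact absurd h hx0
      funext j
      fin_cases j
      · exact hab0
      · exact hab1
      · exact hab2
      · exact hab3
  exact_mod_cast hcard

/-- grouping by the gcd -/
private theorem gcd_group (D : ℤ) (hD : D ≠ 0) (S2 S3 : Finset (ℕ × ℕ)) (E2 E3 : ℕ × ℕ → ℤ) :
    ∑ z2 ∈ S2, ∑ z3 ∈ S3, (((D.gcd ((E2 z2).gcd (E3 z3)) : ℕ) : ℝ) / |(D : ℝ)|) ≤
      ∑ q ∈ D.natAbs.divisors, (q : ℝ) / |(D : ℝ)| *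
        (((S2.filter fun z => (q : ℤ) ∣ E2 z).card : ℝ) *
          ((S3.filter fun z => (q : ℤ) ∣ E3 z).card : ℝ)) := by
  have h1 : ∀ q : ℕ, (q : ℝ) / |(D : ℝ)| *
        (((S2.filter fun z => (q : ℤ) ∣ E2 z).card : ℝ) *
          ((S3.filter fun z => (q : ℤ) ∣ E3 z).card : ℝ)) =
      ∑ z2 ∈ S2, ∑ z3 ∈ S3, (q : ℝ) / |(D : ℝ)| *
        ((if (q : ℤ) ∣ E2 z2 then 1 else 0) * (if (q : ℤ) ∣ E3 z3 then 1 else 0)) := by
    intro q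
    rw [Finset.card_filter, Finset.card_filter]
    push_cast
    rw [Finset.sum_mul_sum, Finset.mul_sum]
    refine Finset.sum_congr rfl fun z2 _ => ?_
    rw [Finset.mul_sum]
  simp only [h1]
  rw [Finset.sum_comm (s := D.natAbs.divisors) (t := S2)]
  refine Finset.sum_le_sum fun z2 _ => ?_
  rw [Finset.sum_comm (s := D.natAbs.divisors) (t := S3)]
  refine Finset.sum_le_sum fun z3 _ => ?_
  set g := D.gcd ((E2 z2).gcd (E3 z3)) with hg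
  have hg1 : (g : ℤ) ∣ D := Int.gcd_dvd_left _ _
  have hg2 : (g : ℤ) ∣ (((E2 z2).gcd (E3 z3) : ℕ) : ℤ) := Int.gcd_dvd_right _ _
  have hg3 : (g : ℤ) ∣ E2 z2 := dvd_trans hg2 (Int.gcd_dvd_left _ _)
  have hg4 : (g : ℤ) ∣ E3 z3 := dvd_trans hg2 (Int.gcd_dvd_right _ _)
  have hmem : g ∈ D.natAbs.divisors := by
    rw [Nat.mem_divisors]
    exact ⟨Int.natCast_dvd.mp hg1, by simpa using hD⟩
  have hnn : ∀ q ∈ D.natAbs.divisors, 0 ≤ (fun q : ℕ => (q : ℝ) / |(D : ℝ)| *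
        ((if (q : ℤ) ∣ E2 z2 then (1 : ℝ) else 0) * (if (q : ℤ) ∣ E3 z3 then (1 : ℝ) else 0))) q := by
    intro q _
    show (0 : ℝ) ≤ (q : ℝ) / |(D : ℝ)| *
        ((if (q : ℤ) ∣ E2 z2 then (1 : ℝ) else 0) * (if (q : ℤ) ∣ E3 z3 then (1 : ℝ) else 0))
    positivity
  have h2 := Finset.single_le_sum hnn hmem
  refine le_trans (le_of_eq ?_) h2
  simp only [hg3, hg4, if_true, mul_one]

theorem t0_count (d : ℕ) (hd : 4 ≤ d) : ∃ C : ℝ, 0 < C ∧ ∀ (T L r H : ℕ), T < L → 1 ≤ r → L ^ 4 ≤ H →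
    1 + Real.log (16 * (L : ℝ) ^ 2 * (T : ℝ) ^ 2) ≤ r →
    (∀ k, 1 ≤ k → k ≤ (4 * L * T) ^ (4 * d) → k.divisors.card ≤ r) →
    (∀ k, 1 ≤ k → k ≤ (4 * L * T) ^ (4 * d) → rho d k ≤ r) →
    ∀ (t t' : Fin 4 → ℕ), (∀ j, 1 ≤ t j ∧ t j ≤ T ∧ 1 ≤ t' j ∧ t' j ≤ T) →
    ∀ (PS : Fin 4 → Finset ℕ), (∀ j, ∀ l ∈ PS j, l.Prime ∧ L < l ∧ l ≤ 4 * L) →
    (∀ i j, i ≠ j → Disjoint (PS i) (PS j)) → (∀ j, (PS j).card ≤ L) →
    ∑ z ∈ Fintype.piFinset (fun j : Fin 4 => (PS j ×ˢ PS j).filter (fun z : ℕ × ℕ => z.1 ≠ z.2)),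
      ((((Fintype.piFinset fun _ : Fin 4 => Ioo (-(H : ℤ)) H)).filter
        fun a : Fin 4 → ℤ => ∑ k, a k * ((t k * (z k).1 : ℕ) : ℤ) ^ d = 0 ∧
          ∑ k, a k * ((t' k * (z k).2 : ℕ) : ℤ) ^ d = 0).card : ℝ) ≤
      C * (r : ℝ) ^ 4 * (T : ℝ) ^ (4 * d) * (H : ℝ) ^ 2 * (L : ℝ) ^ 4 := by
  obtain ⟨C0, hC0, hsum⟩ := t0_sum d hd
  refine ⟨4 * C0 + 5, by positivity, ?_⟩
  intro T L r H hTL hr1 hLH hlog htau hrho t t' ht PS hPS hdis hcard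
  have hT : 1 ≤ T := le_trans (ht 0).1 (ht 0).2.1
  have hL : 1 ≤ L := by omega
  have hH : 1 ≤ H := le_trans (Nat.one_le_pow _ _ hL) hLH
  have hHr : (1 : ℝ) ≤ H := by exact_mod_cast hH
  have hTr : (1 : ℝ) ≤ T := by exact_mod_cast hT
  have hrr : (1 : ℝ) ≤ r := by exact_mod_cast hr1
  have hLHr : (L : ℝ) ^ 4 ≤ H := by exact_mod_cast hLH
  have hdis01 := hdis 0 1 (by decide)
  have hndvd : ∀ l k : ℕ, L < l → 1 ≤ k → k ≤ T → ¬ l ∣ k := by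
    intro l k h1 h2 h3 h4
    have := Nat.le_of_dvd h2 h4
    omega
  set S : Fin 4 → Finset (ℕ × ℕ) :=
    fun j : Fin 4 => (PS j ×ˢ PS j).filter (fun z : ℕ × ℕ => z.1 ≠ z.2) with hS
  have hD0 : ∀ z1 ∈ S 0, ∀ z2 ∈ S 1, DD d t t' z1 z2 ≠ 0 := by
    intro z1 hz1 z2 hz2 hD
    rw [hS] at hz1 hz2
    simp only [mem_filter, mem_product] at hz1 hz2
    obtain ⟨⟨hz11, hz12⟩, hne1⟩ := hz1
    obtain ⟨⟨hz21, hz22⟩, hne2⟩ := hz2
    obtain ⟨hp11, hl11, hu11⟩ := hPS 0 _ hz11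
    obtain ⟨hp12, hl12, hu12⟩ := hPS 0 _ hz12
    obtain ⟨hp21, hl21, hu21⟩ := hPS 1 _ hz21
    have h2 : ((z1.1 : ℕ) : ℤ) ∣ ((t 0 * z1.1 : ℕ) : ℤ) ^ d * ((t' 1 * z2.2 : ℕ) : ℤ) ^ d := by
      apply Dvd.dvd.mul_right
      apply dvd_pow _ (by omega)
      exact Int.natCast_dvd_natCast.mpr (dvd_mul_left _ _)
    have h3 : ((z1.1 : ℕ) : ℤ) ∣ ((t' 0 * z1.2 : ℕ) : ℤ) ^ d * ((t 1 * z2.1 : ℕ) : ℤ) ^ d := by
      rw [DD, sub_eq_zero] at hD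
      rwa [hD] at h2
    have h4 : z1.1 ∣ (t' 0 * z1.2) ^ d * (t 1 * z2.1) ^ d := by exact_mod_cast h3
    rcases hp11.dvd_mul.mp h4 with h5 | h5
    · rcases hp11.dvd_mul.mp (hp11.dvd_of_dvd_pow h5) with h6 | h6
      · exact hndvd _ _ hl11 (ht 0).2.2.1 (ht 0).2.2.2 h6
      · exact hne1 ((Nat.prime_dvd_prime_iff_eq hp11 hp12).mp h6)
    · rcases hp11.dvd_mul.mp (hp11.dvd_of_dvd_pow h5) with h6 | h6
      · exact hndvd _ _ hl11 (ht 1).1 (ht 1).2.1 h6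
      · have := (Nat.prime_dvd_prime_iff_eq hp11 hp21).mp h6
        exact (Finset.disjoint_left.mp hdis01 hz11) (this ▸ hz21)
  -- the determinants with indices 0, j
  set E : Fin 4 → ℕ × ℕ → ℕ × ℕ → ℤ := fun j z1 w =>
    ((t 0 * z1.1 : ℕ) : ℤ) ^ d * ((t' j * w.2 : ℕ) : ℤ) ^ d -
      ((t' 0 * z1.2 : ℕ) : ℤ) ^ d * ((t j * w.1 : ℕ) : ℤ) ^ d with hE
  set G : (Fin 4 → ℕ × ℕ) → ℝ := fun z =>
    (((DD d t t' (z 0) (z 1)).gcd ((E 2 (z 0) (z 2)).gcd (E 3 (z 0) (z 3))) : ℕ) : ℝ) /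
      |((DD d t t' (z 0) (z 1) : ℤ) : ℝ)| with hG
  have hterm : ∀ z ∈ Fintype.piFinset S,
      ((((Fintype.piFinset fun _ : Fin 4 => Ioo (-(H : ℤ)) H)).filter
        fun a : Fin 4 → ℤ => ∑ k, a k * ((t k * (z k).1 : ℕ) : ℤ) ^ d = 0 ∧
          ∑ k, a k * ((t' k * (z k).2 : ℕ) : ℤ) ^ d = 0).card : ℝ) ≤
      4 * (H : ℝ) ^ 2 * G z + (4 * H + 1) := by
    intro z hz
    rw [Fintype.mem_piFinset] at hz
    have hz0 := hz 0
    have hp : 0 < (z 0).1 := by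
      rw [hS] at hz0
      simp only [mem_filter, mem_product] at hz0
      exact (hPS 0 _ hz0.1.1).1.pos
    have h1 := count_xy H d hH (fun k => ((t k * (z k).1 : ℕ) : ℤ))
      (fun k => ((t' k * (z k).2 : ℕ) : ℤ))
      (pow_ne_zero _ (by
        have h2 : 0 < t 0 * (z 0).1 := Nat.mul_pos (ht 0).1 hp
        exact_mod_cast h2.ne'))
      (hD0 (z 0) (hz 0) (z 1) (hz 1))
    refine le_trans h1 (le_of_eq ?_)
    rw [hG, hE]
    simp only [DD]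
    ring
  have hGsum : ∑ z ∈ Fintype.piFinset S, G z ≤
      C0 * (r : ℝ) ^ 4 * (T : ℝ) ^ (4 * d) * (L : ℝ) ^ 4 := by
    rw [sum_pi4 S G]
    refine le_trans ?_ (hsum T L r hTL hr1 hlog htau hrho t t' ht PS hPS hdis hcard)
    refine Finset.sum_le_sum fun z1 hz1 => Finset.sum_le_sum fun z2 hz2 => ?_
    have h1 := gcd_group (DD d t t' z1 z2) (hD0 z1 hz1 z2 hz2) (S 2) (S 3) (E 2 z1) (E 3 z1)
    refine le_trans (le_trans (le_of_eq ?_) h1) ?_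
    · rfl
    · refine Finset.sum_le_sum fun q hq => ?_
      have hNR : ∀ j : Fin 4, (((S j).filter fun z => (q : ℤ) ∣ E j z1 z).card : ℝ) ≤
          NR d q (t 0 * z1.1) (t' 0 * z1.2) (t j) (t' j) (PS j) := by
        intro j
        unfold NR
        have h3 : ((S j).filter fun z => (q : ℤ) ∣ E j z1 z).card ≤
            ((PS j ×ˢ PS j).filter fun l : ℕ × ℕ => (q : ℤ) ∣
              ((t 0 * z1.1 : ℕ) : ℤ) ^ d * ((t' j * l.2 : ℕ) : ℤ) ^ d -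
              ((t' 0 * z1.2 : ℕ) : ℤ) ^ d * ((t j * l.1 : ℕ) : ℤ) ^ d).card := by
          apply Finset.card_le_card
          intro z hz
          rw [mem_filter] at hz ⊢
          obtain ⟨h4, h5⟩ := hz
          rw [hS] at h4
          simp only [mem_filter] at h4
          exact ⟨h4.1, h5⟩
        exact_mod_cast h3
      have hnn3 : 0 ≤ NR d q (t 0 * z1.1) (t' 0 * z1.2) (t 2) (t' 2) (PS 2) :=
        le_trans (Nat.cast_nonneg _) (hNR 2)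
      exact mul_le_mul_of_nonneg_left
        (mul_le_mul (hNR 2) (hNR 3) (Nat.cast_nonneg _) hnn3) (by positivity)
  have hcardS : ∀ j, ((S j).card : ℝ) ≤ (L : ℝ) ^ 2 := by
    intro j
    have h1 : (S j).card ≤ L ^ 2 := by
      refine le_trans (Finset.card_filter_le _ _) ?_
      rw [card_product, pow_two]
      exact Nat.mul_le_mul (hcard j) (hcard j)
    exact_mod_cast h1
  have hcardpi : ((Fintype.piFinset S).card : ℝ) ≤ (L : ℝ) ^ 8 := by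
    rw [Fintype.card_piFinset]
    push_cast
    calc ∏ j, ((S j).card : ℝ) ≤ ∏ _j : Fin 4, (L : ℝ) ^ 2 :=
          Finset.prod_le_prod (fun _ _ => by positivity) fun j _ => hcardS j
      _ = (L : ℝ) ^ 8 := by
          rw [Finset.prod_const, Finset.card_univ, Fintype.card_fin, ← pow_mul]
  calc _ ≤ ∑ z ∈ Fintype.piFinset S, (4 * (H : ℝ) ^ 2 * G z + (4 * H + 1)) :=
        Finset.sum_le_sum hterm
    _ = 4 * (H : ℝ) ^ 2 * ∑ z ∈ Fintype.piFinset S, G z +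
        ((Fintype.piFinset S).card : ℝ) * (4 * H + 1) := by
        rw [Finset.sum_add_distrib, ← Finset.mul_sum, Finset.sum_const, nsmul_eq_mul]
    _ ≤ 4 * (H : ℝ) ^ 2 * (C0 * (r : ℝ) ^ 4 * (T : ℝ) ^ (4 * d) * (L : ℝ) ^ 4) +
        (L : ℝ) ^ 8 * (4 * H + 1) := by gcongr
    _ ≤ 4 * (H : ℝ) ^ 2 * (C0 * (r : ℝ) ^ 4 * (T : ℝ) ^ (4 * d) * (L : ℝ) ^ 4) +
        5 * (r : ℝ) ^ 4 * (T : ℝ) ^ (4 * d) * (H : ℝ) ^ 2 * (L : ℝ) ^ 4 := by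
        have h1 : (L : ℝ) ^ 8 * (4 * H + 1) ≤
            5 * (r : ℝ) ^ 4 * (T : ℝ) ^ (4 * d) * (H : ℝ) ^ 2 * (L : ℝ) ^ 4 := by
          have h2 : (1 : ℝ) ≤ (r : ℝ) ^ 4 := one_le_pow₀ hrr
          have h3 : (1 : ℝ) ≤ (T : ℝ) ^ (4 * d) := one_le_pow₀ hTr
          calc (L : ℝ) ^ 8 * (4 * H + 1) ≤ (L : ℝ) ^ 8 * (5 * H) := by
                gcongr
                linarith
            _ = (L : ℝ) ^ 4 * (5 * H * (L : ℝ) ^ 4) := by ring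
            _ ≤ H * (5 * H * (L : ℝ) ^ 4) := by gcongr
            _ = 5 * 1 * 1 * (H : ℝ) ^ 2 * (L : ℝ) ^ 4 := by ring
            _ ≤ 5 * (r : ℝ) ^ 4 * (T : ℝ) ^ (4 * d) * (H : ℝ) ^ 2 * (L : ℝ) ^ 4 := by gcongr
        linarith
    _ = (4 * C0 + 5) * (r : ℝ) ^ 4 * (T : ℝ) ^ (4 * d) * (H : ℝ) ^ 2 * (L : ℝ) ^ 4 := by ring

end Pool.Agent.Lib.MP_e426f4_ag.DG
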