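import Pool.Agent.Lib.MP_e426f4_ag.DG.Defs
import Pool.Agent.Lib.MP_e426f4_ag.DG.T0b
import Pool.Agent.Lib.MP_e426f4_ag.DG.L4a
import Pool.Agent.Lib.MP_e426f4_ag.DG.Facts1
import Pool.Agent.Lib.MP_e426f4_ag.DG.VDefs

/-!
# Type0: the fourth moment, type 0
By `Setup.Z0_mem` the elements of `Z0 (k j)` are `(t l, t' l')` with `t,t' in I`, `l != l'` in `PS (k j)`. So `count4` is at most the sum over `t, t' : Fin 4 -> I` (at most `T^8` choices)
of the sums in `t0_count` (PS := PS ∘ k, pairwise disjoint because k is injective; r := R; `L^4 <= H` because `16 B^d <= H`, d >= 4, L <= B; `|PS| = R^(Mx-1) <= L`;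
`hlog`, `htau`, `hrho`). Result `<= T^8 C R^4 T^(4d) H^2 L^4`, and `T = R^m`, `8m + 4 + 4dm <= cM d * m`.
-/

set_option autoImplicit false

namespace Pool.Agent.Lib.MP_e426f4_ag.DG

open Finset

private theorem sum_le_of_cover {α β : Type*} (Z : Finset α) (A : Finset β) (φ : β → α) (f : α → ℝ)
    (hf : ∀ a, 0 ≤ f a) (h : ∀ z ∈ Z, ∃ p ∈ A, φ p = z) :
    ∑ z ∈ Z, f z ≤ ∑ p ∈ A, f (φ p) := by
  classical
  by_cases hZ : Z = ∅
  · subst hZ
    simpa using sum_nonneg fun p _ => hf (φ p)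
  obtain ⟨z0, hz0⟩ := Finset.nonempty_iff_ne_empty.mpr hZ
  obtain ⟨p0, _, _⟩ := h z0 hz0
  have h' : ∀ z, ∃ p, z ∈ Z → p ∈ A ∧ φ p = z := by
    intro z
    by_cases hz : z ∈ Z
    · obtain ⟨p, hp, hq⟩ := h z hz
      exact ⟨p, fun _ => ⟨hp, hq⟩⟩
    · exact ⟨p0, fun h => absurd h hz⟩
  choose g hg using h'
  calc ∑ z ∈ Z, f z = ∑ z ∈ Z, f (φ (g z)) := by
        apply sum_congr rfl
        intro z hz
        rw [(hg z hz).2]
    _ = ∑ p ∈ Z.image g, f (φ p) := by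
        rw [sum_image]
        intro x hx y hy hxy
        rw [← (hg x hx).2, ← (hg y hy).2]
        exact congrArg φ hxy
    _ ≤ ∑ p ∈ A, f (φ p) := by
        apply sum_le_sum_of_subset_of_nonneg
        · intro p hp
          rw [mem_image] at hp
          obtain ⟨z, hz, rfl⟩ := hp
          exact (hg z hz).1
        · intro p _ _
          exact hf _

theorem count_type0 (d s m Mx E : ℕ) (hd : 4 ≤ d) (hm : 1 ≤ m) (hMx : m < Mx) :
    ∃ C : ℝ, 0 < C ∧ ∀ (S : Setup d s m Mx E) (k : Fin 4 → Fin s), Function.Injective k →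
    count4 S.H d (fun j => S.Z0 (k j)) ≤ C * (S.R : ℝ) ^ (cM d * m) * (S.H : ℝ) ^ 2 * (S.L : ℝ) ^ 4 := by
  obtain ⟨C, hC, h⟩ := t0_count d hd
  refine ⟨C, hC, ?_⟩
  intro S k hk
  have hR := S.hR
  have hR1 : 1 ≤ S.R := by omega
  have hRr : (1 : ℝ) ≤ S.R := by exact_mod_cast hR1
  have hTL := S.T_lt_L hMx
  have hT1 : 1 ≤ S.T := Nat.one_le_pow _ _ (by omega)
  have hL1 : 1 ≤ S.L := Nat.one_le_pow _ _ (by omega)
  have hL4 : S.L ^ 4 ≤ S.H := by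
    have h1 : S.L ^ 4 ≤ S.L ^ d := Nat.pow_le_pow_right hL1 hd
    have h2 : S.L ≤ 4 * S.R ^ Mx * S.R ^ m := by
      have h3 : S.L * 1 ≤ S.L * (4 * S.T) := Nat.mul_le_mul_left _ (by omega)
      calc S.L = S.L * 1 := (mul_one _).symm
        _ ≤ S.L * (4 * S.T) := h3
        _ = 4 * S.R ^ Mx * S.R ^ m := by unfold Setup.L Setup.T; ring
    have h4 : S.L ^ d ≤ (4 * S.R ^ Mx * S.R ^ m) ^ d := Nat.pow_le_pow_left h2 d
    have h5 := S.hH1
    omega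
  have hlog : 1 + Real.log (16 * (S.L : ℝ) ^ 2 * (S.T : ℝ) ^ 2) ≤ S.R := by
    have h1 := S.hlog
    have e : (16 * (S.L : ℝ) ^ 2 * (S.T : ℝ) ^ 2) = (4 * (S.R : ℝ) ^ Mx * (S.R : ℝ) ^ m) ^ 2 := by
      unfold Setup.L Setup.T
      push_cast
      ring
    rw [e]
    exact h1
  have htau : ∀ q, 1 ≤ q → q ≤ (4 * S.L * S.T) ^ (4 * d) → q.divisors.card ≤ S.R := S.htau
  have hrho : ∀ q, 1 ≤ q → q ≤ (4 * S.L * S.T) ^ (4 * d) → rho d q ≤ S.R := S.hrho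
  have hPS : ∀ j : Fin 4, ∀ l ∈ S.PS (k j), l.Prime ∧ S.L < l ∧ l ≤ 4 * S.L := fun j => S.hPS (k j)
  have hdis : ∀ i j : Fin 4, i ≠ j → Disjoint (S.PS (k i)) (S.PS (k j)) := by
    intro i j hij
    exact S.hdisj _ _ fun e => hij (hk e)
  have hcard : ∀ j : Fin 4, (S.PS (k j)).card ≤ S.L := by
    intro j
    rw [S.hcard]
    unfold Setup.L
    exact Nat.pow_le_pow_right (by omega) (by omega)
  have key := fun t t' ht => h S.T S.L S.R S.H hTL hR1 hL4 hlog htau hrho t t' ht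
    (fun j => S.PS (k j)) hPS hdis hcard
  set W := Fintype.piFinset (fun j : Fin 4 => (S.PS (k j) ×ˢ S.PS (k j)).filter
    (fun z : ℕ × ℕ => z.1 ≠ z.2)) with hW
  set II := Fintype.piFinset (fun _ : Fin 4 => S.I) with hII
  set φ : ((Fin 4 → ℕ) × (Fin 4 → ℕ)) × (Fin 4 → ℕ × ℕ) → (Fin 4 → ℕ × ℕ) := fun p j =>
    (p.1.1 j * (p.2 j).1, p.1.2 j * (p.2 j).2) with hφ
  set f : (Fin 4 → ℕ × ℕ) → ℝ := fun z => ((((Fintype.piFinset fun _ : Fin 4 =>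
    Ioo (-(S.H : ℤ)) S.H)).filter fun a : Fin 4 → ℤ => ∑ k, a k * ((z k).1 : ℤ) ^ d = 0 ∧
      ∑ k, a k * ((z k).2 : ℤ) ^ d = 0).card : ℝ) with hf
  have hcov : count4 S.H d (fun j => S.Z0 (k j)) ≤ ∑ p ∈ (II ×ˢ II) ×ˢ W, f (φ p) := by
    unfold count4
    apply sum_le_of_cover _ _ φ f
    · intro a
      rw [hf]
      positivity
    · intro z hz
      rw [Fintype.mem_piFinset] at hz
      have h1 : ∀ j : Fin 4, ∃ t t' l l', t ∈ S.I ∧ t' ∈ S.I ∧ l ∈ S.PS (k j) ∧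
          l' ∈ S.PS (k j) ∧ l ≠ l' ∧ z j = (t * l, t' * l') := fun j =>
        (S.Z0_mem hMx (k j) (z j)).1 (hz j)
      choose t t' l l' ht ht' hl hl' hne hzj using h1
      refine ⟨((t, t'), fun j => (l j, l' j)), ?_, ?_⟩
      · rw [mem_product, mem_product, hII, hW, Fintype.mem_piFinset, Fintype.mem_piFinset,
          Fintype.mem_piFinset]
        refine ⟨⟨ht, ht'⟩, fun j => ?_⟩
        rw [mem_filter, mem_product]
        exact ⟨⟨hl j, hl' j⟩, hne j⟩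
      · rw [hφ]
        funext j
        exact (hzj j).symm
  refine hcov.trans ?_
  rw [sum_product]
  have hT0 : (0 : ℝ) ≤ S.T := by positivity
  calc ∑ x ∈ II ×ˢ II, ∑ y ∈ W, f (φ (x, y)) ≤
      ∑ x ∈ II ×ˢ II, C * (S.R : ℝ) ^ 4 * (S.T : ℝ) ^ (4 * d) * (S.H : ℝ) ^ 2 * (S.L : ℝ) ^ 4 := by
        apply sum_le_sum
        rintro ⟨t, t'⟩ hx
        rw [mem_product, hII, Fintype.mem_piFinset, Fintype.mem_piFinset] at hx
        apply key t t'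
        intro j
        obtain ⟨h1, h2, _⟩ := (S.I_mem _).1 (hx.1 j)
        obtain ⟨h3, h4, _⟩ := (S.I_mem _).1 (hx.2 j)
        exact ⟨h1, h2, h3, h4⟩
    _ = ((S.I.card : ℝ) ^ 4 * (S.I.card : ℝ) ^ 4) *
        (C * (S.R : ℝ) ^ 4 * (S.T : ℝ) ^ (4 * d) * (S.H : ℝ) ^ 2 * (S.L : ℝ) ^ 4) := by
        rw [sum_const, nsmul_eq_mul, card_product, hII, Fintype.card_piFinset]
        simp
    _ ≤ ((S.T : ℝ) ^ 4 * (S.T : ℝ) ^ 4) *
        (C * (S.R : ℝ) ^ 4 * (S.T : ℝ) ^ (4 * d) * (S.H : ℝ) ^ 2 * (S.L : ℝ) ^ 4) := by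
        have h2 : (S.I.card : ℝ) ≤ S.T := by exact_mod_cast S.F1_I_card_le
        gcongr
    _ = C * (S.R : ℝ) ^ (8 * m + 4 + 4 * d * m) * (S.H : ℝ) ^ 2 * (S.L : ℝ) ^ 4 := by
        have hT : (S.T : ℝ) = (S.R : ℝ) ^ m := by unfold Setup.T; push_cast; ring
        rw [hT]
        have e1 : ((S.R : ℝ) ^ m) ^ 4 * ((S.R : ℝ) ^ m) ^ 4 = (S.R : ℝ) ^ (8 * m) := by
          rw [← pow_mul, ← pow_add]; congr 1; ring
        have e2 : ((S.R : ℝ) ^ m) ^ (4 * d) = (S.R : ℝ) ^ (4 * d * m) := by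
          rw [← pow_mul]; congr 1; ring
        rw [e1, e2, pow_add, pow_add]
        ring
    _ ≤ C * (S.R : ℝ) ^ (cM d * m) * (S.H : ℝ) ^ 2 * (S.L : ℝ) ^ 4 := by
        have : (S.R : ℝ) ^ (8 * m + 4 + 4 * d * m) ≤ (S.R : ℝ) ^ (cM d * m) := by
          apply pow_le_pow_right₀ hRr
          unfold cM
          nlinarith [Nat.zero_le (d * m)]
        gcongr

end Pool.Agent.Lib.MP_e426f4_ag.DG
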