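import Pool.Agent.Lib.MP_e426f4_ag.DG.Defs
import Pool.Agent.Lib.MP_e426f4_ag.DG.L4a
import Pool.Agent.Lib.MP_e426f4_ag.DG.Facts1
import Pool.Agent.Lib.MP_e426f4_ag.DG.VDefs

/-!
# Type1: the fourth moment, type 1
Elements of `Z1 (k j)`: `(t l, t' l)` (`Setup.Z1_mem`). Drop the second equation. Number of `t,t'`: `<= T^8`; number of `l : Fin 4 -> ` primes: `<= (4L)^4` (even `L^4`). For fixed t, l count
`a in (-H,H)^4` with `sum a_j (t_j l_j)^d = 0`: `(a_2,a_3)`: `<= (2H)^2`; then `a_0 x_0^d + a_1 x_1^d = n` with `x_j = t_j l_j`: two solutions satisfy `x_1^d | (a_0 - a_0') x_0^d`, hence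
`l_1^d | a_0 - a_0'` (the prime l_1 does not divide t_0 l_0: T < L < l_1, l_0 != l_1), so `a_0` lies in one class mod `l_1^d > L^d`: at most `2H/L^d + 1 <= 32 * 2^((m+Mx)d) * 4^d T^d + 1`
values (`hH2`, B = 4LT), and a_1 is determined. Total `<= T^8 L^4 4 H^2 C T^d`; `8m + dm <= cM d * m`.
-/

set_option autoImplicit false

namespace Pool.Agent.Lib.MP_e426f4_ag.DG

open Finset

private theorem pair_count (H d x0 x1 l : ℕ) (hl : 1 ≤ l) (hx1 : l ∣ x1) (hx1p : 0 < x1)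
    (hcop : Nat.Coprime l x0) (N : ℤ) :
    (((Ioo (-(H : ℤ)) H) ×ˢ (Ioo (-(H : ℤ)) H)).filter fun a : ℤ × ℤ =>
      a.1 * (x0 : ℤ) ^ d + a.2 * (x1 : ℤ) ^ d = N).card ≤ 2 * H / l ^ d + 1 := by
  classical
  set M : ℕ := l ^ d with hM
  have hMpos : 0 < M := by positivity
  have hMz : (0 : ℤ) < (M : ℤ) := by exact_mod_cast hMpos
  rw [← Finset.card_range (2 * H / M + 1)]
  refine Finset.card_le_card_of_injOn (fun a : ℤ × ℤ => ((a.1 + H) / (M : ℤ)).toNat) ?_ ?_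
  · intro a ha
    have ha' := ha
    simp only [Finset.coe_filter, Set.mem_ofPred_eq, Finset.mem_product, Finset.mem_Ioo] at ha'
    obtain ⟨⟨⟨h1, h2⟩, -⟩, -⟩ := ha'
    simp only [Finset.coe_range, Set.mem_Iio]
    have h3 : (a.1 + H) / (M : ℤ) ≤ ((2 * H / M : ℕ) : ℤ) := by
      push_cast
      exact Int.ediv_le_ediv hMz (by linarith)
    have h4 : ((a.1 + H) / (M : ℤ)).toNat ≤ 2 * H / M := Int.toNat_le.2 h3
    omega
  · intro a ha b hb hab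
    simp only [Finset.coe_filter, Set.mem_ofPred_eq, Finset.mem_product, Finset.mem_Ioo] at ha hb
    obtain ⟨⟨⟨ha1, ha2⟩, -⟩, ha3⟩ := ha
    obtain ⟨⟨⟨hb1, hb2⟩, -⟩, hb3⟩ := hb
    have hq : (a.1 + H) / (M : ℤ) = (b.1 + H) / (M : ℤ) := by
      have h1 : 0 ≤ (a.1 + H) / (M : ℤ) := Int.ediv_nonneg (by linarith) hMz.le
      have h2 : 0 ≤ (b.1 + H) / (M : ℤ) := Int.ediv_nonneg (by linarith) hMz.le
      have h3 : ((a.1 + H) / (M : ℤ)).toNat = ((b.1 + H) / (M : ℤ)).toNat := hab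
      omega
    have hdvd : (M : ℤ) ∣ a.1 - b.1 := by
      have h1 : (a.1 - b.1) * (x0 : ℤ) ^ d = (b.2 - a.2) * (x1 : ℤ) ^ d := by linarith
      have h2 : (M : ℤ) ∣ (x1 : ℤ) ^ d := by
        rw [hM]
        push_cast
        exact pow_dvd_pow_of_dvd (by exact_mod_cast hx1) d
      have h3 : (M : ℤ) ∣ (a.1 - b.1) * (x0 : ℤ) ^ d := by
        rw [h1]
        exact dvd_mul_of_dvd_right h2 _
      have h4 : IsCoprime (M : ℤ) ((x0 : ℤ) ^ d) := by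
        rw [hM]
        push_cast
        exact (Nat.isCoprime_iff_coprime.2 hcop).pow
      exact h4.dvd_of_dvd_mul_right h3
    have hmod : (a.1 + H) % (M : ℤ) = (b.1 + H) % (M : ℤ) := by
      apply Int.emod_emod_of_dvd _ (dvd_refl _) |>.symm.trans _
      have : (a.1 + H) ≡ (b.1 + H) [ZMOD (M : ℤ)] := by
        rw [Int.modEq_comm, Int.modEq_iff_dvd]
        have h5 : a.1 + H - (b.1 + H) = a.1 - b.1 := by ring
        rw [h5]
        exact hdvd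
      rw [this]
      exact Int.emod_emod_of_dvd _ (dvd_refl _)
    have h1 : a.1 = b.1 := by
      have e1 := Int.mul_ediv_add_emod (a.1 + H) (M : ℤ)
      have e2 := Int.mul_ediv_add_emod (b.1 + H) (M : ℤ)
      rw [hq, hmod, e2] at e1
      linarith
    have h2 : a.2 = b.2 := by
      rw [h1] at ha3
      have h3 : (a.2 - b.2) * (x1 : ℤ) ^ d = 0 := by linarith
      rcases mul_eq_zero.1 h3 with h4 | h4
      · linarith
      · exact absurd h4 (by positivity)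
    exact Prod.ext h1 h2

private theorem quad_count (H d l : ℕ) (x : Fin 4 → ℕ) (hl : 1 ≤ l) (hx1 : l ∣ x 1)
    (hx1p : 0 < x 1) (hcop : Nat.Coprime l (x 0)) :
    (((Fintype.piFinset fun _ : Fin 4 => Ioo (-(H : ℤ)) H)).filter
      fun a : Fin 4 → ℤ => ∑ k, a k * (x k : ℤ) ^ d = 0).card ≤
      (2 * H / l ^ d + 1) * (2 * H) ^ 2 := by
  classical
  set A := ((Fintype.piFinset fun _ : Fin 4 => Ioo (-(H : ℤ)) H)).filter
      fun a : Fin 4 → ℤ => ∑ k, a k * (x k : ℤ) ^ d = 0 with hA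
  have himg : (A.image fun a : Fin 4 → ℤ => (a 2, a 3)).card ≤ (2 * H) ^ 2 := by
    have hsub : (A.image fun a : Fin 4 → ℤ => (a 2, a 3)) ⊆
        (Ioo (-(H : ℤ)) H) ×ˢ (Ioo (-(H : ℤ)) H) := by
      intro p hp
      obtain ⟨a, ha, rfl⟩ := Finset.mem_image.1 hp
      have h1 := (Fintype.mem_piFinset.1 (Finset.mem_filter.1 ha).1)
      exact Finset.mem_product.2 ⟨h1 2, h1 3⟩
    refine (Finset.card_le_card hsub).trans ?_
    rw [Finset.card_product, Int.card_Ioo, pow_two]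
    have : ((H : ℤ) - (-(H : ℤ)) - 1).toNat ≤ 2 * H := by omega
    exact Nat.mul_le_mul this this
  refine (Finset.card_le_mul_card_image A (2 * H / l ^ d + 1) ?_).trans
    (Nat.mul_le_mul_left _ himg)
  intro p _
  refine le_trans ?_ (pair_count H d (x 0) (x 1) l hl hx1 hx1p hcop
    (-(p.1 * (x 2 : ℤ) ^ d + p.2 * (x 3 : ℤ) ^ d)))
  refine Finset.card_le_card_of_injOn (fun a : Fin 4 → ℤ => (a 0, a 1)) ?_ ?_
  · intro a ha
    simp only [Finset.coe_filter, Set.mem_ofPred_eq, hA, Finset.mem_filter,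
      Fintype.mem_piFinset] at ha
    obtain ⟨⟨ha1, ha2⟩, ha3⟩ := ha
    simp only [Finset.coe_filter, Set.mem_ofPred_eq, Finset.mem_product]
    refine ⟨⟨ha1 0, ha1 1⟩, ?_⟩
    rw [Fin.sum_univ_four] at ha2
    have e2 : p.1 = a 2 := by rw [← ha3]
    have e3 : p.2 = a 3 := by rw [← ha3]
    rw [e2, e3]
    linarith
  · intro a ha b hb hab
    simp only [Finset.coe_filter, Set.mem_ofPred_eq] at ha hb
    have h0 : a 0 = b 0 := congrArg Prod.fst hab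
    have h1 : a 1 = b 1 := congrArg Prod.snd hab
    have h23 : (a 2, a 3) = (b 2, b 3) := ha.2.trans hb.2.symm
    have h2 : a 2 = b 2 := congrArg Prod.fst h23
    have h3 : a 3 = b 3 := congrArg Prod.snd h23
    funext j
    fin_cases j
    · exact h0
    · exact h1
    · exact h2
    · exact h3

private theorem Z1_card {d s m Mx E : ℕ} (S : Setup d s m Mx E) (hMx : m < Mx) (i : Fin s) :
    (S.Z1 i).card ≤ S.T ^ 2 * S.L := by
  classical
  have hsub : S.Z1 i ⊆ ((S.I ×ˢ S.I) ×ˢ S.PS i).image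
      fun w : (ℕ × ℕ) × ℕ => (w.1.1 * w.2, w.1.2 * w.2) := by
    intro z hz
    obtain ⟨t, t', l, ht, ht', hl, rfl⟩ := (S.Z1_mem hMx i z).1 hz
    exact Finset.mem_image.2 ⟨((t, t'), l), by simp [ht, ht', hl], rfl⟩
  have hI : S.I.card ≤ S.T := by
    have h1 : S.I ⊆ Icc 1 (S.R ^ m) := Finset.filter_subset _ _
    have h2 := Finset.card_le_card h1
    rw [Nat.card_Icc] at h2
    exact h2
  have hL : S.R ^ (Mx - 1) ≤ S.L := by
    have hR := S.hR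
    exact Nat.pow_le_pow_right (by omega) (Nat.sub_le _ _)
  calc (S.Z1 i).card ≤ _ := Finset.card_le_card hsub
    _ ≤ ((S.I ×ˢ S.I) ×ˢ S.PS i).card := Finset.card_image_le
    _ = S.I.card * S.I.card * (S.PS i).card := by rw [Finset.card_product, Finset.card_product]
    _ ≤ S.T * S.T * S.L := by
        rw [S.hcard i]
        exact Nat.mul_le_mul (Nat.mul_le_mul hI hI) hL
    _ = S.T ^ 2 * S.L := by ring

theorem count_type1 (d s m Mx E : ℕ) (hd : 4 ≤ d) (hm : 1 ≤ m) (hMx : m < Mx) :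
    ∃ C : ℝ, 0 < C ∧ ∀ (S : Setup d s m Mx E) (k : Fin 4 → Fin s), Function.Injective k →
    count4 S.H d (fun j => S.Z1 (k j)) ≤ C * (S.R : ℝ) ^ (cM d * m) * (S.H : ℝ) ^ 2 * (S.L : ℝ) ^ 4 := by
  classical
  refine ⟨4 * (32 * 2 ^ ((m + Mx) * d) * 4 ^ d + 1), by positivity, ?_⟩
  intro S k hk
  have hR := S.hR
  have hRpos : 0 < S.R := by omega
  have hL1 : 0 < S.L := Nat.pow_pos hRpos
  have hT1 : 1 ≤ S.T := Nat.one_le_pow _ _ hRpos
  have hTL : S.T < S.L := S.T_lt_L hMx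
  -- the bound for each z
  have hz : ∀ z ∈ Fintype.piFinset (fun j => S.Z1 (k j)),
      ((((Fintype.piFinset fun _ : Fin 4 => Ioo (-(S.H : ℤ)) S.H)).filter
        fun a : Fin 4 → ℤ => ∑ k, a k * ((z k).1 : ℤ) ^ d = 0 ∧
          ∑ k, a k * ((z k).2 : ℤ) ^ d = 0).card : ℝ) ≤
      (32 * 2 ^ ((m + Mx) * d) * 4 ^ d + 1) * (S.T : ℝ) ^ d * (4 * (S.H : ℝ) ^ 2) := by
    intro z hz
    rw [Fintype.mem_piFinset] at hz
    obtain ⟨t0, t0', l0, ht0, -, hl0, hz0⟩ := (S.Z1_mem hMx _ _).1 (hz 0)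
    obtain ⟨t1, t1', l1, ht1, -, hl1, hz1⟩ := (S.Z1_mem hMx _ _).1 (hz 1)
    obtain ⟨hl0p, hl0L, -⟩ := S.hPS _ l0 hl0
    obtain ⟨hl1p, hl1L, -⟩ := S.hPS _ l1 hl1
    have hl1L' : S.L < l1 := hl1L
    obtain ⟨ht0a, ht0b, -⟩ := (S.I_mem t0).1 ht0
    obtain ⟨ht1a, ht1b, -⟩ := (S.I_mem t1).1 ht1
    have hne : l1 ≠ l0 := by
      intro h
      have hk01 : k 0 ≠ k 1 := fun h => by simpa using hk h
      have := S.hdisj _ _ hk01
      exact (Finset.disjoint_left.1 this) hl0 (h ▸ hl1)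
    have hcop : Nat.Coprime l1 ((z 0).1) := by
      rw [hz0]
      refine Nat.Coprime.mul_right ?_ ?_
      · exact Nat.coprime_of_lt_prime (Nat.one_le_iff_ne_zero.1 ht0a)
          (lt_of_le_of_lt ht0b (hTL.trans hl1L')) hl1p
      · exact (Nat.coprime_primes hl1p hl0p).2 hne
    have hq := quad_count S.H d l1 (fun j => (z j).1) (by omega)
      (by simp only [hz1]; exact dvd_mul_left _ _)
      (by simp only [hz1]; exact Nat.mul_pos (by omega) hl1p.pos) hcop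
    have h1 : (((Fintype.piFinset fun _ : Fin 4 => Ioo (-(S.H : ℤ)) S.H)).filter
        fun a : Fin 4 → ℤ => ∑ k, a k * ((z k).1 : ℤ) ^ d = 0 ∧
          ∑ k, a k * ((z k).2 : ℤ) ^ d = 0).card ≤ (2 * S.H / l1 ^ d + 1) * (2 * S.H) ^ 2 := by
      refine le_trans (Finset.card_le_card ?_) hq
      intro a ha
      rw [Finset.mem_filter] at ha ⊢
      exact ⟨ha.1, ha.2.1⟩
    have h2 : ((2 * S.H / l1 ^ d : ℕ) : ℝ) ≤ 32 * 2 ^ ((m + Mx) * d) * 4 ^ d * (S.T : ℝ) ^ d := by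
      have e1 : 2 * S.H / l1 ^ d ≤ 2 * S.H / S.L ^ d :=
        Nat.div_le_div_left (Nat.pow_le_pow_left hl1L'.le d) (by positivity)
      have e2 : ((2 * S.H / S.L ^ d : ℕ) : ℝ) ≤ ((2 * S.H : ℕ) : ℝ) / ((S.L ^ d : ℕ) : ℝ) :=
        Nat.cast_div_le
      have e3 : (S.H : ℝ) ≤ 16 * 2 ^ ((m + Mx) * d) * (4 * (S.L : ℝ) * S.T) ^ d := by
        have := S.hH2
        have h' : ((S.H : ℕ) : ℝ) ≤
            ((16 * 2 ^ ((m + Mx) * d) * (4 * S.R ^ Mx * S.R ^ m) ^ d : ℕ) : ℝ) := by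
          exact_mod_cast this
        simpa [Setup.L, Setup.T] using h'
      have hLd : (0 : ℝ) < (S.L : ℝ) ^ d := by positivity
      calc ((2 * S.H / l1 ^ d : ℕ) : ℝ) ≤ ((2 * S.H / S.L ^ d : ℕ) : ℝ) := by exact_mod_cast e1
        _ ≤ ((2 * S.H : ℕ) : ℝ) / ((S.L ^ d : ℕ) : ℝ) := e2
        _ ≤ 32 * 2 ^ ((m + Mx) * d) * 4 ^ d * (S.T : ℝ) ^ d := by
            push_cast
            rw [div_le_iff₀ hLd]
            calc 2 * (S.H : ℝ) ≤ 2 * (16 * 2 ^ ((m + Mx) * d) * (4 * (S.L : ℝ) * S.T) ^ d) := by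
                  linarith
              _ = 32 * 2 ^ ((m + Mx) * d) * 4 ^ d * (S.T : ℝ) ^ d * (S.L : ℝ) ^ d := by
                  rw [mul_pow, mul_pow]
                  ring
    have hTd : (1 : ℝ) ≤ (S.T : ℝ) ^ d := one_le_pow₀ (by exact_mod_cast hT1)
    calc ((((Fintype.piFinset fun _ : Fin 4 => Ioo (-(S.H : ℤ)) S.H)).filter
        fun a : Fin 4 → ℤ => ∑ k, a k * ((z k).1 : ℤ) ^ d = 0 ∧
          ∑ k, a k * ((z k).2 : ℤ) ^ d = 0).card : ℝ)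
        ≤ (((2 * S.H / l1 ^ d + 1) * (2 * S.H) ^ 2 : ℕ) : ℝ) := by exact_mod_cast h1
      _ = (((2 * S.H / l1 ^ d : ℕ) : ℝ) + 1) * (2 * (S.H : ℝ)) ^ 2 := by push_cast; ring
      _ ≤ (32 * 2 ^ ((m + Mx) * d) * 4 ^ d * (S.T : ℝ) ^ d + (S.T : ℝ) ^ d) *
          (2 * (S.H : ℝ)) ^ 2 := by gcongr
      _ = _ := by ring
  have hcardZ : ((Fintype.piFinset (fun j => S.Z1 (k j))).card : ℝ) ≤
      (S.T : ℝ) ^ 8 * (S.L : ℝ) ^ 4 := by
    rw [Fintype.card_piFinset]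
    have h1 : ∏ j, (S.Z1 (k j)).card ≤ ∏ _j : Fin 4, S.T ^ 2 * S.L :=
      Finset.prod_le_prod' fun j _ => Z1_card S hMx (k j)
    rw [Finset.prod_const, Finset.card_univ, Fintype.card_fin] at h1
    calc ((∏ j, (S.Z1 (k j)).card : ℕ) : ℝ) ≤ (((S.T ^ 2 * S.L) ^ 4 : ℕ) : ℝ) := by
          exact_mod_cast h1
      _ = _ := by push_cast; ring
  have hTpow : (S.T : ℝ) ^ (8 + d) ≤ (S.R : ℝ) ^ (cM d * m) := by
    have h1 : (S.T : ℝ) = (S.R : ℝ) ^ m := by simp [Setup.T]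
    rw [h1, ← pow_mul]
    refine pow_le_pow_right₀ (by exact_mod_cast hRpos) ?_
    unfold cM
    nlinarith
  unfold count4
  calc ∑ z ∈ Fintype.piFinset (fun j => S.Z1 (k j)),
        ((((Fintype.piFinset fun _ : Fin 4 => Ioo (-(S.H : ℤ)) S.H)).filter
          fun a : Fin 4 → ℤ => ∑ k, a k * ((z k).1 : ℤ) ^ d = 0 ∧
            ∑ k, a k * ((z k).2 : ℤ) ^ d = 0).card : ℝ)
      ≤ ∑ _z ∈ Fintype.piFinset (fun j => S.Z1 (k j)),
        (32 * 2 ^ ((m + Mx) * d) * 4 ^ d + 1) * (S.T : ℝ) ^ d * (4 * (S.H : ℝ) ^ 2) :=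
        Finset.sum_le_sum hz
    _ = ((Fintype.piFinset (fun j => S.Z1 (k j))).card : ℝ) *
        ((32 * 2 ^ ((m + Mx) * d) * 4 ^ d + 1) * (S.T : ℝ) ^ d * (4 * (S.H : ℝ) ^ 2)) := by
        rw [Finset.sum_const, nsmul_eq_mul]
    _ ≤ ((S.T : ℝ) ^ 8 * (S.L : ℝ) ^ 4) *
        ((32 * 2 ^ ((m + Mx) * d) * 4 ^ d + 1) * (S.T : ℝ) ^ d * (4 * (S.H : ℝ) ^ 2)) := by
        gcongr
    _ = 4 * (32 * 2 ^ ((m + Mx) * d) * 4 ^ d + 1) * (S.T : ℝ) ^ (8 + d) * (S.H : ℝ) ^ 2 *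
        (S.L : ℝ) ^ 4 := by ring
    _ ≤ 4 * (32 * 2 ^ ((m + Mx) * d) * 4 ^ d + 1) * (S.R : ℝ) ^ (cM d * m) * (S.H : ℝ) ^ 2 *
        (S.L : ℝ) ^ 4 := by gcongr

end Pool.Agent.Lib.MP_e426f4_ag.DG
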