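import Pool.Agent.Lib.MP_e426f4_ag.DG.Defs
import Pool.Agent.Lib.MP_e426f4_ag.DG.Facts1
import Pool.Agent.Lib.MP_e426f4_ag.DG.VDefs
import Pool.Agent.Lib.MP_e426f4_ag.DG.FFb
import Pool.Agent.Lib.MP_e426f4_ag.DG.Lossy
import Pool.Agent.Lib.MP_e426f4_ag.DG.Type0
import Pool.Agent.Lib.MP_e426f4_ag.DG.Type1
import Pool.Agent.Lib.MP_e426f4_ag.DG.Seven
import Pool.Agent.Lib.MP_e426f4_ag.DG.Psi
import Pool.Agent.Lib.MP_e426f4_ag.DG.L4a

/-!
# CombMin: both variables minor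
Let `C1` be the constant of `lossy`, `U1 = 2 C1 H R^2 B`. For minor b: `FF_i(b,b) <= C1 H R^2 (B + B (B V)) <= U1`; `FF_cs`: `FF_i(b,b') <= U1` for b, b' both minor.
`FF_i = FZ(Z0 i) + FZ(Z1 i)` (`FF_split`). Apply `seven_four` to the indices i = 0..6 of Fin s (s >= 9), bound the indices 7..2d by `U1` and the indices `> 2d` by `8 H XX^2`
(`FZ_le_card`, `X_card`, `n_facts`). `psi <= 2`. Extend the sum over b,b' to all of ZMod P (terms are >= 0) and use `L4` with `count_type0`, `count_type1`.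
-/

set_option autoImplicit false

namespace Pool.Agent.Lib.MP_e426f4_ag.DG

open Finset

private theorem cm_arith (e t m : ℕ) (hm : 1 ≤ m) (C1 K R B H L XX : ℝ) (hC1 : 1 ≤ C1)
    (hK : 0 ≤ K) (hR : 1 ≤ R) (hB : 1 ≤ B) (hH : 0 < H) (hL : 0 ≤ L) (hLB : L ≤ B)
    (hX : B / (8 * R) ≤ XX) :
    K * ((2 * C1 * H * R ^ 2 * B) ^ (2 * e + 5) * (8 * H * XX ^ 2) ^ t *
      (R ^ (cM (e + 4) * m) * H ^ 2 * L ^ 4)) ≤
    (K * (2 * C1) ^ (2 * e + 5) * 8 ^ (2 * e + 9)) *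
      R ^ (cE (e + 4) (7 + ((2 * e + 2) + t)) * m) / B *
      ((8 * H * XX ^ 2) ^ (7 + ((2 * e + 2) + t)) / (H * B ^ (e + 4)) ^ 2) := by
  have hR0 : 0 < R := by linarith
  have hB0 : 0 < B := by linarith
  have hX0 : 0 < XX := lt_of_lt_of_le (by positivity) hX
  set G : ℝ := 8 * H * XX ^ 2 with hG
  have hG0 : 0 < G := by positivity
  have hGlow : H * B ^ 2 / (8 * R ^ 2) ≤ G := by
    have h1 : (B / (8 * R)) ^ 2 ≤ XX ^ 2 := pow_le_pow_left₀ (by positivity) hX 2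
    calc H * B ^ 2 / (8 * R ^ 2) = 8 * H * (B / (8 * R)) ^ 2 := by
          field_simp
      _ ≤ G := by
          rw [hG]
          exact mul_le_mul_of_nonneg_left h1 (by positivity)
  have hGp : (H * B ^ 2 / (8 * R ^ 2)) ^ (2 * e + 9) ≤ G ^ (2 * e + 9) :=
    pow_le_pow_left₀ (by positivity) hGlow _
  have hexp : cM (e + 4) * m + (8 * e + 28) ≤ cE (e + 4) (7 + ((2 * e + 2) + t)) * m := by
    unfold cM cE
    have h1 : 8 * e + 28 ≤ (8 * e + 28) * m := Nat.le_mul_of_pos_right _ hm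
    calc (20 * (e + 4) + 40) * m + (8 * e + 28)
        ≤ (20 * (e + 4) + 40) * m + (8 * e + 28) * m := Nat.add_le_add_left h1 _
      _ = ((20 * (e + 4) + 40) + (8 * e + 28)) * m := (Nat.add_mul _ _ _).symm
      _ ≤ _ := Nat.mul_le_mul_right _ (by omega)
  have hRp : R ^ (cM (e + 4) * m + (8 * e + 28)) ≤ R ^ (cE (e + 4) (7 + ((2 * e + 2) + t)) * m) :=
    pow_le_pow_right₀ hR hexp
  have hL4 : L ^ 4 ≤ B ^ 4 := pow_le_pow_left₀ hL hLB 4
  set a : ℕ := cM (e + 4) * m with ha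
  set b : ℕ := cE (e + 4) (7 + ((2 * e + 2) + t)) * m with hb
  have hG' : G ^ (7 + ((2 * e + 2) + t)) = G ^ (2 * e + 9) * G ^ t := by
    rw [← pow_add]
    congr 1
    omega
  rw [hG']
  have key : (2 * C1 * H * R ^ 2 * B) ^ (2 * e + 5) * (R ^ a * H ^ 2 * L ^ 4) ≤
      ((2 * C1) ^ (2 * e + 5) * 8 ^ (2 * e + 9)) * R ^ b / B *
        (G ^ (2 * e + 9) / (H * B ^ (e + 4)) ^ 2) := by
    calc (2 * C1 * H * R ^ 2 * B) ^ (2 * e + 5) * (R ^ a * H ^ 2 * L ^ 4)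
        ≤ (2 * C1 * H * R ^ 2 * B) ^ (2 * e + 5) * (R ^ a * H ^ 2 * B ^ 4) := by
          apply mul_le_mul_of_nonneg_left _ (by positivity)
          exact mul_le_mul_of_nonneg_left hL4 (by positivity)
      _ = ((2 * C1) ^ (2 * e + 5) * 8 ^ (2 * e + 9)) * R ^ (a + (8 * e + 28)) / B *
          ((H * B ^ 2 / (8 * R ^ 2)) ^ (2 * e + 9) / (H * B ^ (e + 4)) ^ 2) := by
          rw [div_pow, mul_pow, mul_pow, mul_pow, mul_pow, mul_pow, mul_pow, mul_pow]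
          field_simp
          ring
      _ ≤ ((2 * C1) ^ (2 * e + 5) * 8 ^ (2 * e + 9)) * R ^ b / B *
          (G ^ (2 * e + 9) / (H * B ^ (e + 4)) ^ 2) := by
          apply mul_le_mul
          · apply div_le_div_of_nonneg_right _ hB0.le
            exact mul_le_mul_of_nonneg_left hRp (by positivity)
          · exact div_le_div_of_nonneg_right hGp (by positivity)
          · positivity
          · positivity
  calc K * ((2 * C1 * H * R ^ 2 * B) ^ (2 * e + 5) * G ^ t * (R ^ a * H ^ 2 * L ^ 4))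
      = (K * G ^ t) * ((2 * C1 * H * R ^ 2 * B) ^ (2 * e + 5) * (R ^ a * H ^ 2 * L ^ 4)) := by ring
    _ ≤ (K * G ^ t) * (((2 * C1) ^ (2 * e + 5) * 8 ^ (2 * e + 9)) * R ^ b / B *
        (G ^ (2 * e + 9) / (H * B ^ (e + 4)) ^ 2)) :=
        mul_le_mul_of_nonneg_left key (by positivity)
    _ = _ := by ring

private theorem cm_FF_le {d s m Mx E : ℕ} (hm : 1 ≤ m) (hMx : m < Mx) (S : Setup d s m Mx E)
    (i : Fin s) (b b' : ZMod S.P) : FF S.P S.n d (S.X i) b b' ≤ 8 * S.H * S.XX ^ 2 := by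
  obtain ⟨hn0, hnP, -, hPn, -, -, -⟩ := S.n_facts
  have h1 := FZ_le_card (P := S.P) S.n d hn0 hnP (S.X i ×ˢ S.X i) b b'
  rw [Finset.card_product, Nat.cast_mul, S.X_card hMx hm] at h1
  refine h1.trans ?_
  rw [← pow_two]
  exact mul_le_mul_of_nonneg_right hPn (by positivity)

private theorem cm_minor {d s m Mx E : ℕ} (S : Setup d s m Mx E)
    (A : Arc S.P (4 * S.B ^ d)) (C1 : ℝ) (hC1 : 1 ≤ C1)
    (hl : ∀ (b : ZMod S.P) (i : Fin s), FF S.P S.n d (S.X i) b b ≤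
      C1 * S.H * (S.R : ℝ) ^ 2 * (S.B + (S.B : ℝ) ^ 2 * S.V A b)) (i : Fin s) (b b' : ZMod S.P)
    (hb : S.Minor A b) (hb' : S.Minor A b') :
    FF S.P S.n d (S.X i) b b' ≤ 2 * C1 * S.H * (S.R : ℝ) ^ 2 * S.B := by
  have hU : 0 ≤ 2 * C1 * S.H * (S.R : ℝ) ^ 2 * S.B := by positivity
  have h1 : ∀ b : ZMod S.P, S.Minor A b →
      FF S.P S.n d (S.X i) b b ≤ 2 * C1 * S.H * (S.R : ℝ) ^ 2 * S.B := by
    intro b hb
    refine (hl b i).trans ?_
    have h2 : (S.B : ℝ) ^ 2 * S.V A b ≤ S.B := by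
      have h3 : (S.B : ℝ) * ((S.B : ℝ) * S.V A b) ≤ S.B * 1 :=
        mul_le_mul_of_nonneg_left hb (Nat.cast_nonneg _)
      calc (S.B : ℝ) ^ 2 * S.V A b = (S.B : ℝ) * ((S.B : ℝ) * S.V A b) := by ring
        _ ≤ S.B * 1 := h3
        _ = S.B := mul_one _
    calc C1 * S.H * (S.R : ℝ) ^ 2 * (S.B + (S.B : ℝ) ^ 2 * S.V A b)
        ≤ C1 * S.H * (S.R : ℝ) ^ 2 * (S.B + S.B) :=
          mul_le_mul_of_nonneg_left (by linarith) (by positivity)
      _ = _ := by ring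
  have h2 := FF_cs (P := S.P) S.n d S.n_facts.1 (S.X i) b b'
  have h3 : FF S.P S.n d (S.X i) b b * FF S.P S.n d (S.X i) b' b' ≤
      (2 * C1 * S.H * (S.R : ℝ) ^ 2 * S.B) ^ 2 := by
    rw [pow_two]
    exact mul_le_mul (h1 b hb) (h1 b' hb') (FZ_nonneg _ _ _ _ _) hU
  exact le_of_sq_le_sq (h2.trans h3) hU

open Classical in
/-- the sum over injections -/
private noncomputable def cmPhi {d m Mx E r : ℕ} (S : Setup d (7 + r) m Mx E)
    (b b' : ZMod S.P) : ℝ :=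
  ∑ k ∈ (univ : Finset (Fin 4 → Fin 7)).filter Function.Injective,
    (∏ j, FZ S.P S.n d (S.Z0 (Fin.castAdd r (k j))) b b' +
      ∏ j, FZ S.P S.n d (S.Z1 (Fin.castAdd r (k j))) b b')

private theorem cmPhi_nonneg {d m Mx E r : ℕ} (S : Setup d (7 + r) m Mx E)
    (b b' : ZMod S.P) : 0 ≤ cmPhi S b b' := by
  unfold cmPhi
  refine Finset.sum_nonneg fun k _ => add_nonneg ?_ ?_ <;>
  exact Finset.prod_nonneg fun j _ => FZ_nonneg _ _ _ _ _

private theorem cm_prod {e t m Mx E : ℕ} (hm : 1 ≤ m) (hMx : m < Mx)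
    (S : Setup (e + 4) (7 + ((2 * e + 2) + t)) m Mx E) (b b' : ZMod S.P) (U : ℝ)
    (hU0 : 0 ≤ U) (hU : ∀ i, FF S.P S.n (e + 4) (S.X i) b b' ≤ U) :
    ∏ i, FF S.P S.n (e + 4) (S.X i) b b' ≤
      16 * (U ^ (2 * e + 5) * (8 * S.H * S.XX ^ 2) ^ t) * cmPhi S b b' := by
  have hnn : ∀ i, 0 ≤ FF S.P S.n (e + 4) (S.X i) b b' := fun i => FZ_nonneg _ _ _ _ _
  rw [Fin.prod_univ_add, Fin.prod_univ_add (a := 2 * e + 2)]
  have h1 : ∏ i : Fin 7, FF S.P S.n (e + 4) (S.X (Fin.castAdd ((2 * e + 2) + t) i)) b b' ≤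
      16 * U ^ 3 * cmPhi S b b' := by
    have h := seven_four
      (fun i : Fin 7 => FZ S.P S.n (e + 4) (S.Z0 (Fin.castAdd ((2 * e + 2) + t) i)) b b')
      (fun i : Fin 7 => FZ S.P S.n (e + 4) (S.Z1 (Fin.castAdd ((2 * e + 2) + t) i)) b b')
      (fun i => FZ_nonneg _ _ _ _ _) (fun i => FZ_nonneg _ _ _ _ _) U
      (fun i => by
        have := hU (Fin.castAdd ((2 * e + 2) + t) i)
        rwa [FF_split] at this)
    have h2 : ∏ i : Fin 7, FF S.P S.n (e + 4) (S.X (Fin.castAdd ((2 * e + 2) + t) i)) b b' =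
        ∏ i : Fin 7, (FZ S.P S.n (e + 4) (S.Z0 (Fin.castAdd ((2 * e + 2) + t) i)) b b' +
          FZ S.P S.n (e + 4) (S.Z1 (Fin.castAdd ((2 * e + 2) + t) i)) b b') :=
      Finset.prod_congr rfl fun i _ => FF_split S _ b b'
    rw [h2]
    exact h
  have h2 : ∏ i : Fin (2 * e + 2), FF S.P S.n (e + 4)
      (S.X (Fin.natAdd 7 (Fin.castAdd t i))) b b' ≤ U ^ (2 * e + 2) := by
    refine (Finset.prod_le_prod (fun i _ => hnn _) (fun i _ => hU _)).trans ?_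
    rw [Finset.prod_const, Finset.card_univ, Fintype.card_fin]
  have h3 : ∏ i : Fin t, FF S.P S.n (e + 4)
      (S.X (Fin.natAdd 7 (Fin.natAdd (2 * e + 2) i))) b b' ≤ (8 * S.H * S.XX ^ 2) ^ t := by
    refine (Finset.prod_le_prod (fun i _ => hnn _) (fun i _ => cm_FF_le hm hMx S _ b b')).trans ?_
    rw [Finset.prod_const, Finset.card_univ, Fintype.card_fin]
  have hP := cmPhi_nonneg S b b'
  have hG : 0 ≤ (8 * (S.H : ℝ) * S.XX ^ 2) ^ t := by positivity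
  have h23 := mul_le_mul h2 h3 (Finset.prod_nonneg fun i _ => hnn _) (by positivity)
  refine (mul_le_mul h1 h23 (mul_nonneg (Finset.prod_nonneg fun i _ => hnn _)
    (Finset.prod_nonneg fun i _ => hnn _)) (by positivity)).trans (le_of_eq ?_)
  ring

open Classical in
private theorem cm_sumPhi {d m Mx E r : ℕ} (hE : 1 ≤ E)
    (S : Setup d (7 + r) m Mx E) (Ca Cb : ℝ)
    (hCa : ∀ k : Fin 4 → Fin (7 + r), Function.Injective k →
      count4 S.H d (fun j => S.Z0 (k j)) ≤ Ca * (S.R : ℝ) ^ (cM d * m) * (S.H : ℝ) ^ 2 * (S.L : ℝ) ^ 4)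
    (hCb : ∀ k : Fin 4 → Fin (7 + r), Function.Injective k →
      count4 S.H d (fun j => S.Z1 (k j)) ≤ Cb * (S.R : ℝ) ^ (cM d * m) * (S.H : ℝ) ^ 2 * (S.L : ℝ) ^ 4)
    (h0 : 0 ≤ Ca + Cb) :
    (1 / (S.P : ℝ) ^ 2) * ∑ b : ZMod S.P, ∑ b' : ZMod S.P, cmPhi S b b' ≤
      7 ^ 4 * 16 ^ 4 * (Ca + Cb) * ((S.R : ℝ) ^ (cM d * m) * (S.H : ℝ) ^ 2 * (S.L : ℝ) ^ 4) := by
  obtain ⟨hn0, hnP, hnH, hPn, hPB, -, hH⟩ := S.n_facts
  have hmem0 : ∀ i : Fin (7 + r), ∀ z ∈ S.Z0 i, z.1 ≤ S.B ∧ z.2 ≤ S.B := by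
    intro i z hz
    have h1 := (Finset.mem_filter.1 hz).1
    rw [Finset.mem_product] at h1
    exact ⟨(S.X_bounds hE i _ h1.1).2.1, (S.X_bounds hE i _ h1.2).2.1⟩
  have hmem1 : ∀ i : Fin (7 + r), ∀ z ∈ S.Z1 i, z.1 ≤ S.B ∧ z.2 ≤ S.B := by
    intro i z hz
    have h1 := (Finset.mem_filter.1 hz).1
    rw [Finset.mem_product] at h1
    exact ⟨(S.X_bounds hE i _ h1.1).2.1, (S.X_bounds hE i _ h1.2).2.1⟩
  have hswap : ∑ b : ZMod S.P, ∑ b' : ZMod S.P, cmPhi S b b' =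
      ∑ k ∈ (univ : Finset (Fin 4 → Fin 7)).filter Function.Injective,
        (∑ b : ZMod S.P, ∑ b' : ZMod S.P, ∏ j, FZ S.P S.n d (S.Z0 (Fin.castAdd r (k j))) b b' +
          ∑ b : ZMod S.P, ∑ b' : ZMod S.P, ∏ j, FZ S.P S.n d (S.Z1 (Fin.castAdd r (k j))) b b') := by
    unfold cmPhi
    have h1 : ∀ b : ZMod S.P, ∑ b' : ZMod S.P,
        ∑ k ∈ (univ : Finset (Fin 4 → Fin 7)).filter Function.Injective,
          (∏ j, FZ S.P S.n d (S.Z0 (Fin.castAdd r (k j))) b b' +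
            ∏ j, FZ S.P S.n d (S.Z1 (Fin.castAdd r (k j))) b b') =
        ∑ k ∈ (univ : Finset (Fin 4 → Fin 7)).filter Function.Injective,
          ∑ b' : ZMod S.P, (∏ j, FZ S.P S.n d (S.Z0 (Fin.castAdd r (k j))) b b' +
            ∏ j, FZ S.P S.n d (S.Z1 (Fin.castAdd r (k j))) b b') := fun b => Finset.sum_comm
    rw [Finset.sum_congr rfl fun b _ => h1 b, Finset.sum_comm]
    refine Finset.sum_congr rfl fun k _ => ?_
    rw [← Finset.sum_add_distrib]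
    exact Finset.sum_congr rfl fun b _ => Finset.sum_add_distrib
  rw [hswap, Finset.mul_sum]
  set V : ℝ := (S.R : ℝ) ^ (cM d * m) * (S.H : ℝ) ^ 2 * (S.L : ℝ) ^ 4 with hV
  have hV0 : 0 ≤ V := by positivity
  have hterm : ∀ k ∈ (univ : Finset (Fin 4 → Fin 7)).filter Function.Injective,
      (1 / (S.P : ℝ) ^ 2) *
        (∑ b : ZMod S.P, ∑ b' : ZMod S.P, ∏ j, FZ S.P S.n d (S.Z0 (Fin.castAdd r (k j))) b b' +
          ∑ b : ZMod S.P, ∑ b' : ZMod S.P, ∏ j, FZ S.P S.n d (S.Z1 (Fin.castAdd r (k j))) b b') ≤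
      16 ^ 4 * (Ca + Cb) * V := by
    intro k hk
    have hki : Function.Injective (fun j => Fin.castAdd r (k j)) :=
      (Fin.castAdd_injective 7 r).comp (Finset.mem_filter.1 hk).2
    have h1 := L4 (P := S.P) S.n d S.H S.B hH hn0 hnP hnH hPn hPB
      (fun j => S.Z0 (Fin.castAdd r (k j))) (fun j => hmem0 _)
    have h2 := L4 (P := S.P) S.n d S.H S.B hH hn0 hnP hnH hPn hPB
      (fun j => S.Z1 (Fin.castAdd r (k j))) (fun j => hmem1 _)
    have h3 := hCa _ hki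
    have h4 := hCb _ hki
    rw [mul_add]
    have h5 : 16 ^ 4 * count4 S.H d (fun j => S.Z0 (Fin.castAdd r (k j))) ≤ 16 ^ 4 * (Ca * V) := by
      refine mul_le_mul_of_nonneg_left (h3.trans (le_of_eq ?_)) (by norm_num)
      rw [hV]; ring
    have h6 : 16 ^ 4 * count4 S.H d (fun j => S.Z1 (Fin.castAdd r (k j))) ≤ 16 ^ 4 * (Cb * V) := by
      refine mul_le_mul_of_nonneg_left (h4.trans (le_of_eq ?_)) (by norm_num)
      rw [hV]; ring
    calc _ ≤ 16 ^ 4 * (Ca * V) + 16 ^ 4 * (Cb * V) := add_le_add (h1.trans h5) (h2.trans h6)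
      _ = _ := by ring
  refine (Finset.sum_le_card_nsmul _ _ _ hterm).trans ?_
  rw [nsmul_eq_mul]
  have hcard : (((univ : Finset (Fin 4 → Fin 7)).filter Function.Injective).card : ℝ) ≤ 7 ^ 4 := by
    have h1 : ((univ : Finset (Fin 4 → Fin 7)).filter Function.Injective).card ≤
        (univ : Finset (Fin 4 → Fin 7)).card := Finset.card_le_card (Finset.filter_subset _ _)
    rw [Finset.card_univ, Fintype.card_fun, Fintype.card_fin, Fintype.card_fin] at h1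
    exact_mod_cast h1
  calc (((univ : Finset (Fin 4 → Fin 7)).filter Function.Injective).card : ℝ) *
        (16 ^ 4 * (Ca + Cb) * V) ≤ 7 ^ 4 * (16 ^ 4 * (Ca + Cb) * V) :=
        mul_le_mul_of_nonneg_right hcard (by positivity)
    _ = _ := by ring

open Classical in
theorem comb_mm (d s m Mx E : ℕ) (hd : 4 ≤ d) (hs : 2 * d + 1 ≤ s) (hE : 2 ≤ E) (hm : 1 ≤ m)
    (hMx : m < Mx) : ∃ C : ℝ, 0 < C ∧ ∀ (S : Setup d s m Mx E) (A : Arc S.P (4 * S.B ^ d)) (W J : ℕ),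
    (1 / (S.P : ℝ) ^ 2) * ∑ b ∈ (univ : Finset (ZMod S.P)).filter (fun b => S.Minor A b),
      ∑ b' ∈ (univ : Finset (ZMod S.P)).filter (fun b' => S.Minor A b'),
        psi S.P W J b * psi S.P W J b' * ∏ i, FF S.P S.n d (S.X i) b b' ≤
      C * (S.R : ℝ) ^ (cE d s * m) / S.B * S.main := by
  obtain ⟨e, rfl⟩ : ∃ e, d = e + 4 := ⟨d - 4, by omega⟩
  obtain ⟨t, rfl⟩ : ∃ t, s = 7 + ((2 * e + 2) + t) := ⟨s - (2 * e + 9), by omega⟩
  obtain ⟨C1, hC1, hlossy⟩ := lossy (e + 4) (7 + ((2 * e + 2) + t)) E hd hE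
  obtain ⟨Ca, hCa, hca⟩ := count_type0 (e + 4) (7 + ((2 * e + 2) + t)) m Mx E hd hm hMx
  obtain ⟨Cb, hCb, hcb⟩ := count_type1 (e + 4) (7 + ((2 * e + 2) + t)) m Mx E hd hm hMx
  set K : ℝ := 4 * 16 * (7 ^ 4 * 16 ^ 4 * (Ca + Cb)) with hK
  have hK0 : 0 < K := by positivity
  refine ⟨K * (2 * C1) ^ (2 * e + 5) * 8 ^ (2 * e + 9), by positivity, fun S A W J => ?_⟩
  set U : ℝ := 2 * C1 * S.H * (S.R : ℝ) ^ 2 * S.B with hU
  set G : ℝ := 8 * S.H * S.XX ^ 2 with hG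
  have hU0 : 0 ≤ U := by positivity
  have hG0 : 0 ≤ G := by positivity
  have hP0 : 0 ≤ 1 / (S.P : ℝ) ^ 2 := by positivity
  -- pointwise
  have hpt : ∀ b b' : ZMod S.P, S.Minor A b → S.Minor A b' →
      psi S.P W J b * psi S.P W J b' * ∏ i, FF S.P S.n (e + 4) (S.X i) b b' ≤
        (4 * 16 * (U ^ (2 * e + 5) * G ^ t)) * cmPhi S b b' := by
    intro b b' hb hb'
    have h1 := cm_prod hm hMx S b b' U hU0 (fun i => cm_minor S A C1 hC1
      (fun b i => hlossy m Mx hm hMx S A b i) i b b' hb hb')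
    have h2 : psi S.P W J b * psi S.P W J b' ≤ 4 := by
      calc psi S.P W J b * psi S.P W J b' ≤ 2 * 2 :=
            mul_le_mul (psi_le_two W J b) (psi_le_two W J b') (psi_nonneg W J b') (by norm_num)
        _ = 4 := by norm_num
    have h3 : 0 ≤ ∏ i, FF S.P S.n (e + 4) (S.X i) b b' :=
      Finset.prod_nonneg fun i _ => FZ_nonneg _ _ _ _ _
    calc psi S.P W J b * psi S.P W J b' * ∏ i, FF S.P S.n (e + 4) (S.X i) b b'
        ≤ 4 * ∏ i, FF S.P S.n (e + 4) (S.X i) b b' := mul_le_mul_of_nonneg_right h2 h3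
      _ ≤ 4 * (16 * (U ^ (2 * e + 5) * G ^ t) * cmPhi S b b') :=
          mul_le_mul_of_nonneg_left h1 (by norm_num)
      _ = _ := by ring
  have hsum : ∑ b ∈ (univ : Finset (ZMod S.P)).filter (fun b => S.Minor A b),
      ∑ b' ∈ (univ : Finset (ZMod S.P)).filter (fun b' => S.Minor A b'),
        psi S.P W J b * psi S.P W J b' * ∏ i, FF S.P S.n (e + 4) (S.X i) b b' ≤
      (4 * 16 * (U ^ (2 * e + 5) * G ^ t)) * ∑ b : ZMod S.P, ∑ b' : ZMod S.P, cmPhi S b b' := by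
    rw [Finset.mul_sum]
    calc _ ≤ ∑ b ∈ (univ : Finset (ZMod S.P)).filter (fun b => S.Minor A b),
        (4 * 16 * (U ^ (2 * e + 5) * G ^ t)) * ∑ b' : ZMod S.P, cmPhi S b b' := by
          refine Finset.sum_le_sum fun b hb => ?_
          rw [Finset.mul_sum]
          calc _ ≤ ∑ b' ∈ (univ : Finset (ZMod S.P)).filter (fun b' => S.Minor A b'),
              (4 * 16 * (U ^ (2 * e + 5) * G ^ t)) * cmPhi S b b' :=
                Finset.sum_le_sum fun b' hb' =>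
                  hpt b b' (Finset.mem_filter.1 hb).2 (Finset.mem_filter.1 hb').2
            _ ≤ _ := Finset.sum_le_sum_of_subset_of_nonneg (Finset.filter_subset _ _)
                fun b' _ _ => mul_nonneg (by positivity) (cmPhi_nonneg S b b')
      _ ≤ _ := Finset.sum_le_sum_of_subset_of_nonneg (Finset.filter_subset _ _)
          fun b _ _ => mul_nonneg (by positivity)
            (Finset.sum_nonneg fun b' _ => cmPhi_nonneg S b b')
  have hPhi := cm_sumPhi (by omega) S Ca Cb (fun k hk => hca S k hk) (fun k hk => hcb S k hk)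
    (by linarith)
  have hB1 : (1 : ℝ) ≤ S.B := by exact_mod_cast S.B_pos
  have hR1 : (1 : ℝ) ≤ S.R := by
    have := S.hR
    have h1 : 1 ≤ S.R := by omega
    exact_mod_cast h1
  have hH0 : (0 : ℝ) < S.H := by exact_mod_cast S.n_facts.2.2.2.2.2.2
  have hLB : (S.L : ℝ) ≤ S.B := by
    have hT : 1 ≤ S.T := by
      unfold Setup.T
      exact Nat.one_le_pow _ _ (by have := S.hR; omega)
    have h1 : S.L ≤ S.B := by
      rw [S.B_eq]
      calc S.L = 1 * S.L * 1 := by ring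
        _ ≤ 4 * S.L * S.T := Nat.mul_le_mul (Nat.mul_le_mul_right _ (by norm_num)) hT
    exact_mod_cast h1
  have harith := cm_arith e t m hm C1 K S.R S.B S.H S.L S.XX hC1 hK0.le hR1 hB1 hH0
    (Nat.cast_nonneg _) hLB (S.XX_bounds hE (by omega)).1
  refine le_trans ?_ (harith.trans (le_of_eq ?_))
  · calc (1 / (S.P : ℝ) ^ 2) * ∑ b ∈ (univ : Finset (ZMod S.P)).filter (fun b => S.Minor A b),
        ∑ b' ∈ (univ : Finset (ZMod S.P)).filter (fun b' => S.Minor A b'),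
          psi S.P W J b * psi S.P W J b' * ∏ i, FF S.P S.n (e + 4) (S.X i) b b'
        ≤ (1 / (S.P : ℝ) ^ 2) * ((4 * 16 * (U ^ (2 * e + 5) * G ^ t)) *
            ∑ b : ZMod S.P, ∑ b' : ZMod S.P, cmPhi S b b') :=
          mul_le_mul_of_nonneg_left hsum hP0
      _ = (4 * 16 * (U ^ (2 * e + 5) * G ^ t)) * ((1 / (S.P : ℝ) ^ 2) *
            ∑ b : ZMod S.P, ∑ b' : ZMod S.P, cmPhi S b b') := by ring
      _ ≤ (4 * 16 * (U ^ (2 * e + 5) * G ^ t)) * (7 ^ 4 * 16 ^ 4 * (Ca + Cb) *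
            ((S.R : ℝ) ^ (cM (e + 4) * m) * (S.H : ℝ) ^ 2 * (S.L : ℝ) ^ 4)) :=
          mul_le_mul_of_nonneg_left hPhi (by positivity)
      _ = _ := by rw [hK]; ring
  · rfl

end Pool.Agent.Lib.MP_e426f4_ag.DG
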