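import Pool.Agent.Lib.MP_e426f4_ag.DG.Defs
import Pool.Agent.Lib.MP_e426f4_ag.DG.Fej
import Pool.Agent.Lib.MP_e426f4_ag.DG.FFb
import Pool.Agent.Lib.MP_e426f4_ag.DG.Ker2

/-!
# L2a: mean square in one variable
`FF <= 16 Ft` (`FZ_le_Ft`, `Z = X x X`). By `Dn_sq`: `Ft(b,b') = sum_{|a|<H} (1-|a|/H) SS(a b) conj SS(a b')
= sum_{(a,x)} c_a ee(a x^d b)` with `c_a = (1-|a|/H) conj SS(a b')`. So `P^-1 sum_b |Ft|^2 = sum over (a,x),(a',x') with a x^d = a' x'^d
mod P` of `c_a conj c_a'`. As `|a x^d| < H B^d < P/2` the congruence is an equality of integers. `|c_a c_a'| <= (|c_a|^2+|c_a'|^2)/2`, so the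
sum is at most `sum_{(a,x)} |c_a|^2 #{(a',x') : a' x'^d = a x^d}`. For `a = 0`: `a' = 0` (x' >= 1), `|X|` choices, `|c_0| <= |X|`: total
`|X| |X|^2 |X| = |X|^4`. For `a != 0`: `x'` divides `|a x^d| <= H B^d`, so at most `R` choices and `a'` is determined: total
`<= R |X| sum_{0<|a|<H} |SS(a b')|^2 <= R |X| 2 sum_{a in ZMod P} wt(a) |SS(a b')|^2 = 2 R |X| FF(b',b')` (`wt_ge`: `4 n |a| <= P`; `FF_diag`;
the integers `|a| < H` are distinct mod P). Total factor `16^2 = 256`.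
-/

set_option autoImplicit false

namespace Pool.Agent.Lib.MP_e426f4_ag.DG

open Finset

variable {P : ℕ} [NeZero P]

private theorem l2_conj_ee (c : ZMod P) : (starRingEnd ℂ) (ee P c) = ee P (-c) := by
  unfold ee
  exact (AddChar.map_neg_eq_conj _ _).symm

private theorem l2_ee_add (a b : ZMod P) : ee P (a + b) = ee P a * ee P b := by
  unfold ee
  exact AddChar.map_add_eq_mul _ _ _

private theorem l2_norm_ee (c : ZMod P) : ‖ee P c‖ = 1 := by
  unfold ee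
  exact AddChar.norm_apply _ _

private theorem mean_sq {ι : Type} (I : Finset ι) (c : ι → ℂ) (m : ι → ZMod P) :
    ∑ b : ZMod P, ‖∑ i ∈ I, c i * ee P (m i * b)‖ ^ 2 ≤
      P * ∑ i ∈ I, ‖c i‖ ^ 2 * ((I.filter fun j => m j = m i).card : ℝ) := by
  have h1 : ((∑ b : ZMod P, ‖∑ i ∈ I, c i * ee P (m i * b)‖ ^ 2 : ℝ) : ℂ) =
      ∑ i ∈ I, ∑ j ∈ I, c i * (starRingEnd ℂ) (c j) * (if m j = m i then (P : ℂ) else 0) := by
    have h2 : ∀ b : ZMod P, ((‖∑ i ∈ I, c i * ee P (m i * b)‖ ^ 2 : ℝ) : ℂ) =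
        ∑ i ∈ I, ∑ j ∈ I, c i * (starRingEnd ℂ) (c j) * ee P (b * (m i - m j)) := by
      intro b
      have h3 : ((‖∑ i ∈ I, c i * ee P (m i * b)‖ ^ 2 : ℝ) : ℂ) =
          (∑ i ∈ I, c i * ee P (m i * b)) *
            (starRingEnd ℂ) (∑ i ∈ I, c i * ee P (m i * b)) := by
        rw [Complex.mul_conj, Complex.normSq_eq_norm_sq]
      rw [h3, map_sum, Finset.sum_mul_sum]
      refine Finset.sum_congr rfl fun i _ => Finset.sum_congr rfl fun j _ => ?_
      rw [map_mul, l2_conj_ee]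
      calc c i * ee P (m i * b) * ((starRingEnd ℂ) (c j) * ee P (-(m j * b))) =
          c i * (starRingEnd ℂ) (c j) * (ee P (m i * b) * ee P (-(m j * b))) := by ring
        _ = _ := by
          rw [← l2_ee_add]
          congr 2
          ring
    rw [Complex.ofReal_sum]
    simp_rw [h2]
    rw [Finset.sum_comm]
    refine Finset.sum_congr rfl fun i _ => ?_
    rw [Finset.sum_comm]
    refine Finset.sum_congr rfl fun j _ => ?_
    rw [← Finset.mul_sum, sum_ee]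
    congr 1
    by_cases h : m j = m i
    · rw [if_pos h, if_pos (by rw [h, sub_self])]
    · rw [if_neg h, if_neg (by rw [sub_eq_zero]; exact fun h' => h h'.symm)]
  have hP0 : (0 : ℝ) ≤ P := Nat.cast_nonneg _
  have h4 : ∑ b : ZMod P, ‖∑ i ∈ I, c i * ee P (m i * b)‖ ^ 2 ≤
      ∑ i ∈ I, ∑ j ∈ I, (‖c i‖ ^ 2 + ‖c j‖ ^ 2) / 2 * (if m j = m i then (P : ℝ) else 0) := by
    have h5 : ∑ b : ZMod P, ‖∑ i ∈ I, c i * ee P (m i * b)‖ ^ 2 =
        ‖((∑ b : ZMod P, ‖∑ i ∈ I, c i * ee P (m i * b)‖ ^ 2 : ℝ) : ℂ)‖ := by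
      rw [Complex.norm_real, Real.norm_of_nonneg]
      exact Finset.sum_nonneg fun _ _ => by positivity
    rw [h5, h1]
    refine le_trans (norm_sum_le _ _) (Finset.sum_le_sum fun i _ => ?_)
    refine le_trans (norm_sum_le _ _) (Finset.sum_le_sum fun j _ => ?_)
    rw [norm_mul, norm_mul, RCLike.norm_conj]
    have h6 : ‖(if m j = m i then (P : ℂ) else 0)‖ = (if m j = m i then (P : ℝ) else 0) := by
      split_ifs
      · simp
      · simp
    rw [h6]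
    have h7 : (0 : ℝ) ≤ (if m j = m i then (P : ℝ) else 0) := by
      split_ifs
      · exact hP0
      · exact le_rfl
    refine mul_le_mul_of_nonneg_right ?_ h7
    nlinarith [sq_nonneg (‖c i‖ - ‖c j‖)]
  refine le_trans h4 (le_of_eq ?_)
  have h8 : ∀ i j, (‖c i‖ ^ 2 + ‖c j‖ ^ 2) / 2 * (if m j = m i then (P : ℝ) else 0) =
      ‖c i‖ ^ 2 / 2 * (if m j = m i then (P : ℝ) else 0) +
      ‖c j‖ ^ 2 / 2 * (if m i = m j then (P : ℝ) else 0) := by
    intro i j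
    by_cases h : m j = m i
    · rw [if_pos h, if_pos h.symm]; ring
    · rw [if_neg h, if_neg (fun h' => h h'.symm)]; ring
  simp_rw [h8, Finset.sum_add_distrib]
  have h9 : ∑ i ∈ I, ∑ j ∈ I, ‖c i‖ ^ 2 / 2 * (if m j = m i then (P : ℝ) else 0) =
      (P : ℝ) / 2 * ∑ i ∈ I, ‖c i‖ ^ 2 * ((I.filter fun j => m j = m i).card : ℝ) := by
    rw [Finset.mul_sum]
    refine Finset.sum_congr rfl fun i _ => ?_
    rw [← Finset.mul_sum, ← Finset.sum_filter, Finset.sum_const, nsmul_eq_mul]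
    ring
  rw [Finset.sum_comm (f := fun i j => ‖c j‖ ^ 2 / 2 * (if m i = m j then (P : ℝ) else 0))]
  rw [h9]
  ring

private theorem Ft_expand (d H : ℕ) (hH : 0 < H) (X : Finset ℕ) (b b' : ZMod P) :
    ((Ft P H d (X ×ˢ X) b b' : ℝ) : ℂ) =
      ∑ p ∈ (Ioo (-(H : ℤ)) H) ×ˢ X,
        (((1 - |(p.1 : ℝ)| / H : ℝ) : ℂ) * (starRingEnd ℂ) (SS P d X ((p.1 : ZMod P) * b'))) *
          ee P ((p.1 : ZMod P) * (p.2 : ZMod P) ^ d * b) := by
  unfold Ft
  rw [Complex.ofReal_sum]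
  simp_rw [Dn_sq H hH]
  rw [Finset.sum_comm, Finset.sum_product]
  refine Finset.sum_congr rfl fun a _ => ?_
  rw [Finset.sum_product]
  refine Finset.sum_congr rfl fun x _ => ?_
  unfold SS
  rw [map_sum, ← Finset.mul_sum, mul_assoc, Finset.sum_mul]
  congr 1
  refine Finset.sum_congr rfl fun y _ => ?_
  rw [l2_conj_ee, ← l2_ee_add]
  congr 1
  ring

theorem L2 (n d H B R : ℕ) (hH : 0 < H) (hB : 0 < B) (hn : 0 < n) (hnP : n ≤ P)
    (hnH : 4 * n * H ≤ P) (hP : (P : ℝ) / n ≤ 8 * H) (hPB : 4 * H * B ^ d < P)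
    (htau : ∀ k, 1 ≤ k → k ≤ H * B ^ d → k.divisors.card ≤ R)
    (X : Finset ℕ) (hX : ∀ x ∈ X, 1 ≤ x ∧ x ≤ B) (hd : 1 ≤ d) (b' : ZMod P) :
    (1 / (P : ℝ)) * ∑ b : ZMod P, FF P n d X b b' ^ 2 ≤
      256 * ((X.card : ℝ) ^ 4 + 2 * R * X.card * FF P n d X b' b') := by
  have hPpos : (0 : ℝ) < P := by
    have : 0 < P := Nat.pos_of_ne_zero (NeZero.ne P)
    exact_mod_cast this
  have hPH : 4 * H ≤ P := by
    calc 4 * H = 4 * 1 * H := by ring
      _ ≤ 4 * n * H := by gcongr; omega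
      _ ≤ P := hnH
  have hHr : (0 : ℝ) < H := by exact_mod_cast hH
  -- coefficients
  set J := (Ioo (-(H : ℤ)) H) ×ˢ X with hJ
  set c : ℤ × ℕ → ℂ := fun p =>
    ((1 - |(p.1 : ℝ)| / H : ℝ) : ℂ) * (starRingEnd ℂ) (SS P d X ((p.1 : ZMod P) * b')) with hc
  set m : ℤ × ℕ → ZMod P := fun p => (p.1 : ZMod P) * (p.2 : ZMod P) ^ d with hm
  have h1 : ∀ b : ZMod P, FF P n d X b b' ^ 2 ≤ 256 * ‖∑ p ∈ J, c p * ee P (m p * b)‖ ^ 2 := by
    intro b
    have h2 : FF P n d X b b' ≤ 16 * Ft P H d (X ×ˢ X) b b' :=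
      FZ_le_Ft n d H hH hn hnP hnH hP _ _ _
    have h3 : 0 ≤ FF P n d X b b' := FZ_nonneg _ _ _ _ _
    have h4 : ∑ p ∈ J, c p * ee P (m p * b) = ((Ft P H d (X ×ˢ X) b b' : ℝ) : ℂ) :=
      (Ft_expand d H hH X b b').symm
    rw [h4, Complex.norm_real, Real.norm_of_nonneg (Ft_nonneg _ _ _ _ _)]
    calc FF P n d X b b' ^ 2 ≤ (16 * Ft P H d (X ×ˢ X) b b') ^ 2 := by gcongr
      _ = 256 * Ft P H d (X ×ˢ X) b b' ^ 2 := by ring
  have hcl : ∀ p ∈ J, ‖c p‖ ≤ ‖SS P d X ((p.1 : ZMod P) * b')‖ := by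
    intro p hp
    rw [hc]
    simp only
    rw [norm_mul, RCLike.norm_conj, Complex.norm_real]
    rw [hJ, mem_product, mem_Ioo] at hp
    obtain ⟨⟨hp1, hp2⟩, _⟩ := hp
    have h5 : |(p.1 : ℝ)| ≤ H := by
      rw [abs_le]
      constructor
      · exact_mod_cast hp1.le
      · exact_mod_cast hp2.le
    have h6 : |(p.1 : ℝ)| / H ≤ 1 := by
      rw [div_le_one hHr]
      exact h5
    have h7 : 0 ≤ |(p.1 : ℝ)| / H := by positivity
    have h8 : ‖(1 - |(p.1 : ℝ)| / H : ℝ)‖ ≤ 1 := by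
      rw [Real.norm_eq_abs, abs_le]
      constructor <;> linarith
    calc _ ≤ 1 * ‖SS P d X ((p.1 : ZMod P) * b')‖ := by gcongr
      _ = _ := one_mul _
  have hSSle : ∀ e : ZMod P, ‖SS P d X e‖ ≤ X.card := by
    intro e
    unfold SS
    refine le_trans (norm_sum_le _ _) ?_
    simp_rw [l2_norm_ee]
    rw [Finset.sum_const, nsmul_eq_mul, mul_one]
  -- congruence is equality
  have hBd : ∀ x ∈ X, ∀ a ∈ Ioo (-(H : ℤ)) H, |a * (x : ℤ) ^ d| ≤ (H : ℤ) * (B : ℤ) ^ d := by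
    intro x hx a ha
    rw [mem_Ioo] at ha
    rw [abs_mul]
    have h5 : |a| ≤ (H : ℤ) := by
      rw [abs_le]
      constructor <;> linarith [ha.1, ha.2]
    have h6 : |(x : ℤ) ^ d| ≤ (B : ℤ) ^ d := by
      rw [abs_of_nonneg (by positivity)]
      have : (x : ℤ) ≤ B := by exact_mod_cast (hX x hx).2
      gcongr
    exact mul_le_mul h5 h6 (abs_nonneg _) (by positivity)
  have hPBz : 4 * (H : ℤ) * (B : ℤ) ^ d < P := by exact_mod_cast hPB
  have hcong : ∀ p ∈ J, ∀ p' ∈ J, m p = m p' →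
      p.1 * (p.2 : ℤ) ^ d = p'.1 * (p'.2 : ℤ) ^ d := by
    intro p hp p' hp' h
    rw [hJ, mem_product] at hp hp'
    have h5 : ((p.1 * (p.2 : ℤ) ^ d : ℤ) : ZMod P) = ((p'.1 * (p'.2 : ℤ) ^ d : ℤ) : ZMod P) := by
      push_cast
      exact h
    have h6 : (P : ℤ) ∣ p.1 * (p.2 : ℤ) ^ d - p'.1 * (p'.2 : ℤ) ^ d := by
      rw [← ZMod.intCast_eq_intCast_iff_dvd_sub]
      exact h5.symm
    have h7 : |p.1 * (p.2 : ℤ) ^ d - p'.1 * (p'.2 : ℤ) ^ d| < P := by
      have e1 := hBd _ hp.2 _ hp.1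
      have e2 := hBd _ hp'.2 _ hp'.1
      have e3 : |p.1 * (p.2 : ℤ) ^ d - p'.1 * (p'.2 : ℤ) ^ d| ≤
          |p.1 * (p.2 : ℤ) ^ d| + |p'.1 * (p'.2 : ℤ) ^ d| := abs_sub _ _
      have e4 : 0 ≤ (H : ℤ) * (B : ℤ) ^ d := by positivity
      nlinarith
    have h8 := Int.eq_zero_of_abs_lt_dvd h6 h7
    linarith
  have hxpos : ∀ x ∈ X, (x : ℤ) ^ d ≠ 0 := by
    intro x hx
    have := (hX x hx).1
    apply pow_ne_zero
    exact_mod_cast (by omega : x ≠ 0)
  -- counting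
  have hcount0 : ∀ p ∈ J, p.1 = 0 → (J.filter fun j => m j = m p).card ≤ X.card := by
    intro p hp hp0
    refine Finset.card_le_card_of_injOn (fun j => j.2) ?_ ?_
    · intro j hj
      rw [Finset.mem_coe, mem_filter, hJ, mem_product] at hj
      exact hj.1.2
    · intro j hj k hk hjk
      rw [Finset.mem_coe, mem_filter] at hj hk
      have e1 := hcong j hj.1 p hp hj.2
      have e2 := hcong k hk.1 p hp hk.2
      rw [hp0, zero_mul] at e1 e2
      have hj2 := hj.1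
      have hk2 := hk.1
      rw [hJ, mem_product] at hj2 hk2
      have f1 : j.1 = 0 := (mul_eq_zero.mp e1).resolve_right (hxpos _ hj2.2)
      have f2 : k.1 = 0 := (mul_eq_zero.mp e2).resolve_right (hxpos _ hk2.2)
      exact Prod.ext (f1.trans f2.symm) hjk
  have hcount1 : ∀ p ∈ J, p.1 ≠ 0 → (J.filter fun j => m j = m p).card ≤ R := by
    intro p hp hp0
    have hp' := hp
    rw [hJ, mem_product] at hp'
    set k := (p.1 * (p.2 : ℤ) ^ d).natAbs with hk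
    have hk0 : p.1 * (p.2 : ℤ) ^ d ≠ 0 := mul_ne_zero hp0 (hxpos _ hp'.2)
    have hk1 : 1 ≤ k := Int.natAbs_pos.mpr hk0
    have hk2 : k ≤ H * B ^ d := by
      have := hBd _ hp'.2 _ hp'.1
      rw [Int.abs_eq_natAbs] at this
      exact_mod_cast this
    refine le_trans ?_ (htau k hk1 hk2)
    refine Finset.card_le_card_of_injOn (fun j => j.2) ?_ ?_
    · intro j hj
      rw [Finset.mem_coe, mem_filter] at hj
      have e1 := hcong j hj.1 p hp hj.2
      rw [Finset.mem_coe, Nat.mem_divisors]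
      refine ⟨?_, by omega⟩
      rw [hk, ← e1]
      have e2 : (j.2 : ℤ) ∣ j.1 * (j.2 : ℤ) ^ d :=
        Dvd.dvd.mul_left (dvd_pow_self _ (by omega)) _
      exact Int.natCast_dvd.mp e2
    · intro j hj l hl hjl
      rw [Finset.mem_coe, mem_filter] at hj hl
      have e1 := hcong j hj.1 p hp hj.2
      have e2 := hcong l hl.1 p hp hl.2
      have hjl' : j.2 = l.2 := hjl
      have hl2 := hl.1
      rw [hJ, mem_product] at hl2
      rw [hjl'] at e1
      have e3 : j.1 * (l.2 : ℤ) ^ d = l.1 * (l.2 : ℤ) ^ d := e1.trans e2.symm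
      exact Prod.ext (mul_right_cancel₀ (hxpos _ hl2.2) e3) hjl'
  -- the sum of the squares
  have hsq : ∑ a ∈ Ioo (-(H : ℤ)) H, ‖SS P d X ((a : ZMod P) * b')‖ ^ 2 ≤
      2 * FF P n d X b' b' := by
    rw [FF_diag n d hn X b']
    have h5 : ∑ a ∈ Ioo (-(H : ℤ)) H, ‖SS P d X ((a : ZMod P) * b')‖ ^ 2 ≤
        ∑ a ∈ Ioo (-(H : ℤ)) H,
          2 * (wt P n (a : ZMod P) * ‖SS P d X ((a : ZMod P) * b')‖ ^ 2) := by
      refine Finset.sum_le_sum fun a ha => ?_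
      rw [mem_Ioo] at ha
      have h6 : |a| ≤ (H : ℤ) := by
        rw [abs_le]
        constructor <;> linarith [ha.1, ha.2]
      have h7 : 1 / 2 ≤ wt P n (a : ZMod P) := by
        apply wt_ge n hn a
        calc 4 * (n : ℤ) * |a| ≤ 4 * (n : ℤ) * H := by gcongr
          _ ≤ P := by exact_mod_cast hnH
      have h8 : 0 ≤ ‖SS P d X ((a : ZMod P) * b')‖ ^ 2 := by positivity
      nlinarith
    refine le_trans h5 ?_
    rw [← Finset.mul_sum]
    refine mul_le_mul_of_nonneg_left ?_ (by norm_num)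
    have h9 : ∑ a ∈ Ioo (-(H : ℤ)) H, wt P n (a : ZMod P) * ‖SS P d X ((a : ZMod P) * b')‖ ^ 2 =
        ∑ e ∈ (Ioo (-(H : ℤ)) H).image (fun a : ℤ => (a : ZMod P)),
          wt P n e * ‖SS P d X (e * b')‖ ^ 2 := by
      rw [Finset.sum_image]
      intro a ha a' ha' haa
      rw [Finset.mem_coe, mem_Ioo] at ha ha'
      have haa' : (a : ZMod P) = (a' : ZMod P) := haa
      have h10 : (P : ℤ) ∣ a - a' := by
        rw [← ZMod.intCast_eq_intCast_iff_dvd_sub]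
        exact haa'.symm
      have hPH' : 4 * (H : ℤ) ≤ P := by exact_mod_cast hPH
      have h11 : |a - a'| < P := by
        rw [abs_lt]
        constructor <;> linarith [ha.1, ha.2, ha'.1, ha'.2]
      have := Int.eq_zero_of_abs_lt_dvd h10 h11
      linarith
    rw [h9]
    exact Finset.sum_le_sum_of_subset_of_nonneg (Finset.subset_univ _) fun e _ _ =>
      mul_nonneg (wt_nonneg _ _) (by positivity)
  have hR0 : (0 : ℝ) ≤ R := Nat.cast_nonneg _
  have hFF0 : 0 ≤ FF P n d X b' b' := FZ_nonneg _ _ _ _ _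
  have hterm : ∀ p ∈ J, ‖c p‖ ^ 2 * ((J.filter fun j => m j = m p).card : ℝ) ≤
      (if p.1 = 0 then (X.card : ℝ) ^ 3 else 0) + R * ‖SS P d X ((p.1 : ZMod P) * b')‖ ^ 2 := by
    intro p hp
    have hcp := hcl p hp
    by_cases hp0 : p.1 = 0
    · rw [if_pos hp0]
      have h5 : ((J.filter fun j => m j = m p).card : ℝ) ≤ X.card := by
        exact_mod_cast hcount0 p hp hp0
      have h6 : ‖c p‖ ≤ X.card := le_trans hcp (hSSle _)
      calc ‖c p‖ ^ 2 * ((J.filter fun j => m j = m p).card : ℝ) ≤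
          (X.card : ℝ) ^ 2 * X.card := by gcongr
        _ = (X.card : ℝ) ^ 3 := by ring
        _ ≤ _ := by
          have : 0 ≤ (R : ℝ) * ‖SS P d X ((p.1 : ZMod P) * b')‖ ^ 2 := by positivity
          linarith
    · rw [if_neg hp0, zero_add]
      have h5 : ((J.filter fun j => m j = m p).card : ℝ) ≤ R := by
        exact_mod_cast hcount1 p hp hp0
      calc ‖c p‖ ^ 2 * ((J.filter fun j => m j = m p).card : ℝ) ≤
          ‖SS P d X ((p.1 : ZMod P) * b')‖ ^ 2 * R := by gcongr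
        _ = _ := mul_comm _ _
  have h0mem : (0 : ℤ) ∈ Ioo (-(H : ℤ)) H := by
    rw [mem_Ioo]
    constructor
    · have : (0 : ℤ) < H := by exact_mod_cast hH
      linarith
    · exact_mod_cast hH
  have htot : ∑ p ∈ J, ‖c p‖ ^ 2 * ((J.filter fun j => m j = m p).card : ℝ) ≤
      (X.card : ℝ) ^ 4 + 2 * R * X.card * FF P n d X b' b' := by
    refine le_trans (Finset.sum_le_sum hterm) ?_
    have hsplit : ∑ p ∈ J, ((if p.1 = 0 then (X.card : ℝ) ^ 3 else 0) +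
        R * ‖SS P d X ((p.1 : ZMod P) * b')‖ ^ 2) =
        ∑ a ∈ Ioo (-(H : ℤ)) H, ∑ _x ∈ X, ((if a = 0 then (X.card : ℝ) ^ 3 else 0) +
          R * ‖SS P d X ((a : ZMod P) * b')‖ ^ 2) := by
      rw [hJ]
      exact Finset.sum_product _ _ _
    rw [hsplit]
    simp only [Finset.sum_const, nsmul_eq_mul]
    rw [← Finset.mul_sum, Finset.sum_add_distrib, Finset.sum_ite_eq' _ (0 : ℤ), if_pos h0mem,
      ← Finset.mul_sum]
    calc (X.card : ℝ) * ((X.card : ℝ) ^ 3 +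
        R * ∑ a ∈ Ioo (-(H : ℤ)) H, ‖SS P d X ((a : ZMod P) * b')‖ ^ 2) ≤
        (X.card : ℝ) * ((X.card : ℝ) ^ 3 + R * (2 * FF P n d X b' b')) := by gcongr
      _ = _ := by ring
  have hms := mean_sq J c m
  calc (1 / (P : ℝ)) * ∑ b : ZMod P, FF P n d X b b' ^ 2 ≤
      (1 / (P : ℝ)) * ∑ b : ZMod P, 256 * ‖∑ p ∈ J, c p * ee P (m p * b)‖ ^ 2 := by
        gcongr with b _
        exact h1 b
    _ = 256 * ((1 / (P : ℝ)) * ∑ b : ZMod P, ‖∑ p ∈ J, c p * ee P (m p * b)‖ ^ 2) := by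
        rw [← Finset.mul_sum]; ring
    _ ≤ 256 * ((1 / (P : ℝ)) * (P * ((X.card : ℝ) ^ 4 + 2 * R * X.card * FF P n d X b' b'))) := by
        gcongr
        exact le_trans hms (by gcongr)
    _ = _ := by
        field_simp

end Pool.Agent.Lib.MP_e426f4_ag.DG
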