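import Pool.Agent.Lib.MP_e426f4_ag.DG.Defs
import Pool.Agent.Lib.MP_e426f4_ag.DG.Facts1
import Pool.Agent.Lib.MP_e426f4_ag.DG.VDefs
import Pool.Agent.Lib.MP_e426f4_ag.DG.FFb
import Pool.Agent.Lib.MP_e426f4_ag.DG.Lossy
import Pool.Agent.Lib.MP_e426f4_ag.DG.Maj
import Pool.Agent.Lib.MP_e426f4_ag.DG.Psi
import Pool.Agent.Lib.MP_e426f4_ag.DG.L2a

/-!
# CombMix: b minor, b' major
`U1 = 2 C1 H R^2 B` bounds `FF_i(b,b)` (b minor), `U(b') = 2 C1 H R^2 B^2 V(b')` bounds `FF_i(b',b')` (b' major: B V > 1). By `FF_cs`: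
i in {2,..,2d-1} (2d-2 indices): `FF_i(b,b') <= sqrt(U1) sqrt(U(b'))`; i = 2d: `<= sqrt(U1) sqrt(8 H XX^2)` (`FZ_le_card` at (b',b')); i > 2d: `<= 8 H XX^2`. `psi <= 2`.
i = 0,1: for fixed b', `P^-1 sum_b FF_0 FF_1 <= P^-1 sum_b (FF_0^2+FF_1^2)/2 <= 256 (XX^4 + 2 R XX U(b')) <= 768 R B U(b')`
(`L2` with hypotheses from `n_facts`, `htau` (H B^d <= B^(4d): from hH2? use `H * B^d <= B^(4d)`: H <= 16 2^((m+Mx)d) B^d and 2^((m+Mx) d) <= R^((m+Mx)d) <= B^d, 16 <= B^d... ok);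
XX <= B, `U(b') >= H B >= B^5`). Sum over b': `P^-1 sum_{b'} U(b')^(d-1) * U(b') = P^-1 sum U^d <= (2 C1 H R^2 B^2)^d C/(H B^d)` (`maj_all`).
Total `<= 4 * 768 R B * U1^(d-1) * sqrt(U1 8 H XX^2) * (2 C1 H R^2 B^2)^d C/(HB^d) * (8HXX^2)^(s-2d-1)`; with `B/(8R) <= XX <= B` the ratio to `main` is at most
`C' R^(8d+10) H^0 B^(-1/2)`.
-/

set_option autoImplicit false

namespace Pool.Agent.Lib.MP_e426f4_ag.DG

open Finset

private theorem cmix_prod {s d : ℕ} (hd : 1 ≤ d) (hs : 2 * d + 1 ≤ s) (f : Fin s → ℝ)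
    (hf : ∀ i, 0 ≤ f i) (c e t : ℝ)
    (h1 : ∀ i : Fin s, 2 ≤ i.val → i.val < 2 * d → f i ≤ c)
    (h2 : ∀ i : Fin s, i.val = 2 * d → f i ≤ e)
    (h3 : ∀ i : Fin s, 2 * d < i.val → f i ≤ t) :
    ∏ i, f i ≤ f ⟨0, by omega⟩ * f ⟨1, by omega⟩ * c ^ (2 * d - 2) * e * t ^ (s - (2 * d + 1)) := by
  obtain ⟨G, hG⟩ : ∃ G : ℕ → ℝ, G = fun k => if k = 0 then f ⟨0, by omega⟩ else
    if k = 1 then f ⟨1, by omega⟩ else if k < 2 * d then c else if k = 2 * d then e else t :=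
    ⟨_, rfl⟩
  have e1 : ∏ i, f i ≤ ∏ i : Fin s, G i.val := by
    refine Finset.prod_le_prod (fun i _ => hf i) (fun i _ => ?_)
    rw [hG]
    by_cases h0 : i.val = 0
    · simp only [if_pos h0]
      apply le_of_eq
      congr 1
      exact Fin.ext h0
    · by_cases h1' : i.val = 1
      · simp only [if_neg h0, if_pos h1']
        apply le_of_eq
        congr 1
        exact Fin.ext h1'
      · by_cases h2' : i.val < 2 * d
        · simp only [if_neg h0, if_neg h1', if_pos h2']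
          exact h1 i (by omega) h2'
        · by_cases h3' : i.val = 2 * d
          · simp only [if_neg h0, if_neg h1', if_neg h2', if_pos h3']
            exact h2 i h3'
          · simp only [if_neg h0, if_neg h1', if_neg h2', if_neg h3']
            exact h3 i (by omega)
  have e2 : ∏ i : Fin s, G i.val =
      f ⟨0, by omega⟩ * f ⟨1, by omega⟩ * c ^ (2 * d - 2) * e * t ^ (s - (2 * d + 1)) := by
    rw [← Finset.prod_range G, ← Finset.prod_range_mul_prod_Ico G hs, Finset.prod_range_succ,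
      ← Finset.prod_range_mul_prod_Ico G (by omega : 2 ≤ 2 * d)]
    have a1 : ∏ k ∈ range 2, G k = f ⟨0, by omega⟩ * f ⟨1, by omega⟩ := by
      rw [Finset.prod_range_succ, Finset.prod_range_one, hG]
      simp
    have a2 : ∏ k ∈ Ico 2 (2 * d), G k = c ^ (2 * d - 2) := by
      rw [Finset.prod_congr rfl (g := fun _ => c), Finset.prod_const, Nat.card_Ico]
      intro k hk
      rw [Finset.mem_Ico] at hk
      rw [hG]
      simp only [if_neg (by omega : ¬ k = 0), if_neg (by omega : ¬ k = 1), if_pos hk.2]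
    have a3 : G (2 * d) = e := by
      rw [hG]
      simp only [if_neg (by omega : ¬ 2 * d = 0), if_neg (by omega : ¬ 2 * d = 1),
        if_neg (lt_irrefl (2 * d)), if_true]
    have a4 : ∏ k ∈ Ico (2 * d + 1) s, G k = t ^ (s - (2 * d + 1)) := by
      rw [Finset.prod_congr rfl (g := fun _ => t), Finset.prod_const, Nat.card_Ico]
      intro k hk
      rw [Finset.mem_Ico] at hk
      rw [hG]
      simp only [if_neg (by omega : ¬ k = 0), if_neg (by omega : ¬ k = 1),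
        if_neg (by omega : ¬ k < 2 * d), if_neg (by omega : ¬ k = 2 * d)]
    rw [a1, a2, a3, a4]
  rw [← e2]
  exact e1

private theorem cmix_trivial {d s m Mx E : ℕ} (hm : m < Mx) (hm0 : 1 ≤ m) (S : Setup d s m Mx E)
    (b b' : ZMod S.P) (i : Fin s) :
    FF S.P S.n d (S.X i) b b' ≤ 8 * (S.H : ℝ) * S.XX ^ 2 := by
  obtain ⟨h1, h2, _, h4, _⟩ := S.n_facts
  unfold FF
  refine (FZ_le_card S.n d h1 h2 _ b b').trans ?_
  rw [Finset.card_product, Nat.cast_mul, S.X_card hm hm0 i, ← pow_two]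
  exact mul_le_mul_of_nonneg_right h4 (sq_nonneg _)

private theorem cmix_nonneg {d s m Mx E : ℕ} (S : Setup d s m Mx E)
    (b b' : ZMod S.P) (i : Fin s) : 0 ≤ FF S.P S.n d (S.X i) b b' := FZ_nonneg _ _ _ _ _

/-- the final computation -/
private theorem cmix_alg (d s : ℕ) (hd : 4 ≤ d) (hs : 2 * d + 1 ≤ s) {C1 C3 R H B TR : ℝ}
    (hC1 : 1 ≤ C1) (hC3 : 0 < C3) (hR : 2 ≤ R) (hH : 0 < H) (hB : 1 ≤ B) (hTR : 0 < TR)
    (hBX : H * B ^ 2 ≤ 8 * R ^ 2 * TR) :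
    3072 * R * B * (2 * C1 * H * R ^ 2 * B) ^ (d - 1) * Real.sqrt ((2 * C1 * H * R ^ 2 * B) * TR) *
      TR ^ (s - (2 * d + 1)) * (2 * C1 * H * R ^ 2 * B ^ 2) ^ d * (C3 / (H * B ^ d)) ≤
    (8 * (3072 * 4 * C1 * C3 * (16 * C1) ^ (2 * d - 1))) * R ^ (8 * d + 1) / Real.sqrt B *
      (TR ^ s / (H * B ^ d) ^ 2) := by
  obtain ⟨e, rfl⟩ : ∃ e, d = e + 1 := ⟨d - 1, by omega⟩
  obtain ⟨r, rfl⟩ : ∃ r, s = 2 * (e + 1) + 1 + r := ⟨s - (2 * (e + 1) + 1), by omega⟩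
  have hr : 2 * (e + 1) + 1 + r - (2 * (e + 1) + 1) = r := by omega
  have he1 : e + 1 - 1 = e := by omega
  have he2 : 2 * (e + 1) - 1 = 2 * e + 1 := by omega
  rw [hr, he1, he2]
  have hR0 : 0 < R := by linarith
  have hB0 : 0 < B := by linarith
  have hC10 : 0 < C1 := by linarith
  obtain ⟨y, hy⟩ : ∃ y : ℝ, y = 16 * C1 * R ^ 4 * TR := ⟨_, rfl⟩
  have hy0 : 0 < y := by rw [hy]; positivity
  have hc0 : 2 * C1 * H * R ^ 2 * B ^ 2 ≤ y := by
    rw [hy]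
    calc 2 * C1 * H * R ^ 2 * B ^ 2 = 2 * C1 * R ^ 2 * (H * B ^ 2) := by ring
      _ ≤ 2 * C1 * R ^ 2 * (8 * R ^ 2 * TR) := mul_le_mul_of_nonneg_left hBX (by positivity)
      _ = 16 * C1 * R ^ 4 * TR := by ring
  have hU1 : 2 * C1 * H * R ^ 2 * B ≤ y / B := by
    rw [le_div_iff₀ hB0]
    calc 2 * C1 * H * R ^ 2 * B * B = 2 * C1 * H * R ^ 2 * B ^ 2 := by ring
      _ ≤ y := hc0
  have hsB : 0 < Real.sqrt B := Real.sqrt_pos.mpr hB0
  have hrt : Real.sqrt ((2 * C1 * H * R ^ 2 * B) * TR) ≤ 4 * C1 * R ^ 2 * TR / Real.sqrt B := by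
    have h1 : (2 * C1 * H * R ^ 2 * B) * TR ≤ (4 * C1 * R ^ 2 * TR) ^ 2 / B := by
      rw [le_div_iff₀ hB0]
      calc 2 * C1 * H * R ^ 2 * B * TR * B = (2 * C1 * H * R ^ 2 * B ^ 2) * TR := by ring
        _ ≤ y * TR := mul_le_mul_of_nonneg_right hc0 hTR.le
        _ = 16 * R ^ 4 * TR ^ 2 * (C1 * 1) := by rw [hy]; ring
        _ ≤ 16 * R ^ 4 * TR ^ 2 * (C1 * C1) := by
          apply mul_le_mul_of_nonneg_left _ (by positivity)
          exact mul_le_mul_of_nonneg_left hC1 hC10.le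
        _ = (4 * C1 * R ^ 2 * TR) ^ 2 := by ring
    refine (Real.sqrt_le_sqrt h1).trans (le_of_eq ?_)
    rw [Real.sqrt_div (sq_nonneg _), Real.sqrt_sq (by positivity)]
  have key : B * (y / B) ^ e / (H * B ^ (e + 1)) = y ^ e * (H * B ^ 2) / (H * B ^ (e + 1)) ^ 2 := by
    rw [div_pow, pow_succ B e]
    field_simp
  have hy2 : y ^ e * y ^ (e + 1) = (16 * C1) ^ (2 * e + 1) * R ^ (8 * e + 4) * TR ^ (2 * e + 1) := by
    rw [← pow_add, hy, mul_pow, mul_pow (16 * C1), ← pow_mul R 4]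
    have h1 : e + (e + 1) = 2 * e + 1 := by ring
    have h2 : 4 * (e + (e + 1)) = 8 * e + 4 := by ring
    rw [h2, h1]
  calc 3072 * R * B * (2 * C1 * H * R ^ 2 * B) ^ e * Real.sqrt ((2 * C1 * H * R ^ 2 * B) * TR) *
      TR ^ r * (2 * C1 * H * R ^ 2 * B ^ 2) ^ (e + 1) * (C3 / (H * B ^ (e + 1)))
      ≤ 3072 * R * B * (y / B) ^ e * (4 * C1 * R ^ 2 * TR / Real.sqrt B) *
      TR ^ r * y ^ (e + 1) * (C3 / (H * B ^ (e + 1))) := by
        gcongr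
    _ = 3072 * R * (B * (y / B) ^ e / (H * B ^ (e + 1))) * (4 * C1 * R ^ 2 * TR / Real.sqrt B) *
      TR ^ r * y ^ (e + 1) * C3 := by ring
    _ = 3072 * R * (y ^ e * (H * B ^ 2) / (H * B ^ (e + 1)) ^ 2) *
      (4 * C1 * R ^ 2 * TR / Real.sqrt B) * TR ^ r * y ^ (e + 1) * C3 := by rw [key]
    _ ≤ 3072 * R * (y ^ e * (8 * R ^ 2 * TR) / (H * B ^ (e + 1)) ^ 2) *
      (4 * C1 * R ^ 2 * TR / Real.sqrt B) * TR ^ r * y ^ (e + 1) * C3 := by gcongr
    _ = (8 * 3072 * 4 * C1 * C3) * R ^ 5 * (y ^ e * y ^ (e + 1)) * TR ^ (r + 2) /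
        Real.sqrt B / (H * B ^ (e + 1)) ^ 2 := by ring
    _ = (8 * (3072 * 4 * C1 * C3 * (16 * C1) ^ (2 * e + 1))) * R ^ (8 * (e + 1) + 1) / Real.sqrt B *
      (TR ^ (2 * (e + 1) + 1 + r) / (H * B ^ (e + 1)) ^ 2) := by
        rw [hy2]
        have h1 : R ^ (8 * (e + 1) + 1) = R ^ 5 * R ^ (8 * e + 4) := by
          rw [← pow_add]; congr 1; ring
        have h2 : TR ^ (2 * (e + 1) + 1 + r) = TR ^ (2 * e + 1) * TR ^ (r + 2) := by
          rw [← pow_add]; congr 1; ring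
        rw [h1, h2]
        ring

private theorem cmix_HB {d s m Mx E : ℕ} (hd : 4 ≤ d) (S : Setup d s m Mx E) :
    S.H * S.B ^ d ≤ (4 * S.R ^ Mx * S.R ^ m) ^ (4 * d) := by
  have h1 := S.hH2
  have hB : S.B = 4 * S.R ^ Mx * S.R ^ m := rfl
  rw [← hB] at h1 ⊢
  have h2 : S.B = 4 * S.R ^ (m + Mx) := by
    rw [hB, pow_add]; ring
  have h3 : 16 * 2 ^ ((m + Mx) * d) ≤ S.B ^ d := by
    rw [h2, mul_pow, ← pow_mul]
    have h4 : 16 ≤ 4 ^ d := by
      calc 16 ≤ 4 ^ 4 := by norm_num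
        _ ≤ 4 ^ d := Nat.pow_le_pow_right (by norm_num) hd
    exact Nat.mul_le_mul h4 (Nat.pow_le_pow_left S.hR _)
  have h5 : 1 ≤ S.B := S.B_pos
  calc S.H * S.B ^ d ≤ (16 * 2 ^ ((m + Mx) * d) * S.B ^ d) * S.B ^ d := Nat.mul_le_mul_right _ h1
    _ ≤ (S.B ^ d * S.B ^ d) * S.B ^ d := Nat.mul_le_mul_right _ (Nat.mul_le_mul_right _ h3)
    _ = S.B ^ (3 * d) := by ring
    _ ≤ S.B ^ (4 * d) := Nat.pow_le_pow_right h5 (by omega)

open Classical in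
theorem comb_mM (d s m Mx E : ℕ) (hd : 4 ≤ d) (hs : 2 * d + 1 ≤ s) (hE : 2 ≤ E) (hm : 1 ≤ m)
    (hMx : m < Mx) : ∃ C : ℝ, 0 < C ∧ ∀ (S : Setup d s m Mx E) (A : Arc S.P (4 * S.B ^ d)) (W J : ℕ),
    (1 / (S.P : ℝ) ^ 2) * ∑ b ∈ (univ : Finset (ZMod S.P)).filter (fun b => S.Minor A b),
      ∑ b' ∈ (univ : Finset (ZMod S.P)).filter (fun b' => ¬ S.Minor A b'),
        psi S.P W J b * psi S.P W J b' * ∏ i, FF S.P S.n d (S.X i) b b' ≤
      C * (S.R : ℝ) ^ (cE d s * m) / Real.sqrt S.B * S.main := by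
  obtain ⟨C1, hC1, hl⟩ := lossy d s E hd hE
  obtain ⟨C3, hC3, hma⟩ := maj_all d s E hd
  have hC10 : 0 < C1 := by linarith
  refine ⟨8 * (3072 * 4 * C1 * C3 * (16 * C1) ^ (2 * d - 1)), by positivity, fun S A W J => ?_⟩
  have hma' := hma m Mx S A
  have hMx1 : 1 ≤ Mx := by omega
  obtain ⟨hX1, hX2⟩ := S.XX_bounds hE hMx1
  obtain ⟨R, hR⟩ : ∃ R : ℝ, R = (S.R : ℝ) := ⟨_, rfl⟩
  obtain ⟨H, hH⟩ : ∃ H : ℝ, H = (S.H : ℝ) := ⟨_, rfl⟩
  obtain ⟨B, hB⟩ : ∃ B : ℝ, B = (S.B : ℝ) := ⟨_, rfl⟩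
  obtain ⟨X, hX⟩ : ∃ X : ℝ, X = S.XX := ⟨_, rfl⟩
  obtain ⟨P, hP⟩ : ∃ P : ℝ, P = (S.P : ℝ) := ⟨_, rfl⟩
  have hR2 : (2 : ℝ) ≤ R := by rw [hR]; exact_mod_cast S.hR
  have hR0 : (0 : ℝ) < R := by linarith
  have hR1 : (1 : ℝ) ≤ R := by linarith
  have hH0 : (0 : ℝ) < H := by rw [hH]; exact_mod_cast S.n_facts.2.2.2.2.2.2
  have hB1 : (1 : ℝ) ≤ B := by rw [hB]; exact_mod_cast S.B_pos
  have hB0 : (0 : ℝ) < B := by linarith
  have hP0 : (0 : ℝ) < P := by rw [hP]; exact_mod_cast S.prime.pos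
  rw [← hX, ← hB, ← hR] at hX1
  rw [← hX, ← hB] at hX2
  have hX0 : 0 < X := lt_of_lt_of_le (by positivity) hX1
  have hBX : B ^ 2 ≤ 64 * R ^ 2 * X ^ 2 := by
    rw [div_le_iff₀ (by positivity)] at hX1
    calc B ^ 2 ≤ (X * (8 * R)) ^ 2 := pow_le_pow_left₀ hB0.le hX1 2
      _ = 64 * R ^ 2 * X ^ 2 := by ring
  obtain ⟨TR, hTR⟩ : ∃ TR : ℝ, TR = 8 * H * X ^ 2 := ⟨_, rfl⟩
  have hTR0 : 0 < TR := by rw [hTR]; positivity
  have hHB2 : H * B ^ 2 ≤ 8 * R ^ 2 * TR := by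
    rw [hTR]
    calc H * B ^ 2 ≤ H * (64 * R ^ 2 * X ^ 2) := mul_le_mul_of_nonneg_left hBX hH0.le
      _ = 8 * R ^ 2 * (8 * H * X ^ 2) := by ring
  have hHB : B ^ d ≤ H := by
    have h1 := S.hH1
    have h2 : S.B ^ d ≤ S.H := by
      have h3 : S.B = 4 * S.R ^ Mx * S.R ^ m := rfl
      rw [← h3] at h1
      omega
    rw [hB, hH]
    exact_mod_cast h2
  obtain ⟨U1, hU1⟩ : ∃ U1 : ℝ, U1 = 2 * C1 * H * R ^ 2 * B := ⟨_, rfl⟩
  have hU10 : 0 < U1 := by rw [hU1]; positivity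
  obtain ⟨c0, hc0⟩ : ∃ c0 : ℝ, c0 = 2 * C1 * H * R ^ 2 * B ^ 2 := ⟨_, rfl⟩
  have hc00 : 0 < c0 := by rw [hc0]; positivity
  obtain ⟨U, hU⟩ : ∃ U : ZMod S.P → ℝ, U = fun b => c0 * S.V A b := ⟨_, rfl⟩
  have hU0 : ∀ b, 0 ≤ U b := by
    intro b
    rw [hU]
    exact mul_nonneg hc00.le (S.V_nonneg A b)
  have hmin : ∀ b, S.Minor A b → ∀ i, FF S.P S.n d (S.X i) b b ≤ U1 := by
    intro b hb i
    refine (hl m Mx hm hMx S A b i).trans ?_
    unfold Setup.Minor at hb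
    rw [← hB] at hb
    rw [← hH, ← hR, ← hB, hU1]
    have h1 : B ^ 2 * S.V A b ≤ B := by
      calc B ^ 2 * S.V A b = B * (B * S.V A b) := by ring
        _ ≤ B * 1 := mul_le_mul_of_nonneg_left hb hB0.le
        _ = B := mul_one _
    calc C1 * H * R ^ 2 * (B + B ^ 2 * S.V A b) ≤ C1 * H * R ^ 2 * (B + B) :=
          mul_le_mul_of_nonneg_left (by linarith) (by positivity)
      _ = 2 * C1 * H * R ^ 2 * B := by ring
  have hmajV : ∀ b, ¬ S.Minor A b → B ≤ B ^ 2 * S.V A b := by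
    intro b hb
    unfold Setup.Minor at hb
    rw [not_le, ← hB] at hb
    have := mul_le_mul_of_nonneg_left hb.le hB0.le
    calc B = B * 1 := (mul_one _).symm
      _ ≤ B * (B * S.V A b) := this
      _ = B ^ 2 * S.V A b := by ring
  have hmaj : ∀ b, ¬ S.Minor A b → ∀ i, FF S.P S.n d (S.X i) b b ≤ U b := by
    intro b hb i
    refine (hl m Mx hm hMx S A b i).trans ?_
    rw [← hH, ← hR, ← hB, hU, hc0]
    have h1 := hmajV b hb
    calc C1 * H * R ^ 2 * (B + B ^ 2 * S.V A b) ≤ C1 * H * R ^ 2 * (B ^ 2 * S.V A b + B ^ 2 * S.V A b) := by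
          apply mul_le_mul_of_nonneg_left (by linarith) (by positivity)
      _ = 2 * C1 * H * R ^ 2 * B ^ 2 * S.V A b := by ring
  have hUge : ∀ b, ¬ S.Minor A b → H * B ≤ U b := by
    intro b hb
    have h1 := hmajV b hb
    rw [hU, hc0]
    calc H * B = 1 * 1 * H * B := by ring
      _ ≤ (2 * C1) * R ^ 2 * H * (B ^ 2 * S.V A b) := by
        have h2 : 1 ≤ 2 * C1 := by linarith
        have h3 : 1 ≤ R ^ 2 := one_le_pow₀ hR1
        gcongr
      _ = 2 * C1 * H * R ^ 2 * B ^ 2 * S.V A b := by ring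
  -- the product
  have i0 : (0 : ℕ) < s := by omega
  have i1 : (1 : ℕ) < s := by omega
  have hprod : ∀ b, S.Minor A b → ∀ b', ¬ S.Minor A b' →
      ∏ i, FF S.P S.n d (S.X i) b b' ≤
        FF S.P S.n d (S.X ⟨0, i0⟩) b b' * FF S.P S.n d (S.X ⟨1, i1⟩) b b' *
        (U1 * U b') ^ (d - 1) * Real.sqrt (U1 * TR) * TR ^ (s - (2 * d + 1)) := by
    intro b hb b' hb'
    have h1 := cmix_prod (by omega : 1 ≤ d) hs (fun i => FF S.P S.n d (S.X i) b b')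
      (fun i => cmix_nonneg S b b' i) (Real.sqrt (U1 * U b')) (Real.sqrt (U1 * TR)) TR
      (fun i _ _ => by
        apply Real.le_sqrt_of_sq_le
        refine (FF_cs S.n d S.n_facts.1 (S.X i) b b').trans ?_
        exact mul_le_mul (hmin b hb i) (hmaj b' hb' i) (cmix_nonneg S b' b' i) hU10.le)
      (fun i _ => by
        apply Real.le_sqrt_of_sq_le
        refine (FF_cs S.n d S.n_facts.1 (S.X i) b b').trans ?_
        refine mul_le_mul (hmin b hb i) ?_ (cmix_nonneg S b' b' i) hU10.le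
        rw [hTR, hH, hX]
        exact cmix_trivial hMx hm S b' b' i)
      (fun i _ => by
        rw [hTR, hH, hX]
        exact cmix_trivial hMx hm S b b' i)
    refine h1.trans (le_of_eq ?_)
    have h2 : 2 * d - 2 = 2 * (d - 1) := by omega
    rw [h2, pow_mul, Real.sq_sqrt (mul_nonneg hU10.le (hU0 b'))]
  -- the mean square
  have hL2 : ∀ (i : Fin s) (b' : ZMod S.P), ¬ S.Minor A b' →
      (1 / P) * ∑ b : ZMod S.P, FF S.P S.n d (S.X i) b b' ^ 2 ≤ 768 * R * B * U b' := by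
    intro i b' hb'
    obtain ⟨n1, n2, n3, n4, n5, n6, n7⟩ := S.n_facts
    have h1 := L2 S.n d S.H S.B S.R n7 S.B_pos n1 n2 n3 n4 n5
      (fun k hk1 hk2 => S.htau k hk1 (hk2.trans (cmix_HB hd S))) (S.X i)
      (fun x hx => ⟨(S.X_bounds (by omega) i x hx).1, (S.X_bounds (by omega) i x hx).2.1⟩)
      (by omega) b'
    rw [S.X_card hMx hm i, ← hX, ← hR, ← hP] at h1
    refine h1.trans ?_
    have h2 := hmaj b' hb' i
    have h3 := hUge b' hb'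
    have h4 : X ^ 4 ≤ R * B * U b' := by
      have h5 : B ^ 4 ≤ H := by
        refine le_trans ?_ hHB
        exact pow_le_pow_right₀ hB1 hd
      calc X ^ 4 ≤ B ^ 4 := pow_le_pow_left₀ hX0.le hX2 4
        _ ≤ H := h5
        _ = H * 1 := (mul_one _).symm
        _ ≤ H * B := mul_le_mul_of_nonneg_left hB1 hH0.le
        _ ≤ U b' := h3
        _ = (1 * 1) * U b' := by ring
        _ ≤ (R * B) * U b' := by
          apply mul_le_mul_of_nonneg_right _ (hU0 b')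
          exact mul_le_mul hR1 hB1 (by norm_num) hR0.le
    have h6 : 2 * R * X * FF S.P S.n d (S.X i) b' b' ≤ 2 * (R * B * U b') := by
      calc 2 * R * X * FF S.P S.n d (S.X i) b' b' ≤ 2 * R * B * U b' := by
            apply mul_le_mul _ h2 (cmix_nonneg S b' b' i) (by positivity)
            exact mul_le_mul_of_nonneg_left hX2 (by positivity)
        _ = 2 * (R * B * U b') := by ring
    linarith
  have hL2' : ∀ b' : ZMod S.P, ¬ S.Minor A b' →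
      (1 / P) * ∑ b ∈ (univ : Finset (ZMod S.P)).filter (fun b => S.Minor A b),
        FF S.P S.n d (S.X ⟨0, i0⟩) b b' * FF S.P S.n d (S.X ⟨1, i1⟩) b b' ≤
        768 * R * B * U b' := by
    intro b' hb'
    have h1 := hL2 ⟨0, i0⟩ b' hb'
    have h2 := hL2 ⟨1, i1⟩ b' hb'
    have h3 : ∑ b ∈ (univ : Finset (ZMod S.P)).filter (fun b => S.Minor A b),
        FF S.P S.n d (S.X ⟨0, i0⟩) b b' * FF S.P S.n d (S.X ⟨1, i1⟩) b b' ≤
        ∑ b : ZMod S.P, ((1 / 2) * FF S.P S.n d (S.X ⟨0, i0⟩) b b' ^ 2 +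
          (1 / 2) * FF S.P S.n d (S.X ⟨1, i1⟩) b b' ^ 2) := by
      refine (Finset.sum_le_sum (fun b _ => ?_)).trans
        (Finset.sum_le_sum_of_subset_of_nonneg (Finset.filter_subset _ _) (fun b _ _ => ?_))
      · nlinarith [sq_nonneg (FF S.P S.n d (S.X ⟨0, i0⟩) b b' - FF S.P S.n d (S.X ⟨1, i1⟩) b b')]
      · positivity
    rw [Finset.sum_add_distrib, ← Finset.mul_sum, ← Finset.mul_sum] at h3
    have h4 := mul_le_mul_of_nonneg_left h3 (by positivity : 0 ≤ 1 / P)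
    linarith
  -- the sum over `b'`
  have hsumU : (1 / P) * ∑ b' ∈ (univ : Finset (ZMod S.P)).filter (fun b' => ¬ S.Minor A b'),
      U b' ^ d ≤ c0 ^ d * (C3 / (H * B ^ d)) := by
    have h1 : ∑ b' ∈ (univ : Finset (ZMod S.P)).filter (fun b' => ¬ S.Minor A b'), U b' ^ d ≤
        ∑ b' : ZMod S.P, U b' ^ d :=
      Finset.sum_le_sum_of_subset_of_nonneg (Finset.filter_subset _ _)
        (fun b _ _ => pow_nonneg (hU0 b) _)
    have h2 : ∑ b' : ZMod S.P, U b' ^ d = c0 ^ d * ∑ b' : ZMod S.P, S.V A b' ^ d := by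
      rw [hU, Finset.mul_sum]
      refine Finset.sum_congr rfl (fun b _ => ?_)
      rw [mul_pow]
    calc (1 / P) * ∑ b' ∈ (univ : Finset (ZMod S.P)).filter (fun b' => ¬ S.Minor A b'), U b' ^ d
        ≤ (1 / P) * ∑ b' : ZMod S.P, U b' ^ d := mul_le_mul_of_nonneg_left h1 (by positivity)
      _ = c0 ^ d * ((1 / P) * ∑ b' : ZMod S.P, S.V A b' ^ d) := by rw [h2]; ring
      _ ≤ c0 ^ d * (C3 / (H * B ^ d)) := by
        apply mul_le_mul_of_nonneg_left _ (by positivity)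
        rw [hP, hH, hB]
        exact hma'
  -- assembling
  obtain ⟨Kc, hKc⟩ : ∃ Kc : ℝ, Kc = U1 ^ (d - 1) * Real.sqrt (U1 * TR) * TR ^ (s - (2 * d + 1)) :=
    ⟨_, rfl⟩
  have hKc0 : 0 ≤ Kc := by rw [hKc]; positivity
  have hmain1 : ∑ b ∈ (univ : Finset (ZMod S.P)).filter (fun b => S.Minor A b),
      ∑ b' ∈ (univ : Finset (ZMod S.P)).filter (fun b' => ¬ S.Minor A b'),
        psi S.P W J b * psi S.P W J b' * ∏ i, FF S.P S.n d (S.X i) b b' ≤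
      ∑ b' ∈ (univ : Finset (ZMod S.P)).filter (fun b' => ¬ S.Minor A b'),
        (4 * Kc * U b' ^ (d - 1)) *
        ∑ b ∈ (univ : Finset (ZMod S.P)).filter (fun b => S.Minor A b),
          FF S.P S.n d (S.X ⟨0, i0⟩) b b' * FF S.P S.n d (S.X ⟨1, i1⟩) b b' := by
    rw [Finset.sum_comm]
    refine Finset.sum_le_sum (fun b' hb' => ?_)
    rw [Finset.mul_sum]
    refine Finset.sum_le_sum (fun b hb => ?_)
    rw [Finset.mem_filter] at hb hb'
    have h1 := hprod b hb.2 b' hb'.2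
    have h2 : psi S.P W J b * psi S.P W J b' ≤ 4 := by
      calc psi S.P W J b * psi S.P W J b' ≤ 2 * 2 :=
            mul_le_mul (psi_le_two W J b) (psi_le_two W J b') (psi_nonneg W J b') (by norm_num)
        _ = 4 := by norm_num
    have h3 : 0 ≤ ∏ i, FF S.P S.n d (S.X i) b b' :=
      Finset.prod_nonneg (fun i _ => cmix_nonneg S b b' i)
    calc psi S.P W J b * psi S.P W J b' * ∏ i, FF S.P S.n d (S.X i) b b'
        ≤ 4 * ∏ i, FF S.P S.n d (S.X i) b b' := mul_le_mul_of_nonneg_right h2 h3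
      _ ≤ 4 * (FF S.P S.n d (S.X ⟨0, i0⟩) b b' * FF S.P S.n d (S.X ⟨1, i1⟩) b b' *
        (U1 * U b') ^ (d - 1) * Real.sqrt (U1 * TR) * TR ^ (s - (2 * d + 1))) := by linarith
      _ = (4 * Kc * U b' ^ (d - 1)) *
          (FF S.P S.n d (S.X ⟨0, i0⟩) b b' * FF S.P S.n d (S.X ⟨1, i1⟩) b b') := by
        rw [hKc, mul_pow]
        ring
  have hmain2 : (1 / P ^ 2) * ∑ b' ∈ (univ : Finset (ZMod S.P)).filter (fun b' => ¬ S.Minor A b'),
        (4 * Kc * U b' ^ (d - 1)) *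
        ∑ b ∈ (univ : Finset (ZMod S.P)).filter (fun b => S.Minor A b),
          FF S.P S.n d (S.X ⟨0, i0⟩) b b' * FF S.P S.n d (S.X ⟨1, i1⟩) b b' ≤
      (3072 * R * B * Kc) * ((1 / P) *
        ∑ b' ∈ (univ : Finset (ZMod S.P)).filter (fun b' => ¬ S.Minor A b'), U b' ^ d) := by
    rw [Finset.mul_sum, Finset.mul_sum, Finset.mul_sum]
    refine Finset.sum_le_sum (fun b' hb' => ?_)
    rw [Finset.mem_filter] at hb'
    have h1 := hL2' b' hb'.2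
    have h2 : 0 ≤ 4 * Kc * U b' ^ (d - 1) * (1 / P) := by
      have := hU0 b'
      positivity
    have h3 := mul_le_mul_of_nonneg_left h1 h2
    have h4 : U b' ^ d = U b' ^ (d - 1) * U b' := by
      rw [← pow_succ]
      congr 1
      omega
    rw [h4]
    calc _ = 4 * Kc * U b' ^ (d - 1) * (1 / P) * (1 / P *
          ∑ b ∈ (univ : Finset (ZMod S.P)).filter (fun b => S.Minor A b),
          FF S.P S.n d (S.X ⟨0, i0⟩) b b' * FF S.P S.n d (S.X ⟨1, i1⟩) b b') := by ring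
      _ ≤ 4 * Kc * U b' ^ (d - 1) * (1 / P) * (768 * R * B * U b') := h3
      _ = 3072 * R * B * Kc * (1 / P * (U b' ^ (d - 1) * U b')) := by ring
  rw [← hP]
  calc _ ≤ (1 / P ^ 2) * ∑ b' ∈ (univ : Finset (ZMod S.P)).filter (fun b' => ¬ S.Minor A b'),
        (4 * Kc * U b' ^ (d - 1)) *
        ∑ b ∈ (univ : Finset (ZMod S.P)).filter (fun b => S.Minor A b),
          FF S.P S.n d (S.X ⟨0, i0⟩) b b' * FF S.P S.n d (S.X ⟨1, i1⟩) b b' :=
        mul_le_mul_of_nonneg_left hmain1 (by positivity)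
    _ ≤ (3072 * R * B * Kc) * ((1 / P) *
        ∑ b' ∈ (univ : Finset (ZMod S.P)).filter (fun b' => ¬ S.Minor A b'), U b' ^ d) := hmain2
    _ ≤ (3072 * R * B * Kc) * (c0 ^ d * (C3 / (H * B ^ d))) :=
        mul_le_mul_of_nonneg_left hsumU (by positivity)
    _ = 3072 * R * B * (2 * C1 * H * R ^ 2 * B) ^ (d - 1) *
        Real.sqrt ((2 * C1 * H * R ^ 2 * B) * TR) * TR ^ (s - (2 * d + 1)) *
        (2 * C1 * H * R ^ 2 * B ^ 2) ^ d * (C3 / (H * B ^ d)) := by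
        rw [hKc, ← hU1, ← hc0]
        ring
    _ ≤ (8 * (3072 * 4 * C1 * C3 * (16 * C1) ^ (2 * d - 1))) * R ^ (8 * d + 1) / Real.sqrt B *
      (TR ^ s / (H * B ^ d) ^ 2) := cmix_alg d s hd hs hC1 hC3 hR2 hH0 hB1 hTR0 hHB2
    _ ≤ (8 * (3072 * 4 * C1 * C3 * (16 * C1) ^ (2 * d - 1))) * R ^ (cE d s * m) / Real.sqrt B *
      (TR ^ s / (H * B ^ d) ^ 2) := by
        have h1 : R ^ (8 * d + 1) ≤ R ^ (cE d s * m) := by
          apply pow_le_pow_right₀ hR1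
          unfold cE
          calc 8 * d + 1 ≤ (100 * (d + s) + 1000) * 1 := by omega
            _ ≤ (100 * (d + s) + 1000) * m := Nat.mul_le_mul_left _ hm
        gcongr
    _ = _ := by
        unfold Setup.main
        rw [← hH, ← hB, ← hX, ← hTR, ← hR]

end Pool.Agent.Lib.MP_e426f4_ag.DG
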