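import Mathlib

/-!
# Random diagonal hypersurfaces: definitions

Notation of the proof in `CAMP6_MP_e426f4_diag_proof.md`.
-/

set_option autoImplicit false

namespace Pool.Agent.Lib.MP_e426f4_ag.DG

open Finset

/-- The diagonal form `∑ a_i x_i^d` has a non-trivial zero over the field `K`. -/
def HasZero {s : ℕ} (K : Type) [Field K] (d : ℕ) (a : Fin s → ℤ) : Prop :=
  ∃ x : Fin s → K, x ≠ 0 ∧ ∑ i, (a i : K) * x i ^ d = 0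

/-- All coefficients are non-zero and the form has zeros over `ℝ` and all `ℚ_p`. -/
def ELS {s : ℕ} (d : ℕ) (a : Fin s → ℤ) : Prop :=
  (∀ i, a i ≠ 0) ∧ HasZero ℝ d a ∧ ∀ (p : ℕ) [Fact p.Prime], HasZero ℚ_[p] d a

/-- There is a non-trivial integral zero with `|x_i|^d ≤ H`. -/
def SmallZero {s : ℕ} (d H : ℕ) (a : Fin s → ℤ) : Prop :=
  ∃ x : Fin s → ℤ, x ≠ 0 ∧ ∑ i, a i * x i ^ d = 0 ∧ ∀ i, |x i| ^ d ≤ H

/-- The integer vectors with `|a_i| ≤ H`. -/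
noncomputable def box (s H : ℕ) : Finset (Fin s → ℤ) := Fintype.piFinset fun _ => Icc (-(H : ℤ)) H

/-- Two coefficients of opposite signs. -/
def Mixed {s : ℕ} (a : Fin s → ℤ) : Prop := ∃ i j, 0 < a i ∧ a j < 0

section Fourier

variable (P : ℕ) [NeZero P]

/-- `exp (2 π i c / P)` -/
noncomputable def ee (c : ZMod P) : ℂ := ZMod.stdAddChar c

noncomputable def Dn (n : ℕ) (a : ZMod P) : ℂ := ∑ j ∈ range n, ee P ((j : ZMod P) * a)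

noncomputable def wt (n : ℕ) (a : ZMod P) : ℝ := ‖Dn P n a‖ ^ 2 / (n : ℝ) ^ 2

noncomputable def wh (n : ℕ) (c : ZMod P) : ℝ :=
  (P : ℝ) / (n : ℝ) ^ 2 *
    (((range n ×ˢ range n).filter fun j : ℕ × ℕ =>
      (j.1 : ZMod P) - (j.2 : ZMod P) + c = 0).card : ℝ)

noncomputable def SS (d : ℕ) (X : Finset ℕ) (c : ZMod P) : ℂ :=
  ∑ x ∈ X, ee P (c * (x : ZMod P) ^ d)

noncomputable def FZ (n d : ℕ) (Z : Finset (ℕ × ℕ)) (b b' : ZMod P) : ℝ :=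
  ∑ z ∈ Z, wh P n (b * (z.1 : ZMod P) ^ d - b' * (z.2 : ZMod P) ^ d)

noncomputable def FF (n d : ℕ) (X : Finset ℕ) (b b' : ZMod P) : ℝ := FZ P n d (X ×ˢ X) b b'

/-- number of `x` in the box with `∑ a_i x_i^d = v` in `ZMod P` -/
noncomputable def NN {s : ℕ} (d : ℕ) (X : Fin s → Finset ℕ) (a : Fin s → ZMod P)
    (v : ZMod P) : ℝ :=
  (((Fintype.piFinset X).filter fun x : Fin s → ℕ =>
    ∑ i, a i * (x i : ZMod P) ^ d = v).card : ℝ)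

noncomputable def Mavg {s : ℕ} (d W J : ℕ) (X : Fin s → Finset ℕ) (a : Fin s → ZMod P) : ℝ :=
  (∑ j ∈ Icc (-(J : ℤ)) J, NN P d X a (((W : ℤ) * j : ℤ) : ZMod P)) / (2 * J + 1)

noncomputable def psi (W J : ℕ) (b : ZMod P) : ℝ :=
  1 - (∑ j ∈ Icc (-(J : ℤ)) J,
    Real.cos (2 * Real.pi * ((W : ℝ) * (j : ℝ) * ((b.val : ℝ) / P)))) / (2 * J + 1)

/-- right-hand side of the second moment identity -/
noncomputable def rhs {s : ℕ} (n d W J : ℕ) (X : Fin s → Finset ℕ) : ℝ :=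
  (1 / (P : ℝ) ^ 2) * ∑ b : ZMod P, ∑ b' : ZMod P,
    psi P W J b * psi P W J b' * ∏ i, FF P n d (X i) b b'

/-- Fejér kernel version -/
noncomputable def Ft (H d : ℕ) (Z : Finset (ℕ × ℕ)) (b b' : ZMod P) : ℝ :=
  ∑ z ∈ Z, ‖Dn P H (b * (z.1 : ZMod P) ^ d - b' * (z.2 : ZMod P) ^ d)‖ ^ 2 / H

end Fourier

/-- number of `d`-th roots of unity modulo `m` -/
def rho (d m : ℕ) : ℕ := ((range m).filter fun u => u ^ d ≡ 1 [MOD m]).card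

/-- the least `e ≥ 1` with `h ∣ e ^ d` -/
noncomputable def ed (d h : ℕ) : ℕ := sInf {e | 1 ≤ e ∧ h ∣ e ^ d}

noncomputable def kap (d q : ℕ) : ℝ := ∑ h ∈ q.divisors, (h : ℝ) / q / (ed d h : ℝ) ^ 2

/-- number of solutions modulo `W` -/
noncomputable def nu {s : ℕ} (d W : ℕ) (a : Fin s → ℤ) : ℝ :=
  (((Fintype.piFinset fun _ : Fin s => range W).filter fun x : Fin s → ℕ =>
    (W : ℤ) ∣ ∑ i, a i * (x i : ℤ) ^ d).card : ℝ)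

/-- Rational approximations to all `b/P`. -/
structure Arc (P Q : ℕ) where
  q : ZMod P → ℕ
  c : ZMod P → ℕ
  qpos : ∀ b, 1 ≤ q b
  qle : ∀ b, q b ≤ Q
  cle : ∀ b, c b ≤ q b
  cop : ∀ b, Nat.Coprime (c b) (q b)
  approx : ∀ b, |(b.val : ℝ) / P - (c b : ℝ) / q b| ≤ 1 / ((q b : ℝ) * (Q + 1))

noncomputable def Arc.dl {P Q : ℕ} (A : Arc P Q) (b : ZMod P) : ℝ :=
  (b.val : ℝ) / P - (A.c b : ℝ) / A.q b

/-- The parameters of the proof. `T = R^m`, `L = R^Mx`, `B = 4 L T`. -/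
structure Setup (d s m Mx E : ℕ) where
  R : ℕ
  H : ℕ
  P : ℕ
  PS : Fin s → Finset ℕ
  hR : 2 ≤ R
  prime : P.Prime
  hH1 : 16 * (4 * R ^ Mx * R ^ m) ^ d ≤ H
  hH2 : H ≤ 16 * 2 ^ ((m + Mx) * d) * (4 * R ^ Mx * R ^ m) ^ d
  hP : 8 * (s + 2) * H * (4 * R ^ Mx * R ^ m) ^ d < P
  hPS : ∀ i, ∀ l ∈ PS i, l.Prime ∧ R ^ Mx < l ∧ l ≤ 4 * R ^ Mx
  hdisj : ∀ i j, i ≠ j → Disjoint (PS i) (PS j)
  hcard : ∀ i, (PS i).card = R ^ (Mx - 1)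
  htau : ∀ k, 1 ≤ k → k ≤ (4 * R ^ Mx * R ^ m) ^ (4 * d) → k.divisors.card ≤ R
  hrho : ∀ k, 1 ≤ k → k ≤ (4 * R ^ Mx * R ^ m) ^ (4 * d) → rho d k ≤ R
  hlog : 1 + Real.log ((4 * (R : ℝ) ^ Mx * (R : ℝ) ^ m) ^ 2) ≤ R

namespace Setup

variable {d s m Mx E : ℕ} (S : Setup d s m Mx E)

def T : ℕ := S.R ^ m

def L : ℕ := S.R ^ Mx

def B : ℕ := 4 * S.R ^ Mx * S.R ^ m

/-- the length of the dual window -/
def n : ℕ := S.P / (4 * S.H)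

def I : Finset ℕ := (Icc 1 (S.R ^ m)).filter fun t => S.R ^ m < E * t

def X (i : Fin s) : Finset ℕ := (S.I ×ˢ S.PS i).image fun z => z.1 * z.2

/-- the common cardinality of the sets `X i` -/
noncomputable def XX : ℝ := (S.I.card : ℝ) * (S.R : ℝ) ^ (Mx - 1)

/-- pairs with the same large prime -/
def Z1 (i : Fin s) : Finset (ℕ × ℕ) :=
  (S.X i ×ˢ S.X i).filter fun z => ∃ l ∈ S.PS i, l ∣ z.1 ∧ l ∣ z.2

/-- pairs with different large primes -/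
def Z0 (i : Fin s) : Finset (ℕ × ℕ) :=
  (S.X i ×ˢ S.X i).filter fun z => ¬ ∃ l ∈ S.PS i, l ∣ z.1 ∧ l ∣ z.2

instance : NeZero S.P := ⟨S.prime.ne_zero⟩

/-- `min (1, 1/(H B^d |δ|))` -/
noncomputable def lam (A : Arc S.P (4 * S.B ^ d)) (b : ZMod S.P) : ℝ :=
  1 / max 1 ((S.H : ℝ) * (S.B : ℝ) ^ d * |A.dl b|)

/-- the main quantity `(8 H X²)^s / (H B^d)²` -/
noncomputable def main : ℝ :=
  (8 * (S.H : ℝ) * S.XX ^ 2) ^ s / ((S.H : ℝ) * (S.B : ℝ) ^ d) ^ 2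

end Setup

end Pool.Agent.Lib.MP_e426f4_ag.DG
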