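import Pool.Agent.Lib.MP_e426f4_ag.DG.Defs

/-!
# NuLift: smooth points modulo p lift
The points `x mod p` with all `a_i x_i = 0 mod p` are those with `x_i = 0` for all i with `p ∤ a_i`; there are `p^(number of i with p | a_i)` of them. Every other zero `x mod p` is smooth: `p ∤ d a_i x_i^(d-1)` for some i; it lifts to
exactly (at least) `p^((e-1)(s-1))` zeros mod `p^e`: induction on e: if `p^e | F(y)` with `y = x mod p`, `F = sum a_i x_i^d`, then for `z = y + p^e u`, `F(z) = F(y) + p^e sum_i d a_i y_i^(d-1) u_i mod p^(e+1)`,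
a non-trivial linear condition on u mod p: `p^(s-1)` solutions. (Or: choose the other coordinates freely and use Hensel / the bijectivity in the i-th variable.)
-/

set_option autoImplicit false

namespace Pool.Agent.Lib.MP_e426f4_ag.DG

open Finset

open Classical in
/-- smooth zeros modulo `p ^ e` -/
private noncomputable def nlS {s : ℕ} (d p : ℕ) (a : Fin s → ℤ) (e : ℕ) : Finset (Fin s → ℕ) :=
  (Fintype.piFinset fun _ : Fin s => range (p ^ e)).filter fun x : Fin s → ℕ =>
    ((p ^ e : ℕ) : ℤ) ∣ ∑ i, a i * (x i : ℤ) ^ d ∧ ∃ i, ¬ (p : ℤ) ∣ a i * (x i : ℤ)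

private theorem nl_mem {s : ℕ} {d p : ℕ} {a : Fin s → ℤ} {e : ℕ} {x : Fin s → ℕ} :
    x ∈ nlS d p a e ↔ (∀ i, x i < p ^ e) ∧ ((p ^ e : ℕ) : ℤ) ∣ ∑ i, a i * (x i : ℤ) ^ d ∧
      ∃ i, ¬ (p : ℤ) ∣ a i * (x i : ℤ) := by
  unfold nlS
  rw [mem_filter, Fintype.mem_piFinset]
  simp only [mem_range]

/-- expansion of the form -/
private theorem nl_expand {s : ℕ} (d : ℕ) (a : Fin s → ℤ) (P : ℤ) (y u : Fin s → ℤ) :
    ∃ K : ℤ, ∑ i, a i * (y i + P * u i) ^ d =
      ∑ i, a i * y i ^ d + P * ∑ i, (d * a i * y i ^ (d - 1)) * u i + P ^ 2 * K := by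
  have h1 : ∀ i, ∃ k : ℤ, (y i + P * u i) ^ d =
      y i ^ d + d * y i ^ (d - 1) * (P * u i) + k * (P * u i) ^ 2 := fun i =>
    ⟨(Polynomial.powAddExpansion (y i) (P * u i) d).1, (Polynomial.powAddExpansion _ _ d).2⟩
  choose k hk using h1
  refine ⟨∑ i, a i * k i * u i ^ 2, ?_⟩
  rw [mul_sum, mul_sum, ← sum_add_distrib, ← sum_add_distrib]
  refine sum_congr rfl fun i _ => ?_
  rw [hk i]
  ring

/-- a linear congruence -/
private theorem nl_solve (p : ℕ) (hp : p.Prime) (c B : ℤ) (hc : ¬ (p : ℤ) ∣ c) :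
    ∃ t : ℕ, t < p ∧ (p : ℤ) ∣ B + c * t := by
  have : Fact p.Prime := ⟨hp⟩
  have hc' : (c : ZMod p) ≠ 0 := by
    intro h
    exact hc ((ZMod.intCast_zmod_eq_zero_iff_dvd c p).1 h)
  refine ⟨(-(B : ZMod p) * (c : ZMod p)⁻¹).val, ZMod.val_lt _, ?_⟩
  rw [← ZMod.intCast_zmod_eq_zero_iff_dvd]
  push_cast
  rw [ZMod.natCast_zmod_val]
  field_simp
  ring

private theorem nl_step (d s p e : ℕ) (hs : 1 ≤ s) (hp : p.Prime) (hpd : ¬ p ∣ d) (he : 1 ≤ e)
    (a : Fin s → ℤ) : p ^ (s - 1) * (nlS d p a e).card ≤ (nlS d p a (e + 1)).card := by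
  classical
  have hpe : 0 < p ^ e := pow_pos hp.pos e
  -- the fibres of the reduction
  have hfib : ∀ y ∈ nlS d p a e,
      p ^ (s - 1) ≤ ((nlS d p a (e + 1)).filter fun x => (fun i => x i % p ^ e) = y).card := by
    intro y hy
    rw [nl_mem] at hy
    obtain ⟨hy1, ⟨k, hk⟩, i0, hi0⟩ := hy
    have hpP : Prime (p : ℤ) := Nat.prime_iff_prime_int.1 hp
    have hc0 : ¬ (p : ℤ) ∣ d * a i0 * (y i0 : ℤ) ^ (d - 1) := by
      intro h
      rcases hpP.dvd_or_dvd h with h1 | h1
      · rcases hpP.dvd_or_dvd h1 with h2 | h2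
        · exact hpd (by exact_mod_cast h2)
        · exact hi0 (Dvd.dvd.mul_right h2 _)
      · exact hi0 (Dvd.dvd.mul_left (hpP.dvd_of_dvd_pow h1) _)
    have hex : ∀ v : Fin s → ℕ, ∃ t : ℕ, t < p ∧
        (p : ℤ) ∣ (k + ∑ i, (d * a i * (y i : ℤ) ^ (d - 1)) * (v i : ℤ)) +
          (d * a i0 * (y i0 : ℤ) ^ (d - 1)) * t := fun v => nl_solve p hp _ _ hc0
    choose w hw1 hw2 using hex
    set V : Finset (Fin s → ℕ) :=
      Fintype.piFinset fun i : Fin s => if i = i0 then {0} else range p with hV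
    have hVcard : V.card = p ^ (s - 1) := by
      rw [hV, Fintype.card_piFinset]
      have h1 : ∀ i : Fin s, (if i = i0 then ({0} : Finset ℕ) else range p).card =
          if i = i0 then 1 else p := by
        intro i
        split_ifs <;> simp
      rw [prod_congr rfl fun i _ => h1 i, ← mul_prod_erase _ _ (mem_univ i0), if_pos rfl, one_mul,
        prod_congr rfl (g := fun _ => p) (fun i hi => if_neg (ne_of_mem_erase hi)), prod_const,
        card_erase_of_mem (mem_univ i0), card_univ, Fintype.card_fin]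
    have hVmem : ∀ v ∈ V, v i0 = 0 ∧ ∀ i, i ≠ i0 → v i < p := by
      intro v hv
      rw [hV, Fintype.mem_piFinset] at hv
      refine ⟨by simpa using hv i0, fun i hi => ?_⟩
      have := hv i
      rw [if_neg hi, mem_range] at this
      exact this
    rw [← hVcard]
    refine card_le_card_of_injOn
      (fun v i => y i + p ^ e * (v i + if i = i0 then w v else 0)) ?_ ?_
    · intro v hv
      obtain ⟨hv0, hv1⟩ := hVmem v hv
      have hu : ∀ i, (v i + if i = i0 then w v else 0) < p := by
        intro i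
        by_cases hi : i = i0
        · rw [if_pos hi, hi, hv0, zero_add]
          exact hw1 v
        · rw [if_neg hi, add_zero]
          exact hv1 i hi
      rw [mem_coe, mem_filter, nl_mem]
      refine ⟨⟨fun i => ?_, ?_, i0, ?_⟩, ?_⟩
      · show y i + p ^ e * (v i + if i = i0 then w v else 0) < p ^ (e + 1)
        have h1 := hu i
        have h2 := hy1 i
        calc y i + p ^ e * (v i + if i = i0 then w v else 0)
            < p ^ e + p ^ e * (v i + if i = i0 then w v else 0) := by omega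
          _ = p ^ e * ((v i + if i = i0 then w v else 0) + 1) := by ring
          _ ≤ p ^ e * p := Nat.mul_le_mul_left _ h1
          _ = p ^ (e + 1) := (pow_succ p e).symm
      · obtain ⟨K, hK⟩ := nl_expand d a ((p ^ e : ℕ) : ℤ) (fun i => (y i : ℤ))
          (fun i => ((v i + if i = i0 then w v else 0 : ℕ) : ℤ))
        have h1 : ∑ i, a i * (((y i + p ^ e * (v i + if i = i0 then w v else 0) : ℕ) : ℤ)) ^ d =
            ∑ i, a i * ((y i : ℤ) + ((p ^ e : ℕ) : ℤ) *
              ((v i + if i = i0 then w v else 0 : ℕ) : ℤ)) ^ d := by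
          refine sum_congr rfl fun i _ => ?_
          push_cast
          rfl
        have h2 : ∑ i, (d * a i * (y i : ℤ) ^ (d - 1)) *
            ((v i + if i = i0 then w v else 0 : ℕ) : ℤ) =
            ∑ i, (d * a i * (y i : ℤ) ^ (d - 1)) * (v i : ℤ) +
              (d * a i0 * (y i0 : ℤ) ^ (d - 1)) * w v := by
          have h6 : (d * a i0 * (y i0 : ℤ) ^ (d - 1)) * (w v : ℤ) =
              ∑ i, if i = i0 then (d * a i * (y i : ℤ) ^ (d - 1)) * (w v : ℤ) else 0 := by
            rw [Finset.sum_ite_eq' univ i0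
              (fun i => (d * a i * (y i : ℤ) ^ (d - 1)) * (w v : ℤ)), if_pos (mem_univ _)]
          rw [h6, ← sum_add_distrib]
          refine sum_congr rfl fun i _ => ?_
          by_cases hi : i = i0
          · simp only [hi, if_true]
            push_cast
            ring
          · simp only [hi, if_false]
            push_cast
            ring
        show ((p ^ (e + 1) : ℕ) : ℤ) ∣
          ∑ i, a i * (((y i + p ^ e * (v i + if i = i0 then w v else 0) : ℕ) : ℤ)) ^ d
        rw [h1, hK, h2, hk]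
        obtain ⟨r, hr⟩ := hw2 v
        have h3 : ((p ^ (e + 1) : ℕ) : ℤ) = ((p ^ e : ℕ) : ℤ) * p := by
          push_cast
          exact pow_succ _ _
        obtain ⟨q, hq⟩ : (p : ℤ) ∣ ((p ^ e : ℕ) : ℤ) := by
          exact_mod_cast dvd_pow_self p (by omega : e ≠ 0)
        refine ⟨r + q * K, ?_⟩
        rw [h3]
        have h4 : ((p ^ e : ℕ) : ℤ) * k + ((p ^ e : ℕ) : ℤ) *
            (∑ i, (d * a i * (y i : ℤ) ^ (d - 1)) * (v i : ℤ) +
              (d * a i0 * (y i0 : ℤ) ^ (d - 1)) * w v) =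
            ((p ^ e : ℕ) : ℤ) * (p * r) := by
          rw [← hr]
          ring
        rw [h4, sq]
        nth_rewrite 3 [hq]
        ring
      · show ¬ (p : ℤ) ∣ a i0 * (((y i0 + p ^ e * (v i0 + if i0 = i0 then w v else 0) : ℕ) : ℤ))
        intro h
        apply hi0
        push_cast at h
        rw [mul_add] at h
        have h5 : (p : ℤ) ∣ a i0 * ((p : ℤ) ^ e * ((v i0 : ℤ) + if i0 = i0 then (w v : ℤ) else 0)) :=
          Dvd.dvd.mul_left (Dvd.dvd.mul_right (dvd_pow_self _ (by omega)) _) _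
        exact (dvd_add_left h5).1 h
      · funext i
        show (y i + p ^ e * (v i + if i = i0 then w v else 0)) % p ^ e = y i
        rw [Nat.add_mul_mod_self_left, Nat.mod_eq_of_lt (hy1 i)]
    · intro v hv v' hv' h
      obtain ⟨hv0, -⟩ := hVmem v hv
      obtain ⟨hv0', -⟩ := hVmem v' hv'
      funext i
      by_cases hi : i = i0
      · rw [hi, hv0, hv0']
      · have h1 := congrFun h i
        simp only [hi, if_false, add_zero] at h1
        exact Nat.eq_of_mul_eq_mul_left hpe (Nat.add_left_cancel h1)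
  calc p ^ (s - 1) * (nlS d p a e).card = ∑ y ∈ nlS d p a e, p ^ (s - 1) := by
        rw [sum_const, smul_eq_mul, mul_comm]
    _ ≤ ∑ y ∈ nlS d p a e,
        ((nlS d p a (e + 1)).filter fun x => (fun i => x i % p ^ e) = y).card :=
        sum_le_sum hfib
    _ = ((nlS d p a (e + 1)).filter fun x => (fun i => x i % p ^ e) ∈ nlS d p a e).card :=
        sum_card_fiberwise_eq_card_filter _ _ _
    _ ≤ (nlS d p a (e + 1)).card := card_filter_le _ _

theorem nu_lift (d s p e : ℕ) (hd : 1 ≤ d) (hs : 1 ≤ s) (hp : p.Prime) (hpd : ¬ p ∣ d) (he : 1 ≤ e)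
    (a : Fin s → ℤ) :
    (p : ℝ) ^ ((e - 1) * (s - 1)) *
      (nu d p a - (p : ℝ) ^ ((univ : Finset (Fin s)).filter fun i => (p : ℤ) ∣ a i).card) ≤
      nu d (p ^ e) a := by
  classical
  -- all lifts
  have hall : ∀ e, 1 ≤ e → p ^ ((e - 1) * (s - 1)) * (nlS d p a 1).card ≤ (nlS d p a e).card := by
    intro e he
    induction e, he using Nat.le_induction with
    | base => simp
    | succ e he ih =>
      have h1 := nl_step d s p e hs hp hpd he a
      have h2 : (e + 1 - 1) * (s - 1) = (s - 1) + (e - 1) * (s - 1) := by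
        obtain ⟨f, rfl⟩ : ∃ f, e = f + 1 := ⟨e - 1, by omega⟩
        simp only [Nat.add_sub_cancel]
        ring
      rw [h2, pow_add, mul_assoc]
      exact (Nat.mul_le_mul_left _ ih).trans h1
  -- first level
  have h1 : nu d p a ≤ (nlS d p a 1).card +
      (p : ℝ) ^ ((univ : Finset (Fin s)).filter fun i => (p : ℤ) ∣ a i).card := by
    unfold nu
    set A := ((Fintype.piFinset fun _ : Fin s => range p).filter fun x : Fin s → ℕ =>
      (p : ℤ) ∣ ∑ i, a i * (x i : ℤ) ^ d) with hA
    set V : Finset (Fin s → ℕ) :=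
      Fintype.piFinset fun i : Fin s => if (p : ℤ) ∣ a i then range p else {0} with hV
    have hVcard : V.card = p ^ ((univ : Finset (Fin s)).filter fun i => (p : ℤ) ∣ a i).card := by
      rw [hV, Fintype.card_piFinset]
      have h1 : ∀ i : Fin s, (if (p : ℤ) ∣ a i then range p else ({0} : Finset ℕ)).card =
          if (p : ℤ) ∣ a i then p else 1 := by
        intro i
        split_ifs <;> simp
      rw [prod_congr rfl fun i _ => h1 i, prod_ite, prod_const, prod_const_one, mul_one]
    have hsub : A ⊆ nlS d p a 1 ∪ V := by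
      intro x hx
      rw [hA, mem_filter, Fintype.mem_piFinset] at hx
      simp only [mem_range] at hx
      rw [mem_union]
      by_cases hx2 : ∃ i, ¬ (p : ℤ) ∣ a i * (x i : ℤ)
      · left
        rw [nl_mem]
        simp only [pow_one]
        exact ⟨hx.1, hx.2, hx2⟩
      · right
        push Not at hx2
        rw [hV, Fintype.mem_piFinset]
        intro i
        by_cases hi : (p : ℤ) ∣ a i
        · rw [if_pos hi, mem_range]
          exact hx.1 i
        · rw [if_neg hi, mem_singleton]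
          have hpP : Prime (p : ℤ) := Nat.prime_iff_prime_int.1 hp
          have h2 := (hpP.dvd_or_dvd (hx2 i)).resolve_left hi
          have h3 : p ∣ x i := by exact_mod_cast h2
          exact Nat.eq_zero_of_dvd_of_lt h3 (hx.1 i)
    have h2 : A.card ≤ (nlS d p a 1).card + V.card :=
      (card_le_card hsub).trans (card_union_le _ _)
    rw [hVcard] at h2
    exact_mod_cast h2
  -- the smooth zeros are zeros
  have h2 : ((nlS d p a e).card : ℝ) ≤ nu d (p ^ e) a := by
    unfold nu
    have h3 : nlS d p a e ⊆ ((Fintype.piFinset fun _ : Fin s => range (p ^ e)).filter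
        fun x : Fin s → ℕ => ((p ^ e : ℕ) : ℤ) ∣ ∑ i, a i * (x i : ℤ) ^ d) := by
      intro x hx
      rw [nl_mem] at hx
      rw [mem_filter, Fintype.mem_piFinset]
      simp only [mem_range]
      exact ⟨hx.1, hx.2.1⟩
    exact_mod_cast card_le_card h3
  have h3 : (p : ℝ) ^ ((e - 1) * (s - 1)) * (nlS d p a 1).card ≤ (nlS d p a e).card := by
    exact_mod_cast hall e he
  calc (p : ℝ) ^ ((e - 1) * (s - 1)) *
      (nu d p a - (p : ℝ) ^ ((univ : Finset (Fin s)).filter fun i => (p : ℤ) ∣ a i).card)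
      ≤ (p : ℝ) ^ ((e - 1) * (s - 1)) * (nlS d p a 1).card := by
        apply mul_le_mul_of_nonneg_left _ (by positivity)
        linarith
    _ ≤ (nlS d p a e).card := h3
    _ ≤ nu d (p ^ e) a := h2

end Pool.Agent.Lib.MP_e426f4_ag.DG
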