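import Pool.Agent.Lib.MP_e426f4_ag.DG.Defs
import Pool.Agent.Lib.MP_e426f4_ag.DG.NuLift
import Pool.Agent.Lib.MP_e426f4_ag.DG.NuVar
import Pool.Agent.Lib.MP_e426f4_ag.DG.BoxRes

/-!
# NuLarge: large primes
If `nu d (p^e) a < (1 - 2/p^2) p^(e(s-1))` for some e >= 1 then by `nu_lift` (`d < p`, so `p ∤ d`) `nu_p(a) - p^z < (1 - 2/p^2) p^(s-1)`, z = number of i with `p | a_i`. So either `z >= s-2`, or `z <= s-3` and
`nu_p(a) < (1 - 1/p^2) p^(s-1)`, i.e. `p^(s-1) - nu_p > p^(s-3)`. Both depend only on a mod p. Number of classes with `z >= s-2`: `<= s^2 p^2`; number in the second case: `<= d^s p^(2s)/p^(2(s-3)) = d^s p^6` (`nu_var`, Chebyshev;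
`nu d p a` depends only on a mod p). `box_residue` with `m = p`: `<= (s^2 + d^s) p^6 (4H/p)^s <= C H^s p^(6-s) <= C H^s/p^2` as `s >= 9`.
-/

set_option autoImplicit false

namespace Pool.Agent.Lib.MP_e426f4_ag.DG

open Finset

private lemma nul_congr {s : ℕ} (d p : ℕ) (a b : Fin s → ℤ) (h : ∀ i, a i ≡ b i [ZMOD p]) :
    nu d p a = nu d p b := by
  unfold nu
  congr 2
  refine Finset.filter_congr fun x _ => ?_
  have h1 : ∑ i, a i * (x i : ℤ) ^ d ≡ ∑ i, b i * (x i : ℤ) ^ d [ZMOD p] :=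
    Int.ModEq.sum fun i _ => (h i).mul_right _
  rw [← Int.modEq_zero_iff_dvd, ← Int.modEq_zero_iff_dvd]
  exact ⟨fun h2 => h1.symm.trans h2, fun h2 => h1.trans h2⟩

private lemma nul_few {s p : ℕ} (hs : 3 ≤ s) (hp : 0 < p) :
    ((Fintype.piFinset (fun _ : Fin s => range p)).filter fun r =>
      s - 2 ≤ ((univ : Finset (Fin s)).filter fun i => r i = 0).card).card ≤ s ^ 2 * p ^ 2 := by
  classical
  let g : (Fin s × Fin s) × (ℕ × ℕ) → (Fin s → ℕ) := fun z =>
    Function.update (Function.update 0 z.1.1 z.2.1) z.1.2 z.2.2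
  have hsub : ((Fintype.piFinset (fun _ : Fin s => range p)).filter fun r =>
      s - 2 ≤ ((univ : Finset (Fin s)).filter fun i => r i = 0).card) ⊆
      ((univ ×ˢ univ) ×ˢ (range p ×ˢ range p)).image g := by
    intro r hr
    rw [Finset.mem_filter, Fintype.mem_piFinset] at hr
    obtain ⟨hr1, hr2⟩ := hr
    have h1 : ((univ : Finset (Fin s)).filter fun i => r i = 0).card +
        ((univ : Finset (Fin s)).filter fun i => ¬ r i = 0).card = s := by
      rw [Finset.card_filter_add_card_filter_not, Finset.card_univ, Fintype.card_fin]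
    have h2 : ((univ : Finset (Fin s)).filter fun i => ¬ r i = 0).card ≤ 2 := by omega
    have h3 : ∃ i j : Fin s, ∀ k, r k ≠ 0 → k = i ∨ k = j := by
      have i0 : Fin s := ⟨0, by omega⟩
      interval_cases hN : ((univ : Finset (Fin s)).filter fun i => ¬ r i = 0).card
      · rw [Finset.card_eq_zero] at hN
        refine ⟨i0, i0, fun k hk => ?_⟩
        have : k ∈ ((univ : Finset (Fin s)).filter fun i => ¬ r i = 0) :=
          Finset.mem_filter.2 ⟨Finset.mem_univ _, hk⟩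
        rw [hN] at this
        exact absurd this (Finset.notMem_empty _)
      · rw [Finset.card_eq_one] at hN
        obtain ⟨i, hi⟩ := hN
        refine ⟨i, i, fun k hk => ?_⟩
        have : k ∈ ((univ : Finset (Fin s)).filter fun i => ¬ r i = 0) :=
          Finset.mem_filter.2 ⟨Finset.mem_univ _, hk⟩
        rw [hi, Finset.mem_singleton] at this
        exact Or.inl this
      · rw [Finset.card_eq_two] at hN
        obtain ⟨i, j, -, hij⟩ := hN
        refine ⟨i, j, fun k hk => ?_⟩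
        have : k ∈ ((univ : Finset (Fin s)).filter fun i => ¬ r i = 0) :=
          Finset.mem_filter.2 ⟨Finset.mem_univ _, hk⟩
        rw [hij, Finset.mem_insert, Finset.mem_singleton] at this
        exact this
    obtain ⟨i, j, hij⟩ := h3
    rw [Finset.mem_image]
    refine ⟨((i, j), (r i, r j)), ?_, ?_⟩
    · rw [Finset.mem_product, Finset.mem_product, Finset.mem_product]
      exact ⟨⟨Finset.mem_univ _, Finset.mem_univ _⟩, ⟨hr1 i, hr1 j⟩⟩
    · funext k
      show Function.update (Function.update (0 : Fin s → ℕ) i (r i)) j (r j) k = r k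
      by_cases hkj : k = j
      · subst hkj
        rw [Function.update_self]
      · rw [Function.update_of_ne hkj]
        by_cases hki : k = i
        · subst hki
          rw [Function.update_self]
        · rw [Function.update_of_ne hki]
          by_contra hne
          rcases hij k (fun h => hne h.symm) with h | h
          · exact hki h
          · exact hkj h
  refine (Finset.card_le_card hsub).trans (Finset.card_image_le.trans ?_)
  rw [Finset.card_product, Finset.card_product, Finset.card_product, Finset.card_univ,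
    Fintype.card_fin, Finset.card_range]
  exact le_of_eq (by ring)

open Classical in
theorem nu_large (d s : ℕ) (hd : 4 ≤ d) (hs : 2 * d + 1 ≤ s) : ∃ C : ℝ, 0 < C ∧
    ∀ (p H : ℕ), p.Prime → d < p → p ≤ H →
    (((box s H).filter fun a : Fin s → ℤ => ∃ e : ℕ, 1 ≤ e ∧
      nu d (p ^ e) a < (1 - 2 / (p : ℝ) ^ 2) * (p : ℝ) ^ (e * (s - 1))).card : ℝ) ≤
      C / (p : ℝ) ^ 2 * (H : ℝ) ^ s := by
  refine ⟨((s : ℝ) ^ 2 + (d : ℝ) ^ s) * 4 ^ s, by positivity, ?_⟩
  intro p H hp hdp hpH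
  have hp0 : (0 : ℝ) < p := by exact_mod_cast hp.pos
  have hp1 : (1 : ℝ) ≤ p := by exact_mod_cast hp.one_le
  have hpd : ¬ p ∣ d := fun h => by
    have := Nat.le_of_dvd (by omega) h
    omega
  set Bd : Finset (Fin s → ℕ) := (Fintype.piFinset (fun _ : Fin s => range p)).filter fun r =>
    s - 2 ≤ ((univ : Finset (Fin s)).filter fun i => r i = 0).card ∨
      (p : ℝ) ^ (2 * (s - 3)) ≤ (nu d p (fun i => (r i : ℤ)) - (p : ℝ) ^ (s - 1)) ^ 2 with hBd
  -- the residue classes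
  have hsub : ((box s H).filter fun a : Fin s → ℤ => ∃ e : ℕ, 1 ≤ e ∧
      nu d (p ^ e) a < (1 - 2 / (p : ℝ) ^ 2) * (p : ℝ) ^ (e * (s - 1))) ⊆
      ((box s H).filter fun a : Fin s → ℤ => ∃ r ∈ Bd, ∀ i, a i ≡ r i [ZMOD p]) := by
    intro a ha
    rw [Finset.mem_filter] at ha ⊢
    obtain ⟨ha1, e, he, hlt⟩ := ha
    refine ⟨ha1, fun i => (a i % p).toNat, ?_, ?_⟩
    swap
    · intro i
      have h1 : ((a i % (p : ℤ)).toNat : ℤ) = a i % p :=
        Int.toNat_of_nonneg (Int.emod_nonneg _ (by exact_mod_cast hp.ne_zero))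
      rw [h1]
      exact (Int.mod_modEq _ _).symm
    have hr : ∀ i, ((a i % (p : ℤ)).toNat : ℤ) = a i % p := fun i =>
      Int.toNat_of_nonneg (Int.emod_nonneg _ (by exact_mod_cast hp.ne_zero))
    have hcong : ∀ i, a i ≡ (((a i % (p : ℤ)).toNat : ℕ) : ℤ) [ZMOD p] := fun i => by
      rw [hr i]
      exact (Int.mod_modEq _ _).symm
    have hnu : nu d p (fun i => (((a i % (p : ℤ)).toNat : ℕ) : ℤ)) = nu d p a :=
      (nul_congr d p _ _ hcong).symm
    rw [hBd, Finset.mem_filter, Fintype.mem_piFinset]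
    refine ⟨?_, ?_⟩
    · intro i
      rw [Finset.mem_range]
      have h1 := Int.emod_lt_of_pos (a i) (show (0 : ℤ) < p by exact_mod_cast hp.pos)
      have h2 := hr i
      omega
    have hz : ((univ : Finset (Fin s)).filter fun i => (a i % (p : ℤ)).toNat = 0).card
        = ((univ : Finset (Fin s)).filter fun i => (p : ℤ) ∣ a i).card := by
      congr 1
      refine Finset.filter_congr fun i _ => ?_
      have h2 := hr i
      have h3 : (a i % (p : ℤ)).toNat = 0 ↔ a i % (p : ℤ) = 0 := by omega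
      rw [h3]
      exact (Int.dvd_iff_emod_eq_zero).symm
    show s - 2 ≤ ((univ : Finset (Fin s)).filter fun i => (a i % (p : ℤ)).toNat = 0).card ∨
      (p : ℝ) ^ (2 * (s - 3)) ≤
        (nu d p (fun i => (((a i % (p : ℤ)).toNat : ℕ) : ℤ)) - (p : ℝ) ^ (s - 1)) ^ 2
    rw [hz, hnu]
    set z := ((univ : Finset (Fin s)).filter fun i => (p : ℤ) ∣ a i).card with hzdef
    by_cases hz2 : s - 2 ≤ z
    · exact Or.inl hz2
    right
    have hlift := nu_lift d s p e (by omega) (by omega) hp hpd he a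
    rw [← hzdef] at hlift
    have h4 : (p : ℝ) ^ ((e - 1) * (s - 1)) * (nu d p a - (p : ℝ) ^ z) <
        (p : ℝ) ^ ((e - 1) * (s - 1)) * ((1 - 2 / (p : ℝ) ^ 2) * (p : ℝ) ^ (s - 1)) := by
      refine lt_of_le_of_lt hlift (lt_of_lt_of_eq hlt ?_)
      obtain ⟨f, rfl⟩ : ∃ f, e = f + 1 := ⟨e - 1, by omega⟩
      rw [Nat.add_sub_cancel, add_mul, one_mul, pow_add]
      ring
    have h5 : nu d p a - (p : ℝ) ^ z < (1 - 2 / (p : ℝ) ^ 2) * (p : ℝ) ^ (s - 1) :=
      lt_of_mul_lt_mul_left h4 (by positivity)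
    have h6 : (p : ℝ) ^ z ≤ (p : ℝ) ^ (s - 3) := pow_le_pow_right₀ hp1 (by omega)
    have h7 : (p : ℝ) ^ (s - 1) = (p : ℝ) ^ (s - 3) * (p : ℝ) ^ 2 := by
      rw [← pow_add]
      congr 1
      omega
    have h8 : (1 - 2 / (p : ℝ) ^ 2) * (p : ℝ) ^ (s - 1)
        = (p : ℝ) ^ (s - 1) - 2 * (p : ℝ) ^ (s - 3) := by
      rw [h7]
      field_simp
    have h9 : (p : ℝ) ^ (s - 3) ≤ (p : ℝ) ^ (s - 1) - nu d p a := by linarith
    have h10 : (p : ℝ) ^ (2 * (s - 3)) = ((p : ℝ) ^ (s - 3)) ^ 2 := by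
      rw [← pow_mul, mul_comm]
    rw [h10]
    have h11 : (0 : ℝ) ≤ (p : ℝ) ^ (s - 3) := by positivity
    nlinarith
  -- the number of classes
  have hcard : (Bd.card : ℝ) ≤ ((s : ℝ) ^ 2 + (d : ℝ) ^ s) * (p : ℝ) ^ 6 := by
    have h1 : Bd ⊆ ((Fintype.piFinset (fun _ : Fin s => range p)).filter fun r =>
        s - 2 ≤ ((univ : Finset (Fin s)).filter fun i => r i = 0).card) ∪
        ((Fintype.piFinset (fun _ : Fin s => range p)).filter fun r =>
        (p : ℝ) ^ (2 * (s - 3)) ≤ (nu d p (fun i => (r i : ℤ)) - (p : ℝ) ^ (s - 1)) ^ 2) := by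
      intro r hr
      rw [hBd, Finset.mem_filter] at hr
      rw [Finset.mem_union, Finset.mem_filter, Finset.mem_filter]
      rcases hr.2 with h | h
      · exact Or.inl ⟨hr.1, h⟩
      · exact Or.inr ⟨hr.1, h⟩
    have h2 := nul_few (s := s) (p := p) (by omega) hp.pos
    set B2 := ((Fintype.piFinset (fun _ : Fin s => range p)).filter fun r =>
        (p : ℝ) ^ (2 * (s - 3)) ≤ (nu d p (fun i => (r i : ℤ)) - (p : ℝ) ^ (s - 1)) ^ 2) with hB2
    have h3 : (B2.card : ℝ) * (p : ℝ) ^ (2 * (s - 3)) ≤ (d : ℝ) ^ s * (p : ℝ) ^ (2 * s) := by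
      calc (B2.card : ℝ) * (p : ℝ) ^ (2 * (s - 3))
          = ∑ _r ∈ B2, (p : ℝ) ^ (2 * (s - 3)) := by rw [Finset.sum_const, nsmul_eq_mul]
        _ ≤ ∑ r ∈ B2, (nu d p (fun i => (r i : ℤ)) - (p : ℝ) ^ (s - 1)) ^ 2 :=
            Finset.sum_le_sum fun r hr => (Finset.mem_filter.1 hr).2
        _ ≤ ∑ r ∈ Fintype.piFinset (fun _ : Fin s => range p),
              (nu d p (fun i => (r i : ℤ)) - (p : ℝ) ^ (s - 1)) ^ 2 :=
            Finset.sum_le_sum_of_subset_of_nonneg (Finset.filter_subset _ _)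
              fun r _ _ => sq_nonneg _
        _ ≤ _ := nu_var d s p (by omega) (by omega) hp
    have h4 : (B2.card : ℝ) ≤ (d : ℝ) ^ s * (p : ℝ) ^ 6 := by
      have h5 : (p : ℝ) ^ (2 * s) = (p : ℝ) ^ 6 * (p : ℝ) ^ (2 * (s - 3)) := by
        rw [← pow_add]
        congr 1
        omega
      rw [h5, ← mul_assoc] at h3
      exact le_of_mul_le_mul_right h3 (by positivity)
    have h6 : Bd.card ≤ s ^ 2 * p ^ 2 + B2.card :=
      (Finset.card_le_card h1).trans ((Finset.card_union_le _ _).trans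
        (Nat.add_le_add_right h2 _))
    have h7 : (Bd.card : ℝ) ≤ (s : ℝ) ^ 2 * (p : ℝ) ^ 2 + B2.card := by exact_mod_cast h6
    have h8 : (p : ℝ) ^ 2 ≤ (p : ℝ) ^ 6 := pow_le_pow_right₀ hp1 (by norm_num)
    have h9 : (s : ℝ) ^ 2 * (p : ℝ) ^ 2 ≤ (s : ℝ) ^ 2 * (p : ℝ) ^ 6 :=
      mul_le_mul_of_nonneg_left h8 (by positivity)
    calc (Bd.card : ℝ) ≤ (s : ℝ) ^ 2 * (p : ℝ) ^ 6 + (d : ℝ) ^ s * (p : ℝ) ^ 6 := by linarith
      _ = _ := by ring
  have hbox := box_residue s H p hp.one_le hpH Bd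
  calc _ ≤ ((((box s H).filter fun a : Fin s → ℤ =>
        ∃ r ∈ Bd, ∀ i, a i ≡ r i [ZMOD p]).card : ℕ) : ℝ) := by
        exact_mod_cast Finset.card_le_card hsub
    _ ≤ Bd.card * (4 * (H : ℝ) / p) ^ s := hbox
    _ ≤ (((s : ℝ) ^ 2 + (d : ℝ) ^ s) * (p : ℝ) ^ 6) * (4 * (H : ℝ) / p) ^ s :=
        mul_le_mul_of_nonneg_right hcard (by positivity)
    _ = (((s : ℝ) ^ 2 + (d : ℝ) ^ s) * 4 ^ s) * ((p : ℝ) ^ 6 / (p : ℝ) ^ s) * (H : ℝ) ^ s := by
        rw [div_pow, mul_pow]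
        ring
    _ ≤ (((s : ℝ) ^ 2 + (d : ℝ) ^ s) * 4 ^ s) * (1 / (p : ℝ) ^ 2) * (H : ℝ) ^ s := by
        refine mul_le_mul_of_nonneg_right (mul_le_mul_of_nonneg_left ?_ (by positivity))
          (by positivity)
        rw [div_le_div_iff₀ (by positivity) (by positivity), one_mul, ← pow_add]
        exact pow_le_pow_right₀ hp1 (by omega)
    _ = _ := by ring

end Pool.Agent.Lib.MP_e426f4_ag.DG
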