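import Pool.Agent.Lib.MP_e426f4_ag.DG.Defs

/-!
# NuMul
Chinese remainder: for solutions `x` mod m and `y` mod n let `z_i < mn` with `z_i = x_i` mod m, `z_i = y_i` mod n (`Nat.chineseRemainder`). The map is injective and `m`, `n` divide the form at z, so `mn` does.
-/

set_option autoImplicit false

namespace Pool.Agent.Lib.MP_e426f4_ag.DG

open Finset

private theorem form_dvd_of_modEq {s d m : ℕ} (a : Fin s → ℤ) {x z : Fin s → ℕ}
    (h : ∀ i, z i ≡ x i [MOD m]) (hx : (m : ℤ) ∣ ∑ i, a i * (x i : ℤ) ^ d) :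
    (m : ℤ) ∣ ∑ i, a i * (z i : ℤ) ^ d := by
  have h1 : (m : ℤ) ∣ ∑ i, (a i * (z i : ℤ) ^ d - a i * (x i : ℤ) ^ d) := by
    refine Finset.dvd_sum fun i _ => ?_
    rw [← mul_sub]
    refine Dvd.dvd.mul_left ?_ _
    have h2 : (m : ℤ) ∣ (z i : ℤ) - (x i : ℤ) := (Nat.modEq_iff_dvd.mp (h i).symm)
    exact h2.trans (sub_dvd_pow_sub_pow _ _ _)
  rw [Finset.sum_sub_distrib] at h1
  have := dvd_add h1 hx
  rwa [sub_add_cancel] at this

theorem nu_mul (d s m n : ℕ) (h : Nat.Coprime m n) (hm : 1 ≤ m) (hn : 1 ≤ n) (a : Fin s → ℤ) :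
    nu d m a * nu d n a ≤ nu d (m * n) a := by
  unfold nu
  rw [← Nat.cast_mul, ← Finset.card_product]
  have key : ∀ x y : ℕ, ∃ z : ℕ, z ≡ x [MOD m] ∧ z ≡ y [MOD n] ∧ z < m * n := fun x y =>
    ⟨Nat.chineseRemainder h x y, (Nat.chineseRemainder h x y).2.1,
      (Nat.chineseRemainder h x y).2.2,
      Nat.chineseRemainder_lt_mul h x y (by omega) (by omega)⟩
  choose f hf1 hf2 hf3 using key
  refine Nat.cast_le.mpr (Finset.card_le_card_of_injOn (fun p i => f (p.1 i) (p.2 i)) ?_ ?_)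
  · rintro ⟨x, y⟩ hxy
    simp only [Finset.coe_product, Finset.coe_filter, Set.mem_prod, Set.mem_ofPred_eq,
      Fintype.mem_piFinset, Finset.mem_range] at hxy ⊢
    obtain ⟨⟨hx, hx'⟩, hy, hy'⟩ := hxy
    refine ⟨fun i => hf3 _ _, ?_⟩
    have h1 := form_dvd_of_modEq (d := d) a (z := fun i => f (x i) (y i)) (fun i => hf1 (x i) (y i)) hx'
    have h2 := form_dvd_of_modEq (d := d) a (z := fun i => f (x i) (y i)) (fun i => hf2 (x i) (y i)) hy'
    push_cast
    exact IsCoprime.mul_dvd (Nat.isCoprime_iff_coprime.mpr h) h1 h2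
  · rintro ⟨x, y⟩ hxy ⟨x', y'⟩ hxy' heq
    simp only [Finset.coe_product, Finset.coe_filter, Set.mem_prod, Set.mem_ofPred_eq,
      Fintype.mem_piFinset, Finset.mem_range] at hxy hxy'
    have heq' : ∀ i, f (x i) (y i) = f (x' i) (y' i) := fun i => congrFun heq i
    have h1 : x = x' := by
      funext i
      have e1 : x i ≡ x' i [MOD m] := (hf1 (x i) (y i)).symm.trans (by
        rw [heq' i]; exact hf1 _ _)
      rw [Nat.ModEq, Nat.mod_eq_of_lt (hxy.1.1 i), Nat.mod_eq_of_lt (hxy'.1.1 i)] at e1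
      exact e1
    have h2 : y = y' := by
      funext i
      have e1 : y i ≡ y' i [MOD n] := (hf2 (x i) (y i)).symm.trans (by
        rw [heq' i]; exact hf2 _ _)
      rw [Nat.ModEq, Nat.mod_eq_of_lt (hxy.2.1 i), Nat.mod_eq_of_lt (hxy'.2.1 i)] at e1
      exact e1
    rw [h1, h2]

end Pool.Agent.Lib.MP_e426f4_ag.DG
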