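import Pool.Agent.Lib.MP_e426f4_ag.DG.Defs

/-!
# NuSmall: Hensel in the unit variable
Scale the zero: `x in Z_p^s` with `sum a_i x_i^d = 0` and `x_i0` a unit for some i0 (divide by the coordinate of largest norm). Let `h = v_p(d a_i0) <= (d - 1) + E0` (`v_p(d) < d`), `k = 2h + 1 <= 2(E0+d)+1`.
If `e <= k`: `nu >= 1` (the zero vector) suffices. If `e > k`: for every choice of naturals `y_j < p^e`, `j != i0`, with `y_j = x_j mod p^k` (there are `p^(e-k)` for each j) Hensel's lemma (`hensels_lemma` in Mathlib, for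
`F(X) = a_i0 X^d + sum_{j != i0} a_j y_j^d` over Z_p, at `x_i0`: `|F(x_i0)| <= p^-k < p^-2h = |F'(x_i0)|^2`, `F' = d a_i0 x_i0^(d-1)`) gives a root in Z_p; reduce it mod `p^e`. So
`nu >= p^((e-k)(s-1)) >= p^(e(s-1)) / p^((2(E0+d)+1)(s-1))`.
-/

set_option autoImplicit false

namespace Pool.Agent.Lib.MP_e426f4_ag.DG

open Finset

private lemma exists_unit_zero {s : ℕ} (d p : ℕ) [Fact p.Prime] (a : Fin s → ℤ)
    (h : HasZero ℚ_[p] d a) :
    ∃ (x : Fin s → ℤ_[p]) (i0 : Fin s), x i0 = 1 ∧ ∑ i, (a i : ℤ_[p]) * x i ^ d = 0 := by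
  obtain ⟨x, hx, hsum⟩ := h
  obtain ⟨j, hj⟩ := Function.ne_iff.mp hx
  obtain ⟨i0, -, hmax⟩ := Finset.exists_max_image univ (fun i => ‖x i‖) ⟨j, mem_univ j⟩
  have h0 : x i0 ≠ 0 := by
    intro h0
    have := hmax j (mem_univ j)
    simp only [h0, norm_zero] at this
    exact hj (norm_le_zero_iff.mp this)
  have hle : ∀ i, ‖x i / x i0‖ ≤ 1 := by
    intro i
    rw [norm_div]
    exact div_le_one_of_le₀ (hmax i (mem_univ i)) (norm_nonneg _)
  refine ⟨fun i => ⟨x i / x i0, hle i⟩, i0, ?_, ?_⟩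
  · apply Subtype.ext
    simp only [PadicInt.coe_one]
    exact div_self h0
  · apply Subtype.ext
    have h1 : ∑ i, (a i : ℚ_[p]) * (x i / x i0) ^ d = (∑ i, (a i : ℚ_[p]) * x i ^ d) / x i0 ^ d := by
      rw [Finset.sum_div]
      apply Finset.sum_congr rfl
      intro i _
      rw [div_pow]
      ring
    rw [hsum, zero_div] at h1
    rw [PadicInt.coe_sum]
    push_cast
    exact h1

private lemma root_mod {s : ℕ} (d p E0 e : ℕ) [Fact p.Prime] (hd : 1 ≤ d) (a : Fin s → ℤ)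
    (x : Fin s → ℤ_[p]) (i0 : Fin s) (hx1 : x i0 = 1) (hx : ∑ i, (a i : ℤ_[p]) * x i ^ d = 0)
    (hE : ¬ ((p : ℤ) ^ (E0 + 1) ∣ a i0)) (y : Fin s → ℕ)
    (hy : ∀ j, j ≠ i0 → (p : ℤ_[p]) ^ (2 * (E0 + d) + 1) ∣ (y j : ℤ_[p]) - x j) :
    ∃ w : ℕ, w < p ^ e ∧
      (p : ℤ) ^ e ∣ a i0 * (w : ℤ) ^ d + ∑ j ∈ univ.erase i0, a j * (y j : ℤ) ^ d := by
  set B : ℤ := ∑ j ∈ univ.erase i0, a j * (y j : ℤ) ^ d with hB
  have hp1 : (1 : ℝ) < p := by exact_mod_cast (Fact.out : p.Prime).one_lt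
  have hp0 : (0 : ℝ) < p := by linarith
  set F : Polynomial ℤ := Polynomial.C (a i0) * Polynomial.X ^ d + Polynomial.C B with hF
  have hev : ∀ z : ℤ_[p], F.aeval z = (a i0 : ℤ_[p]) * z ^ d + (B : ℤ_[p]) := by
    intro z
    rw [hF]
    simp
  have hder : F.derivative.aeval (1 : ℤ_[p]) = (a i0 : ℤ_[p]) * (d : ℤ_[p]) := by
    rw [hF]
    simp [Polynomial.derivative_X_pow]
  -- the value at one
  have hdvd : (p : ℤ_[p]) ^ (2 * (E0 + d) + 1) ∣ (a i0 : ℤ_[p]) + (B : ℤ_[p]) := by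
    have h1 : (a i0 : ℤ_[p]) + ∑ j ∈ univ.erase i0, (a j : ℤ_[p]) * x j ^ d = 0 := by
      rw [← hx, ← Finset.add_sum_erase univ (fun i => (a i : ℤ_[p]) * x i ^ d) (mem_univ i0), hx1,
        one_pow, mul_one]
    have h2 : (a i0 : ℤ_[p]) + (B : ℤ_[p]) =
        ∑ j ∈ univ.erase i0, (a j : ℤ_[p]) * ((y j : ℤ_[p]) ^ d - x j ^ d) := by
      have h3 : ((B : ℤ) : ℤ_[p]) = ∑ j ∈ univ.erase i0, (a j : ℤ_[p]) * (y j : ℤ_[p]) ^ d := by
        rw [hB]
        push_cast
        rfl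
      simp only [mul_sub]
      rw [h3, Finset.sum_sub_distrib]
      linear_combination h1
    rw [h2]
    apply Finset.dvd_sum
    intro j hj
    apply Dvd.dvd.mul_left
    exact (hy j (Finset.ne_of_mem_erase hj)).trans (sub_dvd_pow_sub_pow _ _ _)
  have hnorm1 : ‖F.aeval (1 : ℤ_[p])‖ ≤ (p : ℝ) ^ (-((2 * (E0 + d) + 1 : ℕ) : ℤ)) := by
    rw [hev, one_pow, mul_one, PadicInt.norm_le_pow_iff_mem_span_pow, Ideal.mem_span_singleton]
    exact hdvd
  -- the derivative
  have hna : (p : ℝ) ^ (-(E0 : ℤ)) ≤ ‖(a i0 : ℤ_[p])‖ := by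
    by_contra hcon
    push Not at hcon
    apply hE
    rw [← PadicInt.norm_int_le_pow_iff_dvd, PadicInt.norm_le_pow_iff_norm_lt_pow_add_one]
    have : (-((E0 + 1 : ℕ) : ℤ) + 1) = -(E0 : ℤ) := by push_cast; ring
    rw [this]
    exact hcon
  have hnd : (p : ℝ) ^ (-(d : ℤ)) < ‖(d : ℤ_[p])‖ := by
    by_contra hcon
    push Not at hcon
    have h1 : ‖((d : ℤ) : ℤ_[p])‖ ≤ (p : ℝ) ^ (-(d : ℤ)) := by
      rw [Int.cast_natCast]
      exact hcon
    rw [PadicInt.norm_int_le_pow_iff_dvd] at h1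
    have h2 : p ^ d ∣ d := by exact_mod_cast h1
    have h3 := Nat.le_of_dvd (by omega) h2
    have h4 := Nat.lt_pow_self (n := d) (Fact.out : p.Prime).one_lt
    omega
  have hdn : (p : ℝ) ^ (-((E0 + d : ℕ) : ℤ)) < ‖F.derivative.aeval (1 : ℤ_[p])‖ := by
    rw [hder, norm_mul]
    calc (p : ℝ) ^ (-((E0 + d : ℕ) : ℤ)) = (p : ℝ) ^ (-(E0 : ℤ)) * (p : ℝ) ^ (-(d : ℤ)) := by
          rw [← zpow_add₀ hp0.ne']
          congr 1
          push_cast
          ring
      _ < ‖(a i0 : ℤ_[p])‖ * ‖(d : ℤ_[p])‖ :=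
          mul_lt_mul' hna hnd (by positivity) (lt_of_lt_of_le (by positivity) hna)
  have hlt : ‖F.aeval (1 : ℤ_[p])‖ < ‖F.derivative.aeval (1 : ℤ_[p])‖ ^ 2 := by
    refine lt_of_le_of_lt hnorm1 ?_
    calc (p : ℝ) ^ (-((2 * (E0 + d) + 1 : ℕ) : ℤ)) ≤ ((p : ℝ) ^ (-((E0 + d : ℕ) : ℤ))) ^ 2 := by
          rw [← zpow_natCast, ← zpow_mul]
          apply zpow_le_zpow_right₀ hp1.le
          push_cast
          linarith
      _ < _ := by
          apply pow_lt_pow_left₀ hdn (by positivity) (by norm_num)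
  obtain ⟨z, hz, -⟩ := hensels_lemma hlt
  refine ⟨z.appr e, PadicInt.appr_lt z e, ?_⟩
  rw [← PadicInt.pow_p_dvd_int_iff]
  rw [hev] at hz
  have h5 : (p : ℤ_[p]) ^ e ∣ z - (z.appr e : ℤ_[p]) := by
    rw [← Ideal.mem_span_singleton]
    exact PadicInt.appr_spec e z
  have h6 : (((a i0 * ((z.appr e : ℕ) : ℤ) ^ d + B : ℤ)) : ℤ_[p]) =
      -((a i0 : ℤ_[p]) * (z ^ d - (z.appr e : ℤ_[p]) ^ d)) := by
    push_cast
    linear_combination hz
  rw [h6, dvd_neg]
  exact (h5.trans (sub_dvd_pow_sub_pow _ _ _)).mul_left _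

theorem nu_small (d s p e E0 : ℕ) (hd : 1 ≤ d) (hs : 1 ≤ s) [Fact p.Prime] (a : Fin s → ℤ)
    (h : HasZero ℚ_[p] d a) (hE : ∀ i, ¬ ((p : ℤ) ^ (E0 + 1) ∣ a i)) :
    ((p : ℝ) ^ ((2 * (E0 + d) + 1) * (s - 1)))⁻¹ * (p : ℝ) ^ (e * (s - 1)) ≤ nu d (p ^ e) a := by
  classical
  have hp : p.Prime := Fact.out
  have hp1 : (1 : ℝ) < p := by exact_mod_cast hp.one_lt
  have hp0 : (0 : ℝ) < p := by linarith
  set k : ℕ := 2 * (E0 + d) + 1 with hk
  rcases le_or_gt e k with hek | hek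
  · have h1 : ((p : ℝ) ^ (k * (s - 1)))⁻¹ * (p : ℝ) ^ (e * (s - 1)) ≤ 1 := by
      rw [inv_mul_le_iff₀ (by positivity), mul_one]
      exact pow_le_pow_right₀ hp1.le (Nat.mul_le_mul_right _ hek)
    refine h1.trans ?_
    unfold nu
    have h2 : 1 ≤ ((Fintype.piFinset fun _ : Fin s => range (p ^ e)).filter fun x : Fin s → ℕ =>
        ((p ^ e : ℕ) : ℤ) ∣ ∑ i, a i * (x i : ℤ) ^ d).card := by
      rw [Nat.one_le_iff_ne_zero, ← Nat.pos_iff_ne_zero, Finset.card_pos]
      refine ⟨fun _ => 0, ?_⟩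
      rw [Finset.mem_filter, Fintype.mem_piFinset]
      refine ⟨fun i => Finset.mem_range.mpr (pow_pos hp.pos e), ?_⟩
      have : (0 : ℤ) ^ d = 0 := zero_pow (by omega)
      simp [this]
    exact_mod_cast h2
  · obtain ⟨x, i0, hx1, hx⟩ := exists_unit_zero d p a h
    have hy : ∀ (c : Fin s → ℕ) (j : Fin s), j ≠ i0 → (p : ℤ_[p]) ^ (2 * (E0 + d) + 1) ∣
        (((x j).appr k + p ^ k * c j : ℕ) : ℤ_[p]) - x j := by
      intro c j _
      have h1 : (p : ℤ_[p]) ^ k ∣ x j - ((x j).appr k : ℤ_[p]) := by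
        rw [← Ideal.mem_span_singleton]
        exact PadicInt.appr_spec k (x j)
      have h2 : (((x j).appr k + p ^ k * c j : ℕ) : ℤ_[p]) - x j =
          -(x j - ((x j).appr k : ℤ_[p])) + (p : ℤ_[p]) ^ k * (c j : ℤ_[p]) := by
        push_cast
        ring
      rw [h2]
      exact dvd_add ((dvd_neg).mpr h1) (dvd_mul_right _ _)
    have key := fun c : Fin s → ℕ => root_mod d p E0 e hd a x i0 hx1 hx (hE i0)
      (fun j => (x j).appr k + p ^ k * c j) (hy c)
    choose w hw1 hw2 using key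
    set S0 : Finset (Fin s → ℕ) := Fintype.piFinset fun j : Fin s =>
      if j = i0 then ({0} : Finset ℕ) else range (p ^ (e - k)) with hS0
    have hcard : S0.card = p ^ ((e - k) * (s - 1)) := by
      rw [hS0, Fintype.card_piFinset, ← Finset.mul_prod_erase univ _ (mem_univ i0)]
      rw [if_pos rfl, Finset.card_singleton, one_mul]
      have h1 : ∀ j ∈ univ.erase i0, (if j = i0 then ({0} : Finset ℕ) else
          range (p ^ (e - k))).card = p ^ (e - k) := by
        intro j hj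
        rw [if_neg (Finset.ne_of_mem_erase hj), Finset.card_range]
      rw [Finset.prod_congr rfl h1, Finset.prod_const, Finset.card_erase_of_mem (mem_univ i0),
        Finset.card_univ, Fintype.card_fin, ← pow_mul]
    set Φ : (Fin s → ℕ) → (Fin s → ℕ) := fun c j =>
      if j = i0 then w c else (x j).appr k + p ^ k * c j with hΦ
    have hle : S0.card ≤ ((Fintype.piFinset fun _ : Fin s => range (p ^ e)).filter
        fun x : Fin s → ℕ => ((p ^ e : ℕ) : ℤ) ∣ ∑ i, a i * (x i : ℤ) ^ d).card := by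
      apply Finset.card_le_card_of_injOn Φ
      · intro c hc
        rw [Finset.mem_coe, hS0, Fintype.mem_piFinset] at hc
        rw [Finset.mem_coe, Finset.mem_filter, Fintype.mem_piFinset]
        constructor
        · intro j
          rw [Finset.mem_range]
          by_cases hj : j = i0
          · simp only [hΦ, if_pos hj]
            exact hw1 c
          · simp only [hΦ, if_neg hj]
            have h1 := hc j
            rw [if_neg hj, Finset.mem_range] at h1
            have h2 := PadicInt.appr_lt (x j) k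
            calc (x j).appr k + p ^ k * c j < p ^ k + p ^ k * c j := by omega
              _ = p ^ k * (c j + 1) := by ring
              _ ≤ p ^ k * p ^ (e - k) := Nat.mul_le_mul_left _ h1
              _ = p ^ e := by rw [← pow_add]; congr 1; omega
        · rw [← Finset.add_sum_erase univ _ (mem_univ i0)]
          have h3 := hw2 c
          have h4 : ∑ j ∈ univ.erase i0, a j * ((Φ c j : ℕ) : ℤ) ^ d =
              ∑ j ∈ univ.erase i0, a j * (((x j).appr k + p ^ k * c j : ℕ) : ℤ) ^ d := by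
            apply Finset.sum_congr rfl
            intro j hj
            simp only [hΦ, if_neg (Finset.ne_of_mem_erase hj)]
          rw [h4]
          simp only [hΦ, if_true]
          push_cast at h3 ⊢
          exact h3
      · intro c hc c' hc' hcc
        rw [Finset.mem_coe, hS0, Fintype.mem_piFinset] at hc hc'
        funext j
        by_cases hj : j = i0
        · have h1 := hc j
          have h2 := hc' j
          rw [if_pos hj, Finset.mem_singleton] at h1 h2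
          rw [h1, h2]
        · have h1 := congrFun hcc j
          simp only [hΦ, if_neg hj] at h1
          have h2 : p ^ k * c j = p ^ k * c' j := by omega
          exact Nat.eq_of_mul_eq_mul_left (pow_pos hp.pos k) h2
    rw [hcard] at hle
    have h7 : ((p : ℝ) ^ (k * (s - 1)))⁻¹ * (p : ℝ) ^ (e * (s - 1)) =
        ((p ^ ((e - k) * (s - 1)) : ℕ) : ℝ) := by
      rw [inv_mul_eq_iff_eq_mul₀ (by positivity)]
      push_cast
      rw [← pow_add, ← add_mul]
      congr 2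
      omega
    rw [h7]
    unfold nu
    exact_mod_cast hle

end Pool.Agent.Lib.MP_e426f4_ag.DG
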