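import Pool.Agent.Lib.MP_e426f4_ag.DG.Defs
import Pool.Agent.Lib.MP_e426f4_ag.DG.Facts1

/-!
# MavgA: the average as a number of integer points
For a vector `x` in the box `|sum a_i x_i^d - W j| <= s H B^d + W J < P` (`hP`, `hWJ`), so the congruence `sum = W j` mod P is an equality of integers. So
`(2J+1) Mavg = #{x in prod X_i : W | V(x), |V(x)| <= W J}` (`V(x) = sum a_i x_i^d`; each x is counted for exactly one j). The map `(t,l) -> (t_i l_i)` is injective on
`prod I x prod PS i` (`X_card` argument / `X_mem`), onto `prod X_i`.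
-/

set_option autoImplicit false

namespace Pool.Agent.Lib.MP_e426f4_ag.DG

open Finset

private theorem uniq {R m Mx t t' l l' : ℕ} (hR : 2 ≤ R) (hm : m < Mx) (ht' : 1 ≤ t')
    (ht'2 : t' ≤ R ^ m) (hl : l.Prime) (hl2 : R ^ Mx < l) (hl' : l'.Prime)
    (h : t * l = t' * l') : t = t' ∧ l = l' := by
  have h1 : R ^ m < R ^ Mx := Nat.pow_lt_pow_right (by omega) hm
  have h2 : l ∣ t' * l' := ⟨t, by rw [← h]; ring⟩
  have h3 : l = l' := by
    rcases hl.dvd_mul.1 h2 with h4 | h4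
    · exact absurd (Nat.le_of_dvd (by omega) h4) (by omega)
    · exact (Nat.prime_dvd_prime_iff_eq hl hl').1 h4
  refine ⟨?_, h3⟩
  rw [h3] at h
  exact Nat.eq_of_mul_eq_mul_right hl'.pos h

theorem Mavg_ge {d s m Mx E : ℕ} (S : Setup d s m Mx E) (hm1 : 1 ≤ m) (hm : m < Mx) (hd : 1 ≤ d)
    (W J : ℕ) (hW : 1 ≤ W) (hWJ : W * J ≤ S.H * S.B ^ d) (a : Fin s → ℤ) (ha : ∀ i, |a i| ≤ (S.H : ℤ)) :
    ∑ l ∈ Fintype.piFinset S.PS,
      (((Fintype.piFinset fun _ : Fin s => S.I).filter fun t : Fin s → ℕ =>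
        (W : ℤ) ∣ ∑ i, a i * ((t i * l i : ℕ) : ℤ) ^ d ∧
          |∑ i, (a i : ℝ) * ((t i : ℝ) * (l i : ℝ)) ^ d| ≤ (W : ℝ) * J).card : ℝ) ≤
      (2 * J + 1) * Mavg S.P d W J S.X (fun i => ((a i : ℤ) : ZMod S.P)) := by
  classical
  have hJ : (0 : ℝ) < 2 * J + 1 := by positivity
  unfold Mavg
  rw [mul_div_cancel₀ _ hJ.ne']
  unfold NN
  rw [← Nat.cast_sum, ← Nat.cast_sum, Nat.cast_le, ← card_sigma, ← card_sigma]
  refine card_le_card_of_injOn
    (fun z => (⟨(∑ i, a i * ((z.2 i * z.1 i : ℕ) : ℤ) ^ d) / W, fun i => z.2 i * z.1 i⟩ :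
      (_ : ℤ) × (Fin s → ℕ))) ?_ ?_
  · rintro ⟨l, t⟩ hz
    rw [mem_coe, mem_sigma, Fintype.mem_piFinset, mem_filter, Fintype.mem_piFinset] at hz
    obtain ⟨hl, ht, hdvd, habs⟩ := hz
    dsimp only at hl ht hdvd habs
    obtain ⟨q, hq⟩ := hdvd
    have hW0 : (W : ℤ) ≠ 0 := by exact_mod_cast (by omega : W ≠ 0)
    rw [mem_coe, mem_sigma, mem_filter, Fintype.mem_piFinset]
    dsimp only
    have hdiv : (∑ i, a i * ((t i * l i : ℕ) : ℤ) ^ d) / W = q := by
      rw [hq, Int.mul_ediv_cancel_left _ hW0]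
    rw [hdiv]
    refine ⟨?_, ?_, ?_⟩
    · have h1 : (∑ i, (a i : ℝ) * ((t i : ℝ) * (l i : ℝ)) ^ d) = (W : ℝ) * q := by
        have := congrArg (Int.cast : ℤ → ℝ) hq
        push_cast at this
        exact this
      rw [h1, abs_mul, Nat.abs_cast] at habs
      have hWr : (0 : ℝ) < W := by exact_mod_cast (by omega : 0 < W)
      have h2 : |(q : ℝ)| ≤ J := le_of_mul_le_mul_left habs hWr
      have h3 : |q| ≤ (J : ℤ) := by exact_mod_cast h2
      rw [mem_Icc]
      exact abs_le.1 h3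
    · intro i
      exact mem_image.2 ⟨(t i, l i), mem_product.2 ⟨ht i, hl i⟩, rfl⟩
    · have := congrArg (Int.cast : ℤ → ZMod S.P) hq
      push_cast at this ⊢
      exact this
  · rintro ⟨l, t⟩ hz ⟨l', t'⟩ hz' heq
    rw [mem_coe, mem_sigma, Fintype.mem_piFinset, mem_filter, Fintype.mem_piFinset] at hz hz'
    obtain ⟨hl, ht, -, -⟩ := hz
    obtain ⟨hl', ht', -, -⟩ := hz'
    dsimp only at hl ht hl' ht' heq
    rw [Sigma.mk.injEq] at heq
    have h2 := eq_of_heq heq.2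
    have key : ∀ i, t i = t' i ∧ l i = l' i := by
      intro i
      have h3 : t i * l i = t' i * l' i := congrFun h2 i
      have h4 := ht' i
      simp only [Setup.I, mem_filter, mem_Icc] at h4
      exact uniq S.hR hm h4.1.1 h4.1.2 (S.hPS i _ (hl i)).1 (S.hPS i _ (hl i)).2.1
        (S.hPS i _ (hl' i)).1 h3
    have e1 : l = l' := funext fun i => (key i).2
    have e2 : t = t' := funext fun i => (key i).1
    subst e1 e2
    rfl

end Pool.Agent.Lib.MP_e426f4_ag.DG
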