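import Pool.Agent.Lib.MP_e426f4_ag.DG.Defs

/-!
# RealA: one-variable step
`F(t) = x t^d`. With `t* = (Y/x)^(1/d)` (real d-th root) we have `t* in [lo,hi]`. For `|t - t*| <= r` with `t, t* in [0,hi']`, `|x t^d - x t*^d| <= x d hi'^(d-1) |t - t*|`. All naturals `t` in
`[t* - r, t* + r]` with `t = tau mod W` (at least `2r/W - 1 >= r/W` of them if `W <= r`) lie in `(lo - r, hi + r)` and satisfy `|x t^d - Y| <= x d (hi+r)^(d-1) r <= K`.
-/

set_option autoImplicit false

namespace Pool.Agent.Lib.MP_e426f4_ag.DG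

open Finset

theorem one_var (d : ℕ) (hd : 1 ≤ d) (x Y K lo hi r : ℝ) (hx : 0 < x) (hlo : 0 < lo) (hlohi : lo ≤ hi)
    (h1 : x * lo ^ d ≤ Y) (h2 : Y ≤ x * hi ^ d) (W tau : ℕ) (hW : 1 ≤ W) (hr : (W : ℝ) ≤ r)
    (hrlo : r ≤ lo) (hK : x * d * (hi + r) ^ (d - 1) * r ≤ K) :
    ∃ A : Finset ℕ, r / W ≤ A.card ∧ ∀ t ∈ A, t ≡ tau [MOD W] ∧ lo - r ≤ t ∧ (t : ℝ) ≤ hi + r ∧
      |x * (t : ℝ) ^ d - Y| ≤ K := by
  classical
  have hWr : (1 : ℝ) ≤ W := by exact_mod_cast hW
  have hW0 : (0 : ℝ) < W := by linarith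
  have hr0 : 0 < r := by linarith
  obtain ⟨s, ⟨hs1, hs2⟩, hs⟩ : ∃ s ∈ Set.Icc lo hi, x * s ^ d = Y := by
    have hc : ContinuousOn (fun t : ℝ => x * t ^ d) (Set.Icc lo hi) := by fun_prop
    exact intermediate_value_Icc hlohi hc ⟨h1, h2⟩
  -- the first element
  let a : ℕ := ⌈s - r⌉₊
  have ha1 : s - r ≤ a := Nat.le_ceil _
  have ha2 : (a : ℝ) < s - r + 1 := Nat.ceil_lt_add_one (by linarith)
  obtain ⟨t0, ht0, ht1, ht2⟩ : ∃ t0 : ℕ, t0 ≡ tau [MOD W] ∧ a ≤ t0 ∧ t0 + 1 ≤ a + W := by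
    refine ⟨a + (tau + (W - 1) * a) % W, ?_, Nat.le_add_right _ _, ?_⟩
    · have h3 : a + (tau + (W - 1) * a) % W ≡ a + (tau + (W - 1) * a) [MOD W] :=
        Nat.ModEq.add_left a (Nat.mod_modEq _ _)
      refine h3.trans ?_
      have h4 : a + (tau + (W - 1) * a) = tau + W * a := by
        obtain ⟨w, rfl⟩ : ∃ w, W = w + 1 := ⟨W - 1, by omega⟩
        rw [Nat.add_sub_cancel]
        ring
      rw [h4]
      unfold Nat.ModEq
      rw [Nat.add_mul_mod_self_left]
    · have := Nat.mod_lt (tau + (W - 1) * a) (show 0 < W by omega)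
      omega
  let n : ℕ := ⌊2 * r / W⌋₊
  have hn1 : (n : ℝ) ≤ 2 * r / W := Nat.floor_le (by positivity)
  have hn2 : 2 * r / W < n + 1 := Nat.lt_floor_add_one _
  refine ⟨(range n).image fun j => t0 + j * W, ?_, ?_⟩
  · rw [Finset.card_image_of_injective, Finset.card_range]
    · have h3 : 1 ≤ r / W := by
        rw [le_div_iff₀ hW0]
        linarith
      have h4 : 2 * r / W = r / W + r / W := by ring
      linarith
    · intro j j' hj
      simp only at hj
      have h3 : j * W = j' * W := by omega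
      exact Nat.eq_of_mul_eq_mul_right (by omega) h3
  · intro t ht
    obtain ⟨j, hj, rfl⟩ := Finset.mem_image.1 ht
    have hjn : j + 1 ≤ n := Finset.mem_range.1 hj
    have hj1 : ((j : ℝ) + 1) * W ≤ 2 * r := by
      have h3 : ((j : ℝ) + 1) ≤ 2 * r / W := by
        refine le_trans ?_ hn1
        exact_mod_cast hjn
      rwa [le_div_iff₀ hW0] at h3
    have ht1' : (a : ℝ) ≤ t0 := by exact_mod_cast ht1
    have ht2' : (t0 : ℝ) + 1 ≤ a + W := by exact_mod_cast ht2
    have hjW : (0 : ℝ) ≤ j * W := by positivity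
    have hlow : s - r ≤ ((t0 + j * W : ℕ) : ℝ) := by
      push_cast
      linarith
    have hup : ((t0 + j * W : ℕ) : ℝ) ≤ s + r := by
      push_cast
      linarith
    refine ⟨?_, by linarith, by linarith, ?_⟩
    · have h3 : t0 + j * W ≡ t0 [MOD W] := by
        unfold Nat.ModEq
        rw [Nat.add_mul_mod_self_right]
      exact h3.trans ht0
    · generalize ((t0 + j * W : ℕ) : ℝ) = t at hlow hup
      have h3 := abs_pow_sub_pow_le t s d
      have ht0' : 0 ≤ t := by linarith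
      have hs0 : 0 ≤ s := by linarith
      rw [abs_of_nonneg ht0', abs_of_nonneg hs0] at h3
      have h4 : |t - s| ≤ r := by
        rw [abs_le]
        constructor <;> linarith
      have h5 : max t s ≤ hi + r := max_le (by linarith) (by linarith)
      have h6 : 0 ≤ max t s := le_max_of_le_left ht0'
      have h7 : |t ^ d - s ^ d| ≤ r * d * (hi + r) ^ (d - 1) := by
        refine h3.trans ?_
        gcongr
      rw [← hs, ← mul_sub, abs_mul, abs_of_pos hx]
      calc x * |t ^ d - s ^ d| ≤ x * (r * d * (hi + r) ^ (d - 1)) := by gcongr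
        _ = x * d * (hi + r) ^ (d - 1) * r := by ring
        _ ≤ K := hK

end Pool.Agent.Lib.MP_e426f4_ag.DG
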