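import Pool.Agent.Lib.MP_e426f4_ag.DG.Defs
import Pool.Agent.Lib.MP_e426f4_ag.DG.MavgA
import Pool.Agent.Lib.MP_e426f4_ag.DG.RealCount
import Pool.Agent.Lib.MP_e426f4_ag.DG.Facts1

/-!
# MavgLow: lower bound of the average
Let `W = om!`, `J = floor(eps H B^d/W)`; for R large `J >= 1` and `W J >= (eps/2) H B^d =: K`. Fix `l`. All `l_i` are primes `> L > om` (R large), hence units mod W, so the number of
`tau in [0,W)^s` with `W | sum a_i (l_i tau_i)^d` is `nu d W a` (bijection `tau_i -> l_i tau_i mod W`). For each such `tau` `real_count` (with `eps/2`, T = R^m >= T0) gives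
`>= c3' (eps/2) (T/W)^s` vectors `t = tau mod W`, `t in I^s` (`S.I` is the same filter), `|sum| <= K <= W J`; they satisfy `W | sum a_i (t_i l_i)^d`; different tau give different t. So by `Mavg_ge`
`(2J+1) Mavg >= sum_l nu * c3' (eps/2)(T/W)^s >= pi0^s c0 W^(s-1) c3' (eps/2) T^s/W^s`, `2J+1 <= 3J <= 3 eps H B^d/W`, so
`Mavg >= c0 (c3'/6) (pi0 T)^s/(H B^d) >= c0 c3 XX^s/(HB^d)` (`XX = |I| pi0 <= T pi0`).
-/

set_option autoImplicit false

namespace Pool.Agent.Lib.MP_e426f4_ag.DG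

open Finset

/-- classes modulo `W` after multiplication by units -/
private theorem card_tau {s : ℕ} (d W : ℕ) (hW : 1 ≤ W) (a : Fin s → ℤ) (l : Fin s → ℕ)
    (hl : ∀ i, Nat.Coprime (l i) W) :
    nu d W a ≤ (((Fintype.piFinset fun _ : Fin s => range W).filter fun x : Fin s → ℕ =>
      (W : ℤ) ∣ ∑ i, a i * ((x i * l i : ℕ) : ℤ) ^ d).card : ℝ) := by
  classical
  have hu : ∀ i, ∃ u : ℕ, l i * u ≡ 1 [MOD W] := by
    intro i
    obtain ⟨u, -, hu⟩ := Nat.exists_mul_mod_eq_of_coprime 1 (hl i) (by omega)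
    exact ⟨u, hu⟩
  choose u hu using hu
  unfold nu
  rw [Nat.cast_le]
  have hkey : ∀ (x : Fin s → ℕ) (i : Fin s), (x i * u i) % W * l i ≡ x i [MOD W] := by
    intro x i
    calc (x i * u i) % W * l i ≡ (x i * u i) * l i [MOD W] := (Nat.mod_modEq _ _).mul_right _
      _ = x i * (l i * u i) := by ring
      _ ≡ x i * 1 [MOD W] := (hu i).mul_left _
      _ = x i := mul_one _
  refine card_le_card_of_injOn (fun x i => (x i * u i) % W) ?_ ?_
  · intro x hx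
    rw [mem_coe, mem_filter, Fintype.mem_piFinset] at hx
    rw [mem_coe, mem_filter, Fintype.mem_piFinset]
    refine ⟨fun i => mem_range.2 (Nat.mod_lt _ (by omega)), ?_⟩
    have h1 : (∑ i, a i * (((x i * u i) % W * l i : ℕ) : ℤ) ^ d) ≡ ∑ i, a i * (x i : ℤ) ^ d
        [ZMOD W] := by
      refine Int.ModEq.sum ?_
      intro i _
      exact ((Int.natCast_modEq_iff.2 (hkey x i)).pow d).mul_left _
    exact (Int.modEq_zero_iff_dvd.1 (h1.trans (Int.modEq_zero_iff_dvd.2 hx.2)))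
  · intro x hx y hy hxy
    rw [mem_coe, mem_filter, Fintype.mem_piFinset] at hx hy
    funext i
    have h1 := hkey x i
    have h2 := hkey y i
    have h3 : (x i * u i) % W = (y i * u i) % W := congrFun hxy i
    rw [h3] at h1
    have h4 : x i ≡ y i [MOD W] := h1.symm.trans h2
    have hx1 := mem_range.1 (hx.1 i)
    have hy1 := mem_range.1 (hy.1 i)
    have h5 : x i % W = y i % W := h4
    rwa [Nat.mod_eq_of_lt hx1, Nat.mod_eq_of_lt hy1] at h5

private theorem count_split {s : ℕ} (d W : ℕ) (hW : 1 ≤ W) (a : Fin s → ℤ) (l : Fin s → ℕ)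
    (hl : ∀ i, Nat.Coprime (l i) W) (I : Finset ℕ) (K K' lo c0 : ℝ) (hK : K ≤ K') (hlo : 0 ≤ lo)
    (hc0 : c0 ≤ nu d W a)
    (h : ∀ tau : Fin s → ℕ, lo ≤ (((Fintype.piFinset fun _ : Fin s => I).filter
        fun t : Fin s → ℕ => (∀ i, t i ≡ tau i [MOD W]) ∧
          |∑ i, (a i : ℝ) * ((t i : ℝ) * (l i : ℝ)) ^ d| ≤ K).card : ℝ)) :
    c0 * lo ≤ (((Fintype.piFinset fun _ : Fin s => I).filter fun t : Fin s → ℕ =>
        (W : ℤ) ∣ ∑ i, a i * ((t i * l i : ℕ) : ℤ) ^ d ∧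
          |∑ i, (a i : ℝ) * ((t i : ℝ) * (l i : ℝ)) ^ d| ≤ K').card : ℝ) := by
  classical
  set Tau := ((Fintype.piFinset fun _ : Fin s => range W).filter fun x : Fin s → ℕ =>
      (W : ℤ) ∣ ∑ i, a i * ((x i * l i : ℕ) : ℤ) ^ d) with hTau
  set A : (Fin s → ℕ) → Finset (Fin s → ℕ) := fun tau =>
    ((Fintype.piFinset fun _ : Fin s => I).filter
        fun t : Fin s → ℕ => (∀ i, t i ≡ tau i [MOD W]) ∧
          |∑ i, (a i : ℝ) * ((t i : ℝ) * (l i : ℝ)) ^ d| ≤ K) with hA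
  have h1 : c0 * lo ≤ ∑ tau ∈ Tau, ((A tau).card : ℝ) := by
    calc c0 * lo ≤ (Tau.card : ℝ) * lo :=
          mul_le_mul_of_nonneg_right (hc0.trans (card_tau d W hW a l hl)) hlo
      _ = ∑ tau ∈ Tau, lo := by rw [sum_const, nsmul_eq_mul]
      _ ≤ _ := sum_le_sum fun tau _ => h tau
  refine h1.trans ?_
  rw [← Nat.cast_sum, Nat.cast_le, ← card_sigma]
  refine card_le_card_of_injOn (fun z => z.2) ?_ ?_
  · rintro ⟨tau, t⟩ hz
    rw [mem_coe, mem_sigma] at hz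
    obtain ⟨ht1, ht2⟩ := hz
    simp only [hTau, hA, mem_filter, Fintype.mem_piFinset] at ht1 ht2
    rw [mem_coe, mem_filter, Fintype.mem_piFinset]
    refine ⟨ht2.1, ?_, ht2.2.2.trans hK⟩
    have h2 : (∑ i, a i * ((t i * l i : ℕ) : ℤ) ^ d) ≡ ∑ i, a i * ((tau i * l i : ℕ) : ℤ) ^ d
        [ZMOD W] := by
      refine Int.ModEq.sum ?_
      intro i _
      exact ((Int.natCast_modEq_iff.2 ((ht2.2.1 i).mul_right (l i))).pow d).mul_left _
    exact (Int.modEq_zero_iff_dvd.1 (h2.trans (Int.modEq_zero_iff_dvd.2 ht1.2)))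
  · rintro ⟨tau, t⟩ hz ⟨tau', t'⟩ hz' heq
    rw [mem_coe, mem_sigma] at hz hz'
    simp only [hTau, hA, mem_filter, Fintype.mem_piFinset] at hz hz'
    dsimp only at heq
    subst heq
    have : tau = tau' := by
      funext i
      have h4 : tau i ≡ tau' i [MOD W] := (hz.2.2.1 i).symm.trans (hz'.2.2.1 i)
      have h5 : tau i % W = tau' i % W := h4
      rwa [Nat.mod_eq_of_lt (mem_range.1 (hz.1.1 i)), Nat.mod_eq_of_lt (mem_range.1 (hz'.1.1 i))] at h5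
    subst this
    rfl

theorem Mavg_lower (d s : ℕ) (hd : 4 ≤ d) (hs : 2 * d + 1 ≤ s) (c1 : ℝ) (hc1 : 0 < c1)
    (hc1' : c1 ≤ 1) : ∃ (E : ℕ) (c3 e1 : ℝ), 2 ≤ E ∧ 0 < c3 ∧ 0 < e1 ∧
    ∀ (om m Mx : ℕ) (eps : ℝ), 1 ≤ m → m < Mx → 1 ≤ om → 0 < eps → eps ≤ e1 →
    ∃ R0 : ℕ, ∀ (S : Setup d s m Mx E) (J : ℕ), R0 ≤ S.R →
    J = ⌊eps * S.H * (S.B : ℝ) ^ d / om.factorial⌋₊ →
    ∀ (a : Fin s → ℤ) (c0 : ℝ), 0 < c0 → Mixed a →
    (∀ i, c1 * S.H ≤ |(a i : ℝ)| ∧ |(a i : ℝ)| ≤ S.H) →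
    c0 * ((om.factorial : ℕ) : ℝ) ^ (s - 1) ≤ nu d om.factorial a →
    c0 * c3 * S.XX ^ s / ((S.H : ℝ) * (S.B : ℝ) ^ d) ≤
      Mavg S.P d om.factorial J S.X (fun i => ((a i : ℤ) : ZMod S.P)) := by
  classical
  obtain ⟨E, c3, e1, hE, hc3, he1, hcount⟩ := real_count d s hd (by omega) c1 hc1 hc1'
  refine ⟨E, c3 / 6, min e1 1, hE, by positivity, by positivity, ?_⟩
  intro om m Mx eps hm hMx hom heps heps1
  set W := om.factorial with hWdef
  have hW : 1 ≤ W := Nat.factorial_pos om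
  obtain ⟨T0, hT0⟩ := hcount W (eps / 2) hW (by positivity)
    ((by linarith : eps / 2 ≤ eps).trans (heps1.trans (min_le_left _ _)))
  refine ⟨T0 + om + ⌈2 * (W : ℝ) / eps⌉₊ + 1, ?_⟩
  intro S J hR hJ a c0 hc0 hmix ha hnu
  have hHpos : 0 < S.H := S.n_facts.2.2.2.2.2.2
  have hH1 : (1 : ℝ) ≤ S.H := by exact_mod_cast hHpos
  have hRpos : 1 ≤ S.R := by have := S.hR; omega
  have hWr : (1 : ℝ) ≤ W := by exact_mod_cast hW
  have hBR : S.R ≤ S.B := by
    have h1 : S.R ≤ S.R ^ m := Nat.le_self_pow (by omega) _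
    have h2 : 1 ≤ S.R ^ Mx := Nat.one_le_pow _ _ hRpos
    calc S.R ≤ S.R ^ m := h1
      _ ≤ 4 * S.R ^ Mx * S.R ^ m := Nat.le_mul_of_pos_left _ (by omega)
      _ = S.B := rfl
  have hBr : (S.R : ℝ) ≤ (S.B : ℝ) ^ d := by
    have h1 : S.R ≤ S.B ^ d := hBR.trans (Nat.le_self_pow (by omega) _)
    exact_mod_cast h1
  set Y : ℝ := (S.H : ℝ) * (S.B : ℝ) ^ d with hY
  have hYR : (S.R : ℝ) ≤ Y := by
    calc (S.R : ℝ) ≤ (S.B : ℝ) ^ d := hBr
      _ = 1 * (S.B : ℝ) ^ d := (one_mul _).symm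
      _ ≤ Y := mul_le_mul_of_nonneg_right hH1 (by positivity)
  have hYpos : 0 < Y := lt_of_lt_of_le (by exact_mod_cast hRpos) hYR
  have hbig : 2 * (W : ℝ) ≤ eps * Y := by
    have h1 : 2 * (W : ℝ) / eps ≤ S.R := by
      refine (Nat.le_ceil _).trans ?_
      exact_mod_cast (by omega : ⌈2 * (W : ℝ) / eps⌉₊ ≤ S.R)
    have h2 : 2 * (W : ℝ) / eps ≤ Y := h1.trans hYR
    rw [div_le_iff₀ heps] at h2
    linarith
  have hJ1 : (J : ℝ) ≤ eps * Y / W := by
    rw [hJ]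
    have : eps * S.H * (S.B : ℝ) ^ d / (W : ℝ) = eps * Y / W := by rw [hY]; ring
    rw [this]
    exact Nat.floor_le (by positivity)
  have hJ2 : eps * Y / W - 1 ≤ (J : ℝ) := by
    rw [hJ]
    have : eps * S.H * (S.B : ℝ) ^ d / (W : ℝ) = eps * Y / W := by rw [hY]; ring
    rw [this]
    have := Nat.lt_floor_add_one (eps * Y / W)
    linarith
  have hWJ1 : (W : ℝ) * J ≤ eps * Y := by
    have := mul_le_mul_of_nonneg_left hJ1 (by linarith : (0 : ℝ) ≤ W)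
    rwa [mul_div_cancel₀ _ (by linarith : (W : ℝ) ≠ 0)] at this
  have hWJ2 : eps / 2 * Y ≤ (W : ℝ) * J := by
    have h1 := mul_le_mul_of_nonneg_left hJ2 (by linarith : (0 : ℝ) ≤ W)
    rw [mul_sub, mul_div_cancel₀ _ (by linarith : (W : ℝ) ≠ 0), mul_one] at h1
    linarith
  have hWJ : W * J ≤ S.H * S.B ^ d := by
    have h1 : (W : ℝ) * J ≤ Y := by
      refine hWJ1.trans ?_
      have : eps ≤ 1 := heps1.trans (min_le_right _ _)
      nlinarith
    rw [hY] at h1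
    exact_mod_cast h1
  have haZ : ∀ i, |a i| ≤ (S.H : ℤ) := by
    intro i
    have h1 := (ha i).2
    exact_mod_cast h1
  have hmain := Mavg_ge S hm hMx (by omega) W J hW hWJ a haZ
  -- lower bound for each l
  have hlow : ∀ l ∈ Fintype.piFinset S.PS,
      (c0 * (W : ℝ) ^ (s - 1)) * (c3 * (eps / 2) * (((S.R ^ m : ℕ) : ℝ) / W) ^ s) ≤
      (((Fintype.piFinset fun _ : Fin s => S.I).filter fun t : Fin s → ℕ =>
        (W : ℤ) ∣ ∑ i, a i * ((t i * l i : ℕ) : ℤ) ^ d ∧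
          |∑ i, (a i : ℝ) * ((t i : ℝ) * (l i : ℝ)) ^ d| ≤ (W : ℝ) * J).card : ℝ) := by
    intro l hl
    rw [Fintype.mem_piFinset] at hl
    have hcop : ∀ i, Nat.Coprime (l i) W := by
      intro i
      have h1 := S.hPS i _ (hl i)
      have h2 : om < l i := by
        have : S.R ≤ S.R ^ Mx := Nat.le_self_pow (by omega) _
        omega
      rw [hWdef]
      exact (Nat.coprime_factorial_iff h1.1.ne_one).2 (by rw [h1.1.minFac_eq]; exact h2)
    refine count_split d W hW a l hcop S.I (eps / 2 * S.H * (4 * ((S.R ^ Mx : ℕ) : ℝ) *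
      ((S.R ^ m : ℕ) : ℝ)) ^ d) _ _ _ ?_ (by positivity) hnu ?_
    · have : eps / 2 * S.H * (4 * ((S.R ^ Mx : ℕ) : ℝ) * ((S.R ^ m : ℕ) : ℝ)) ^ d = eps / 2 * Y := by
        rw [hY]
        have : (S.B : ℝ) = 4 * ((S.R ^ Mx : ℕ) : ℝ) * ((S.R ^ m : ℕ) : ℝ) := by
          unfold Setup.B
          push_cast
          ring
        rw [this]; ring
      rw [this]
      exact hWJ2
    · intro tau
      exact hT0 (S.R ^ m) (S.R ^ Mx) S.H _
        (by have : S.R ≤ S.R ^ m := Nat.le_self_pow (by omega) _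
            omega) (Nat.one_le_pow _ _ hRpos) hHpos rfl a hmix ha l
        (fun i => (S.hPS i _ (hl i)).2) tau
  have hsum : ((S.R : ℝ) ^ (Mx - 1)) ^ s *
      ((c0 * (W : ℝ) ^ (s - 1)) * (c3 * (eps / 2) * (((S.R ^ m : ℕ) : ℝ) / W) ^ s)) ≤
      (2 * J + 1) * Mavg S.P d W J S.X (fun i => ((a i : ℤ) : ZMod S.P)) := by
    refine le_trans ?_ hmain
    have h1 := sum_le_sum hlow
    rw [sum_const, nsmul_eq_mul, Fintype.card_piFinset] at h1
    refine le_trans (le_of_eq ?_) h1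
    congr 1
    push_cast
    have : ∀ i ∈ (univ : Finset (Fin s)), ((S.PS i).card : ℝ) = (S.R : ℝ) ^ (Mx - 1) := by
      intro i _
      rw [S.hcard i]; push_cast; rfl
    rw [prod_congr rfl this, prod_const, card_univ, Fintype.card_fin]
  -- the final estimate
  have hXX : S.XX ≤ ((S.R ^ m : ℕ) : ℝ) * (S.R : ℝ) ^ (Mx - 1) := by
    unfold Setup.XX
    refine mul_le_mul_of_nonneg_right ?_ (by positivity)
    have : S.I.card ≤ S.R ^ m := by
      unfold Setup.I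
      refine (card_filter_le _ _).trans ?_
      simp
    exact_mod_cast this
  have hXX0 : 0 ≤ S.XX := by unfold Setup.XX; positivity
  have hXXs : S.XX ^ s ≤ (((S.R ^ m : ℕ) : ℝ) * (S.R : ℝ) ^ (Mx - 1)) ^ s :=
    pow_le_pow_left₀ hXX0 hXX s
  have hWne : (W : ℝ) ≠ 0 := by linarith
  have hWs : (W : ℝ) ^ s = (W : ℝ) ^ (s - 1) * W := by
    rw [← pow_succ]; congr 1; omega
  have hL : c0 * (c3 * (eps / 2)) * S.XX ^ s / W ≤
      (2 * J + 1) * Mavg S.P d W J S.X (fun i => ((a i : ℤ) : ZMod S.P)) := by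
    refine le_trans ?_ hsum
    have : ((S.R : ℝ) ^ (Mx - 1)) ^ s *
      ((c0 * (W : ℝ) ^ (s - 1)) * (c3 * (eps / 2) * (((S.R ^ m : ℕ) : ℝ) / W) ^ s)) =
      c0 * (c3 * (eps / 2)) * (((S.R ^ m : ℕ) : ℝ) * (S.R : ℝ) ^ (Mx - 1)) ^ s / W := by
      rw [div_pow, hWs, mul_pow]
      have : (W : ℝ) ^ (s - 1) ≠ 0 := pow_ne_zero _ hWne
      field_simp
    rw [this]
    gcongr
  have h2J : (2 * (J : ℝ) + 1) ≤ 3 * (eps * Y / W) := by
    have h1 : 1 ≤ eps * Y / W := by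
      rw [le_div_iff₀ (by linarith)]
      linarith
    linarith
  have hMavg0 : 0 ≤ Mavg S.P d W J S.X (fun i => ((a i : ℤ) : ZMod S.P)) := by
    unfold Mavg
    refine div_nonneg (sum_nonneg fun j _ => ?_) (by linarith [Nat.cast_nonneg (α := ℝ) J])
    exact Nat.cast_nonneg _
  have hfin := hL.trans (mul_le_mul_of_nonneg_right h2J hMavg0)
  rw [div_le_iff₀ hYpos]
  have h3 : c0 * (c3 * (eps / 2)) * S.XX ^ s / W = (eps / W) * 3 * (c0 * (c3 / 6) * S.XX ^ s) := by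
    ring
  have h4 : 3 * (eps * Y / W) * Mavg S.P d W J S.X (fun i => ((a i : ℤ) : ZMod S.P)) =
      (eps / W) * 3 * (Mavg S.P d W J S.X (fun i => ((a i : ℤ) : ZMod S.P)) * Y) := by
    ring
  rw [h3, h4] at hfin
  exact le_of_mul_le_mul_left hfin (by positivity)

end Pool.Agent.Lib.MP_e426f4_ag.DG
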