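import Pool.Agent.Lib.MP_e426f4_ag.DG.Defs
import Pool.Agent.Lib.MP_e426f4_ag.DG.Facts1

/-!
# NZero (done): no small zero means no zero modulo P in the box
-/

set_option autoImplicit false

namespace Pool.Agent.Lib.MP_e426f4_ag.DG

open Finset

/-- if there is no small zero then no point of the box is a zero modulo `P` -/
theorem NN_eq_zero {d s m Mx E : ℕ} (hE : 2 ≤ E) (hs : 1 ≤ s) (S : Setup d s m Mx E) (a : Fin s → ℤ)
    (ha : ∀ i, |a i| ≤ (S.H : ℤ)) (h : ¬ SmallZero d S.H a) :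
    NN S.P d S.X (fun i => ((a i : ℤ) : ZMod S.P)) 0 = 0 := by
  unfold NN
  rw [Nat.cast_eq_zero, Finset.card_eq_zero, Finset.filter_eq_empty_iff]
  intro x hx hsum
  rw [Fintype.mem_piFinset] at hx
  apply h
  have hb : ∀ i, 1 ≤ x i ∧ x i ≤ S.B := fun i =>
    ⟨(S.X_bounds (by omega) i (x i) (hx i)).1, (S.X_bounds (by omega) i (x i) (hx i)).2.1⟩
  refine ⟨fun i => (x i : ℤ), ?_, ?_, ?_⟩
  · intro h0
    have := congrFun h0 ⟨0, by omega⟩
    have h1 := (hb ⟨0, by omega⟩).1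
    simp at this
    omega
  · have h1 : ((∑ i, a i * (x i : ℤ) ^ d : ℤ) : ZMod S.P) = 0 := by
      push_cast
      exact hsum
    rw [ZMod.intCast_zmod_eq_zero_iff_dvd] at h1
    by_contra hne
    have h2 := Int.le_of_dvd (abs_pos.mpr hne) ((dvd_abs _ _).mpr h1)
    have h3 : |∑ i, a i * (x i : ℤ) ^ d| ≤ s * (S.H * (S.B : ℤ) ^ d) := by
      calc |∑ i, a i * (x i : ℤ) ^ d| ≤ ∑ i, |a i * (x i : ℤ) ^ d| := Finset.abs_sum_le_sum_abs _ _
        _ ≤ ∑ _i : Fin s, ((S.H : ℤ) * (S.B : ℤ) ^ d) := by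
            refine Finset.sum_le_sum fun i _ => ?_
            rw [abs_mul, abs_pow, Nat.abs_cast]
            have h4 : ((x i : ℕ) : ℤ) ^ d ≤ (S.B : ℤ) ^ d :=
              pow_le_pow_left₀ (by positivity) (by exact_mod_cast (hb i).2) d
            exact mul_le_mul (ha i) h4 (by positivity) (by positivity)
        _ = s * (S.H * (S.B : ℤ) ^ d) := by simp
    have h5 : ((8 * (s + 2) * S.H * S.B ^ d : ℕ) : ℤ) < S.P := by exact_mod_cast S.hP
    push_cast at h5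
    have h6 : (0 : ℤ) ≤ (S.H : ℤ) * (S.B : ℤ) ^ d := by positivity
    nlinarith
  · intro i
    rw [Nat.abs_cast]
    have h4 : (x i) ^ d ≤ S.B ^ d := Nat.pow_le_pow_left (hb i).2 d
    have h5 : 16 * S.B ^ d ≤ S.H := S.hH1
    exact_mod_cast (by omega : x i ^ d ≤ S.H)

end Pool.Agent.Lib.MP_e426f4_ag.DG
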