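import Pool.Agent.Lib.MP_e426f4_ag.DG.Defs
import Pool.Agent.Lib.MP_e426f4_ag.DG.CombMin
import Pool.Agent.Lib.MP_e426f4_ag.DG.CombMix
import Pool.Agent.Lib.MP_e426f4_ag.DG.CombMaj
import Pool.Agent.Lib.MP_e426f4_ag.DG.ArcEx
import Pool.Agent.Lib.MP_e426f4_ag.DG.FFb
import Pool.Agent.Lib.MP_e426f4_ag.DG.Facts1
import Pool.Agent.Lib.MP_e426f4_ag.DG.VDefs

/-!
# RhsSmall (done): Section 6
-/

set_option autoImplicit false

namespace Pool.Agent.Lib.MP_e426f4_ag.DG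

open Finset

open Classical in
/-- Section 6 -/
theorem rhs_small (d s E : ℕ) (hd : 4 ≤ d) (hs : 2 * d + 1 ≤ s) (hE : 2 ≤ E) (eta : ℝ)
    (heta : 0 < eta) : ∃ (om : ℕ) (e0 : ℝ) (R0 : ℕ), 1 ≤ om ∧ 0 < e0 ∧ ∀ (J : ℕ)
      (S : Setup d s (4 * mm4 d) (MMx d s) E), R0 ≤ S.R →
    ((om.factorial : ℝ) * J ≤ e0 * S.H * (S.B : ℝ) ^ d) →
    rhs S.P S.n d om.factorial J S.X ≤ eta * S.main := by
  have hm1 : 1 ≤ 4 * mm4 d := by unfold mm4; omega
  have hm4 : 1 ≤ mm4 d := by unfold mm4; omega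
  have hmM : 4 * mm4 d < MMx d s := by
    unfold MMx
    nlinarith [Nat.zero_le (2 * cE d s * (4 * mm4 d))]
  obtain ⟨C1, hC1, h1⟩ := comb_mm d s (4 * mm4 d) (MMx d s) E hd hs hE hm1 hmM
  obtain ⟨C2, hC2, h2⟩ := comb_mM d s (4 * mm4 d) (MMx d s) E hd hs hE hm1 hmM
  obtain ⟨C3, hC3, h3⟩ := comb_MM d s (mm4 d) (MMx d s) E hd hs hE (by unfold mm4; omega) hmM
  obtain ⟨om, e0, hom, he0, h3⟩ := h3 (eta / 2) (by positivity)
  refine ⟨om, e0, ⌈(C1 + 2 * C2 + C3) / (eta / 2)⌉₊ + 1, hom, he0, fun J S hR hJ => ?_⟩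
  obtain ⟨A⟩ := exists_arc S.P (4 * S.B ^ d) S.prime.pos
    (by have := Nat.pow_le_pow_left S.B_pos d; simp at this; omega)
  have hRpos : (0 : ℝ) < S.R := by exact_mod_cast (by have := S.hR; omega : 0 < S.R)
  have hR1 : (1 : ℝ) ≤ S.R := by exact_mod_cast (by have := S.hR; omega : 1 ≤ S.R)
  have hmn := S.main_nonneg
  have e1 := h1 S A om.factorial J
  have e2 := h2 S A om.factorial J
  have e3 := h3 J S A hJ
  -- the size of B
  have hBR : (S.R : ℝ) ^ (cE d s * (4 * mm4 d)) * S.R ≤ Real.sqrt S.B := by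
    apply Real.le_sqrt_of_sq_le
    have hB : (S.B : ℝ) = 4 * (S.R : ℝ) ^ (MMx d s) * (S.R : ℝ) ^ (4 * mm4 d) := by
      unfold Setup.B
      push_cast
      ring
    rw [hB, ← pow_succ, ← pow_mul]
    calc (S.R : ℝ) ^ ((cE d s * (4 * mm4 d) + 1) * 2) ≤ (S.R : ℝ) ^ (MMx d s) := by
          apply pow_le_pow_right₀ hR1
          unfold MMx
          nlinarith
      _ ≤ 4 * (S.R : ℝ) ^ (MMx d s) * (S.R : ℝ) ^ (4 * mm4 d) := by
          have h4 : (1 : ℝ) ≤ (S.R : ℝ) ^ (4 * mm4 d) := one_le_pow₀ hR1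
          have h5 : (0 : ℝ) < (S.R : ℝ) ^ (MMx d s) := by positivity
          nlinarith
  have hBge : Real.sqrt S.B ≤ S.B := by
    have hB1 : (1 : ℝ) ≤ S.B := by exact_mod_cast S.B_pos
    rw [Real.sqrt_le_left (by linarith)]
    nlinarith
  have hsq : 0 < Real.sqrt S.B := Real.sqrt_pos.mpr (by exact_mod_cast S.B_pos)
  have hBp : (0 : ℝ) < S.B := by exact_mod_cast S.B_pos
  have k1 : C1 * (S.R : ℝ) ^ (cE d s * (4 * mm4 d)) / S.B ≤ C1 / S.R := by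
    rw [div_le_div_iff₀ hBp hRpos, mul_assoc]
    exact mul_le_mul_of_nonneg_left (hBR.trans hBge) hC1.le
  have k2 : C2 * (S.R : ℝ) ^ (cE d s * (4 * mm4 d)) / Real.sqrt S.B ≤ C2 / S.R := by
    rw [div_le_div_iff₀ hsq hRpos, mul_assoc]
    exact mul_le_mul_of_nonneg_left hBR hC2.le
  have k3 : (C1 + 2 * C2 + C3) / S.R ≤ eta / 2 := by
    rw [div_le_iff₀ hRpos]
    have h4 : (C1 + 2 * C2 + C3) / (eta / 2) ≤ S.R := by
      have h5 : (⌈(C1 + 2 * C2 + C3) / (eta / 2)⌉₊ : ℝ) ≤ S.R := by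
        exact_mod_cast (by omega : ⌈(C1 + 2 * C2 + C3) / (eta / 2)⌉₊ ≤ S.R)
      exact (Nat.le_ceil _).trans h5
    rw [div_le_iff₀ (by positivity)] at h4
    linarith
  -- splitting
  set M := (univ : Finset (ZMod S.P)).filter (fun b => S.Minor A b) with hM
  set N := (univ : Finset (ZMod S.P)).filter (fun b => ¬ S.Minor A b) with hN
  set g : ZMod S.P → ZMod S.P → ℝ := fun b b' =>
    psi S.P om.factorial J b * psi S.P om.factorial J b' * ∏ i, FF S.P S.n d (S.X i) b b' with hg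
  have hsplit : ∀ f : ZMod S.P → ℝ, ∑ b, f b = ∑ b ∈ M, f b + ∑ b ∈ N, f b := fun f =>
    (Finset.sum_filter_add_sum_filter_not _ _ _).symm
  have hsym : ∑ b ∈ N, ∑ b' ∈ M, g b b' = ∑ b ∈ M, ∑ b' ∈ N, g b b' := by
    rw [Finset.sum_comm]
    refine Finset.sum_congr rfl fun b _ => Finset.sum_congr rfl fun b' _ => ?_
    simp only [hg]
    rw [mul_comm (psi S.P om.factorial J b') (psi S.P om.factorial J b)]
    congr 1
    exact Finset.prod_congr rfl fun i _ => FF_symm _ _ _ _ _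
  have htot : rhs S.P S.n d om.factorial J S.X = (1 / (S.P : ℝ) ^ 2) * ∑ b ∈ M, ∑ b' ∈ M, g b b' +
      2 * ((1 / (S.P : ℝ) ^ 2) * ∑ b ∈ M, ∑ b' ∈ N, g b b') +
      (1 / (S.P : ℝ) ^ 2) * ∑ b ∈ N, ∑ b' ∈ N, g b b' := by
    unfold rhs
    rw [hsplit]
    have h5 : ∀ b, ∑ b' : ZMod S.P, psi S.P om.factorial J b * psi S.P om.factorial J b' *
        ∏ i, FF S.P S.n d (S.X i) b b' = ∑ b' ∈ M, g b b' + ∑ b' ∈ N, g b b' := fun b =>
      hsplit (g b)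
    simp only [h5, Finset.sum_add_distrib]
    rw [hsym]
    ring
  rw [htot]
  have f1 := e1.trans (mul_le_mul_of_nonneg_right k1 hmn)
  have f2 := e2.trans (mul_le_mul_of_nonneg_right k2 hmn)
  have f3 := e3
  have k4 := mul_le_mul_of_nonneg_right k3 hmn
  have k5 : (C1 + 2 * C2 + C3) / S.R * S.main = C1 / S.R * S.main + 2 * (C2 / S.R * S.main) +
    C3 / S.R * S.main := by ring
  rw [k5] at k4
  have k6 : (eta / 2 + C3 / S.R) * S.main = eta / 2 * S.main + C3 / S.R * S.main := by ring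
  rw [k6] at f3
  linarith

end Pool.Agent.Lib.MP_e426f4_ag.DG
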