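import Pool.Agent.Lib.MP_e426f4_ag.DG.Defs

/-!
# Primes: many primes in (L,4L], L = R^Mx
Mathlib.NumberTheory.Chebyshev: `Chebyshev.theta_ge (n) : n * log 2 - log (n+1) - 2 * sqrt n * log n <= theta n`, `Chebyshev.theta_le_log4_mul_x : theta x <= log 4 * x`. So
`theta(4L) - theta(L) >= 4L log 2 - 2L log 2 - log(4L+1) - 2 sqrt(4L) log(4L) >= L` for L >= L0 (`2 log 2 > 1.38`; the error is `<= 0.3 L` for L large; `L >= R^2`). Each prime in (L,4L] contributes `log p <= log(4L) =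
log 4 + Mx log R`, so their number is at least `L/(log 4 + Mx log R) >= s L/R` if `s (log 4 + Mx log R) <= R`, true for R >= R0(s) because `Mx <= sqrt R`: `s(log 4 + sqrt R log R) <= R`. And `L/R = R^(Mx-1)`.
-/

set_option autoImplicit false

namespace Pool.Agent.Lib.MP_e426f4_ag.DG

open Finset

private theorem log_le_sqrt (ε : ℝ) (hε : 0 < ε) :
    ∃ x0 : ℝ, ∀ x : ℝ, x0 ≤ x → Real.log x ≤ ε * √x := by
  have h := (isLittleO_log_rpow_atTop (r := 1 / 2) (by norm_num)).def hε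
  obtain ⟨x0, hx0⟩ := Filter.eventually_atTop.1 h
  refine ⟨x0, fun x hx => ?_⟩
  have h1 := hx0 x hx
  rw [Real.norm_eq_abs, Real.norm_eq_abs, ← Real.sqrt_eq_rpow,
    abs_of_nonneg (Real.sqrt_nonneg x)] at h1
  exact (le_abs_self _).trans h1

private theorem theta_split (L : ℕ) :
    Chebyshev.theta ((4 * L : ℕ) : ℝ) ≤ Chebyshev.theta (L : ℝ) +
      ((Ioc L (4 * L)).filter Nat.Prime).card * Real.log ((4 * L : ℕ) : ℝ) := by
  unfold Chebyshev.theta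
  rw [Nat.floor_natCast, Nat.floor_natCast]
  have h : (Ioc 0 (4 * L)) = Ioc 0 L ∪ Ioc L (4 * L) :=
    (Ioc_union_Ioc_eq_Ioc (Nat.zero_le _) (by omega)).symm
  have hd : Disjoint (Ioc 0 L) (Ioc L (4 * L)) := by
    rw [Finset.disjoint_left]
    intro a ha ha'
    rw [Finset.mem_Ioc] at ha ha'
    omega
  rw [h, filter_union, sum_union (Finset.disjoint_filter_filter hd)]
  gcongr
  rw [← nsmul_eq_mul]
  apply sum_le_card_nsmul
  intro p hp
  rw [Finset.mem_filter, Finset.mem_Ioc] at hp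
  apply Real.log_le_log
  · exact_mod_cast hp.2.pos
  · exact_mod_cast hp.1.2

private theorem lower (L : ℕ) (hL : 1 ≤ L)
    (hlog : Real.log ((4 * L : ℕ) : ℝ) ≤ 1 / 50 * √((4 * L : ℕ) : ℝ)) :
    (L : ℝ) ≤ ((Ioc L (4 * L)).filter Nat.Prime).card * Real.log ((4 * L : ℕ) : ℝ) := by
  have h1 := Chebyshev.theta_ge (4 * L)
  have h2 := Chebyshev.theta_le_log4_mul_x (x := (L : ℝ)) (by positivity)
  have h3 := theta_split L
  set N : ℝ := ((4 * L : ℕ) : ℝ) with hN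
  have hNL : N = 4 * L := by rw [hN]; push_cast; ring
  have hLr : (1 : ℝ) ≤ L := by exact_mod_cast hL
  have hN4 : 4 ≤ N := by rw [hNL]; linarith
  have hl0 : 0 ≤ Real.log N := Real.log_nonneg (by linarith)
  have hs2 : 2 ≤ √N := by
    rw [show (2 : ℝ) = √(2 ^ 2) by rw [Real.sqrt_sq (by norm_num)]]
    exact Real.sqrt_le_sqrt (by linarith)
  have h4 : Real.log (N + 1) ≤ √N * Real.log N := by
    calc Real.log (N + 1) ≤ Real.log (N ^ 2) := Real.log_le_log (by linarith) (by nlinarith)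
      _ = 2 * Real.log N := by rw [Real.log_pow]; norm_num
      _ ≤ √N * Real.log N := by gcongr
  have h5 : √N * Real.log N ≤ 1 / 50 * N := by
    calc √N * Real.log N ≤ √N * (1 / 50 * √N) := by gcongr
      _ = 1 / 50 * (√N * √N) := by ring
      _ = 1 / 50 * N := by rw [Real.mul_self_sqrt (by linarith)]
  have h6 : Real.log 4 = 2 * Real.log 2 := by
    rw [show (4 : ℝ) = 2 ^ 2 by norm_num, Real.log_pow]; norm_num
  have h7 := Real.log_two_gt_d9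
  rw [h6] at h2
  have h8 : N * Real.log 2 = 4 * (L * Real.log 2) := by rw [hNL]; ring
  have h9 : 0.69 * (L : ℝ) ≤ L * Real.log 2 := by
    rw [mul_comm]
    have : (0.69 : ℝ) ≤ Real.log 2 := by linarith
    gcongr
  nlinarith

theorem many_primes (s : ℕ) : ∃ R0 : ℕ, ∀ R Mx : ℕ, R0 ≤ R → 2 ≤ Mx → (Mx : ℝ) ^ 2 ≤ R →
    s * R ^ (Mx - 1) ≤ ((Ioc (R ^ Mx) (4 * R ^ Mx)).filter Nat.Prime).card := by
  obtain ⟨x1, hx1⟩ := log_le_sqrt (1 / 50) (by norm_num)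
  obtain ⟨x2, hx2⟩ := log_le_sqrt (1 / (2 * (s + 1))) (by positivity)
  refine ⟨⌈x1⌉₊ + ⌈x2⌉₊ + 4 * s + 4, fun R Mx hR hMx hMR => ?_⟩
  have hR1 : 1 ≤ R := by omega
  have hR1r : (1 : ℝ) ≤ R := by exact_mod_cast hR1
  have hx1R : x1 ≤ R := (Nat.le_ceil x1).trans (by exact_mod_cast (by omega : ⌈x1⌉₊ ≤ R))
  have hx2R : x2 ≤ R := (Nat.le_ceil x2).trans (by exact_mod_cast (by omega : ⌈x2⌉₊ ≤ R))
  have hRs : (4 * s : ℝ) ≤ R := by exact_mod_cast (by omega : 4 * s ≤ R)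
  have hRL : R ≤ R ^ Mx := Nat.le_self_pow (by omega) R
  have hL1 : 1 ≤ R ^ Mx := hR1.trans hRL
  have hlog := hx1 ((4 * R ^ Mx : ℕ) : ℝ) (hx1R.trans (by exact_mod_cast (by omega)))
  have h1 := lower (R ^ Mx) hL1 hlog
  set c : ℕ := ((Ioc (R ^ Mx) (4 * R ^ Mx)).filter Nat.Prime).card with hc
  set ℓ : ℝ := Real.log ((4 * R ^ Mx : ℕ) : ℝ) with hℓ
  have hℓ0 : 0 < ℓ := by
    apply Real.log_pos
    exact_mod_cast (by omega : 1 < 4 * R ^ Mx)
  have hℓe : ℓ = 2 * Real.log 2 + Mx * Real.log R := by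
    rw [hℓ]
    push_cast
    rw [Real.log_mul (by norm_num) (by positivity), Real.log_pow,
      show (4 : ℝ) = 2 ^ 2 by norm_num, Real.log_pow]
    norm_num
  have hMs : (Mx : ℝ) ≤ √R := Real.le_sqrt_of_sq_le hMR
  have hlR : Real.log R ≤ 1 / (2 * (s + 1)) * √R := hx2 R hx2R
  have hlR0 : 0 ≤ Real.log R := Real.log_nonneg hR1r
  have h2 : (Mx : ℝ) * Real.log R ≤ 1 / (2 * (s + 1)) * R := by
    calc (Mx : ℝ) * Real.log R ≤ √R * (1 / (2 * (s + 1)) * √R) := by gcongr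
      _ = 1 / (2 * (s + 1)) * (√R * √R) := by ring
      _ = 1 / (2 * (s + 1)) * R := by rw [Real.mul_self_sqrt (by positivity)]
  have h3 : (s : ℝ) * (1 / (2 * (s + 1)) * R) ≤ R / 2 := by
    have h4 : (s : ℝ) * (1 / (2 * (s + 1))) ≤ 1 / 2 := by
      rw [mul_one_div, div_le_div_iff₀ (by positivity) (by norm_num)]
      nlinarith [(Nat.cast_nonneg s : (0 : ℝ) ≤ s)]
    calc (s : ℝ) * (1 / (2 * (s + 1)) * R) = (s : ℝ) * (1 / (2 * (s + 1))) * R := by ring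
      _ ≤ 1 / 2 * R := by gcongr
      _ = R / 2 := by ring
  have h4 : (s : ℝ) * ℓ ≤ R := by
    rw [hℓe]
    have h5 := Real.log_two_lt_d9
    have h6 : (s : ℝ) * ((Mx : ℝ) * Real.log R) ≤ R / 2 :=
      (mul_le_mul_of_nonneg_left h2 (Nat.cast_nonneg s)).trans h3
    have h7 : (s : ℝ) * (2 * Real.log 2) ≤ s * 2 := by
      gcongr
      linarith
    rw [mul_add]
    linarith
  have h5 : ((s : ℝ) * (R : ℝ) ^ (Mx - 1)) * ℓ ≤ (c : ℝ) * ℓ := by
    calc ((s : ℝ) * (R : ℝ) ^ (Mx - 1)) * ℓ = (R : ℝ) ^ (Mx - 1) * (s * ℓ) := by ring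
      _ ≤ (R : ℝ) ^ (Mx - 1) * R := by gcongr
      _ = (R : ℝ) ^ Mx := by
          rw [← pow_succ]
          congr 1
          omega
      _ = ((R ^ Mx : ℕ) : ℝ) := by push_cast; ring
      _ ≤ (c : ℝ) * ℓ := h1
  have h6 := le_of_mul_le_mul_right h5 hℓ0
  exact_mod_cast h6

end Pool.Agent.Lib.MP_e426f4_ag.DG
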