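import Pool.Agent.Lib.MP_e426f4_ag.DG.Defs
import Pool.Agent.Lib.MP_e426f4_ag.DG.Primes
import Pool.Agent.Lib.MP_e426f4_ag.DG.Rho
import Pool.Agent.Lib.MP_dd84fd_nt.DivBound

/-!
# SetupEx: existence of setups
Given H large let R be maximal with `16 (4 R^Mx R^m)^d <= H` (`Nat.findGreatest` or similar; R -> oo with H). Then `H < 16 (4 (R+1)^(Mx+m))^d <= 16 (4 (2R)^(Mx+m))^d = 16 * 2^((m+Mx)d) (4 R^Mx R^m)^d`.
`htau`: `DivBound.div_bound k` (file Pool/Agent/Lib/MP_dd84fd_nt/DivBound.lean) with `k = 4 d (m+Mx) + 1`: `tau(n)^k <= C n <= C (4 R^(m+Mx))^(4d) = C 4^(4d) R^(k-1) <= R^k` for `R >= C 4^(4d)`. `hrho`: the same with `rho_bound`.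
`hlog`: `1 + 2 log 4 + 2(m+Mx) log R <= R` for R large. PS: `many_primes` gives `s R^(Mx-1)` primes in `(L,4L]`; split a subset of that size into s disjoint parts of size `R^(Mx-1)` (e.g. via `Finset.exists_subset_card_eq` and an
equivalence with `Fin s × Fin (R^(Mx-1))`). P: a prime larger than `8(s+2) H (..)^d` (`Nat.exists_infinite_primes`).
-/

set_option autoImplicit false

namespace Pool.Agent.Lib.MP_e426f4_ag.DG

open Finset

private theorem exists_R (f : ℕ → ℕ) (hf : Monotone f) (hf1 : ∀ R, R ≤ f R) (R1 H : ℕ)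
    (hH : f R1 ≤ H) : ∃ R, R1 ≤ R ∧ f R ≤ H ∧ H < f (R + 1) := by
  classical
  have h1 : R1 ≤ H := (hf1 R1).trans hH
  refine ⟨Nat.findGreatest (fun R => f R ≤ H) H, ?_, ?_, ?_⟩
  · exact Nat.le_findGreatest h1 hH
  · exact Nat.findGreatest_spec (P := fun R => f R ≤ H) h1 hH
  · by_contra hcon
    push Not at hcon
    have h2 : Nat.findGreatest (fun R => f R ≤ H) H + 1 ≤ H := (hf1 _).trans hcon
    have := Nat.le_findGreatest (P := fun R => f R ≤ H) h2 hcon
    omega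

private theorem split_parts (A : Finset ℕ) (s n : ℕ) (h : s * n ≤ A.card) :
    ∃ PS : Fin s → Finset ℕ, (∀ i, PS i ⊆ A) ∧ (∀ i j, i ≠ j → Disjoint (PS i) (PS j)) ∧
      ∀ i, (PS i).card = n := by
  classical
  let e := A.orderEmbOfCardLe h
  refine ⟨fun i => (univ : Finset (Fin n)).image fun j => e (finProdFinEquiv (i, j)), ?_, ?_, ?_⟩
  · intro i x hx
    obtain ⟨j, -, rfl⟩ := mem_image.1 hx
    exact Finset.orderEmbOfCardLe_mem A h _
  · intro i j hij
    rw [Finset.disjoint_left]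
    intro x hx hx'
    obtain ⟨a, -, rfl⟩ := mem_image.1 hx
    obtain ⟨b, -, hb⟩ := mem_image.1 hx'
    have := e.injective hb
    have h2 := finProdFinEquiv.injective this
    exact hij (congrArg Prod.fst h2).symm
  · intro i
    rw [card_image_of_injective]
    · simp
    · intro a b hab
      have h2 := finProdFinEquiv.injective (e.injective hab)
      exact congrArg Prod.snd h2

private theorem log_big (c : ℝ) (a : ℝ) : ∃ R0 : ℕ, ∀ R : ℕ, R0 ≤ R →
    a + c * Real.log R ≤ R := by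
  have h := Real.isLittleO_log_id_atTop.bound (c := 1 / (2 * (|c| + 1))) (by positivity)
  have h1 : ∀ᶠ x : ℝ in Filter.atTop, a + c * Real.log x ≤ x := by
    filter_upwards [h, Filter.eventually_ge_atTop (2 * |a| + 1)] with x hx hx2
    simp only [id, Real.norm_eq_abs] at hx
    have hx0 : 0 < x := by linarith [abs_nonneg a]
    rw [abs_of_pos hx0] at hx
    have h3 : c * Real.log x ≤ |c| * |Real.log x| := by
      rw [← abs_mul]; exact le_abs_self _
    have h4 : |c| * |Real.log x| ≤ x / 2 := by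
      have : |c| * |Real.log x| ≤ |c| * (1 / (2 * (|c| + 1)) * x) :=
        mul_le_mul_of_nonneg_left hx (abs_nonneg _)
      refine this.trans ?_
      have h5 : |c| * (1 / (2 * (|c| + 1)) * x) = (|c| / (|c| + 1)) * (x / 2) := by
        field_simp
      rw [h5]
      have h6 : |c| / (|c| + 1) ≤ 1 := by
        rw [div_le_one (by positivity)]; linarith
      calc |c| / (|c| + 1) * (x / 2) ≤ 1 * (x / 2) :=
            mul_le_mul_of_nonneg_right h6 (by positivity)
        _ = x / 2 := one_mul _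
    have := le_abs_self a
    linarith
  have h2 := tendsto_natCast_atTop_atTop (R := ℝ) |>.eventually h1
  obtain ⟨R0, hR0⟩ := Filter.eventually_atTop.1 h2
  exact ⟨R0, hR0⟩

private theorem pow_bound (R d e C t k : ℕ) (hC : C * 4 ^ (4 * d) ≤ R)
    (ht : t ^ (4 * d * e + 1) ≤ C * k) (hk : k ≤ (4 * R ^ e) ^ (4 * d)) : t ≤ R := by
  have h1 : t ^ (4 * d * e + 1) ≤ R ^ (4 * d * e + 1) := by
    calc t ^ (4 * d * e + 1) ≤ C * k := ht
      _ ≤ C * (4 * R ^ e) ^ (4 * d) := Nat.mul_le_mul_left _ hk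
      _ = (C * 4 ^ (4 * d)) * R ^ (4 * d * e) := by
          rw [mul_pow, ← pow_mul, mul_comm e (4 * d)]; ring
      _ ≤ R * R ^ (4 * d * e) := Nat.mul_le_mul_right _ hC
      _ = R ^ (4 * d * e + 1) := by rw [pow_succ]; ring
  exact (Nat.pow_le_pow_iff_left (by omega)).1 h1

theorem exists_setup (d s m Mx E R0 : ℕ) (hd : 4 ≤ d) (hs : 1 ≤ s) (hm : 1 ≤ m) (hMx : m < Mx) :
    ∃ H0 : ℕ, ∀ H : ℕ, H0 ≤ H → ∃ S : Setup d s m Mx E, S.H = H ∧ R0 ≤ S.R := by
  obtain ⟨Ra, hRa⟩ := many_primes s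
  obtain ⟨Ct, -, hCt⟩ := Pool.Agent.Lib.MP_dd84fd_nt.DivBound.div_bound (4 * d * (Mx + m) + 1)
  obtain ⟨Cr, -, hCr⟩ := rho_bound d (by omega) (4 * d * (Mx + m) + 1)
  obtain ⟨Rl, hRl⟩ := log_big (2 * (Mx + m)) (1 + 2 * Real.log 4)
  set f : ℕ → ℕ := fun R => 16 * (4 * R ^ Mx * R ^ m) ^ d with hf
  have hmono : Monotone f := by
    intro a b hab
    simp only [hf]
    gcongr
  have hge : ∀ R, R ≤ f R := by
    intro R
    simp only [hf]
    have h1 : R ≤ R ^ Mx * R ^ m := by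
      rw [← pow_add]
      exact Nat.le_self_pow (by omega) R
    have h2 : 4 * R ^ Mx * R ^ m ≤ (4 * R ^ Mx * R ^ m) ^ d := Nat.le_self_pow (by omega) _
    have h3 : 4 * R ^ Mx * R ^ m = 4 * (R ^ Mx * R ^ m) := by ring
    rw [h3] at h2 ⊢
    omega
  set R1 := 2 + R0 + Ra + Ct * 4 ^ (4 * d) + Cr * 4 ^ (4 * d) + Rl + Mx ^ 2 with hR1
  refine ⟨f R1, fun H hH => ?_⟩
  obtain ⟨R, hR, hR2, hR3⟩ := exists_R f hmono hge R1 H hH
  obtain ⟨P, hP1, hP2⟩ := Nat.exists_infinite_primes (8 * (s + 2) * H * (4 * R ^ Mx * R ^ m) ^ d + 1)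
  have hMR : (Mx : ℝ) ^ 2 ≤ R := by
    have : Mx ^ 2 ≤ R := by omega
    exact_mod_cast this
  obtain ⟨PS, hPS1, hPS2, hPS3⟩ := split_parts _ s (R ^ (Mx - 1)) (hRa R Mx (by omega) (by omega) hMR)
  have hpe : 4 * R ^ Mx * R ^ m = 4 * R ^ (Mx + m) := by rw [pow_add]; ring
  have hRpos : 0 < R := by omega
  refine ⟨{ R := R, H := H, P := P, PS := PS, hR := by omega, prime := hP2, hH1 := hR2,
            hH2 := ?_, hP := by omega, hPS := ?_, hdisj := hPS2, hcard := hPS3,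
            htau := ?_, hrho := ?_, hlog := ?_ }, rfl, ?_⟩
  · refine hR3.le.trans ?_
    simp only [hf]
    calc 16 * (4 * (R + 1) ^ Mx * (R + 1) ^ m) ^ d
        ≤ 16 * (4 * (2 * R) ^ Mx * (2 * R) ^ m) ^ d := by
          have : R + 1 ≤ 2 * R := by omega
          gcongr
      _ = 16 * 2 ^ ((m + Mx) * d) * (4 * R ^ Mx * R ^ m) ^ d := by
          rw [mul_pow 2 R Mx, mul_pow 2 R m, pow_mul, pow_add]
          rw [show 4 * (2 ^ Mx * R ^ Mx) * (2 ^ m * R ^ m) = (2 ^ m * 2 ^ Mx) * (4 * R ^ Mx * R ^ m)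
            by ring, mul_pow (2 ^ m * 2 ^ Mx)]
          ring
  · intro i l hl
    have := hPS1 i hl
    rw [mem_filter, mem_Ioc] at this
    exact ⟨this.2, this.1.1, this.1.2⟩
  · intro k hk1 hk2
    rw [hpe] at hk2
    exact pow_bound R d (Mx + m) Ct _ k (by omega) (hCt k (by omega)) hk2
  · intro k hk1 hk2
    rw [hpe] at hk2
    exact pow_bound R d (Mx + m) Cr _ k (by omega) (hCr k hk1) hk2
  · have h := hRl R (by omega)
    have hR0' : (0 : ℝ) < (R : ℝ) := by exact_mod_cast hRpos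
    have : Real.log ((4 * (R : ℝ) ^ Mx * (R : ℝ) ^ m) ^ 2) =
        2 * Real.log 4 + 2 * (Mx + m) * Real.log R := by
      rw [Real.log_pow, Real.log_mul (by positivity) (by positivity),
        Real.log_mul (by positivity) (by positivity), Real.log_pow, Real.log_pow]
      push_cast
      ring
    rw [this]
    linarith
  · show R0 ≤ R
    omega

end Pool.Agent.Lib.MP_e426f4_ag.DG
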