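import Pool.Agent.Lib.MP_e426f4_ag.DG.Defs

/-!
# UnitCo: Chevalley-Warning and Hensel
The polynomial `sum_{i in U} a_i X_i^d` over `ZMod p` in the `|U| >= d+1` variables with `p ∤ a_i` has degree `d < |U|` and the zero 0, so by Chevalley-Warning (`char_dvd_card_solutions` in Mathlib) it has a non-trivial zero x. Some `x_i0 != 0`. Lift the other
coordinates arbitrarily to integers (0 outside U) and apply `hensels_lemma` in the variable i0: `F'(x_i0) = d a_i0 x_i0^(d-1)` is a unit of Z_p.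
-/

set_option autoImplicit false

namespace Pool.Agent.Lib.MP_e426f4_ag.DG

open Finset

open Polynomial in
private theorem hensel_diag (d s p : ℕ) [Fact p.Prime] (a z : Fin s → ℤ) (i0 : Fin s)
    (h : ‖((∑ i, a i * z i ^ d : ℤ) : ℤ_[p])‖ <
      ‖(((d : ℤ) * a i0 * z i0 ^ (d - 1) : ℤ) : ℤ_[p])‖ ^ 2) :
    ∃ T : ℤ_[p], ‖T - (z i0 : ℤ_[p])‖ < ‖(((d : ℤ) * a i0 * z i0 ^ (d - 1) : ℤ) : ℤ_[p])‖ ∧
      ∑ i, (a i : ℚ_[p]) * (Function.update (fun i => (z i : ℚ_[p])) i0 (T : ℚ_[p]) i) ^ d = 0 := by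
  classical
  set N : ℤ := ∑ i ∈ univ.erase i0, a i * z i ^ d with hN
  let F : ℤ[X] := C (a i0) * X ^ d + C N
  have hF : ∀ x : ℤ_[p], aeval x F = (a i0 : ℤ_[p]) * x ^ d + (N : ℤ_[p]) := by
    intro x
    simp [F]
  have hF' : ∀ x : ℤ_[p], aeval x (derivative F) = (a i0 : ℤ_[p]) * ((d : ℤ_[p]) * x ^ (d - 1)) := by
    intro x
    simp [F, derivative_X_pow]
  have e1 : aeval (z i0 : ℤ_[p]) F = ((∑ i, a i * z i ^ d : ℤ) : ℤ_[p]) := by
    rw [hF, ← Finset.add_sum_erase univ _ (Finset.mem_univ i0), ← hN]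
    push_cast
    ring
  have e2 : aeval (z i0 : ℤ_[p]) (derivative F) =
      (((d : ℤ) * a i0 * z i0 ^ (d - 1) : ℤ) : ℤ_[p]) := by
    rw [hF']
    push_cast
    ring
  have hnorm : ‖aeval (z i0 : ℤ_[p]) F‖ < ‖aeval (z i0 : ℤ_[p]) (derivative F)‖ ^ 2 := by
    rw [e1, e2]
    exact h
  obtain ⟨T, hT1, hT2, -, -⟩ := hensels_lemma hnorm
  refine ⟨T, by rw [← e2]; exact hT2, ?_⟩
  rw [← Finset.add_sum_erase univ _ (Finset.mem_univ i0), Function.update_self]
  have h3 : ∑ i ∈ univ.erase i0, (a i : ℚ_[p]) *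
      (Function.update (fun i => (z i : ℚ_[p])) i0 (T : ℚ_[p]) i) ^ d = (N : ℚ_[p]) := by
    rw [hN]
    push_cast
    refine Finset.sum_congr rfl fun i hi => ?_
    rw [Function.update_of_ne (Finset.ne_of_mem_erase hi)]
  rw [h3]
  rw [hF] at hT1
  have h4 := congrArg (fun x : ℤ_[p] => (x : ℚ_[p])) hT1
  simpa using h4

theorem unit_coeffs (d s p : ℕ) [Fact p.Prime] (hpd : ¬ p ∣ d) (a : Fin s → ℤ)
    (h : d + 1 ≤ ((univ : Finset (Fin s)).filter fun i => ¬ (p : ℤ) ∣ a i).card) :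
    HasZero ℚ_[p] d a := by
  classical
  have hp : p.Prime := Fact.out
  have hd : d ≠ 0 := by rintro rfl; exact hpd (dvd_zero _)
  let U : Finset (Fin s) := (univ : Finset (Fin s)).filter fun i => ¬ (p : ℤ) ∣ a i
  let f : MvPolynomial U (ZMod p) :=
    ∑ i : U, MvPolynomial.C ((a i : ℤ) : ZMod p) * MvPolynomial.X i ^ d
  have hdeg : f.totalDegree < Fintype.card U := by
    rw [Fintype.card_coe]
    refine lt_of_le_of_lt (b := d) ?_ h
    refine MvPolynomial.totalDegree_finsetSum_le fun i _ => ?_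
    refine (MvPolynomial.totalDegree_mul _ _).trans ?_
    rw [MvPolynomial.totalDegree_C, zero_add]
    refine (MvPolynomial.totalDegree_pow _ _).trans ?_
    rw [MvPolynomial.totalDegree_X, mul_one]
  have hev : ∀ x : U → ZMod p, MvPolynomial.eval x f = ∑ i : U, ((a i : ℤ) : ZMod p) * x i ^ d := by
    intro x
    simp [f]
  have hcw := char_dvd_card_solutions p hdeg
  have h0 : MvPolynomial.eval (0 : U → ZMod p) f = 0 := by
    rw [hev]
    simp [hd]
  have hcard : 1 < Fintype.card {x : U → ZMod p // MvPolynomial.eval x f = 0} := by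
    have hpos : 0 < Fintype.card {x : U → ZMod p // MvPolynomial.eval x f = 0} :=
      Fintype.card_pos_iff.2 ⟨⟨0, h0⟩⟩
    exact lt_of_lt_of_le hp.one_lt (Nat.le_of_dvd hpos hcw)
  obtain ⟨⟨x, hx⟩, hx0⟩ := Fintype.exists_ne_of_one_lt_card hcard ⟨0, h0⟩
  have hx0' : x ≠ 0 := fun h => hx0 (Subtype.ext h)
  obtain ⟨j, hj⟩ := Function.ne_iff.1 hx0'
  have hj' : x j ≠ 0 := hj
  rw [hev] at hx
  -- the integer vector
  let z : Fin s → ℤ := fun i => if hi : i ∈ U then ((x ⟨i, hi⟩).val : ℤ) else 0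
  have hz : ∀ i (hi : i ∈ U), ((z i : ℤ) : ZMod p) = x ⟨i, hi⟩ := by
    intro i hi
    simp only [z, dif_pos hi]
    simp
  have hz' : ∀ i, i ∉ U → z i = 0 := fun i hi => dif_neg hi
  have hsum : ((∑ i, a i * z i ^ d : ℤ) : ZMod p) = 0 := by
    push_cast
    rw [← hx, ← Finset.sum_subset (Finset.subset_univ U)]
    · rw [← Finset.sum_attach U]
      refine Finset.sum_congr rfl fun i _ => ?_
      rw [hz i.1 i.2]
    · intro i _ hi
      rw [hz' i hi]
      simp [hd]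
  have hsum' : (p : ℤ) ∣ ∑ i, a i * z i ^ d := (ZMod.intCast_zmod_eq_zero_iff_dvd _ _).1 hsum
  have hu : ¬ (p : ℤ) ∣ (d : ℤ) * a j * z j ^ (d - 1) := by
    have hpp : Prime (p : ℤ) := Nat.prime_iff_prime_int.1 hp
    intro hdv
    rcases hpp.dvd_or_dvd hdv with hdv | hdv
    · rcases hpp.dvd_or_dvd hdv with hdv | hdv
      · exact hpd (by exact_mod_cast hdv)
      · exact (Finset.mem_filter.1 j.2).2 hdv
    · have h1 := hpp.dvd_of_dvd_pow hdv
      have h2 := (ZMod.intCast_zmod_eq_zero_iff_dvd _ _).2 h1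
      rw [hz j.1 j.2] at h2
      exact hj' h2
  have hn1 : ‖((∑ i, a i * z i ^ d : ℤ) : ℤ_[p])‖ < 1 :=
    PadicInt.norm_int_lt_one_iff_dvd _ |>.2 hsum'
  have hn2 : ‖(((d : ℤ) * a j * z j ^ (d - 1) : ℤ) : ℤ_[p])‖ = 1 := by
    refine le_antisymm (PadicInt.norm_le_one _) ?_
    by_contra hlt
    rw [not_le] at hlt
    exact hu (PadicInt.norm_int_lt_one_iff_dvd _ |>.1 hlt)
  obtain ⟨T, hT1, hT2⟩ := hensel_diag d s p a z j (by rw [hn2, one_pow]; exact hn1)
  refine ⟨_, ?_, hT2⟩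
  intro hzero
  have h1 := congrFun hzero (j : Fin s)
  rw [Function.update_self] at h1
  have hT0 : T = 0 := by
    apply PadicInt.ext
    simpa using h1
  rw [hT0, hn2, zero_sub, norm_neg] at hT1
  have h2 := PadicInt.norm_int_lt_one_iff_dvd _ |>.1 hT1
  have h3 := (ZMod.intCast_zmod_eq_zero_iff_dvd _ _).2 h2
  rw [hz j.1 j.2] at h3
  exact hj' h3

theorem one_minus_one (d s p : ℕ) [Fact p.Prime] (hd : 1 ≤ d) (a : Fin s → ℤ) (i j : Fin s)
    (hij : i ≠ j) (h1 : (p : ℤ) ^ (2 * d + 1) ∣ a i - 1) (h2 : (p : ℤ) ^ (2 * d + 1) ∣ a j + 1) :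
    HasZero ℚ_[p] d a := by
  classical
  have hp : p.Prime := Fact.out
  have hd0 : d ≠ 0 := by omega
  let z : Fin s → ℤ := fun l => if l = i then 1 else if l = j then 1 else 0
  have hzi : z i = 1 := by simp [z]
  have hzj : z j = 1 := by simp [z]
  have hzo : ∀ l, l ≠ i → l ≠ j → z l = 0 := fun l h h' => by simp [z, h, h']
  have hsum : ∑ l, a l * z l ^ d = a i + a j := by
    rw [← Finset.sum_subset (Finset.subset_univ ({i, j} : Finset (Fin s)))]
    · rw [Finset.sum_pair hij, hzi, hzj]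
      simp
    · intro l _ hl
      simp only [Finset.mem_insert, Finset.mem_singleton, not_or] at hl
      rw [hzo l hl.1 hl.2]
      simp [hd0]
  have hdv : (p : ℤ) ^ (2 * d + 1) ∣ a i + a j := by
    have := dvd_add h1 h2
    have h3 : a i - 1 + (a j + 1) = a i + a j := by ring
    rwa [h3] at this
  have hai : ¬ (p : ℤ) ∣ a i := by
    intro h
    have h3 : (p : ℤ) ∣ a i - 1 := (dvd_pow_self (p : ℤ) (by omega)).trans h1
    have h4 : (p : ℤ) ∣ 1 := by
      have := dvd_sub h h3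
      simpa using this
    exact hp.one_lt.ne' (by exact_mod_cast Int.natAbs_dvd_natAbs.2 h4 |> Nat.dvd_one.1)
  have hnai : ‖((a i : ℤ) : ℤ_[p])‖ = 1 := by
    refine le_antisymm (PadicInt.norm_le_one _) ?_
    by_contra hlt
    rw [not_le] at hlt
    exact hai (PadicInt.norm_int_lt_one_iff_dvd _ |>.1 hlt)
  have hp0 : (0 : ℝ) < p := by exact_mod_cast hp.pos
  have hp1 : (1 : ℝ) < p := by exact_mod_cast hp.one_lt
  have hn1 : ‖((∑ l, a l * z l ^ d : ℤ) : ℤ_[p])‖ ≤ (p : ℝ) ^ (-((2 * d + 1 : ℕ) : ℤ)) := by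
    rw [hsum]
    exact PadicInt.norm_int_le_pow_iff_dvd.2 (by exact_mod_cast hdv)
  have hn2 : (p : ℝ) ^ (-(d : ℤ)) < ‖(((d : ℤ) * a i * z i ^ (d - 1) : ℤ) : ℤ_[p])‖ := by
    rw [hzi, one_pow, mul_one]
    push_cast
    rw [norm_mul, hnai, mul_one]
    by_contra hle
    rw [not_lt] at hle
    have h5 : ((p ^ d : ℕ) : ℤ) ∣ (d : ℤ) := by
      have := (PadicInt.norm_int_le_pow_iff_dvd (p := p) (k := (d : ℤ)) (n := d)).1 (by push_cast; exact hle)
      exact_mod_cast this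
    have h6 : p ^ d ∣ d := by exact_mod_cast h5
    have h7 := Nat.le_of_dvd (by omega) h6
    exact absurd h7 (not_le.2 (Nat.lt_pow_self hp.one_lt))
  obtain ⟨T, hT1, hT2⟩ := hensel_diag d s p a z i (by
    calc ‖((∑ l, a l * z l ^ d : ℤ) : ℤ_[p])‖ ≤ (p : ℝ) ^ (-((2 * d + 1 : ℕ) : ℤ)) := hn1
      _ < ((p : ℝ) ^ (-(d : ℤ))) ^ 2 := by
          rw [← zpow_natCast, ← zpow_mul]
          exact zpow_lt_zpow_right₀ hp1 (by push_cast; omega)
      _ < ‖(((d : ℤ) * a i * z i ^ (d - 1) : ℤ) : ℤ_[p])‖ ^ 2 := by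
          gcongr)
  refine ⟨_, ?_, hT2⟩
  intro hzero
  have h3 := congrFun hzero j
  rw [Function.update_of_ne hij.symm, hzj] at h3
  simp at h3

end Pool.Agent.Lib.MP_e426f4_ag.DG
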