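import Pool.Agent.Lib.MP_e426f4_ag.DG.Defs
import Pool.Agent.Lib.MP_e426f4_ag.DG.UnitCo

/-!
# FinalOne: positive proportion
(`one_minus_one` of UnitCo: Hensel for `F(X) = a_i X^d + a_j` at 1: `F(1) = a_i + a_j` is divisible by `p^(2d+1)`, `|F'(1)| = |d a_i| > p^-d`.) Let `p0 >= d` and `W0 = prod_{p<=p0} p^(2d+1)`. Consider the a in the box with `a_0 = 1 mod W0`, `a_1 = -1 mod W0`,
`a_0 > 0`, `a_1 < 0`, all a_i != 0: at least `c' H^s` of them (`>= (H/W0 - 1)^2 (2H)^(s-2)`), c' = c'(p0) — precisely `c' >= (1/(2W0))^2`. They have zeros over ℝ (`a_0 x^d = -a_1 y^d`) and over Q_p, p <= p0. For p > p0 (so p ∤ d): unless `p` divides at least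
`s - d >= d+1 >= 5` of the a_i, `unit_coeffs` applies. To have a clean union bound only look at i >= 2: if `p` divides at least `s-d` of the a_i then it divides at least `s - d - 2 >= 3`.. of the a_i with i >= 2 (s-2 of them), so three
fixed indices `i1<i2<i3` in `{2,..}`. For those with residue conditions on a_0,a_1: number of a with `a_0 = 1, a_1 = -1 mod W0` and `p | a_i1,a_i2,a_i3` (non-zero, so p <= H): `<= (2H/W0+1)^2 (2H/p+1).. ^3 (2H+1)^(s-5) <= (3H/W0)^2 (3H/p)^3.. (3H)^(s-5)`.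
Sum over triples and p > p0: `<= s^3 3^s (H/W0)^2 H^(s-2) /p0^2`, which is less than half of the main count `(H/(2W0))^2 H^(s-2)` if p0 is large in terms of s. (The order: choose p0 first, W0 = W0(p0) cancels.)
-/

set_option autoImplicit false

namespace Pool.Agent.Lib.MP_e426f4_ag.DG

open Finset

/-- the range of the `k`-th coordinate -/
private def f1U (H W : ℕ) (P : Prop) [Decidable P] : Finset ℕ :=
  if P then (Icc 1 H).filter (fun x => x ≡ 1 [MOD W]) else Icc 1 H

/-- the vector with negative coordinate at `i1` -/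
private def f1vec {s : ℕ} (i1 : Fin s) (f : Fin s → ℕ) : Fin s → ℤ :=
  fun k => if k = i1 then -(f k : ℤ) else (f k : ℤ)

private theorem f1_card_class (H W : ℕ) (hW : 1 ≤ W) :
    H ≤ ((Icc 1 H).filter (fun x => x ≡ 1 [MOD W])).card * W := by
  rcases Nat.eq_zero_or_pos H with rfl | hH
  · exact Nat.zero_le _
  have h1 : (H - 1) / W + 1 ≤ ((Icc 1 H).filter (fun x => x ≡ 1 [MOD W])).card := by
    have h2 : (range ((H - 1) / W + 1)).card ≤
        ((Icc 1 H).filter (fun x => x ≡ 1 [MOD W])).card := by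
      refine card_le_card_of_injOn (fun t => 1 + t * W) ?_ ?_
      · intro t ht
        rw [mem_coe, mem_range] at ht
        have h3 : t * W ≤ H - 1 := by
          have h4 : t ≤ (H - 1) / W := by omega
          exact (Nat.le_div_iff_mul_le (by omega)).1 h4
        rw [mem_coe, mem_filter, mem_Icc]
        dsimp only
        refine ⟨⟨by omega, by omega⟩, ?_⟩
        change (1 + t * W) % W = 1 % W
        rw [Nat.add_mul_mod_self_right]
      · intro t _ t' _ h
        have h5 : t * W = t' * W := Nat.add_left_cancel h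
        exact Nat.eq_of_mul_eq_mul_right (by omega) h5
    rwa [card_range] at h2
  have h3 : H - 1 < ((H - 1) / W + 1) * W := by
    have := Nat.lt_div_mul_add (a := H - 1) (b := W) (by omega)
    rw [add_mul, one_mul]
    exact this
  have h4 : ((H - 1) / W + 1) * W ≤ ((Icc 1 H).filter (fun x => x ≡ 1 [MOD W])).card * W :=
    Nat.mul_le_mul_right W h1
  omega

private theorem f1_card_dvd (H p : ℕ) : p * ((Icc 1 H).filter (fun x => p ∣ x)).card ≤ H := by
  have h : (Icc 1 H) = Ioc 0 H := by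
    ext x
    rw [mem_Icc, mem_Ioc]
    omega
  rw [h, Nat.Ioc_filter_dvd_card_eq_div]
  exact Nat.mul_div_le H p

private theorem f1_two {s : ℕ} (i j : Fin s) (hij : i ≠ j) (w : ℕ) :
    ∏ k : Fin s, (if k ∈ ({i, j} : Finset (Fin s)) then w else 1) = w ^ 2 := by
  rw [prod_ite_mem, univ_inter, prod_const, card_pair hij]

/-- a vector of the family has real and `p`-adic zeros -/
private theorem f1_els {d s p0 W : ℕ} (hd : 4 ≤ d) (hs : 2 * d + 1 ≤ s) (i0 i1 : Fin s)
    (h01 : i0 ≠ i1) (hp0 : d ≤ p0)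
    (hW : ∀ p : ℕ, p.Prime → p ≤ p0 → p ^ (2 * d + 1) ∣ W) (f : Fin s → ℕ)
    (hf : ∀ k, 1 ≤ f k) (hf0 : f i0 ≡ 1 [MOD W]) (hf1 : f i1 ≡ 1 [MOD W])
    (hgood : ∀ i j : Fin s, i ≠ i0 → i ≠ i1 → j ≠ i0 → j ≠ i1 → i ≠ j → ∀ p : ℕ, p.Prime →
      p0 < p → p ∣ f i → ¬ p ∣ f j) : ELS d (f1vec i1 f) := by
  have ha0 : f1vec i1 f i0 = (f i0 : ℤ) := by
    unfold f1vec
    rw [if_neg h01]
  have ha1 : f1vec i1 f i1 = -(f i1 : ℤ) := by
    unfold f1vec
    rw [if_pos rfl]
  refine ⟨?_, ?_, ?_⟩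
  · intro k
    have h1 := hf k
    unfold f1vec
    split_ifs <;> omega
  · have hd0 : d ≠ 0 := by omega
    have hr : ∀ y : ℝ, 0 ≤ y → ∃ x : ℝ, x ^ d = y := fun y hy =>
      ⟨y ^ ((d : ℝ)⁻¹), Real.rpow_inv_natCast_pow hy hd0⟩
    obtain ⟨x, hx⟩ := hr (f i1 : ℝ) (Nat.cast_nonneg _)
    obtain ⟨y, hy⟩ := hr (f i0 : ℝ) (Nat.cast_nonneg _)
    refine ⟨fun k => if k = i0 then x else if k = i1 then y else 0, ?_, ?_⟩
    · intro h
      have h1 := congrFun h i0
      simp only [if_pos, Pi.zero_apply] at h1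
      rw [h1, zero_pow hd0] at hx
      have h2 := hf i1
      have h3 : (f i1 : ℝ) = 0 := hx.symm
      have h4 : f i1 = 0 := by exact_mod_cast h3
      omega
    · have hsub : ∑ k : Fin s, ((f1vec i1 f k : ℤ) : ℝ) *
          (if k = i0 then x else if k = i1 then y else 0) ^ d =
          ∑ k ∈ ({i0, i1} : Finset (Fin s)), ((f1vec i1 f k : ℤ) : ℝ) *
          (if k = i0 then x else if k = i1 then y else 0) ^ d := by
        symm
        refine sum_subset (subset_univ _) fun k _ hk => ?_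
        rw [mem_insert, mem_singleton, not_or] at hk
        rw [if_neg hk.1, if_neg hk.2, zero_pow hd0, mul_zero]
      rw [hsub, sum_pair h01, if_pos rfl, if_neg (Ne.symm h01), if_pos rfl, hx, hy, ha0, ha1]
      push_cast
      ring
  · intro p hp
    haveI := hp
    rcases Nat.lt_or_ge p0 p with hpp | hpp
    · have hpd : ¬ p ∣ d := by
        intro h
        have := Nat.le_of_dvd (by omega) h
        omega
      refine unit_coeffs d s p hpd _ ?_
      have hcount : ((univ : Finset (Fin s)).filter fun k => (p : ℤ) ∣ f1vec i1 f k).card ≤ 3 := by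
        have hsub : ((univ : Finset (Fin s)).filter fun k => (p : ℤ) ∣ f1vec i1 f k) ⊆
            ({i0, i1} : Finset (Fin s)) ∪
            (univ.filter fun k => k ≠ i0 ∧ k ≠ i1 ∧ p ∣ f k) := by
          intro k hk
          rw [mem_filter] at hk
          rw [mem_union, mem_insert, mem_singleton, mem_filter]
          by_cases hk0 : k = i0
          · exact Or.inl (Or.inl hk0)
          · by_cases hk1 : k = i1
            · exact Or.inl (Or.inr hk1)
            · refine Or.inr ⟨mem_univ k, hk0, hk1, ?_⟩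
              have h1 := hk.2
              unfold f1vec at h1
              rw [if_neg hk1] at h1
              exact_mod_cast h1
        have h1 : (univ.filter fun k : Fin s => k ≠ i0 ∧ k ≠ i1 ∧ p ∣ f k).card ≤ 1 := by
          rw [card_le_one]
          intro i hi j hj
          rw [mem_filter] at hi hj
          by_contra hne
          exact hgood i j hi.2.1 hi.2.2.1 hj.2.1 hj.2.2.1 hne p hp.out hpp hi.2.2.2 hj.2.2.2
        have h2 : ({i0, i1} : Finset (Fin s)).card ≤ 2 := card_le_two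
        exact (card_le_card hsub).trans ((card_union_le _ _).trans (by omega))
      have htot := card_filter_add_card_filter_not (s := (univ : Finset (Fin s)))
        (fun k => (p : ℤ) ∣ f1vec i1 f k)
      rw [card_univ, Fintype.card_fin] at htot
      omega
    · have h1 := hW p hp.out hpp
      refine one_minus_one d s p (by omega) _ i0 i1 h01 ?_ ?_
      · rw [ha0]
        have h2 : f i0 ≡ 1 [MOD p ^ (2 * d + 1)] := hf0.of_dvd h1
        have h3 := (Nat.modEq_iff_dvd.1 h2.symm)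
        push_cast at h3
        exact h3
      · rw [ha1]
        have h2 : f i1 ≡ 1 [MOD p ^ (2 * d + 1)] := hf1.of_dvd h1
        have h3 := (Nat.modEq_iff_dvd.1 h2)
        push_cast at h3
        have h4 : -(f i1 : ℤ) + 1 = 1 - (f i1 : ℤ) := by ring
        rw [h4]
        exact h3

open Classical in
theorem final_one (d s : ℕ) (hd : 4 ≤ d) (hs : 2 * d + 1 ≤ s) :
    ∃ c : ℝ, 0 < c ∧ ∃ H0 : ℕ, ∀ H : ℕ, H0 ≤ H →
    c * (H : ℝ) ^ s ≤ (((box s H).filter fun a : Fin s → ℤ => ELS d a).card : ℝ) := by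
  obtain ⟨p0, hp0⟩ : ∃ p0 : ℕ, p0 = 2 * s ^ 2 := ⟨_, rfl⟩
  obtain ⟨W, hWdef⟩ : ∃ W : ℕ, W = p0.factorial ^ (2 * d + 1) := ⟨_, rfl⟩
  have hW1 : 1 ≤ W := by
    rw [hWdef]
    exact Nat.one_le_pow _ _ (Nat.factorial_pos _)
  have hWdvd : ∀ p : ℕ, p.Prime → p ≤ p0 → p ^ (2 * d + 1) ∣ W := by
    intro p hp hpp
    rw [hWdef]
    exact pow_dvd_pow_of_dvd (Nat.dvd_factorial hp.pos hpp) _
  have hdp0 : d ≤ p0 := by
    rw [hp0]
    have h1 : d ≤ s := by omega
    nlinarith
  obtain ⟨i0, hi0⟩ : ∃ i0 : Fin s, i0 = ⟨0, by omega⟩ := ⟨_, rfl⟩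
  obtain ⟨i1, hi1⟩ : ∃ i1 : Fin s, i1 = ⟨1, by omega⟩ := ⟨_, rfl⟩
  have h01 : i0 ≠ i1 := by
    rw [hi0, hi1]
    intro h
    have := congrArg Fin.val h
    simp at this
  refine ⟨1 / (2 * (W : ℝ) ^ 2), by positivity, 0, fun H _ => ?_⟩
  -- the family
  let U : Fin s → Finset ℕ := fun k => f1U H W (k ∈ ({i0, i1} : Finset (Fin s)))
  let F : Finset (Fin s → ℕ) := Fintype.piFinset U
  have hUsub : ∀ k, U k ⊆ Icc 1 H := by
    intro k
    change f1U H W _ ⊆ _
    unfold f1U
    split_ifs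
    · exact filter_subset _ _
    · exact Subset.refl _
  have hUcard : ∀ k, H ≤ (U k).card * (if k ∈ ({i0, i1} : Finset (Fin s)) then W else 1) := by
    intro k
    change H ≤ (f1U H W _).card * _
    unfold f1U
    split_ifs
    · exact f1_card_class H W hW1
    · rw [Nat.card_Icc]
      omega
  have hFcard : H ^ s ≤ F.card * W ^ 2 := by
    have h1 : ∏ _k : Fin s, H ≤ ∏ k : Fin s,
        ((U k).card * (if k ∈ ({i0, i1} : Finset (Fin s)) then W else 1)) :=
      prod_le_prod' fun k _ => hUcard k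
    rw [prod_const, card_univ, Fintype.card_fin, prod_mul_distrib, f1_two i0 i1 h01 W] at h1
    have h2 : F.card = ∏ k : Fin s, (U k).card := Fintype.card_piFinset _
    rw [h2]
    exact h1
  -- good vectors
  let good : (Fin s → ℕ) → Prop := fun f => ∀ i j : Fin s, i ≠ i0 → i ≠ i1 → j ≠ i0 → j ≠ i1 →
    i ≠ j → ∀ p : ℕ, p.Prime → p0 < p → p ∣ f i → ¬ p ∣ f j
  have hgoodcard : (F.filter good).card ≤ ((box s H).filter fun a : Fin s → ℤ => ELS d a).card := by
    refine card_le_card_of_injOn (f1vec i1) ?_ ?_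
    · intro f hf
      rw [mem_coe, mem_filter] at hf
      have hfU : ∀ k, f k ∈ U k := fun k => Fintype.mem_piFinset.1 hf.1 k
      have hf1 : ∀ k, 1 ≤ f k ∧ f k ≤ H := fun k => mem_Icc.1 (hUsub k (hfU k))
      have hcl : ∀ k, k ∈ ({i0, i1} : Finset (Fin s)) → f k ≡ 1 [MOD W] := by
        intro k hk
        have h1 := hfU k
        change f k ∈ f1U H W _ at h1
        unfold f1U at h1
        rw [if_pos hk, mem_filter] at h1
        exact h1.2
      rw [mem_coe, mem_filter]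
      refine ⟨?_, f1_els hd hs i0 i1 h01 hdp0 hWdvd f (fun k => (hf1 k).1)
        (hcl i0 (by simp)) (hcl i1 (by simp)) hf.2⟩
      unfold box
      rw [Fintype.mem_piFinset]
      intro k
      have h1 := hf1 k
      rw [mem_Icc]
      unfold f1vec
      split_ifs <;> omega
    · intro f _ g _ hfg
      funext k
      have h1 := congrFun hfg k
      unfold f1vec at h1
      split_ifs at h1 <;> omega
  -- bad vectors
  have hbadp : ∀ i j : Fin s, i ≠ i0 → i ≠ i1 → j ≠ i0 → j ≠ i1 → i ≠ j → ∀ p : ℕ,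
      p ^ 2 * (F.filter fun f => p ∣ f i ∧ p ∣ f j).card ≤ F.card := by
    intro i j hi0' hi1' hj0' hj1' hij p
    have hsub : (F.filter fun f => p ∣ f i ∧ p ∣ f j) ⊆ Fintype.piFinset fun k =>
        if k ∈ ({i, j} : Finset (Fin s)) then (U k).filter (fun x => p ∣ x) else U k := by
      intro f hf
      rw [mem_filter] at hf
      have hfU : ∀ k, f k ∈ U k := fun k => Fintype.mem_piFinset.1 hf.1 k
      rw [Fintype.mem_piFinset]
      intro k
      split_ifs with hk
      · rw [mem_filter]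
        refine ⟨hfU k, ?_⟩
        rw [mem_insert, mem_singleton] at hk
        rcases hk with rfl | rfl
        · exact hf.2.1
        · exact hf.2.2
      · exact hfU k
    have h1 := card_le_card hsub
    rw [Fintype.card_piFinset] at h1
    have h2 : F.card = ∏ k : Fin s, (U k).card := Fintype.card_piFinset _
    rw [← f1_two i j hij p, h2]
    refine (Nat.mul_le_mul_left _ h1).trans ?_
    rw [← prod_mul_distrib]
    refine prod_le_prod' fun k _ => ?_
    split_ifs with hk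
    · have hk' : k ∉ ({i0, i1} : Finset (Fin s)) := by
        rw [mem_insert, mem_singleton] at hk ⊢
        rintro (h | h) <;> rcases hk with h' | h'
        · exact hi0' (h'.symm.trans h)
        · exact hj0' (h'.symm.trans h)
        · exact hi1' (h'.symm.trans h)
        · exact hj1' (h'.symm.trans h)
      have hUk : U k = Icc 1 H := by
        change f1U H W _ = _
        unfold f1U
        rw [if_neg hk']
      rw [hUk]
      refine (f1_card_dvd H p).trans ?_
      rw [Nat.card_Icc]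
      omega
    · rw [one_mul]
  have hbadcover : (F.filter fun f => ¬ good f) ⊆
      ((univ : Finset (Fin s × Fin s)).filter fun z => z.1 ≠ i0 ∧ z.1 ≠ i1 ∧ z.2 ≠ i0 ∧
        z.2 ≠ i1 ∧ z.1 ≠ z.2).biUnion fun z =>
        (Ioc p0 H).biUnion fun p => F.filter fun f => p ∣ f z.1 ∧ p ∣ f z.2 := by
    intro f hf
    rw [mem_filter] at hf
    have h1 := hf.2
    simp only [good] at h1
    push Not at h1
    obtain ⟨i, j, hi0', hi1', hj0', hj1', hij, p, hp, hpp, hdi, hdj⟩ := h1
    have hfi : 1 ≤ f i ∧ f i ≤ H := mem_Icc.1 (hUsub i (Fintype.mem_piFinset.1 hf.1 i))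
    rw [mem_biUnion]
    refine ⟨(i, j), ?_, ?_⟩
    · rw [mem_filter]
      exact ⟨mem_univ _, hi0', hi1', hj0', hj1', hij⟩
    · rw [mem_biUnion]
      refine ⟨p, ?_, ?_⟩
      · rw [mem_Ioc]
        exact ⟨hpp, (Nat.le_of_dvd (by omega) hdi).trans hfi.2⟩
      · rw [mem_filter]
        exact ⟨hf.1, hdi, hdj⟩
  have hs9 : 9 ≤ s := by omega
  have hsr : (0 : ℝ) < s := by exact_mod_cast (by omega : 0 < s)
  have hp0pos : p0 ≠ 0 := by
    rw [hp0]
    positivity
  have hsumsq : ∑ p ∈ Ioc p0 H, ((p : ℝ) ^ 2)⁻¹ ≤ ((p0 : ℝ))⁻¹ := by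
    rcases Nat.lt_or_ge H p0 with h | h
    · rw [Ioc_eq_empty (by omega), sum_empty]
      positivity
    · have h1 := sum_Ioc_inv_sq_le_sub (α := ℝ) hp0pos h
      have h2 : (0 : ℝ) ≤ ((H : ℝ))⁻¹ := by positivity
      linarith
  have hbadcard : ((F.filter fun f => ¬ good f).card : ℝ) ≤ (F.card : ℝ) / 2 := by
    have h1 : ((F.filter fun f => ¬ good f).card : ℝ) ≤
        ∑ z ∈ ((univ : Finset (Fin s × Fin s)).filter fun z => z.1 ≠ i0 ∧ z.1 ≠ i1 ∧ z.2 ≠ i0 ∧
        z.2 ≠ i1 ∧ z.1 ≠ z.2), ∑ p ∈ Ioc p0 H,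
          ((F.filter fun f => p ∣ f z.1 ∧ p ∣ f z.2).card : ℝ) := by
      have h2 := (card_le_card hbadcover).trans (card_biUnion_le.trans
        (sum_le_sum fun z _ => card_biUnion_le))
      exact_mod_cast h2
    refine h1.trans ?_
    have h3 : ∀ z ∈ ((univ : Finset (Fin s × Fin s)).filter fun z => z.1 ≠ i0 ∧ z.1 ≠ i1 ∧
        z.2 ≠ i0 ∧ z.2 ≠ i1 ∧ z.1 ≠ z.2), ∑ p ∈ Ioc p0 H,
          ((F.filter fun f => p ∣ f z.1 ∧ p ∣ f z.2).card : ℝ) ≤ (F.card : ℝ) * ((p0 : ℝ))⁻¹ := by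
      intro z hz
      rw [mem_filter] at hz
      have h4 : ∀ p ∈ Ioc p0 H, ((F.filter fun f => p ∣ f z.1 ∧ p ∣ f z.2).card : ℝ) ≤
          (F.card : ℝ) * ((p : ℝ) ^ 2)⁻¹ := by
        intro p hp
        rw [mem_Ioc] at hp
        have hpr : (0 : ℝ) < (p : ℝ) ^ 2 := by
          have : (0 : ℝ) < p := by exact_mod_cast (by omega : 0 < p)
          positivity
        have h5 := hbadp z.1 z.2 hz.2.1 hz.2.2.1 hz.2.2.2.1 hz.2.2.2.2.1 hz.2.2.2.2.2 p
        have h6 : (p : ℝ) ^ 2 * ((F.filter fun f => p ∣ f z.1 ∧ p ∣ f z.2).card : ℝ) ≤ F.card := by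
          exact_mod_cast h5
        rw [← div_eq_mul_inv, le_div_iff₀ hpr]
        linarith
      refine (sum_le_sum h4).trans ?_
      rw [← mul_sum]
      exact mul_le_mul_of_nonneg_left hsumsq (Nat.cast_nonneg _)
    refine (sum_le_sum h3).trans ?_
    rw [sum_const, nsmul_eq_mul]
    have h7 : ((((univ : Finset (Fin s × Fin s)).filter fun z => z.1 ≠ i0 ∧ z.1 ≠ i1 ∧
        z.2 ≠ i0 ∧ z.2 ≠ i1 ∧ z.1 ≠ z.2).card : ℕ) : ℝ) ≤ (s : ℝ) ^ 2 := by
      have h8 := card_filter_le (univ : Finset (Fin s × Fin s))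
        (fun z => z.1 ≠ i0 ∧ z.1 ≠ i1 ∧ z.2 ≠ i0 ∧ z.2 ≠ i1 ∧ z.1 ≠ z.2)
      rw [card_univ, Fintype.card_prod, Fintype.card_fin, ← sq] at h8
      exact_mod_cast h8
    have h9 : (0 : ℝ) ≤ (F.card : ℝ) * ((p0 : ℝ))⁻¹ := by positivity
    calc _ ≤ (s : ℝ) ^ 2 * ((F.card : ℝ) * ((p0 : ℝ))⁻¹) := mul_le_mul_of_nonneg_right h7 h9
      _ = (F.card : ℝ) / 2 := by
        rw [hp0]
        push_cast
        field_simp
  have htot : ((F.filter good).card : ℝ) + ((F.filter fun f => ¬ good f).card : ℝ) = F.card := by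
    exact_mod_cast card_filter_add_card_filter_not (s := F) good
  have hF2 : (H : ℝ) ^ s ≤ (F.card : ℝ) * (W : ℝ) ^ 2 := by exact_mod_cast hFcard
  have hgood2 : ((F.filter good).card : ℝ) ≤
      (((box s H).filter fun a : Fin s → ℤ => ELS d a).card : ℝ) := by exact_mod_cast hgoodcard
  have hWr : (0 : ℝ) < (W : ℝ) ^ 2 := by positivity
  have h10 : 1 / (2 * (W : ℝ) ^ 2) * (H : ℝ) ^ s ≤ (F.card : ℝ) / 2 := by
    rw [one_div_mul_eq_div, div_le_div_iff₀ (by positivity) (by norm_num)]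
    linarith
  linarith

end Pool.Agent.Lib.MP_e426f4_ag.DG
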